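import Pool.Agent.Lib.MP_f11a48_ag.CMM.Spec

/-!
# FLA: functions with values `0, 1, -1` in translation stable spaces
-/

set_option autoImplicit false

namespace Pool.Agent.Lib.MPf11a48.CMM.FlaM

open Polynomial Finset

/-- Subsets of the primes dividing `m` are determined by `∑ m / p` modulo `m`. -/
lemma subset_of_modEq {m : ℕ} (hm : 0 < m) {S S' : Finset ℕ} (hS : S ⊆ m.primeFactors)
    (hS' : S' ⊆ m.primeFactors) (h : ∑ p ∈ S, m / p ≡ ∑ p ∈ S', m / p [MOD m]) : S ⊆ S' := by
  intro p hp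
  by_contra hp'
  have hpp : p.Prime := Nat.prime_of_mem_primeFactors (hS hp)
  have hpm : p ∣ m := Nat.dvd_of_mem_primeFactors (hS hp)
  set q := p ^ m.factorization p with hq
  have hqm : q ∣ m := Nat.ordProj_dvd m p
  have key : ∀ r, r ∈ m.primeFactors → r ≠ p → q ∣ m / r := by
    intro r hr hrp
    have hrr : r.Prime := Nat.prime_of_mem_primeFactors hr
    have hrm : r ∣ m := Nat.dvd_of_mem_primeFactors hr
    have hc : Nat.Coprime q r := Nat.Coprime.pow_left _ ((Nat.coprime_primes hpp hrr).2 hrp.symm)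
    have h1 : q ∣ r * (m / r) := by rw [Nat.mul_div_cancel' hrm]; exact hqm
    exact hc.dvd_of_dvd_mul_left h1
  have h1 : ∑ p ∈ S, m / p ≡ ∑ p ∈ S', m / p [MOD q] := h.of_dvd hqm
  have h2 : q ∣ ∑ p ∈ S', m / p := by
    refine Finset.dvd_sum fun r hr => key r (hS' hr) ?_
    rintro rfl
    exact hp' hr
  have h3 : q ∣ ∑ p ∈ S, m / p := (h1.dvd_iff dvd_rfl).2 h2
  rw [← Finset.add_sum_erase S _ hp] at h3
  have h4 : q ∣ ∑ r ∈ S.erase p, m / r := by
    refine Finset.dvd_sum fun r hr => key r (hS (Finset.mem_of_mem_erase hr)) ?_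
    exact Finset.ne_of_mem_erase hr
  have h5 : q ∣ m / p := (Nat.dvd_add_left h4).1 h3
  have h6 : p ^ (m.factorization p + 1) ∣ m := by
    rw [pow_succ]
    calc q * p ∣ (m / p) * p := Nat.mul_dvd_mul_right h5 p
      _ = m := Nat.div_mul_cancel hpm
  exact Nat.pow_succ_factorization_not_dvd hm.ne' hpp h6

lemma eq_of_modEq {m : ℕ} (hm : 0 < m) {S S' : Finset ℕ} (hS : S ⊆ m.primeFactors)
    (hS' : S' ⊆ m.primeFactors) (h : ∑ p ∈ S, m / p ≡ ∑ p ∈ S', m / p [MOD m]) : S = S' :=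
  (subset_of_modEq hm hS hS' h).antisymm (subset_of_modEq hm hS' hS h.symm)

/-- `∏ (1 - X^(m/p))`. -/
noncomputable def FF (m : ℕ) : ℚ[X] := ∏ p ∈ m.primeFactors, (1 - X ^ (m / p))

lemma FF_eq (m : ℕ) : FF m = ∑ S ∈ m.primeFactors.powerset,
    C ((-1 : ℚ) ^ S.card) * X ^ (∑ p ∈ S, m / p) := by
  have h : FF m = ∏ p ∈ m.primeFactors, (-(X ^ (m / p)) + 1 : ℚ[X]) := by
    unfold FF
    refine Finset.prod_congr rfl fun p _ => ?_
    ring
  rw [h, Finset.prod_add]
  refine Finset.sum_congr rfl fun S _ => ?_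
  rw [Finset.prod_const_one, mul_one, Finset.prod_neg, Finset.prod_pow_eq_pow_sum]
  simp

lemma X_pow_sub_one_dvd {m : ℕ} (hm : 0 < m) : (X ^ m - 1 : ℚ[X]) ∣ cyclotomic m ℚ * FF m := by
  rw [← prod_cyclotomic_eq_X_pow_sub_one hm ℚ, ← Nat.insert_self_properDivisors hm.ne',
    Finset.prod_insert Nat.self_notMem_properDivisors]
  refine mul_dvd_mul_left _ ?_
  refine Finset.prod_dvd_of_coprime ?_ ?_
  · intro a _ b _ hab
    exact cyclotomic.isCoprime_rat hab
  · intro d hd
    obtain ⟨hdm, hlt⟩ := Nat.mem_properDivisors.1 hd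
    have hd0 : 0 < d := Nat.pos_of_dvd_of_pos hdm hm
    have hq : m / d ≠ 1 := by
      intro h
      have := Nat.div_mul_cancel hdm
      rw [h, one_mul] at this
      omega
    obtain ⟨p, hp, hpd⟩ := Nat.exists_prime_and_dvd hq
    have h1 : d * p ∣ m := by
      obtain ⟨k, hk⟩ := hpd
      have := Nat.div_mul_cancel hdm
      rw [hk] at this
      exact ⟨k, by rw [← this]; ring⟩
    have hpm : p ∣ m := (Dvd.intro_left d rfl).trans h1
    have h2 : d ∣ m / p := by
      rw [Nat.dvd_div_iff_mul_dvd hpm, mul_comm]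
      exact h1
    have hmem : p ∈ m.primeFactors := Nat.mem_primeFactors.2 ⟨hp, hpm, hm.ne'⟩
    refine dvd_trans ?_ (Finset.dvd_prod_of_mem _ hmem)
    refine (cyclotomic.dvd_X_pow_sub_one d ℚ).trans ?_
    obtain ⟨k, hk⟩ := h2
    have h3 : (X ^ d - 1 : ℚ[X]) ∣ (X ^ d) ^ k - 1 ^ k := sub_dvd_pow_sub_pow _ _ k
    rw [one_pow, ← pow_mul, ← hk] at h3
    rw [← neg_sub (X ^ (m / p) : ℚ[X]) 1]
    exact (dvd_neg).2 h3

section

variable {Γ : Type} [CommGroup Γ]

/-- Translation. -/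
def T (t : Γ) : Module.End ℚ (Γ → ℚ) where
  toFun w := fun x => w (t * x)
  map_add' _ _ := rfl
  map_smul' _ _ := rfl

lemma T_apply (t : Γ) (w : Γ → ℚ) (x : Γ) : T t w x = w (t * x) := rfl

lemma T_pow (t : Γ) (j : ℕ) (w : Γ → ℚ) (x : Γ) : ((T t) ^ j) w x = w (t ^ j * x) := by
  induction j generalizing x with
  | zero => simp
  | succ j ih =>
    rw [pow_succ', Module.End.mul_apply, T_apply, ih, pow_succ, mul_assoc]

lemma aeval_monomial' (t : Γ) (n : ℕ) (a : ℚ) (w : Γ → ℚ) :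
    aeval (T t) (C a * X ^ n) w = a • ((T t) ^ n) w := by
  rw [map_mul, aeval_C, map_pow, aeval_X, Module.End.mul_apply]
  rfl

lemma aeval_mem {V : Submodule ℚ (Γ → ℚ)} (hV : ∀ g : Γ, ∀ f ∈ V, (fun x => f (g * x)) ∈ V)
    (t : Γ) (P : ℚ[X]) {w : Γ → ℚ} (hw : w ∈ V) : aeval (T t) P w ∈ V := by
  have hp : ∀ n : ℕ, ((T t) ^ n) w ∈ V := by
    intro n
    induction n with
    | zero => simpa using hw
    | succ n ih =>
      rw [pow_succ', Module.End.mul_apply]
      exact hV t _ ih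
  induction P using Polynomial.induction_on' with
  | add p q hp hq =>
    rw [map_add, LinearMap.add_apply]
    exact V.add_mem hp hq
  | monomial n a =>
    rw [← C_mul_X_pow_eq_monomial, aeval_monomial']
    exact V.smul_mem _ (hp n)

end

section

variable {Γ : Type} [CommGroup Γ] [Fintype Γ]

/-- A Fourier coefficient. -/
noncomputable def Lam (χ : Γ →* ℂ) (w : Γ → ℚ) : ℂ := ∑ x, (w x : ℂ) * χ x

lemma Lam_T (χ : Γ →* ℂ) (t : Γ) (w : Γ → ℚ) : Lam χ (T t w) = (χ t)⁻¹ * Lam χ w := by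
  unfold Lam
  rw [Finset.mul_sum]
  refine Fintype.sum_equiv (Equiv.mulLeft t) _ _ fun x => ?_
  rw [Equiv.coe_mulLeft, T_apply, map_mul]
  have h : χ t ≠ 0 := by
    have := (Group.isUnit t).map χ
    exact this.ne_zero
  field_simp

lemma Lam_pow (χ : Γ →* ℂ) (t : Γ) (j : ℕ) (w : Γ → ℚ) :
    Lam χ (((T t) ^ j) w) = (χ t)⁻¹ ^ j * Lam χ w := by
  induction j with
  | zero => simp
  | succ j ih => rw [pow_succ', Module.End.mul_apply, Lam_T, ih, pow_succ', mul_assoc]

lemma Lam_aeval (χ : Γ →* ℂ) (t : Γ) (P : ℚ[X]) (w : Γ → ℚ) :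
    Lam χ (aeval (T t) P w) = aeval ((χ t)⁻¹) P * Lam χ w := by
  induction P using Polynomial.induction_on' with
  | add p q hp hq =>
    rw [map_add, LinearMap.add_apply, map_add, add_mul, ← hp, ← hq]
    unfold Lam
    rw [← Finset.sum_add_distrib]
    refine Finset.sum_congr rfl fun x _ => ?_
    rw [Pi.add_apply]
    push_cast
    ring
  | monomial n a =>
    rw [← C_mul_X_pow_eq_monomial, aeval_monomial', map_mul, aeval_C, map_pow, aeval_X, mul_assoc,
      ← Lam_pow]
    unfold Lam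
    rw [Finset.mul_sum]
    refine Finset.sum_congr rfl fun x _ => ?_
    rw [Pi.smul_apply, smul_eq_mul]
    push_cast
    rw [mul_assoc]
    rfl

lemma exists_char {f : Γ → ℚ} (hf : f ≠ 0) : ∃ χ : Γ →* ℂ, Lam χ f ≠ 0 := by
  classical
  by_contra hcon
  push Not at hcon
  apply hf
  let φ : (Additive Γ → ℂ) →ₗ[ℂ] ℂ :=
    { toFun := fun w => ∑ x : Additive Γ, (f x.toMul : ℂ) * w x
      map_add' := fun u v => by
        rw [← Finset.sum_add_distrib]
        exact Finset.sum_congr rfl fun x _ => by rw [Pi.add_apply, mul_add]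
      map_smul' := fun a u => by
        rw [RingHom.id_apply, smul_eq_mul, Finset.mul_sum]
        exact Finset.sum_congr rfl fun x _ => by
          rw [Pi.smul_apply, smul_eq_mul]; ring }
  have h0 : φ = 0 := by
    refine (AddChar.complexBasis (Additive Γ)).ext fun ψ => ?_
    rw [AddChar.complexBasis_apply, LinearMap.zero_apply]
    have h := hcon { toFun := fun x => ψ (Additive.ofMul x)
                     map_one' := by simp
                     map_mul' := fun x y => by rw [ofMul_mul, AddChar.map_add_eq_mul] }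
    rw [← h]
    exact (Fintype.sum_equiv (Additive.ofMul (α := Γ)) _ _ fun x => rfl).symm
  funext x
  have h1 := LinearMap.congr_fun h0 (Pi.single (Additive.ofMul x) 1)
  have h2 : φ (Pi.single (Additive.ofMul x) 1) = (f x : ℂ) := by
    change ∑ y : Additive Γ, (f y.toMul : ℂ) * (Pi.single (Additive.ofMul x) (1 : ℂ) : Additive Γ → ℂ) y
      = _
    rw [Finset.sum_eq_single (Additive.ofMul x)]
    · simp
    · intro y _ hy
      rw [Pi.single_eq_of_ne hy, mul_zero]
    · intro h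
      exact absurd (Finset.mem_univ _) h
  rw [h2, LinearMap.zero_apply] at h1
  exact_mod_cast h1

end

open scoped Classical in
/-- The indicator function of the kernel. -/
noncomputable def dl {Γ : Type} [CommGroup Γ] (χ : Γ →* ℂ) : Γ → ℚ := fun x => if χ x = 1 then 1 else 0

lemma dl_mul {Γ : Type} [CommGroup Γ] {χ : Γ →* ℂ} {n : Γ} (hn : χ n = 1) (x : Γ) :
    dl χ (n * x) = dl χ x := by
  unfold dl
  rw [map_mul, hn, one_mul]

end Pool.Agent.Lib.MPf11a48.CMM.FlaM

namespace Pool.Agent.Lib.MPf11a48.CMM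

open Polynomial Finset FlaM

theorem specFla : SpecFla := by
  classical
  intro Γ _ _ V hV0 hV
  have := Fintype.ofFinite Γ
  obtain ⟨f, hfV, hf0⟩ := (Submodule.ne_bot_iff V).1 hV0
  obtain ⟨χ, hχ⟩ := exists_char hf0
  -- the generator
  set χ' : Γ →* ℂˣ := χ.toHomUnits with hχ'
  have hval : ∀ x, ((χ' x : ℂˣ) : ℂ) = χ x := fun x => by rw [hχ', MonoidHom.coe_toHomUnits]
  have : Finite χ'.range := Set.finite_range χ'
  obtain ⟨g, hg⟩ := IsCyclic.exists_generator (α := χ'.range)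
  obtain ⟨t, ht⟩ := g.2
  set ζ : ℂˣ := χ' t with hζ
  have hgen : ∀ x, χ' x ∈ Subgroup.zpowers ζ := by
    intro x
    obtain ⟨k, hk⟩ := hg ⟨χ' x, x, rfl⟩
    refine ⟨k, ?_⟩
    have := congrArg (Subtype.val) hk
    simp only [SubgroupClass.coe_zpow] at this
    rw [ht.symm] at this
    exact this
  have hfin : IsOfFinOrder ζ := MonoidHom.isOfFinOrder χ' (isOfFinOrder_of_finite t)
  set m := orderOf ζ with hm
  have hm0 : 0 < m := hfin.orderOf_pos
  have hex : ∀ x, ∃ j < m, ζ ^ j = χ' x := by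
    intro x
    obtain ⟨j, hj⟩ := (hfin.mem_powers_iff_mem_zpowers).2 (hgen x)
    exact ⟨j % m, Nat.mod_lt _ hm0, by
      simp only at hj
      rw [← hj, hm, pow_mod_orderOf]⟩
  -- the average
  set f₁ : Γ → ℚ := fun x => ∑ n : Γ, if χ n = 1 then f (n * x) else 0 with hf₁
  have hf₁V : f₁ ∈ V := by
    have : f₁ = ∑ n : Γ, if χ n = 1 then (fun x => f (n * x)) else 0 := by
      funext x
      rw [Finset.sum_apply]
      refine Finset.sum_congr rfl fun n _ => ?_
      split_ifs <;> rfl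
    rw [this]
    refine V.sum_mem fun n _ => ?_
    split_ifs
    · exact hV n f hfV
    · exact V.zero_mem
  have hinv : ∀ n x, χ n = 1 → f₁ (n * x) = f₁ x := by
    intro n x hn
    refine Fintype.sum_equiv (Equiv.mulRight n) _ _ fun y => ?_
    rw [Equiv.coe_mulRight, map_mul, hn, mul_one, mul_assoc]
  have hLf₁ : Lam χ f₁ ≠ 0 := by
    have h1 : f₁ = ∑ n : Γ, if χ n = 1 then T n f else 0 := by
      funext x
      rw [Finset.sum_apply]
      refine Finset.sum_congr rfl fun n _ => ?_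
      split_ifs <;> rfl
    have h2 : Lam χ f₁ = ∑ n : Γ, if χ n = 1 then Lam χ f else 0 := by
      have h3 : Lam χ f₁ = ∑ n : Γ, Lam χ (if χ n = 1 then T n f else 0) := by
        unfold Lam
        rw [Finset.sum_comm]
        refine Finset.sum_congr rfl fun x _ => ?_
        rw [← Finset.sum_mul, h1, Finset.sum_apply]
        push_cast
        rfl
      rw [h3]
      refine Finset.sum_congr rfl fun n _ => ?_
      split_ifs with hn
      · rw [Lam_T, hn, inv_one, one_mul]
      · simp [Lam]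
    rw [h2, ← Finset.sum_filter, Finset.sum_const, nsmul_eq_mul]
    refine mul_ne_zero ?_ hχ
    have : (1 : Γ) ∈ Finset.univ.filter (fun n : Γ => χ n = 1) := by simp
    exact_mod_cast (Finset.card_pos.2 ⟨_, this⟩).ne'
  -- the polynomial
  set P : ℚ[X] := ∑ j ∈ Finset.range m, C (f₁ (t ^ j)) * X ^ (m - j) with hP
  have hζt : ∀ j : ℕ, χ (t ^ j) = ((ζ ^ j : ℂˣ) : ℂ) := by
    intro j
    rw [← hval, map_pow]
  have hPδ : aeval (T t) P (dl χ) = f₁ := by
    funext x
    obtain ⟨j₀, hj₀, hx⟩ := hex x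
    have hs : aeval (T t) P (dl χ) = ∑ j ∈ Finset.range m, f₁ (t ^ j) • ((T t) ^ (m - j)) (dl χ) := by
      rw [hP, map_sum, LinearMap.sum_apply]
      exact Finset.sum_congr rfl fun j _ => aeval_monomial' _ _ _ _
    rw [hs, Finset.sum_apply, Finset.sum_eq_single j₀]
    · rw [Pi.smul_apply, T_pow, smul_eq_mul]
      have h1 : dl χ (t ^ (m - j₀) * x) = 1 := by
        unfold dl
        rw [if_pos]
        rw [map_mul, hζt, ← hval x, ← hx, ← Units.val_mul, ← pow_add,
          Nat.sub_add_cancel hj₀.le, hm, pow_orderOf_eq_one, Units.val_one]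
      rw [h1, mul_one]
      have h2 : χ (x * (t ^ j₀)⁻¹) = 1 := by
        rw [← hval, map_mul, map_inv, map_pow, ← hx, mul_inv_cancel, Units.val_one]
      have h3 := hinv _ (t ^ j₀) h2
      rw [inv_mul_cancel_right] at h3
      exact h3.symm
    · intro j hj hne
      rw [Pi.smul_apply, T_pow, smul_eq_mul]
      have hjm := Finset.mem_range.1 hj
      have h1 : dl χ (t ^ (m - j) * x) = 0 := by
        unfold dl
        rw [if_neg]
        intro h
        rw [map_mul, hζt, ← hval x, ← hx, ← Units.val_mul, ← pow_add] at h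
        have h4 : ζ ^ (m - j + j₀) = 1 := Units.ext (by rw [h, Units.val_one])
        have h5 : m ∣ m - j + j₀ := orderOf_dvd_of_pow_eq_one h4
        obtain ⟨k, hk⟩ := h5
        have hk1 : k = 1 := by
          rcases k with _ | _ | k
          · omega
          · rfl
          · exfalso
            have : m * (k + 1 + 1) ≥ m * 2 := Nat.mul_le_mul_left _ (by omega)
            omega
        rw [hk1] at hk
        omega
      rw [h1, mul_zero]
    · intro h
      exact absurd (Finset.mem_range.2 hj₀) h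
  have hPζ : aeval ((χ t)⁻¹) P ≠ 0 := by
    intro h
    apply hLf₁
    rw [← hPδ, Lam_aeval, h, zero_mul]
  -- Bezout
  have hprim : IsPrimitiveRoot ((χ t)⁻¹) m := by
    have h1 : IsPrimitiveRoot ζ m := IsPrimitiveRoot.orderOf ζ
    have h2 : IsPrimitiveRoot (ζ : ℂ) m := IsPrimitiveRoot.coe_units_iff.2 h1
    rw [hζ, hval] at h2
    exact h2.inv
  have hΦ : aeval ((χ t)⁻¹) (cyclotomic m ℚ) = 0 := by
    rw [aeval_def, eval₂_eq_eval_map, map_cyclotomic]
    exact hprim.isRoot_cyclotomic hm0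
  have hcop : IsCoprime (cyclotomic m ℚ) P := by
    refine (cyclotomic.irreducible_rat hm0).coprime_iff_not_dvd.2 ?_
    rintro ⟨Q, hQ⟩
    apply hPζ
    rw [hQ, map_mul, hΦ, zero_mul]
  obtain ⟨A, B, hAB⟩ := hcop
  -- the function
  set w := aeval (T t) (FF m) (dl χ) with hw
  have hXm : aeval (T t) (X ^ m - 1 : ℚ[X]) (dl χ) = 0 := by
    funext x
    rw [map_sub, map_pow, aeval_X, map_one, LinearMap.sub_apply, Pi.sub_apply, T_pow,
      Module.End.one_apply, dl_mul, sub_self, Pi.zero_apply]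
    rw [hζt, hm, pow_orderOf_eq_one, Units.val_one]
  have hzero : aeval (T t) (FF m * (A * cyclotomic m ℚ)) (dl χ) = 0 := by
    obtain ⟨Q, hQ⟩ := X_pow_sub_one_dvd hm0
    have : FF m * (A * cyclotomic m ℚ) = (A * Q) * (X ^ m - 1) := by
      calc FF m * (A * cyclotomic m ℚ) = A * (cyclotomic m ℚ * FF m) := by ring
        _ = _ := by rw [hQ]; ring
    rw [this, map_mul, Module.End.mul_apply, hXm, map_zero]
  have hwV : w ∈ V := by
    have h1 : FF m = FF m * (A * cyclotomic m ℚ) + (FF m * B) * P := by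
      calc FF m = FF m * (A * cyclotomic m ℚ + B * P) := by rw [hAB, mul_one]
        _ = _ := by ring
    have h2 : w = aeval (T t) (FF m * B) f₁ := by
      rw [hw]
      conv_lhs => rw [h1]
      rw [map_add, LinearMap.add_apply, hzero, zero_add, map_mul _ (FF m * B) P,
        Module.End.mul_apply, hPδ]
    rw [h2]
    exact aeval_mem hV t _ hf₁V
  have hwx : ∀ x, w x = ∑ S ∈ m.primeFactors.powerset,
      if ζ ^ (∑ p ∈ S, m / p) * χ' x = 1 then (-1 : ℚ) ^ S.card else 0 := by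
    intro x
    rw [hw, FF_eq, map_sum, LinearMap.sum_apply, Finset.sum_apply]
    refine Finset.sum_congr rfl fun S _ => ?_
    rw [aeval_monomial', Pi.smul_apply, T_pow, smul_eq_mul]
    unfold dl
    have h1 : (χ (t ^ (∑ p ∈ S, m / p) * x) = 1) ↔ ζ ^ (∑ p ∈ S, m / p) * χ' x = 1 := by
      rw [map_mul, hζt, ← hval x, ← Units.val_mul]
      exact Units.val_eq_one
    by_cases h : ζ ^ (∑ p ∈ S, m / p) * χ' x = 1
    · rw [if_pos h, if_pos (h1.2 h), mul_one]
    · rw [if_neg h, if_neg (fun h' => h (h1.1 h')), mul_zero]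
  have huniq : ∀ x, ∀ S ∈ m.primeFactors.powerset, ∀ S' ∈ m.primeFactors.powerset,
      ζ ^ (∑ p ∈ S, m / p) * χ' x = 1 → ζ ^ (∑ p ∈ S', m / p) * χ' x = 1 → S = S' := by
    intro x S hS S' hS' h h'
    have h1 : ζ ^ (∑ p ∈ S, m / p) = ζ ^ (∑ p ∈ S', m / p) := mul_right_cancel (h.trans h'.symm)
    exact eq_of_modEq hm0 (Finset.mem_powerset.1 hS) (Finset.mem_powerset.1 hS')
      (pow_eq_pow_iff_modEq.1 h1)
  have hval2 : ∀ x, ∀ S ∈ m.primeFactors.powerset, ζ ^ (∑ p ∈ S, m / p) * χ' x = 1 →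
      w x = (-1 : ℚ) ^ S.card := by
    intro x S hS h
    rw [hwx, Finset.sum_eq_single S]
    · rw [if_pos h]
    · intro S' hS' hne
      rw [if_neg]
      intro h'
      exact hne (huniq x S' hS' S hS h' h)
    · intro h'
      exact absurd hS h'
  refine ⟨w, hwV, ?_, fun x => ?_⟩
  · intro h
    have h1 := hval2 1 ∅ (Finset.empty_mem_powerset _) (by simp)
    rw [h] at h1
    simp at h1
  · by_cases hx : ∃ S ∈ m.primeFactors.powerset, ζ ^ (∑ p ∈ S, m / p) * χ' x = 1
    · obtain ⟨S, hS, h⟩ := hx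
      rw [hval2 x S hS h]
      rcases neg_one_pow_eq_or ℚ S.card with h2 | h2
      · exact Or.inr (Or.inl h2)
      · exact Or.inr (Or.inr h2)
    · left
      rw [hwx]
      refine Finset.sum_eq_zero fun S hS => ?_
      rw [if_neg]
      intro h
      exact hx ⟨S, hS, h⟩

end Pool.Agent.Lib.MPf11a48.CMM
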