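import Pool.Agent.Lib.MP_f11a48_ag.CMM.Spec
import Pool.Agent.Lib.MP_f11a48_ag.helper16.Core

/-!
# Module FLE: abelian fields are flat
-/

set_option autoImplicit false

namespace Pool.Agent.Lib.MPf11a48.CMM

open Pool.Agent.Lib.MPf11a48.CM hiding OmegaM

namespace FleM

/-- the automorphisms of `Qbar` preserve an abelian field -/
theorem mem_of_mem {E : IntermediateField ℚ Qbar} (hE : AbelianField E) (γ : Qbar ≃ₐ[ℚ] Qbar)
    {x : Qbar} (hx : x ∈ E) : γ x ∈ E := by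
  have hg : IsGalois ℚ Qbar := ⟨⟩
  have h1 : γ x ∈ IntermediateField.fixedField E.fixingSubgroup := by
    rw [IntermediateField.mem_fixedField_iff]
    intro τ hτ
    rw [hE τ γ x hx, (IntermediateField.mem_fixingSubgroup_iff E τ).1 hτ x hx]
  rwa [InfiniteGalois.fixedField_fixingSubgroup] at h1

/-- embeddings extend to automorphisms of `Qbar` -/
theorem exists_ext (E : IntermediateField ℚ Qbar) (φ : E →ₐ[ℚ] Qbar) :
    ∃ γ : Qbar ≃ₐ[ℚ] Qbar, ∀ x : E, γ (x : Qbar) = φ x := by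
  have hb : Function.Bijective (φ.liftNormal Qbar) :=
    Algebra.IsAlgebraic.algHom_bijective (φ.liftNormal Qbar)
  refine ⟨AlgEquiv.ofBijective (φ.liftNormal Qbar) hb, fun x => ?_⟩
  exact AlgHom.liftNormal_commutes φ Qbar x

/-- the restriction of an automorphism to an abelian field -/
noncomputable def res {E : IntermediateField ℚ Qbar} (hE : AbelianField E)
    (γ : Qbar ≃ₐ[ℚ] Qbar) : E ≃ₐ[ℚ] E where
  toFun x := ⟨γ x.1, mem_of_mem hE γ x.2⟩
  invFun x := ⟨γ.symm x.1, mem_of_mem hE γ.symm x.2⟩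
  left_inv x := Subtype.ext (γ.symm_apply_apply x.1)
  right_inv x := Subtype.ext (γ.apply_symm_apply x.1)
  map_mul' x y := Subtype.ext (map_mul γ x.1 y.1)
  map_add' x y := Subtype.ext (map_add γ x.1 y.1)
  commutes' r := Subtype.ext (γ.commutes r)

theorem exists_res {E : IntermediateField ℚ Qbar} (hE : AbelianField E) (g : E ≃ₐ[ℚ] E) :
    ∃ γ : Qbar ≃ₐ[ℚ] Qbar, res hE γ = g := by
  obtain ⟨γ, hγ⟩ := exists_ext E (E.val.comp g.toAlgHom)
  exact ⟨γ, AlgEquiv.ext fun x => Subtype.ext (hγ x)⟩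

/-- the embedding given by an automorphism -/
noncomputable def embF {E : IntermediateField ℚ Qbar} (g : E ≃ₐ[ℚ] E) : E →ₐ[ℚ] Qbar :=
  E.val.comp g.toAlgHom

theorem embF_surjective {E : IntermediateField ℚ Qbar} (hE : AbelianField E) :
    Function.Surjective (embF (E := E)) := by
  intro φ
  obtain ⟨γ, hγ⟩ := exists_ext E φ
  exact ⟨res hE γ, AlgHom.ext fun x => hγ x⟩

end FleM

open FleM in
theorem specFle (hFla : SpecFla) : SpecFle := by
  intro E hfin hE V hV hodd hgal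
  have hcomm : ∀ a b : E ≃ₐ[ℚ] E, a * b = b * a := by
    intro a b
    obtain ⟨γ, rfl⟩ := exists_res hE a
    obtain ⟨δ, rfl⟩ := exists_res hE b
    exact AlgEquiv.ext fun x => Subtype.ext (hE γ δ x.1 x.2)
  let inst : CommGroup (E ≃ₐ[ℚ] E) :=
    { (inferInstance : Group (E ≃ₐ[ℚ] E)) with mul_comm := hcomm }
  have hfinG : Finite (E ≃ₐ[ℚ] E) := inferInstance
  let L : ((E →ₐ[ℚ] Qbar) → ℚ) →ₗ[ℚ] ((E ≃ₐ[ℚ] E) → ℚ) := LinearMap.funLeft ℚ ℚ embF
  have hLinj : Function.Injective L :=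
    LinearMap.funLeft_injective_of_surjective ℚ ℚ embF (embF_surjective hE)
  obtain ⟨f, hf, hf0, hf1⟩ := hFla (E ≃ₐ[ℚ] E) (V.map L) (by
      intro h
      refine hV ((Submodule.eq_bot_iff V).2 fun x hx => hLinj ?_)
      rw [map_zero]
      exact (Submodule.eq_bot_iff _).1 h _ (Submodule.mem_map_of_mem hx)) (by
      intro g f hf
      obtain ⟨F, hF, rfl⟩ := Submodule.mem_map.1 hf
      obtain ⟨γ, rfl⟩ := exists_res hE g
      refine Submodule.mem_map.2 ⟨_, hgal γ F hF, ?_⟩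
      rfl)
  obtain ⟨F, hF, rfl⟩ := Submodule.mem_map.1 hf
  refine ⟨F, hF, ?_, ?_⟩
  · intro h
    exact hf0 (by rw [h, map_zero])
  · intro φ
    obtain ⟨g, rfl⟩ := embF_surjective hE φ
    exact hf1 g

end Pool.Agent.Lib.MPf11a48.CMM
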