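import Pool.Agent.Lib.MP_f11a48_ag.CMM.Spec
import Pool.Agent.Lib.MP_f11a48_ag.U.Gen

/-!
# Module GENR: generation of the group of the similitudes which satisfy relations
-/

set_option autoImplicit false

namespace Pool.Agent.Lib.MPf11a48.CMM

namespace GenrM

/-- evaluation of an integral relation with two pairs -/
theorem sum_pairs {σ : Type} [Fintype σ] [DecidableEq σ] (Y : σ → ℂ) (a b c d : σ) :
    ∑ s, (((Pi.single a 1 + Pi.single b 1 - Pi.single c 1 - Pi.single d 1 : σ → ℤ) s : ℤ) : ℂ) *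
      Y s = Y a + Y b - Y c - Y d := by
  have h : ∀ s, (((Pi.single a 1 + Pi.single b 1 - Pi.single c 1 - Pi.single d 1 : σ → ℤ) s : ℤ) :
      ℂ) * Y s = (if s = a then Y s else 0) + (if s = b then Y s else 0) -
        (if s = c then Y s else 0) - (if s = d then Y s else 0) := by
    intro s
    simp only [Pi.sub_apply, Pi.add_apply, Pi.single_apply]
    push_cast
    split_ifs <;> ring
  rw [Finset.sum_congr rfl (fun s _ => h s), Finset.sum_sub_distrib, Finset.sum_sub_distrib,
    Finset.sum_add_distrib]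
  simp

end GenrM

open U.GenM in
theorem specGenr (hSat : SpecSat) : SpecGenr := by
  intro κ σ _ _ _ _ τ Λ hsat hΛ T h1 hT1 hT2 μ hμ x y hx hy hχ
  have hU : ∀ a : κ → ℂ, ∀ t ∈ T, ((fun k => Un (a k)), fun _ => 1) * t ∈ T := by
    intro a t ht
    have := hT1 (fun k => !![0, a k; 0, 0]) (fun k => by simp [Matrix.trace, Fin.sum_univ_two]) t ht
    simpa only [exp_un] using this
  have hL : ∀ a : κ → ℂ, ∀ t ∈ T, ((fun k => Lo (a k)), fun _ => 1) * t ∈ T := by
    intro a t ht
    have := hT1 (fun k => !![0, 0; a k, 0]) (fun k => by simp [Matrix.trace, Fin.sum_univ_two]) t ht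
    simpa only [exp_lo] using this
  have hy0 : ∀ s, y s ≠ 0 := by
    intro s h
    have := hy s
    rw [h, zero_mul] at this
    exact hμ this.symm
  obtain ⟨a, ha2, ha3⟩ := hSat σ Λ hsat y hy0 hχ
  have hab : ∀ s t, a s + a (τ s) = a t + a (τ t) := by
    intro s t
    have h := ha3 _ (hΛ s t)
    rw [GenrM.sum_pairs] at h
    linear_combination h
  obtain ⟨m, hm, ha1⟩ : ∃ m, Complex.exp m = μ ∧ ∀ s, a s + a (τ s) = m := by
    rcases isEmpty_or_nonempty σ with he | ⟨⟨s0⟩⟩
    · exact ⟨Complex.log μ, Complex.exp_log hμ, fun s => (he.false s).elim⟩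
    · refine ⟨a s0 + a (τ s0), ?_, fun s => hab s s0⟩
      rw [Complex.exp_add, ha2, ha2, hy]
  have hz : Complex.exp (m / 2) ≠ 0 := Complex.exp_ne_zero _
  have hz2 : Complex.exp (m / 2) * Complex.exp (m / 2) = μ := by
    rw [← Complex.exp_add, add_halves, hm]
  have hdet : ∀ k, ((Complex.exp (m / 2))⁻¹ • x k).det = 1 := by
    intro k
    rw [Matrix.det_smul, hx k, Fintype.card_fin, ← hz2]
    field_simp
  choose b c d f hbc using fun k => decomp _ (hdet k)
  have h3 := hT2 m a ha1 ha3 _ (hU b _ (hL c _ (hU d _ (hL f _ h1))))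
  have e : ((fun _ => Complex.exp (m / 2) • (1 : Matrix (Fin 2) (Fin 2) ℂ)),
        fun s => Complex.exp (a s)) * (((fun k => Un (b k)), fun _ => 1) *
      (((fun k => Lo (c k)), fun _ => 1) * (((fun k => Un (d k)), fun _ => 1) *
      (((fun k => Lo (f k)), fun _ => 1) *
        (1 : (κ → Matrix (Fin 2) (Fin 2) ℂ) × (σ → ℂ)))))) = (x, y) := by
    refine Prod.ext ?_ ?_
    · funext k
      show (Complex.exp (m / 2) • (1 : Matrix (Fin 2) (Fin 2) ℂ)) * (Un (b k) *
        (Lo (c k) * (Un (d k) * (Lo (f k) * 1)))) = x k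
      rw [mul_one, ← hbc k, Matrix.smul_mul, one_mul, smul_smul, mul_inv_cancel₀ hz, one_smul]
    · funext s
      show Complex.exp (a s) * (1 * (1 * (1 * (1 * 1)))) = y s
      rw [ha2 s]
      ring
  rw [← e]
  exact h3

end Pool.Agent.Lib.MPf11a48.CMM
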