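import Pool.Agent.Lib.MP_f11a48_ag.CMM.Spec
import Pool.Agent.Lib.MP_f11a48_ag.U.Exp
import Pool.Agent.Lib.MP_f11a48_ag.helper16.Classes
import Pool.Agent.Lib.MP_f11a48_ag.helper4.Main

/-! # From classes to the Lie algebra -/

set_option autoImplicit false

namespace Pool.Agent.Lib.MPf11a48.CMM

open Matrix MvPolynomial
open Pool.Agent.Lib.MPf11a48.CM hiding OmegaM
open Pool.Agent.Lib.MPf11a48.GL2T
open Pool.Agent.Lib.MPf11a48.U
open Pool.Agent.Lib.MPf11a48.K3 (cx)

namespace HclM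

variable {ι : Type} [Fintype ι] [DecidableEq ι]

theorem vecMul_pow (X : Matrix ι ι ℂ) (v : ι → ℂ) (a : ℂ) (h : v ᵥ* X = a • v) (n : ℕ) :
    v ᵥ* X ^ n = a ^ n • v := by
  induction n with
  | zero => simp
  | succ n ih =>
    rw [pow_succ, ← Matrix.vecMul_vecMul, ih, Matrix.smul_vecMul, h, smul_smul, pow_succ]

/-- an eigenvector of `X` is an eigenvector of `exp X` -/
theorem vecMul_exp (X : Matrix ι ι ℂ) (v : ι → ℂ) (a : ℂ) (h : v ᵥ* X = a • v) :
    v ᵥ* NormedSpace.exp X = Complex.exp a • v := by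
  funext j
  have h1 := ExpM.hasSum_exp X
  let L : Matrix ι ι ℂ →ₗ[ℂ] ℂ :=
    { toFun := fun M => (v ᵥ* M) j
      map_add' := fun A B => by rw [Matrix.vecMul_add]; rfl
      map_smul' := fun t A => by rw [Matrix.vecMul_smul]; rfl }
  have hcont : Continuous L := by
    change Continuous (fun M : Matrix ι ι ℂ => (v ᵥ* M) j)
    simp only [Matrix.vecMul, dotProduct]
    exact continuous_finsetSum _ fun i _ => continuous_const.mul (continuous_apply_apply i j)
  have h2 := h1.map L hcont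
  have h3 : HasSum (fun n : ℕ => ((n.factorial : ℂ)⁻¹ • a ^ n) * v j) (Complex.exp a * v j) := by
    rw [Complex.exp_eq_exp_ℂ]
    exact (NormedSpace.exp_series_hasSum_exp' (𝕂 := ℂ) a).mul_right (v j)
  have e2 : (L ∘ fun n : ℕ => ((n.factorial : ℂ)⁻¹) • X ^ n) =
      fun n : ℕ => ((n.factorial : ℂ)⁻¹ • a ^ n) * v j := by
    funext n
    simp only [Function.comp_apply, map_smul]
    change ((n.factorial : ℂ)⁻¹) • (v ᵥ* X ^ n) j = _
    rw [vecMul_pow X v a h n]
    simp only [Pi.smul_apply, smul_eq_mul]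
    ring
  rw [e2] at h2
  exact h2.unique h3

theorem eq_zero_of_exp {w : ℂ} (h : ∀ t : ℂ, Complex.exp (t * w) = 1) : w = 0 := by
  by_contra hw
  have h1 := h (Real.pi * Complex.I / w)
  rw [div_mul_cancel₀ _ hw, Complex.exp_pi_mul_I] at h1
  norm_num at h1

/-- a common denominator -/
theorem exists_int {E : Type} [Fintype E] (f : E → ℚ) :
    ∃ (n : ℕ) (χ : E → ℤ), n ≠ 0 ∧ ∀ s, (χ s : ℚ) = n * f s := by
  classical
  refine ⟨∏ s, (f s).den, fun s => (∏ t ∈ Finset.univ.erase s, ((f t).den : ℤ)) * (f s).num,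
    Finset.prod_ne_zero_iff.2 fun s _ => (f s).den_ne_zero, fun s => ?_⟩
  have h1 : (∏ t, ((f t).den : ℚ)) = ((f s).den : ℚ) * ∏ t ∈ Finset.univ.erase s, ((f t).den : ℚ) :=
    (Finset.mul_prod_erase Finset.univ (fun t => ((f t).den : ℚ)) (Finset.mem_univ s)).symm
  have h2 : ((f s).num : ℚ) = (f s).den * f s := by
    rw [mul_comm]
    exact (Rat.mul_den_eq_num _).symm
  push_cast
  rw [h1, h2]
  ring

end HclM

open HclM in
theorem specHcl : SpecHcl := by
  classical
  intro ι _ _ c ψ T S hS hrel z hz f hf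
  have key : ∀ χ : EmbC c.1 → ℤ, HodgeRel ψ T χ → ∑ s, (χ s : ℂ) * ((s z : Qbar) : ℂ) = 0 := by
    intro χ hχ
    apply eq_zero_of_exp
    intro t
    have hX : InH c (t • mC z.1) := by
      intro r s WdR WB hsub w hw
      rw [SlotM.dact_smul]
      exact (spanC WB).smul_mem _ (hz r s WdR WB hsub w hw)
    have hexp : NormedSpace.exp (t • mC z.1) * NormedSpace.exp (-(t • mC z.1)) = 1 := by
      rw [← Matrix.exp_add_of_commute _ _ (Commute.neg_right (Commute.refl (t • mC z.1))),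
        add_neg_cancel, NormedSpace.exp_zero]
    let g : GL ι ℂ := ⟨NormedSpace.exp (t • mC z.1), NormedSpace.exp (-(t • mC z.1)), hexp,
      mul_eq_one_comm.1 hexp⟩
    have hg : g * c ∈ OmegaS S := drb_subset hS
      (specEXP c (t • mC z.1) hX g rfl c (Tors.mem_OmegaDRB_self Qbar c))
    have hr := hrel _ hg
    rw [mul_inv_cancel_right] at hr
    have h1 := hr χ hχ (fun s => Complex.exp (t * ((s z : Qbar) : ℂ))) (fun s _ v hv =>
      vecMul_exp _ v _ (by
        rw [Matrix.vecMul_smul]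
        have h2 := hv z
        change v ᵥ* mC z.1 = _ at h2
        rw [h2, smul_smul]))
    rw [← h1, Finset.mul_sum, Complex.exp_sum]
    refine Finset.prod_congr rfl fun s _ => ?_
    rw [← Complex.exp_int_mul]
    congr 1
    ring
  obtain ⟨n, χ, hn, hχ⟩ := exists_int f
  have hH : HodgeRel ψ T χ := by
    refine ⟨fun s hs => ?_, fun γ => ?_⟩
    · have h1 := hf.1 s s hs
      have h2 : f s = 0 := by linarith
      have h3 := hχ s
      rw [h2, mul_zero] at h3
      exact_mod_cast h3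
    · have h1 := hf.2 γ
      have h2 : ((∑ s : EmbC c.1, if γ.toAlgHom.comp s ∈ T then χ s else 0 : ℤ) : ℚ) = 0 := by
        rw [Int.cast_sum]
        have h3 : ∀ s : EmbC c.1, (((if γ.toAlgHom.comp s ∈ T then χ s else 0 : ℤ)) : ℚ) =
            n * (if γ.toAlgHom.comp s ∈ T then f s else 0) := by
          intro s
          split_ifs
          · exact hχ s
          · simp
        rw [Finset.sum_congr rfl fun s _ => h3 s, ← Finset.mul_sum, h1, mul_zero]
      exact_mod_cast h2
  have h1 := key χ hH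
  have h2 : ∀ s, (χ s : ℂ) = (n : ℂ) * (f s : ℂ) := by
    intro s
    have h3 := congrArg (fun q : ℚ => (q : ℂ)) (hχ s)
    simpa using h3
  have h3 : (n : ℂ) * ∑ s, (f s : ℂ) * ((s z : Qbar) : ℂ) = 0 := by
    rw [Finset.mul_sum, ← h1]
    refine Finset.sum_congr rfl fun s _ => ?_
    rw [h2 s]
    ring
  exact (mul_eq_zero.1 h3).resolve_left (Nat.cast_ne_zero.2 hn)

end Pool.Agent.Lib.MPf11a48.CMM
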