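import Pool.Agent.Lib.MP_f11a48_ag.CMM.Spec
import Pool.Agent.Lib.MP_f11a48_ag.U.Rep
import Pool.Agent.Lib.MP_f11a48_ag.U.Lin
import Pool.Agent.Lib.MP_f11a48_ag.U.Exp
import Pool.Agent.Lib.MP_f11a48_ag.U.Der
import Pool.Agent.Lib.MP_f11a48_ag.U.Sim
import Pool.Agent.Lib.MP_f11a48_ag.U.Bic
import Pool.Agent.Lib.MP_f11a48_ag.U.Str
import Pool.Agent.Lib.MP_f11a48_ag.U.Wed
import Pool.Agent.Lib.MP_f11a48_ag.U.Gou
import Pool.Agent.Lib.MP_f11a48_ag.U.Tor

/-!
# Motives of complex multiplication type, module REPR: assembly of the representation part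
-/

set_option autoImplicit false

namespace Pool.Agent.Lib.MPf11a48.CMM

open Matrix MvPolynomial
open Pool.Agent.Lib.MPf11a48.CM hiding OmegaM
open Pool.Agent.Lib.MPf11a48.GL2T
open Pool.Agent.Lib.MPf11a48.U
open Pool.Agent.Lib.MPf11a48.K3 (cx)

namespace ReprM

open REPM

section

variable {ι : Type} [Fintype ι] [DecidableEq ι] {c : GL ι ℂ} {ψ : Matrix ι ι ℚ}

/-- extension by zero to all embeddings -/
def ext {R : Type} [Zero R] (S : Str c ψ) (χ : S.σ → R) (s : EmbC c.1) : R :=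
  Sum.elim (fun _ => 0) χ (S.ev.symm s)

theorem ext_inr {R : Type} [Zero R] (S : Str c ψ) (χ : S.σ → R) (j : S.σ) :
    ext S χ (S.ev (Sum.inr j)) = χ j := by
  simp [ext]

theorem ext_inl {R : Type} [Zero R] (S : Str c ψ) (χ : S.σ → R) (k : S.κ) :
    ext S χ (S.ev (Sum.inl k)) = 0 := by
  simp [ext]

theorem ext_eq_sum {R : Type} [AddCommMonoid R] (S : Str c ψ) (χ : S.σ → R)
    (P : EmbC c.1 → Prop) [DecidablePred P] :
    (∑ s : EmbC c.1, if P s then ext S χ s else 0) =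
      ∑ j : S.σ, if P (S.ev (Sum.inr j)) then χ j else 0 := by
  rw [← Equiv.sum_comp S.ev, Fintype.sum_sum_type]
  simp only [ext_inl, ext_inr, ite_self, Finset.sum_const_zero, zero_add]

theorem not_bar {T : Set (EmbC c.1)} (hT : HalfSet ψ T) (S : Str c ψ) (j : S.σ) :
    ¬ IsBar ψ (S.ev (Sum.inr j)) (S.ev (Sum.inr j)) := by
  intro h
  have h1 := hT.2.1 _ _ _ h (S.bar_σ j)
  exact S.τ_ne j (Sum.inr_injective (S.ev.injective h1)).symm

/-- the relations, as functions on `σ` -/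
def lam {T : Set (EmbC c.1)} (S : Str c ψ) (_hT : HalfSet ψ T) : AddSubgroup (S.σ → ℤ) := by
  classical
  exact
  { carrier := {χ | ∀ γ : Qbar ≃ₐ[ℚ] Qbar,
      (∑ j : S.σ, if γ.toAlgHom.comp (S.ev (Sum.inr j)) ∈ T then χ j else 0) = 0}
    zero_mem' := fun γ => by simp
    add_mem' := by
      intro f g hf hg γ
      have h1 : ∀ j : S.σ,
          (if γ.toAlgHom.comp (S.ev (Sum.inr j)) ∈ T then (f + g) j else 0) =
          (if γ.toAlgHom.comp (S.ev (Sum.inr j)) ∈ T then f j else 0) +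
          (if γ.toAlgHom.comp (S.ev (Sum.inr j)) ∈ T then g j else 0) := by
        intro s
        split_ifs <;> simp
      rw [Finset.sum_congr rfl fun s _ => h1 s, Finset.sum_add_distrib, hf, hg, add_zero]
    neg_mem' := by
      intro f hf γ
      have h1 : ∀ j : S.σ,
          (if γ.toAlgHom.comp (S.ev (Sum.inr j)) ∈ T then (-f) j else 0) =
          -(if γ.toAlgHom.comp (S.ev (Sum.inr j)) ∈ T then f j else 0) := by
        intro s
        split_ifs <;> simp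
      rw [Finset.sum_congr rfl fun s _ => h1 s, Finset.sum_neg_distrib, hf, neg_zero] }

theorem mem_lam {T : Set (EmbC c.1)} (S : Str c ψ) (hT : HalfSet ψ T) (χ : S.σ → ℤ) :
    χ ∈ lam S hT ↔ HodgeRel ψ T (ext S χ) := by
  classical
  constructor
  · intro h
    refine ⟨fun s hs => ?_, fun γ => ?_⟩
    · obtain ⟨e, rfl⟩ := S.ev.surjective s
      rcases e with k | j
      · exact ext_inl S χ k
      · exact absurd hs (not_bar hT S j)
    · have h1 := h γ
      have h2 := ext_eq_sum S χ (fun s => γ.toAlgHom.comp s ∈ T)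
      rw [← h2] at h1
      convert h1
  · intro h γ
    have h1 := h.2 γ
    have h2 := ext_eq_sum S χ (fun s => γ.toAlgHom.comp s ∈ T)
    rw [← h2]
    convert h1

theorem lam_sat {T : Set (EmbC c.1)} (S : Str c ψ) (hT : HalfSet ψ T) (n : ℤ) (χ : S.σ → ℤ)
    (hn : n ≠ 0) (h : n • χ ∈ lam S hT) : χ ∈ lam S hT := by
  classical
  intro γ
  have h1 := h γ
  have h2 : ∀ j : S.σ,
      (if γ.toAlgHom.comp (S.ev (Sum.inr j)) ∈ T then (n • χ) j else 0) =
      n * (if γ.toAlgHom.comp (S.ev (Sum.inr j)) ∈ T then χ j else 0) := by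
    intro s
    split_ifs <;> simp
  rw [Finset.sum_congr rfl fun s _ => h2 s, ← Finset.mul_sum] at h1
  exact (mul_eq_zero.1 h1).resolve_left hn

theorem comp_inj (γ : Qbar ≃ₐ[ℚ] Qbar) {s s' : EmbC c.1}
    (h : γ.toAlgHom.comp s = γ.toAlgHom.comp s') : s = s' := by
  ext1 z
  exact γ.injective (DFunLike.congr_fun h z)

theorem one_of_two {T : Set (EmbC c.1)} (hT : HalfSet ψ T) (S : Str c ψ)
    (γ : Qbar ≃ₐ[ℚ] Qbar) (j : S.σ) [Decidable (γ.toAlgHom.comp (S.ev (Sum.inr j)) ∈ T)]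
    [Decidable (γ.toAlgHom.comp (S.ev (Sum.inr (S.τ j))) ∈ T)] :
    ((if γ.toAlgHom.comp (S.ev (Sum.inr j)) ∈ T then 1 else 0 : ℤ) +
      if γ.toAlgHom.comp (S.ev (Sum.inr (S.τ j))) ∈ T then 1 else 0) = 1 := by
  have h1 := hT.2.2.2.2.2 _ _ (hT.2.2.2.2.1 γ _ _ (S.bar_σ j)) (fun h => by
    have h2 := comp_inj γ h
    exact S.τ_ne j (Sum.inr_injective (S.ev.injective h2)).symm)
  by_cases h2 : γ.toAlgHom.comp (S.ev (Sum.inr j)) ∈ T
  · have h3 : γ.toAlgHom.comp (S.ev (Sum.inr (S.τ j))) ∉ T := fun h => (h1.1 h) h2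
    rw [if_pos h2, if_neg h3, add_zero]
  · rw [if_neg h2, if_pos (h1.2 h2), zero_add]

theorem sum_single (S : Str c ψ) (P : S.σ → Prop) [DecidablePred P] (i : S.σ) :
    (∑ j : S.σ, if P j then (Pi.single i 1 : S.σ → ℤ) j else 0) = if P i then 1 else 0 := by
  rw [Finset.sum_eq_single i]
  · simp
  · intro b _ hb
    rw [Pi.single_eq_of_ne hb, ite_self]
  · intro h
    exact absurd (Finset.mem_univ _) h

theorem lam_pairs {T : Set (EmbC c.1)} (S : Str c ψ) (hT : HalfSet ψ T) (s t : S.σ) :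
    (Pi.single s 1 + Pi.single (S.τ s) 1 - Pi.single t 1 - Pi.single (S.τ t) 1 : S.σ → ℤ) ∈
      lam S hT := by
  classical
  intro γ
  have h1 : ∀ j : S.σ,
      (if γ.toAlgHom.comp (S.ev (Sum.inr j)) ∈ T then
        (Pi.single s 1 + Pi.single (S.τ s) 1 - Pi.single t 1 - Pi.single (S.τ t) 1 : S.σ → ℤ) j
        else 0) =
      (if γ.toAlgHom.comp (S.ev (Sum.inr j)) ∈ T then (Pi.single s 1 : S.σ → ℤ) j else 0) +
      (if γ.toAlgHom.comp (S.ev (Sum.inr j)) ∈ T then (Pi.single (S.τ s) 1 : S.σ → ℤ) j else 0) -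
      (if γ.toAlgHom.comp (S.ev (Sum.inr j)) ∈ T then (Pi.single t 1 : S.σ → ℤ) j else 0) -
      (if γ.toAlgHom.comp (S.ev (Sum.inr j)) ∈ T then (Pi.single (S.τ t) 1 : S.σ → ℤ) j else 0) := by
    intro j
    split_ifs <;> simp
  rw [Finset.sum_congr rfl fun j _ => h1 j, Finset.sum_sub_distrib, Finset.sum_sub_distrib,
    Finset.sum_add_distrib, sum_single, sum_single, sum_single, sum_single,
    one_of_two hT S γ s, sub_sub, one_of_two hT S γ t, sub_self]

/-! ## Eigenvectors -/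

theorem eig_proj (S : Str c ψ) (j : S.σ) {v : ι → ℂ} (hv : Eig (S.ev (Sum.inr j)) v) :
    v ᵥ* TORM.cenL S (Pi.single (Sum.inr j) 1) = v := by
  classical
  -- the components
  have hcomp : ∀ e : S.κ ⊕ S.σ, e ≠ Sum.inr j → v ᵥ* TORM.cenL S (Pi.single e 1) = 0 := by
    intro e he
    by_contra hne
    apply he
    apply S.ev.injective
    ext1 z
    have h1 : mC z.1 * TORM.cenL S (Pi.single e 1) =
        TORM.pt S z e • TORM.cenL S (Pi.single e 1) := by
      rw [← TORM.cen_pt, ← TORM.cen_mul, ← map_smul]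
      congr 1
      funext e'
      by_cases h : e' = e
      · subst h
        simp
      · simp [Pi.single_eq_of_ne h]
    have h2 := hv z
    have h3 : v ᵥ* (mC z.1 * TORM.cenL S (Pi.single e 1)) =
        ((S.ev (Sum.inr j) z : Qbar) : ℂ) • (v ᵥ* TORM.cenL S (Pi.single e 1)) := by
      rw [← Matrix.vecMul_vecMul]
      have h4 : v ᵥ* mC z.1 = ((S.ev (Sum.inr j) z : Qbar) : ℂ) • v := h2
      rw [h4, Matrix.smul_vecMul]
    rw [h1, Matrix.vecMul_smul] at h3
    have h5 : TORM.pt S z e = ((S.ev (Sum.inr j) z : Qbar) : ℂ) :=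
      smul_left_injective ℂ hne h3
    exact Subtype.ext h5
  have h1 : ∑ e, TORM.cenL S (Pi.single e 1) = 1 := by
    rw [← TORM.cen_one S, ← TORM.cen_sum S 1]
    simp
  have h2 : v ᵥ* (∑ e, TORM.cenL S (Pi.single e 1)) = v := by rw [h1, Matrix.vecMul_one]
  rw [Matrix.vecMul_sum, Finset.sum_eq_single (Sum.inr j)] at h2
  · exact h2
  · intro e _ he
    exact hcomp e he
  · intro h
    exact absurd (Finset.mem_univ _) h

theorem eig_Ψ (S : Str c ψ) (j : S.σ) {v : ι → ℂ} (hv : Eig (S.ev (Sum.inr j)) v)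
    (x : S.κ → Matrix (Fin 2) (Fin 2) ℂ) (y : S.σ → ℂ) :
    v ᵥ* S.Ψ (x, y) = y j • v := by
  have h1 : TORM.cenL S (Pi.single (Sum.inr j) 1) * S.Ψ (x, y) =
      y j • TORM.cenL S (Pi.single (Sum.inr j) 1) := by
    rw [TORM.cenL_apply, TORM.cen, ← map_mul, ← map_smul]
    congr 1
    refine Prod.ext ?_ ?_
    · funext k
      simp
    · funext s
      by_cases h : s = j
      · subst h
        simp
      · have h2 : (Sum.inr s : S.κ ⊕ S.σ) ≠ Sum.inr j := fun h3 => h (Sum.inr_injective h3)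
        simp [Pi.single_eq_of_ne h2]
  conv_lhs => rw [← eig_proj S j hv]
  rw [Matrix.vecMul_vecMul, h1, Matrix.vecMul_smul, eig_proj S j hv]

theorem prod_ext (S : Str c ψ) (χ : S.σ → ℤ) (y : S.σ → ℂ) :
    (∏ s : EmbC c.1, (Sum.elim (fun _ => 1) y (S.ev.symm s) : ℂ) ^ ext S χ s) =
      ∏ j, y j ^ χ j := by
  rw [← Equiv.prod_comp S.ev, Fintype.prod_sum_type]
  simp only [ext_inl, ext_inr, Equiv.symm_apply_apply, Sum.elim_inl, Sum.elim_inr, zpow_zero,
    Finset.prod_const_one, one_mul]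

theorem rel_prod {T : Set (EmbC c.1)} (S : Str c ψ) (hT : HalfSet ψ T) {X : Matrix ι ι ℂ}
    (hX : RelOK ψ T X) {x : S.κ → Matrix (Fin 2) (Fin 2) ℂ} {y : S.σ → ℂ}
    (h : S.Ψ (x, y) = X) : ∀ χ ∈ lam S hT, ∏ j, y j ^ χ j = 1 := by
  intro χ hχ
  rw [mem_lam] at hχ
  have h1 := hX (ext S χ) hχ (fun s => Sum.elim (fun _ => 1) y (S.ev.symm s)) (by
    intro s hs v hv
    obtain ⟨e, rfl⟩ := S.ev.surjective s
    rcases e with k | j
    · exact absurd (S.bar_κ k) hs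
    · rw [← h, eig_Ψ S j hv]
      simp)
  rwa [prod_ext] at h1

/-- An odd rational relation is a multiple of an integral one. -/
theorem odd_sum {T : Set (EmbC c.1)} (S : Str c ψ) (hT : HalfSet ψ T) {y : S.σ → ℂ}
    (hy : ∀ χ ∈ lam S hT, ∑ j, (χ j : ℂ) * y j = 0) {f : EmbC c.1 → ℚ} (hf : f ∈ OddH ψ T) :
    ∑ j, (f (S.ev (Sum.inr j)) : ℂ) * y j = 0 := by
  classical
  -- a common denominator
  let d : ℤ := ∏ s : EmbC c.1, ((f s).den : ℤ)
  have hd : d ≠ 0 := Finset.prod_ne_zero_iff.2 fun s _ => by exact_mod_cast (f s).den_nz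
  have hint : ∀ s : EmbC c.1, ∃ n : ℤ, (n : ℚ) = d * f s := by
    intro s
    obtain ⟨m, hm⟩ : ((f s).den : ℤ) ∣ d := Finset.dvd_prod_of_mem _ (Finset.mem_univ s)
    refine ⟨m * (f s).num, ?_⟩
    rw [hm]
    push_cast
    have h1 : ((f s).den : ℚ) * f s = (f s).num := by
      rw [mul_comm]
      exact Rat.mul_den_eq_num (f s)
    rw [← h1]
    ring
  choose n hn using hint
  have h0 : ∀ s, IsBar ψ s s → f s = 0 := by
    intro s hs
    have := hf.1 s s hs
    linarith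
  have hχ : (fun j => n (S.ev (Sum.inr j))) ∈ lam S hT := by
    intro γ
    have h1 := hf.2 γ
    rw [← Equiv.sum_comp S.ev, Fintype.sum_sum_type] at h1
    have h2 : ∀ k : S.κ, f (S.ev (Sum.inl k)) = 0 := fun k => h0 _ (S.bar_κ k)
    simp only [h2, ite_self, Finset.sum_const_zero, zero_add] at h1
    have h3 : ((∑ j : S.σ, if γ.toAlgHom.comp (S.ev (Sum.inr j)) ∈ T then
        n (S.ev (Sum.inr j)) else 0 : ℤ) : ℚ) = d * ∑ j : S.σ,
        if γ.toAlgHom.comp (S.ev (Sum.inr j)) ∈ T then f (S.ev (Sum.inr j)) else 0 := by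
      rw [Int.cast_sum, Finset.mul_sum]
      refine Finset.sum_congr rfl fun j _ => ?_
      split_ifs
      · exact hn _
      · simp
    have h4 : (∑ j : S.σ, if γ.toAlgHom.comp (S.ev (Sum.inr j)) ∈ T then
        f (S.ev (Sum.inr j)) else 0) = 0 := by
      convert h1
    rw [h4, mul_zero] at h3
    exact_mod_cast h3
  have h1 := hy _ hχ
  have h2 : ∀ j : S.σ, ((n (S.ev (Sum.inr j)) : ℤ) : ℂ) * y j =
      (d : ℂ) * ((f (S.ev (Sum.inr j)) : ℂ) * y j) := by
    intro j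
    have h3 : ((n (S.ev (Sum.inr j)) : ℤ) : ℂ) = (d : ℂ) * (f (S.ev (Sum.inr j)) : ℂ) := by
      have h4 := hn (S.ev (Sum.inr j))
      exact_mod_cast h4
    rw [h3]
    ring
  rw [Finset.sum_congr rfl fun j _ => h2 j, ← Finset.mul_sum] at h1
  exact (mul_eq_zero.1 h1).resolve_left (by exact_mod_cast hd)

end

end ReprM

open ReprM REPM

/-- REPR: assembly. -/
theorem specRepr (hTORR : SpecTorr) (hGENR : SpecGenr) : SpecRepr := by
  have hLIN : SpecLIN := specLIN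
  have hEXP : SpecEXP := specEXP
  have hSIM : SpecSIM := specSIM
  have hBIC : SpecBIC := BicM.specBIC specLIN specDER specSIM
  have hSTR : SpecSTR := StrM.specSTR hBIC specWED
  have hGOU : SpecGOU := specGOU
  intro ι _ _ c J ψ TT hHD hGL hHalf hSep hLie f hf hμ hRel
  classical
  obtain ⟨μ, hμ⟩ := hμ
  rcases isEmpty_or_nonempty ι with hι | hι
  · have : f = c := Units.ext (Subsingleton.elim _ _)
    rw [this]
    exact self_mem c
  obtain ⟨S⟩ := hSTR c J ψ hHD hGL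
  obtain ⟨h0, hadd, hsmul, hbr, hspan⟩ := hLIN c
  obtain ⟨hcomm, hsimil, -⟩ := hSIM c J ψ hHD
  have hψdet : (mC ψ).det ≠ 0 := by
    intro h
    apply hHD.det
    have h1 : (mC ψ).det = ((ψ.det : ℚ) : ℂ) := ((Rat.castHom ℂ).map_det ψ).symm
    rw [h1] at h
    exact_mod_cast h
  have hψu : IsUnit (mC ψ).det := isUnit_iff_ne_zero.2 hψdet
  -- the Lie algebra
  let N : Submodule ℂ (EA S.κ S.σ) :=
    { carrier := {X | InH c (S.Ψ X)}
      add_mem' := fun {X Y} hX hY => by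
        change InH c (S.Ψ (X + Y))
        rw [map_add]; exact hadd _ _ hX hY
      zero_mem' := by
        change InH c (S.Ψ 0)
        rw [map_zero]; exact h0
      smul_mem' := fun t X hX => by
        change InH c (S.Ψ (t • X))
        rw [map_smul]; exact hsmul t _ hX }
  have hN1 : ∀ X ∈ N, ∀ Y ∈ N, X * Y - Y * X ∈ N := by
    intro X hX Y hY
    change InH c (S.Ψ (X * Y - Y * X))
    rw [map_sub, map_mul, map_mul]
    exact hbr _ _ hX hY
  -- similitudes
  have hm : ∀ X : Matrix ι ι ℂ, ∀ m : ℂ, Xᵀ * mC ψ + mC ψ * X = m • mC ψ →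
      adj (mC ψ) X + X = m • 1 := by
    intro X m h
    have h1 := congrArg (fun Y => (mC ψ)⁻¹ * Y) h
    simp only [mul_add, Matrix.mul_smul] at h1
    rw [Matrix.nonsing_inv_mul _ hψu, ← mul_assoc, ← mul_assoc, Matrix.nonsing_inv_mul _ hψu,
      one_mul] at h1
    exact h1
  have hN2 : ∀ X ∈ N, ∃ m : ℂ, ∀ k, (X.1 k).trace = m := by
    rintro ⟨x, y⟩ hX
    obtain ⟨m, h⟩ := hsimil _ hX
    have h1 := hm _ m h
    rw [S.adj_Ψ, ← map_add] at h1
    have h2 : (m • (1 : Matrix ι ι ℂ)) = S.Ψ (m • 1) := by rw [map_smul, map_one]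
    rw [h2] at h1
    have h3 := S.inj h1
    refine ⟨m, fun k => trace_of_adj ?_⟩
    exact congrFun (congrArg Prod.fst h3) k
  have hN3 : Algebra.adjoin ℂ (N : Set (EA S.κ S.σ)) = ⊤ := by
    rw [eq_top_iff]
    intro u _
    have h1 := (S.mem_range (S.Ψ u)).1 ⟨u, rfl⟩
    have h2 := mem_span_com h1
    have h3 : ∀ Z ∈ ComAlg c.1, mC Z ∈ (Algebra.adjoin ℂ (N : Set (EA S.κ S.σ))).map S.Ψ := by
      rw [(hBIC c J ψ hHD).2]
      intro Z hZ
      refine Algebra.adjoin_induction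
        (p := fun Z _ => mC Z ∈ (Algebra.adjoin ℂ (N : Set (EA S.κ S.σ))).map S.Ψ)
        ?_ ?_ ?_ ?_ hZ
      · intro Z hZ
        obtain ⟨X, hX⟩ := (S.mem_range (mC Z)).2 (fun B hB => hcomm _ hZ B hB)
        refine ⟨X, Algebra.subset_adjoin ?_, hX⟩
        change InH c (S.Ψ X)
        rw [hX]
        exact hZ
      · intro q
        have : mC (algebraMap ℚ (Matrix ι ι ℚ) q) = algebraMap ℂ (Matrix ι ι ℂ) (q : ℂ) := by
          ext i j
          simp only [Matrix.map_apply, Matrix.algebraMap_matrix_apply]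
          split_ifs <;> simp
        rw [this]
        exact Subalgebra.algebraMap_mem _ _
      · intro a b _ _ ha hb
        have : mC (a + b) = mC a + mC b := Matrix.map_add _ (fun x y => Rat.cast_add x y) a b
        rw [this]
        exact add_mem ha hb
      · intro a b _ _ ha hb
        rw [mC_mul]
        exact mul_mem ha hb
    have h4 : S.Ψ u ∈ (Algebra.adjoin ℂ (N : Set (EA S.κ S.σ))).map S.Ψ := by
      have : Submodule.span ℂ {Y : Matrix ι ι ℂ | ∃ Z ∈ ComAlg c.1, Y = mC Z} ≤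
          Subalgebra.toSubmodule ((Algebra.adjoin ℂ (N : Set (EA S.κ S.σ))).map S.Ψ) := by
        refine Submodule.span_le.2 ?_
        rintro _ ⟨Z, hZ, rfl⟩
        exact h3 Z hZ
      exact this h2
    obtain ⟨u', hu', he⟩ := h4
    rwa [← S.inj he]
  have hsl := hGOU S.κ S.σ N hN1 hN2 hN3
  have htor := hTORR ι c J ψ TT S hHD hSep hLie (fun x hx => hsl x hx)
  -- the group
  let T : Set (EA S.κ S.σ) := {u | ∃ g : GL ι ℂ, g.1 = S.Ψ u ∧ g * c ∈ OmegaDRB Qbar c}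
  have hT1 : (1 : EA S.κ S.σ) ∈ T := ⟨1, by rw [map_one]; rfl, by rw [one_mul]; exact self_mem c⟩
  have hTexp : ∀ (x : S.κ → Matrix (Fin 2) (Fin 2) ℂ) (y : S.σ → ℂ), InH c (S.Ψ (x, y)) →
      ∀ t ∈ T, ((fun k => NormedSpace.exp (x k)), fun s => Complex.exp (y s)) * t ∈ T := by
    rintro x y hxy t ⟨g, hg, hgc⟩
    obtain ⟨g', hg'⟩ := Matrix.isUnit_exp (S.Ψ (x, y))
    refine ⟨g' * g, ?_, ?_⟩
    · rw [map_mul, exp_Ψ, ← hg, ← hg']
      rfl
    · rw [mul_assoc]
      exact hEXP c _ hxy g' hg' _ hgc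
  -- the element
  have hc := c⁻¹.2
  have hcinv : c.1 * c⁻¹.1 = 1 := by rw [← Units.val_mul, mul_inv_cancel]; rfl
  have hcinv' : c⁻¹.1 * c.1 = 1 := by rw [← Units.val_mul, inv_mul_cancel]; rfl
  let g : GL ι ℂ := f * c⁻¹
  have hg : g.1 = f.1 * c⁻¹.1 := rfl
  obtain ⟨⟨x, y⟩, hxy⟩ := (S.mem_range g.1).2 (fun B hB => by
    obtain ⟨B', hB'a, hB'⟩ := hB
    have h1 := hf B B' hB'a hB'
    rw [hg]
    calc f.1 * c⁻¹.1 * mC B = f.1 * (c⁻¹.1 * (mC B * c.1)) * c⁻¹.1 := by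
          simp only [mul_assoc, hcinv, mul_one]
      _ = f.1 * B' * c⁻¹.1 := by rw [← hB', ← mul_assoc c⁻¹.1, hcinv', one_mul]
      _ = mC B * (f.1 * c⁻¹.1) := by rw [h1, mul_assoc])
  have hgψ : g.1ᵀ * mC ψ * g.1 = μ • mC ψ := by
    rw [hg, Matrix.transpose_mul]
    calc (c⁻¹.1ᵀ * f.1ᵀ) * mC ψ * (f.1 * c⁻¹.1) = c⁻¹.1ᵀ * (f.1ᵀ * mC ψ * f.1) * c⁻¹.1 := by
          simp only [mul_assoc]
      _ = μ • ((c⁻¹.1ᵀ * c.1ᵀ) * mC ψ * (c.1 * c⁻¹.1)) := by
          rw [hμ]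
          simp only [Matrix.mul_smul, Matrix.smul_mul, mul_assoc]
      _ = _ := by rw [← Matrix.transpose_mul, hcinv, Matrix.transpose_one, one_mul, mul_one]
  have hadjg : adj (mC ψ) g.1 * g.1 = μ • 1 := by
    rw [adj, mul_assoc, mul_assoc, ← mul_assoc g.1ᵀ, hgψ, Matrix.mul_smul,
      Matrix.nonsing_inv_mul _ hψu]
  have hμ0 : μ ≠ 0 := by
    rintro rfl
    rw [zero_smul] at hgψ
    have h1 := congrArg Matrix.det hgψ
    rw [Matrix.det_mul, Matrix.det_mul, Matrix.det_transpose, Matrix.det_zero] at h1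
    have hgd : g.1.det ≠ 0 := ((Matrix.isUnit_iff_isUnit_det _).1 g.isUnit).ne_zero
    exact (mul_ne_zero (mul_ne_zero hgd hψdet) hgd) h1
  rw [← hxy, S.adj_Ψ, ← map_mul] at hadjg
  have h2 : (μ • (1 : Matrix ι ι ℂ)) = S.Ψ (μ • 1) := by rw [map_smul, map_one]
  rw [h2] at hadjg
  have h3 := S.inj hadjg
  have hdet : ∀ k, (x k).det = μ := by
    intro k
    have h4 : (x k).adjugate * x k = μ • 1 := congrFun (congrArg Prod.fst h3) k
    rw [Matrix.adjugate_mul] at h4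
    have h5 := congrFun (congrFun h4 0) 0
    simpa using h5
  have hyy : ∀ s, y s * y (S.τ s) = μ := by
    intro s
    have h4 : y (S.τ s) * y s = μ • (1 : ℂ) := congrFun (congrArg Prod.snd h3) s
    rw [mul_comm, h4, smul_eq_mul, mul_one]
  have hmem : ((x, y) : EA S.κ S.σ) ∈ T := by
    refine hGENR S.κ S.σ S.τ (lam S hHalf) (fun n χ hn h => lam_sat S hHalf n χ hn h)
      (fun s t => lam_pairs S hHalf s t) T hT1 ?_ ?_ μ hμ0 x y hdet hyy
      (rel_prod S hHalf hRel hxy)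
    · intro x hx t ht
      have := hTexp x 0 (hsl x hx) t ht
      simpa using this
    · intro m y hy hyΛ t ht
      have := hTexp (fun _ => (m / 2) • 1) y
        (htor m y hy fun f hf => odd_sum S hHalf hyΛ hf) t ht
      have h5 : NormedSpace.exp ((m / 2) • (1 : Matrix (Fin 2) (Fin 2) ℂ)) =
          Complex.exp (m / 2) • 1 := by
        have h6 : ((m / 2) • (1 : Matrix (Fin 2) (Fin 2) ℂ)) =
            Matrix.diagonal (fun _ => m / 2) := by
          rw [Matrix.smul_one_eq_diagonal]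
        rw [h6, Matrix.exp_diagonal, Matrix.smul_one_eq_diagonal]
        congr 1
        funext i
        rw [Pi.coe_exp, Complex.exp_eq_exp_ℂ]
      rw [h5] at this
      exact this
  obtain ⟨g', hg', hgc⟩ := hmem
  have : g' = g := Units.ext (by rw [hg', hxy])
  rw [this] at hgc
  have h7 : g * c = f := by simp [g]
  rwa [h7] at hgc

end Pool.Agent.Lib.MPf11a48.CMM
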