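import Pool.Agent.Lib.MP_f11a48_ag.CMM.Spec

/-! # Logarithms of a point of the group defined by a saturated lattice of characters -/

set_option autoImplicit false

namespace Pool.Agent.Lib.MPf11a48.CMM

namespace SatM

/-- a saturated subgroup of `ℤ^σ` is a direct summand -/
theorem exists_proj {σ : Type} [Fintype σ] (L : Submodule ℤ (σ → ℤ))
    (hsat : ∀ (n : ℤ) (χ : σ → ℤ), n ≠ 0 → n • χ ∈ L → χ ∈ L) :
    ∃ P : (σ → ℤ) →ₗ[ℤ] (σ → ℤ), (∀ x ∈ L, P x = x) ∧ ∀ y, P y ∈ L := by
  have htf : Module.IsTorsionFree ℤ ((σ → ℤ) ⧸ L) := by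
    refine ⟨fun n hn => ?_⟩
    have hn0 : n ≠ 0 := hn.ne_zero
    intro a b hab
    induction a using Submodule.Quotient.induction_on with
    | H a =>
      induction b using Submodule.Quotient.induction_on with
      | H b =>
        change n • (Submodule.Quotient.mk a : (σ → ℤ) ⧸ L) = n • Submodule.Quotient.mk b at hab
        rw [← Submodule.Quotient.mk_smul, ← Submodule.Quotient.mk_smul,
          Submodule.Quotient.eq, ← smul_sub] at hab
        rw [Submodule.Quotient.eq]
        exact hsat n _ hn0 hab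
  have hfree : Module.Free ℤ ((σ → ℤ) ⧸ L) := Module.free_of_finite_type_torsion_free'
  obtain ⟨h, hh⟩ := Module.projective_lifting_property L.mkQ
    (LinearMap.id : ((σ → ℤ) ⧸ L) →ₗ[ℤ] ((σ → ℤ) ⧸ L)) L.mkQ_surjective
  have hh' : ∀ q, L.mkQ (h q) = q := fun q => LinearMap.congr_fun hh q
  refine ⟨LinearMap.id - h ∘ₗ L.mkQ, fun x hx => ?_, fun y => ?_⟩
  · have h0 : L.mkQ x = 0 := by
      rw [Submodule.mkQ_apply]
      exact (Submodule.Quotient.mk_eq_zero L).2 hx
    rw [LinearMap.sub_apply, LinearMap.comp_apply, h0, map_zero, sub_zero, LinearMap.id_apply]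
  · have h0 : L.mkQ (y - h (L.mkQ y)) = 0 := by
      rw [map_sub, hh', sub_self]
    rw [Submodule.mkQ_apply] at h0
    exact (Submodule.Quotient.mk_eq_zero L).1 h0

end SatM

theorem specSat : SpecSat := by
  intro σ _ _ Λ hsat y hy hrel
  obtain ⟨P, hP, hPL⟩ := SatM.exists_proj (AddSubgroup.toIntSubmodule Λ) hsat
  have hlog : ∀ s, Complex.exp (Complex.log (y s)) = y s := fun s => Complex.exp_log (hy s)
  have h1 : ∀ χ : σ → ℤ, χ ∈ Λ →
      ∃ n : ℤ, ∑ s, (χ s : ℂ) * Complex.log (y s) = n * (2 * Real.pi * Complex.I) := by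
    intro χ hχ
    rw [← Complex.exp_eq_one_iff, Complex.exp_sum, ← hrel χ hχ]
    refine Finset.prod_congr rfl fun s _ => ?_
    rw [Complex.exp_int_mul, hlog]
  have h2 : ∀ s : σ, P (Pi.single s 1) ∈ Λ := fun s => hPL _
  choose n hn using fun s => h1 _ (h2 s)
  refine ⟨fun s => Complex.log (y s) - n s * (2 * Real.pi * Complex.I), fun s => ?_, ?_⟩
  · rw [Complex.exp_sub, hlog, Complex.exp_int_mul_two_pi_mul_I, div_one]
  · intro χ hχ
    have h3 : χ = ∑ s, χ s • P (Pi.single s 1) := by
      have h4 : χ = ∑ s, χ s • (Pi.single s 1 : σ → ℤ) := by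
        funext t
        rw [Finset.sum_apply]
        simp [Pi.single_apply]
      calc χ = P χ := (hP χ hχ).symm
        _ = P (∑ s, χ s • (Pi.single s 1 : σ → ℤ)) := by rw [← h4]
        _ = _ := by rw [map_sum]; simp only [map_smul]
    have h5 : ∀ t, (χ t : ℂ) = ∑ s, (χ s : ℂ) * ((P (Pi.single s 1) t : ℤ) : ℂ) := by
      intro t
      have h6 := congrFun h3 t
      rw [Finset.sum_apply] at h6
      have h7 := congrArg (fun z : ℤ => (z : ℂ)) h6
      simpa using h7
    have h6 : ∑ s, (χ s : ℂ) * Complex.log (y s) =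
        ∑ s, (χ s : ℂ) * (n s * (2 * Real.pi * Complex.I)) := by
      calc ∑ s, (χ s : ℂ) * Complex.log (y s)
          = ∑ t, ∑ s, (χ s : ℂ) * (((P (Pi.single s 1) t : ℤ) : ℂ) * Complex.log (y t)) := by
            refine Finset.sum_congr rfl fun t _ => ?_
            rw [h5 t, Finset.sum_mul]
            refine Finset.sum_congr rfl fun s _ => ?_
            ring
        _ = ∑ s, (χ s : ℂ) * (n s * (2 * Real.pi * Complex.I)) := by
            rw [Finset.sum_comm]
            refine Finset.sum_congr rfl fun s _ => ?_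
            rw [← hn s, Finset.mul_sum]
    simp only [mul_sub, Finset.sum_sub_distrib]
    rw [h6, sub_self]

end Pool.Agent.Lib.MPf11a48.CMM
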