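import Pool.Agent.Lib.MP_f11a48_ag.CMM.Spec
import Pool.Agent.Lib.MP_f11a48_ag.U.Hda
import Pool.Agent.Lib.MP_f11a48_ag.U.Tor

/-!
# Module TAN: the tangent space of an abelian variety
-/

set_option autoImplicit false

namespace Pool.Agent.Lib.MPf11a48.CMM

open Matrix MvPolynomial
open Pool.Agent.Lib.MPf11a48.CM hiding OmegaM
open Pool.Agent.Lib.MPf11a48.GL2T
open Pool.Agent.Lib.MPf11a48.U
open Pool.Agent.Lib.MPf11a48.K3 (cx)

namespace TanM

section Eigen

variable {ι : Type} [Fintype ι] [DecidableEq ι] {c : GL ι ℂ} {ψ : Matrix ι ι ℚ}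

theorem eig_proj (S : Str c ψ) (j : S.σ) {v : ι → ℂ} (hv : Eig (S.ev (Sum.inr j)) v) :
    v ᵥ* TORM.cenL S (Pi.single (Sum.inr j) 1) = v := by
  classical
  -- the components
  have hcomp : ∀ e : S.κ ⊕ S.σ, e ≠ Sum.inr j → v ᵥ* TORM.cenL S (Pi.single e 1) = 0 := by
    intro e he
    by_contra hne
    apply he
    apply S.ev.injective
    ext1 z
    have h1 : mC z.1 * TORM.cenL S (Pi.single e 1) =
        TORM.pt S z e • TORM.cenL S (Pi.single e 1) := by
      rw [← TORM.cen_pt, ← TORM.cen_mul, ← map_smul]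
      congr 1
      funext e'
      by_cases h : e' = e
      · subst h
        simp
      · simp [Pi.single_eq_of_ne h]
    have h2 := hv z
    have h3 : v ᵥ* (mC z.1 * TORM.cenL S (Pi.single e 1)) =
        ((S.ev (Sum.inr j) z : Qbar) : ℂ) • (v ᵥ* TORM.cenL S (Pi.single e 1)) := by
      rw [← Matrix.vecMul_vecMul]
      have h4 : v ᵥ* mC z.1 = ((S.ev (Sum.inr j) z : Qbar) : ℂ) • v := h2
      rw [h4, Matrix.smul_vecMul]
    rw [h1, Matrix.vecMul_smul] at h3
    have h5 : TORM.pt S z e = ((S.ev (Sum.inr j) z : Qbar) : ℂ) :=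
      smul_left_injective ℂ hne h3
    exact Subtype.ext h5
  have h1 : ∑ e, TORM.cenL S (Pi.single e 1) = 1 := by
    rw [← TORM.cen_one S, ← TORM.cen_sum S 1]
    simp
  have h2 : v ᵥ* (∑ e, TORM.cenL S (Pi.single e 1)) = v := by rw [h1, Matrix.vecMul_one]
  rw [Matrix.vecMul_sum, Finset.sum_eq_single (Sum.inr j)] at h2
  · exact h2
  · intro e _ he
    exact hcomp e he
  · intro h
    exact absurd (Finset.mem_univ _) h

theorem single_Ψ (S : Str c ψ) (j : S.σ) (x : S.κ → Matrix (Fin 2) (Fin 2) ℂ) (y : S.σ → ℂ) :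
    TORM.cenL S (Pi.single (Sum.inr j) 1) * S.Ψ (x, y) =
      y j • TORM.cenL S (Pi.single (Sum.inr j) 1) := by
  classical
  rw [TORM.cenL_apply, TORM.cen, ← map_mul, ← map_smul]
  congr 1
  refine Prod.ext ?_ ?_
  · funext k
    simp
  · funext s
    by_cases h : s = j
    · subst h
      simp
    · have h2 : (Sum.inr s : S.κ ⊕ S.σ) ≠ Sum.inr j := fun h3 => h (Sum.inr_injective h3)
      simp [Pi.single_eq_of_ne h2]

theorem eig_Ψ (S : Str c ψ) (j : S.σ) {v : ι → ℂ} (hv : Eig (S.ev (Sum.inr j)) v)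
    (x : S.κ → Matrix (Fin 2) (Fin 2) ℂ) (y : S.σ → ℂ) :
    v ᵥ* S.Ψ (x, y) = y j • v := by
  conv_lhs => rw [← eig_proj S j hv]
  rw [Matrix.vecMul_vecMul, single_Ψ, Matrix.vecMul_smul, eig_proj S j hv]

/-- there is a non-zero eigenvector -/
theorem exists_eig (S : Str c ψ) (j : S.σ) : ∃ v : ι → ℂ, v ≠ 0 ∧ Eig (S.ev (Sum.inr j)) v := by
  classical
  set P := TORM.cenL S (Pi.single (Sum.inr j) 1) with hP
  have hP0 : P ≠ 0 := by
    intro h
    have h1 : (Pi.single (Sum.inr j) 1 : S.κ ⊕ S.σ → ℂ) = 0 := by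
      apply TORM.cen_inj S
      rw [← hP, h, map_zero]
    have h2 := congrFun h1 (Sum.inr j)
    simp at h2
  obtain ⟨a, ha⟩ : ∃ a, P a ≠ 0 := by
    by_contra hcon
    push Not at hcon
    exact hP0 (funext hcon)
  refine ⟨P a, ha, fun z => ?_⟩
  have h1 : P * mC z.1 = ((S.ev (Sum.inr j) z : Qbar) : ℂ) • P := by
    rw [S.ev_spec z, hP, single_Ψ]
  have h2 : P a ᵥ* mC z.1 = (P * mC z.1) a := rfl
  change P a ᵥ* mC z.1 = _
  rw [h2, h1]
  rfl

end Eigen

section Lattice

variable {g : ℕ}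

/-- the complex linear combination of the lattice vectors -/
noncomputable def Lc (lat : Ix g → (Fin g → ℂ)) (v : Ix g → ℂ) : Fin g → ℂ := ∑ l, v l • lat l

theorem Lc_smul (lat : Ix g → (Fin g → ℂ)) (r : ℂ) (v : Ix g → ℂ) :
    Lc lat (r • v) = r • Lc lat v := by
  unfold Lc
  rw [Finset.smul_sum]
  refine Finset.sum_congr rfl fun l _ => ?_
  rw [Pi.smul_apply, smul_eq_mul, smul_smul]

theorem Lc_J (lat : Ix g → (Fin g → ℂ)) (h : LinearIndependent ℝ lat) (v : Ix g → ℂ) :
    Lc lat (v ᵥ* (HDAM.JM lat h).map (fun x => (x : ℂ))) = Complex.I • Lc lat v := by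
  unfold Lc
  have h1 : ∀ b, (v ᵥ* (HDAM.JM lat h).map (fun x => (x : ℂ))) b • lat b =
      ∑ a, v a • ((HDAM.JM lat h a b : ℂ) • lat b) := by
    intro b
    simp only [Matrix.vecMul, dotProduct, Matrix.map_apply, Finset.sum_smul, smul_smul]
  rw [Finset.sum_congr rfl fun b _ => h1 b, Finset.sum_comm, Finset.smul_sum]
  refine Finset.sum_congr rfl fun a _ => ?_
  rw [← Finset.smul_sum, HDAM.JM_spec lat h a, smul_comm]

theorem Lc_zero (lat : Ix g → (Fin g → ℂ)) (h : LinearIndependent ℝ lat) (v : Ix g → ℂ)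
    (h1 : Lc lat v = 0) (h2 : Lc lat (fun l => (starRingEnd ℂ) (v l)) = 0) : v = 0 := by
  have hre : (fun l => (v l).re) = 0 := by
    apply HDAM.ind_real h
    have h3 : Lc lat v + Lc lat (fun l => (starRingEnd ℂ) (v l)) =
        (2 : ℂ) • ∑ l, ((v l).re : ℂ) • lat l := by
      unfold Lc
      rw [← Finset.sum_add_distrib, Finset.smul_sum]
      refine Finset.sum_congr rfl fun l _ => ?_
      rw [← add_smul, smul_smul, Complex.add_conj]
      push_cast
      rfl
    rw [h1, h2, add_zero] at h3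
    have h4 := (smul_eq_zero.1 h3.symm).resolve_left two_ne_zero
    rw [h4]
    simp
  have him : (fun l => (v l).im) = 0 := by
    apply HDAM.ind_real h
    have h3 : Lc lat v - Lc lat (fun l => (starRingEnd ℂ) (v l)) =
        (2 * Complex.I : ℂ) • ∑ l, ((v l).im : ℂ) • lat l := by
      unfold Lc
      rw [← Finset.sum_sub_distrib, Finset.smul_sum]
      refine Finset.sum_congr rfl fun l _ => ?_
      rw [← sub_smul, smul_smul, Complex.sub_conj]
      congr 1
      push_cast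
      ring
    rw [h1, h2, sub_zero] at h3
    have h4 := (smul_eq_zero.1 h3.symm).resolve_left
      (mul_ne_zero two_ne_zero Complex.I_ne_zero)
    rw [h4]
    simp
  funext l
  have h5 := congrFun hre l
  have h6 := congrFun him l
  exact Complex.ext h5 h6

end Lattice

end TanM

open TanM in
theorem specTan (hTP : SpecTP) (hPROD : SpecPROD) (hGROW : SpecGROW) (hLEG : SpecLEG)
    (hBIC : SpecBIC) (hSTR : SpecSTR) : SpecTan := by
  intro K g N A c hK hA hc hGL
  obtain ⟨⟨J', hJ'⟩, -⟩ := specHDA hTP hPROD hGROW hLEG K g N A c hK hA hc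
  obtain ⟨S⟩ := hSTR c J' A.psi hJ' hGL
  have huniq : ∀ s s' s'' : EmbC c.1, IsBar A.psi s s' → IsBar A.psi s s'' → s' = s'' :=
    fun s s' s'' h1 h2 => TORM.isBar_unique hBIC hJ' h1 h2
  have hsym : ∀ s s' : EmbC c.1, IsBar A.psi s s' → IsBar A.psi s' s := by
    intro s s' h
    obtain ⟨e, rfl⟩ := S.ev.surjective s
    have h1 : s' = S.ev (TORM.bar S e) := huniq _ _ _ h (TORM.isBar_bar S e)
    rw [h1]
    have h2 := TORM.isBar_bar S (TORM.bar S e)
    rwa [TORM.bar_bar] at h2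
  refine ⟨fun s => ?_, huniq, hsym, ?_, ?_, ?_⟩
  · obtain ⟨e, rfl⟩ := S.ev.surjective s
    exact ⟨_, TORM.isBar_bar S e⟩
  · intro s s' z h
    obtain ⟨e, rfl⟩ := S.ev.surjective s
    have h1 : s' = S.ev (TORM.bar S e) := huniq _ _ _ h (TORM.isBar_bar S e)
    rw [h1]
    exact TORM.conj_ev S e z
  · intro γ s s' h z z' hz
    have h1 := h z z' hz
    change γ (s' z) = γ (s z')
    rw [h1]
  -- the complex structure
  set J := HDAM.JM A.lat hA.lat_indep with hJ
  set JC : Matrix (Ix g) (Ix g) ℂ := J.map (fun x => (x : ℂ)) with hJC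
  have hG := hGROW K g N A c hK hA hc
  have hmul : ∀ X Y : Matrix (Ix g) (Ix g) ℝ,
      (X * Y).map (fun x => (x : ℂ)) = X.map (fun x => (x : ℂ)) * Y.map (fun x => (x : ℂ)) :=
    fun X Y => Matrix.map_mul (f := Complex.ofRealHom) (L := X) (M := Y)
  have hcomm : ∀ B ∈ EndAlg c.1, JC * mC B = mC B * JC := by
    intro B hB
    have h1 := HDAM.endo_comm hTP hPROD hG hA hc hB
    have h2 : (mR B).map (fun x => (x : ℂ)) = mC B := by
      ext i j
      simp [mR, mC]
    have h3 := congrArg (fun M : Matrix (Ix g) (Ix g) ℝ => M.map (fun x => (x : ℂ))) h1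
    simp only [hmul, h2] at h3
    exact h3
  obtain ⟨⟨x, y⟩, hxy⟩ := (S.mem_range JC).2 hcomm
  have hsq : JC * JC = -1 := by
    rw [hJC, ← hmul, hJ, HDAM.JM_sq A.lat hA.lat_indep]
    ext i j
    by_cases hij : i = j
    · subst hij
      simp
    · simp [Matrix.one_apply_ne hij]
  have hy2 : ∀ j, y j * y j = -1 := by
    intro j
    have h1 : S.Ψ ((x, y) * (x, y)) = S.Ψ (-1) := by
      rw [map_mul, hxy, hsq, map_neg, map_one]
    have h2 := S.inj h1
    have h3 := congrArg Prod.snd h2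
    exact congrFun h3 j
  -- the adjoint
  have hEC : (HDAM.ER A).map (fun x => (x : ℂ)) = mC (A.E.map (fun x => (x : ℚ))) := by
    ext i j
    simp [HDAM.ER, mC]
  have hEJ : JC * mC (A.E.map (fun x => (x : ℚ))) * JCᵀ = mC (A.E.map (fun x => (x : ℚ))) := by
    have h1 := congrArg (fun M : Matrix (Ix g) (Ix g) ℝ => M.map (fun x => (x : ℂ)))
      (HDAM.E_J hA)
    simp only [hmul, hEC] at h1
    exact h1
  have hdet : A.psi.det ≠ 0 := hJ'.det
  have hEdet : IsUnit (A.E.map (fun x => (x : ℚ))).det := by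
    rw [isUnit_iff_ne_zero]
    intro h0
    apply hdet
    change ((A.E.map (fun x => (x : ℚ)))⁻¹).det = 0
    rw [Matrix.det_nonsing_inv, h0, Ring.inverse_zero]
  have hpE : A.psi⁻¹ = A.E.map (fun x => (x : ℚ)) := by
    change ((A.E.map (fun x => (x : ℚ)))⁻¹)⁻¹ = _
    exact Matrix.nonsing_inv_nonsing_inv _ hEdet
  have hadj : adj (mC A.psi) JC = -JC := by
    unfold adj
    rw [← BicM.mC_inv hdet, hpE]
    have h1 : mC (A.E.map (fun x => (x : ℚ))) * JCᵀ = -(JC * mC (A.E.map (fun x => (x : ℚ)))) := by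
      have h2 := congrArg (fun M => JC * M) hEJ
      simp only [← Matrix.mul_assoc, hsq] at h2
      rw [neg_one_mul, neg_mul] at h2
      rw [← h2, neg_neg]
    rw [h1, neg_mul, Matrix.mul_assoc, ← hpE, BicM.mC_inv_mul hdet, Matrix.mul_one]
  have hyτ : ∀ j, y (S.τ j) = - y j := by
    intro j
    have h1 : S.Ψ (fun k => (x k).adjugate, fun s => y (S.τ s)) = S.Ψ (-(x, y)) := by
      rw [← S.adj_Ψ, hxy, hadj, map_neg, hxy]
    have h3 := congrArg Prod.snd (S.inj h1)
    exact congrFun h3 j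
  have hyI : ∀ j, y j = Complex.I ∨ y j = -Complex.I := by
    intro j
    have h1 : (y j - Complex.I) * (y j + Complex.I) = 0 := by
      linear_combination hy2 j - Complex.I_mul_I
    rcases mul_eq_zero.1 h1 with h | h
    · exact Or.inl (sub_eq_zero.1 h)
    · exact Or.inr (eq_neg_of_add_eq_zero_left h)
  have hII : Complex.I ≠ -Complex.I := by
    intro h
    have h1 := congrArg Complex.im h
    simp at h1
    norm_num at h1
  -- the description of `Tan`
  have hTan : ∀ j, S.ev (Sum.inr j) ∈ Tan A c.1 ↔ y j = Complex.I := by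
    intro j
    constructor
    · rintro ⟨v, hv, hne⟩
      have h1 := eig_Ψ S j hv x y
      rw [hxy] at h1
      have h2 := Lc_J A.lat hA.lat_indep v
      have h3 : Lc A.lat (v ᵥ* JC) = Complex.I • Lc A.lat v := h2
      rw [h1, Lc_smul] at h3
      exact smul_left_injective ℂ (show Lc A.lat v ≠ 0 from hne) h3
    · intro hy
      obtain ⟨v, hv0, hv⟩ := exists_eig S j
      refine ⟨v, hv, fun h0 => hv0 ?_⟩
      apply Lc_zero A.lat hA.lat_indep v h0
      have h1 := eig_Ψ S j hv x y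
      rw [hxy, hy] at h1
      set w : Ix g → ℂ := fun l => (starRingEnd ℂ) (v l) with hw
      have h2 : w ᵥ* JC = (-Complex.I) • w := by
        funext b
        have h3 := congrArg (starRingEnd ℂ) (congrFun h1 b)
        simp only [Matrix.vecMul, dotProduct, map_sum, map_mul, Pi.smul_apply, smul_eq_mul,
          Complex.conj_I] at h3
        simp only [Matrix.vecMul, dotProduct, Pi.smul_apply, smul_eq_mul, hw]
        rw [← h3]
        refine Finset.sum_congr rfl fun a _ => ?_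
        rw [hJC, Matrix.map_apply, Complex.conj_ofReal]
      have h3 : Lc A.lat (w ᵥ* JC) = Complex.I • Lc A.lat w := Lc_J A.lat hA.lat_indep w
      rw [h2, Lc_smul] at h3
      by_contra hne
      exact hII (smul_left_injective ℂ hne h3).symm
  intro s s' h hne
  obtain ⟨e, rfl⟩ := S.ev.surjective s
  have h1 : s' = S.ev (TORM.bar S e) := huniq _ _ _ h (TORM.isBar_bar S e)
  rcases e with k | j
  · exact absurd h1.symm hne
  · rw [h1]
    change S.ev (Sum.inr (S.τ j)) ∈ Tan A c.1 ↔ S.ev (Sum.inr j) ∉ Tan A c.1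
    rw [hTan, hTan, hyτ]
    rcases hyI j with h2 | h2
    · rw [h2]
      exact ⟨fun h3 => absurd h3.symm hII, fun h3 => absurd rfl h3⟩
    · rw [h2, neg_neg]
      exact ⟨fun _ h3 => hII h3.symm, fun _ => rfl⟩

end Pool.Agent.Lib.MPf11a48.CMM
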