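import Pool.Agent.Lib.MP_f11a48_ag.CMM.Spec
import Pool.Agent.Lib.MP_f11a48_ag.U.Tor

/-!
# Motives of complex multiplication type, module TORR: the central part of the Lie algebra
-/

set_option autoImplicit false

namespace Pool.Agent.Lib.MPf11a48.CMM

open Matrix MvPolynomial
open Pool.Agent.Lib.MPf11a48.CM hiding OmegaM
open Pool.Agent.Lib.MPf11a48.GL2T
open Pool.Agent.Lib.MPf11a48.U
open Pool.Agent.Lib.MPf11a48.K3 (cx)

namespace TorrM

open TORM

variable {ι : Type} [Fintype ι] [DecidableEq ι] {c : GL ι ℂ} {ψ : Matrix ι ι ℚ} (S : Str c ψ)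

/-- `OddH ≤ oddRel`. -/
theorem oddH_le {T : Set (EmbC c.1)} (hlie : LieRel c ψ T) : OddH ψ T ≤ oddRel S := by
  intro f hf
  refine ⟨fun z hz => ?_, hf.1⟩
  apply Subtype.ext
  rw [coe_rel]
  have h1 := hlie z hz f hf
  rw [← Equiv.sum_comp S.ev] at h1
  exact h1

/-- All odd relations are relations between the CM types: this uses `SepR`. -/
theorem oddRel_le (hL : SpecLIN) (hSIM : SpecSIM) (hB : SpecBIC) {J : Matrix ι ι ℝ}
    (h : HD c J ψ) {T : Set (EmbC c.1)} (hsep : SepR ψ T) (hlie : LieRel c ψ T)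
    (hsl : ∀ x : S.κ → Matrix (Fin 2) (Fin 2) ℂ, (∀ k, (x k).trace = 0) → InH c (S.Ψ (x, 0))) :
    oddRel S ≤ OddH ψ T := by
  rcases hsep (oddRel S) (oddH_le S hlie) (fun f hf => hf.2) (by
    intro γ f hf
    refine ⟨fun z hz => ?_, fun s s' hs => ?_⟩
    · have h1 := rel_gal S γ f z
      rw [hf.1 z hz] at h1
      exact (map_eq_zero_iff γ γ.injective).1 h1
    · refine hf.2 _ _ fun z z' hz => ?_
      exact congrArg γ (hs z z' hz)) with h1 | ⟨s, s', t, t', hs, ht, hd, hdn⟩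
  · exact h1
  exfalso
  -- indices
  obtain ⟨e, rfl⟩ := S.ev.surjective s
  obtain ⟨e', rfl⟩ := S.ev.surjective t
  have hs' : s' = S.ev (bar S e) := isBar_unique hB h hs (isBar_bar S e)
  have ht' : t' = S.ev (bar S e') := isBar_unique hB h ht (isBar_bar S e')
  subst hs' ht'
  -- the relation on all central elements
  have hrel : ∀ x : S.κ ⊕ S.σ → ℂ, InH c (cenL S x) →
      x e - x (bar S e) - (x e' - x (bar S e')) = 0 := by
    intro x hx
    have h1 := rel_ext S hL hSIM hB h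
      (f := fun i => (delta (S.ev e) (S.ev (bar S e)) - delta (S.ev e') (S.ev (bar S e'))) (S.ev i))
      (fun z hz => by
        rw [← coe_rel, hd.1 z hz]
        rfl) hx
    classical
    have h2 : ∀ i₀, ∑ i, (((Pi.single (S.ev i₀) 1 : EmbC c.1 → ℚ) (S.ev i) : ℚ) : ℂ) * x i =
        x i₀ := by
      intro i₀
      rw [Finset.sum_eq_single i₀]
      · simp
      · intro b _ hb
        rw [Pi.single_eq_of_ne (S.ev.injective.ne hb)]
        simp
      · intro h3
        exact absurd (Finset.mem_univ _) h3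
    rw [← h1]
    simp only [delta, Pi.sub_apply]
    push_cast
    simp only [sub_mul, Finset.sum_sub_distrib, h2]
  -- all elements of the Lie algebra
  have hall : ∀ x y, InH c (S.Ψ (x, y)) → ∃ m : ℂ, InH c (cenL S (Sum.elim (fun _ => m / 2) y)) ∧
      (∀ i, (Sum.elim (fun _ => m / 2) y : S.κ ⊕ S.σ → ℂ) i +
        (Sum.elim (fun _ => m / 2) y : S.κ ⊕ S.σ → ℂ) (bar S i) = m) := by
    intro x y hx
    obtain ⟨m, hm⟩ := (hSIM c J ψ h).2.1 _ hx
    obtain ⟨h1, h2⟩ := decomp S hL h hsl hx hm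
    refine ⟨m, h2, ?_⟩
    rintro (k | s)
    · exact add_halves m
    · exact h1 s
  have key : ∀ x y, InH c (S.Ψ (x, y)) → ∃ m : ℂ,
      (Sum.elim (fun _ => m / 2) y : S.κ ⊕ S.σ → ℂ) e =
        (Sum.elim (fun _ => m / 2) y : S.κ ⊕ S.σ → ℂ) e' ∧
      (Sum.elim (fun _ => m / 2) y : S.κ ⊕ S.σ → ℂ) (bar S e) =
        (Sum.elim (fun _ => m / 2) y : S.κ ⊕ S.σ → ℂ) (bar S e') := by
    intro x y hx
    obtain ⟨m, h1, h2⟩ := hall x y hx
    have h3 := hrel _ h1
    have h4 := h2 e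
    have h5 := h2 e'
    refine ⟨m, ?_, ?_⟩
    · linear_combination h3 / 2 + h4 / 2 - h5 / 2
    · linear_combination -h3 / 2 + h4 / 2 - h5 / 2
  rcases e with k | s <;> rcases e' with k' | t
  · apply hdn
    change delta (S.ev (Sum.inl k)) (S.ev (Sum.inl k)) =
      delta (S.ev (Sum.inl k')) (S.ev (Sum.inl k'))
    simp [delta]
  · refine S.τ_ne t (eq_of_agree S hB h fun x y hx => ?_)
    obtain ⟨m, h1, h2⟩ := key x y hx
    exact (h2.symm.trans h1 : _)
  · refine S.τ_ne s (eq_of_agree S hB h fun x y hx => ?_)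
    obtain ⟨m, h1, h2⟩ := key x y hx
    exact (h2.trans h1.symm : _)
  · have hst : s = t := eq_of_agree S hB h fun x y hx => by
      obtain ⟨m, h1, h2⟩ := key x y hx
      exact h1
    subst hst
    exact hdn rfl

/-- The conjugate of a relation is a relation; the odd part of a relation is in `oddRel`. -/
theorem odd_part (hB : SpecBIC) {J : Matrix ι ι ℝ} (h : HD c J ψ) {f : S.κ ⊕ S.σ → ℚ}
    (hf : ∀ z : CenAlg c.1, InH c (mC z.1) → ∑ e, (f e : ℂ) * pt S z e = 0) :
    (∀ z : CenAlg c.1, InH c (mC z.1) → ∑ e, (f (bar S e) : ℂ) * pt S z e = 0) ∧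
    (fun s => f (S.ev.symm s) - f (bar S (S.ev.symm s))) ∈ oddRel S := by
  have hfb : ∀ z : CenAlg c.1, InH c (mC z.1) → ∑ e, (f (bar S e) : ℂ) * pt S z e = 0 := by
    intro z hz
    have h1 := congrArg (starRingEnd ℂ) (hf z hz)
    rw [map_sum, map_zero] at h1
    rw [← h1, ← Equiv.sum_comp (barE S)]
    refine Finset.sum_congr rfl fun e _ => ?_
    change (f (bar S (bar S e)) : ℂ) * pt S z (bar S e) = _
    rw [TORM.bar_bar, map_mul, pt, pt, conj_ev]
    congr 1
    exact (map_ratCast (starRingEnd ℂ) (f e)).symm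
  refine ⟨hfb, ?_⟩
  set g : EmbC c.1 → ℚ := fun s => f (S.ev.symm s) - f (bar S (S.ev.symm s)) with hg
  refine ⟨fun z hz => ?_, fun s s' hs => ?_⟩
  · apply Subtype.ext
    rw [coe_rel]
    have h1 : ∀ e, (g (S.ev e) : ℂ) * pt S z e =
        (f e : ℂ) * pt S z e - (f (bar S e) : ℂ) * pt S z e := by
      intro e
      rw [hg]
      simp only [Equiv.symm_apply_apply]
      push_cast
      ring
    simp only [h1, Finset.sum_sub_distrib, hf z hz, hfb z hz, sub_zero]
    rfl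
  · have h1 : s' = S.ev (bar S (S.ev.symm s)) := by
      refine isBar_unique hB h hs ?_
      have := isBar_bar S (S.ev.symm s)
      rwa [Equiv.apply_symm_apply] at this
    rw [h1, hg]
    simp only [Equiv.symm_apply_apply, TORM.bar_bar]
    ring

end TorrM

open TORM TorrM

theorem specTorr (hL : SpecLIN) (hSIM : SpecSIM) (hB : SpecBIC) (hALG : SpecALG) : SpecTorr := by
  intro ι _ _ c J ψ T S h hsep hlie hsl m y hy hyrel
  obtain ⟨n, z, hz⟩ := Submodule.fg_iff_exists_fin_generating_family.1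
    (IsNoetherian.noetherian (cQ hL c))
  have hzm : ∀ i, z i ∈ cQ hL c := fun i => by
    rw [← hz]
    exact Submodule.subset_span ⟨i, rfl⟩
  let zc : Fin n → CenAlg c.1 := fun i => ⟨z i, (hzm i).2⟩
  let x₀ : S.κ ⊕ S.σ → ℂ := fun e => ∑ i : Fin n, (Real.pi : ℂ) ^ (i : ℕ) * pt S (zc i) e
  have hx₀ : InH c (cenL S x₀) := by
    have h1 : cenL S x₀ = ∑ i : Fin n, ((Real.pi : ℂ) ^ (i : ℕ)) • mC (z i) := by
      have h2 : x₀ = ∑ i : Fin n, ((Real.pi : ℂ) ^ (i : ℕ)) • pt S (zc i) := by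
        funext e
        simp [x₀, Finset.sum_apply]
      rw [h2, map_sum]
      refine Finset.sum_congr rfl fun i _ => ?_
      rw [map_smul, cen_pt]
    rw [h1]
    refine Finset.sum_induction _ (InH c) (fun X Y hX hY => (hL c).2.1 X Y hX hY) (hL c).1
      fun i _ => (hL c).2.2.1 _ _ (hzm i).1
  -- integral relations of `x₀`
  have hrel₀ : ∀ χ : S.κ ⊕ S.σ → ℤ, ∑ e, (χ e : ℂ) * x₀ e = 0 → ∀ i,
      ∑ e, (χ e : ℂ) * pt S (zc i) e = 0 := by
    intro χ hχ
    let a : Fin n → Qbar := fun i => ∑ e, (χ e : Qbar) * S.ev e (zc i)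
    have ha : ∀ i, ((a i : Qbar) : ℂ) = ∑ e, (χ e : ℂ) * pt S (zc i) e := by
      intro i
      simp only [a]
      push_cast
      rfl
    let P : Polynomial Qbar := ∑ i : Fin n, Polynomial.C (a i) * Polynomial.X ^ (i : ℕ)
    have hP : P = 0 := by
      by_contra hP
      refine Pool.Agent.Lib.MPf11a48.Tors.transcendental_pi_Qbar ⟨P, hP, ?_⟩
      simp only [P, map_sum, map_mul, Polynomial.aeval_C, map_pow, Polynomial.aeval_X]
      rw [← hχ]
      simp only [x₀, Finset.mul_sum]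
      rw [Finset.sum_comm]
      refine Finset.sum_congr rfl fun i _ => ?_
      change ((a i : Qbar) : ℂ) * _ = _
      rw [ha, Finset.sum_mul]
      exact Finset.sum_congr rfl fun e _ => by ring
    intro i
    rw [← ha]
    have h1 : P.coeff (i : ℕ) = a i := by
      simp only [P, Polynomial.finsetSum_coeff, Polynomial.coeff_C_mul_X_pow]
      rw [Finset.sum_eq_single i]
      · simp
      · intro j _ hj
        rw [if_neg]
        intro h2
        exact hj (Fin.ext h2.symm)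
      · intro h2
        exact absurd (Finset.mem_univ i) h2
    rw [← h1, hP, Polynomial.coeff_zero]
    rfl
  have hrel : ∀ χ : S.κ ⊕ S.σ → ℤ, ∑ e, (χ e : ℂ) * x₀ e = 0 →
      ∀ w : CenAlg c.1, InH c (mC w.1) → ∑ e, (((χ e : ℤ) : ℚ) : ℂ) * pt S w e = 0 := by
    intro χ hχ w hw
    have h1 : w.1 ∈ Submodule.span ℚ (Set.range z) := by
      rw [hz]
      exact ⟨hw, w.2⟩
    obtain ⟨q, hq⟩ := (Submodule.mem_span_range_iff_exists_fun ℚ).1 h1
    have h2 : w = ∑ i, q i • zc i := by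
      apply Subtype.ext
      rw [← hq]
      push_cast
      rfl
    have h3 : ∀ e, pt S w e = ∑ i, (q i : ℂ) * pt S (zc i) e := by
      intro e
      rw [pt, h2, map_sum]
      push_cast
      refine Finset.sum_congr rfl fun i _ => ?_
      rw [map_smul, Algebra.smul_def]
      push_cast
      rfl
    have h4 : ∑ e, (((χ e : ℤ) : ℚ) : ℂ) * pt S w e =
        ∑ i, (q i : ℂ) * ∑ e, (χ e : ℂ) * pt S (zc i) e := by
      simp only [h3, Finset.mul_sum]
      rw [Finset.sum_comm]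
      refine Finset.sum_congr rfl fun i _ => Finset.sum_congr rfl fun e _ => ?_
      push_cast
      ring
    rw [h4]
    exact Finset.sum_eq_zero fun i _ => by rw [hrel₀ χ hχ i, mul_zero]
  -- an element with a non-zero multiplier
  obtain ⟨X₁, hX₁, m₁, hm₁, hX₁'⟩ := (hSIM c J ψ h).2.2
  obtain ⟨⟨u, v⟩, rfl⟩ := (S.mem_range X₁).2 ((hSIM c J ψ h).1 X₁ hX₁)
  obtain ⟨h1, h2⟩ := decomp S hL h hsl hX₁ hX₁'
  have hbar : ∀ (m : ℂ) (y : S.σ → ℂ), (∀ s, y s + y (S.τ s) = m) → ∀ i,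
      (Sum.elim (fun _ => m / 2) y : S.κ ⊕ S.σ → ℂ) i +
        (Sum.elim (fun _ => m / 2) y : S.κ ⊕ S.σ → ℂ) (bar S i) = m := by
    rintro m y hy (k | s)
    · exact add_halves m
    · exact hy s
  have hsum : ∀ (χ : S.κ ⊕ S.σ → ℤ), (∀ e, χ (bar S e) = χ e) →
      ∀ (m : ℂ) (x : S.κ ⊕ S.σ → ℂ), (∀ i, x i + x (bar S i) = m) →
      2 * ∑ e, (χ e : ℂ) * x e = (∑ e, (χ e : ℂ)) * m := by
    intro χ hχ m x hx
    have h3 : ∑ e, (χ e : ℂ) * x e = ∑ e, (χ e : ℂ) * x (bar S e) := by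
      rw [← Equiv.sum_comp (barE S)]
      refine Finset.sum_congr rfl fun e _ => ?_
      change (χ (bar S e) : ℂ) * x (bar S e) = _
      rw [hχ]
    rw [two_mul]
    nth_rewrite 2 [h3]
    rw [← Finset.sum_add_distrib, Finset.sum_mul]
    refine Finset.sum_congr rfl fun e _ => ?_
    rw [← mul_add, hx]
  -- conclusion
  have hfin := hALG c (S.κ ⊕ S.σ) (fun e => cenL S (Pi.single e 1)) ?_ ?_ ?_ x₀
    (Sum.elim (fun _ => m / 2) y) ?_ ?_
  · rw [cen_sum] at hfin
    exact hfin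
  · intro s
    rw [← cen_mul]
    congr 1
    funext e
    simp [Pi.single_apply]
  · intro s t hst
    rw [← cen_mul]
    have : (Pi.single s 1 * Pi.single t 1 : S.κ ⊕ S.σ → ℂ) = 0 := by
      funext e
      simp only [Pi.mul_apply, Pi.single_apply, Pi.zero_apply]
      by_cases h3 : e = s
      · subst h3
        simp [hst]
      · simp [h3]
    rw [this, map_zero]
  · have h3 := cen_sum S 1
    simp only [Pi.one_apply, one_smul] at h3
    rw [h3, cen_one]
  · rw [cen_sum]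
    exact hx₀
  · intro χ hχ
    have h3 := hrel χ hχ
    obtain ⟨h3b, hodd⟩ := odd_part S hB h (f := fun e => ((χ e : ℤ) : ℚ)) h3
    -- the even part
    set χ' : S.κ ⊕ S.σ → ℤ := fun e => χ e + χ (bar S e) with hχ'
    have hev : ∀ e, χ' (bar S e) = χ' e := by
      intro e
      rw [hχ']
      simp only [TORM.bar_bar]
      ring
    have h3' : ∀ w : CenAlg c.1, InH c (mC w.1) →
        ∑ e, (((χ' e : ℤ) : ℚ) : ℂ) * pt S w e = 0 := by
      intro w hw
      have h4 : ∀ e, (((χ' e : ℤ) : ℚ) : ℂ) * pt S w e =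
          (((χ e : ℤ) : ℚ) : ℂ) * pt S w e + (((χ (bar S e) : ℤ) : ℚ) : ℂ) * pt S w e := by
        intro e
        rw [hχ']
        push_cast
        ring
      simp only [h4, Finset.sum_add_distrib]
      rw [h3 w hw, h3b w hw, add_zero]
    have h5 := rel_ext S hL hSIM hB h (f := fun e => ((χ' e : ℤ) : ℚ)) h3' h2
    have h6 := hsum χ' hev m₁ _ (hbar m₁ v h1)
    have h7 := hsum χ' hev m _ (hbar m y hy)
    have h8 : ∑ e, (χ' e : ℂ) * (Sum.elim (fun _ => m₁ / 2) v : S.κ ⊕ S.σ → ℂ) e = 0 := by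
      rw [← h5]
      refine Finset.sum_congr rfl fun e _ => ?_
      push_cast
      rfl
    rw [h8, mul_zero] at h6
    have h9 : ∑ e, (χ' e : ℂ) = 0 := by
      rcases mul_eq_zero.1 h6.symm with h10 | h10
      · exact h10
      · exact absurd h10 hm₁
    rw [h9, zero_mul] at h7
    -- the odd part
    have h10 := hyrel _ (oddRel_le S hL hSIM hB h hsep hlie hsl hodd)
    have h11 : ∑ e, ((χ e : ℂ) - (χ (bar S e) : ℂ)) *
        (Sum.elim (fun _ => m / 2) y : S.κ ⊕ S.σ → ℂ) e = 0 := by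
      rw [Fintype.sum_sum_type]
      have h12 : ∀ k : S.κ, ((χ (Sum.inl k) : ℂ) - (χ (bar S (Sum.inl k)) : ℂ)) *
          (Sum.elim (fun _ => m / 2) y : S.κ ⊕ S.σ → ℂ) (Sum.inl k) = 0 := by
        intro k
        change ((χ (Sum.inl k) : ℂ) - (χ (Sum.inl k) : ℂ)) * _ = 0
        rw [sub_self, zero_mul]
      rw [Finset.sum_congr rfl fun k _ => h12 k, Finset.sum_const_zero, zero_add, ← h10]
      refine Finset.sum_congr rfl fun s _ => ?_
      simp only [Equiv.symm_apply_apply, Sum.elim_inr]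
      push_cast
      rfl
    have h13 : 2 * ∑ e, (χ e : ℂ) * (Sum.elim (fun _ => m / 2) y : S.κ ⊕ S.σ → ℂ) e =
        ∑ e, (χ' e : ℂ) * (Sum.elim (fun _ => m / 2) y : S.κ ⊕ S.σ → ℂ) e +
        ∑ e, ((χ e : ℂ) - (χ (bar S e) : ℂ)) *
          (Sum.elim (fun _ => m / 2) y : S.κ ⊕ S.σ → ℂ) e := by
      rw [← Finset.sum_add_distrib, Finset.mul_sum]
      refine Finset.sum_congr rfl fun e _ => ?_
      rw [hχ']
      push_cast
      ring
    rw [h11, add_zero] at h13
    have h14 : ∑ e, (χ' e : ℂ) * (Sum.elim (fun _ => m / 2) y : S.κ ⊕ S.σ → ℂ) e = 0 := by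
      rcases mul_eq_zero.1 h7 with h15 | h15
      · exact absurd h15 two_ne_zero
      · exact h15
    rw [h14] at h13
    rcases mul_eq_zero.1 h13 with h15 | h15
    · exact absurd h15 two_ne_zero
    · exact h15

end Pool.Agent.Lib.MPf11a48.CMM
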