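import Pool.Agent.Lib.MP_f11a48_ag.CMM.Spec
import Pool.Agent.Lib.MP_f11a48_ag.helper16.Core

/-!
# Module TYP: if all CM types of a flat field occur then `SepR`
-/

set_option autoImplicit false

namespace Pool.Agent.Lib.MPf11a48.CMM

open Matrix MvPolynomial
open Pool.Agent.Lib.MPf11a48.CM hiding OmegaM
open Pool.Agent.Lib.MPf11a48.GL2T
open Pool.Agent.Lib.MPf11a48.U
open Pool.Agent.Lib.MPf11a48.K3 (cx)
open scoped Classical

namespace TypM

/-- complex conjugation on `Qbar` -/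
noncomputable def rho : Qbar ≃ₐ[ℚ] Qbar :=
  (Complex.conjAe.restrictScalars ℚ : ℂ ≃ₐ[ℚ] ℂ).restrictNormal Qbar

theorem rho_coe (x : Qbar) : ((rho x : Qbar) : ℂ) = starRingEnd ℂ (x : ℂ) :=
  AlgEquiv.restrictNormal_commutes (Complex.conjAe.restrictScalars ℚ : ℂ ≃ₐ[ℚ] ℂ) Qbar x

/-- every embedding of `E` is the restriction of an automorphism -/
theorem exists_ext (E : IntermediateField ℚ Qbar) (φ : E →ₐ[ℚ] Qbar) :
    ∃ γ : Qbar ≃ₐ[ℚ] Qbar, γ.symm.toAlgHom.comp E.val = φ := by
  let g : Qbar →ₐ[ℚ] Qbar := φ.liftNormal Qbar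
  let h : Qbar ≃ₐ[ℚ] Qbar := AlgEquiv.ofBijective g (Algebra.IsAlgebraic.algHom_bijective g)
  refine ⟨h.symm, ?_⟩
  refine AlgHom.ext fun x => ?_
  exact φ.liftNormal_commutes Qbar x

variable {ι : Type} [Fintype ι] [DecidableEq ι] {c : Matrix ι ι ℂ}

/-- the action of an automorphism on the embeddings -/
noncomputable def act (γ : Qbar ≃ₐ[ℚ] Qbar) : EmbC c ≃ EmbC c where
  toFun s := γ.toAlgHom.comp s
  invFun s := γ.symm.toAlgHom.comp s
  left_inv s := AlgHom.ext fun x => γ.symm_apply_apply (s x)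
  right_inv s := AlgHom.ext fun x => γ.apply_symm_apply (s x)

theorem comp_symm (γ : Qbar ≃ₐ[ℚ] Qbar) (s : EmbC c) :
    γ.symm.toAlgHom.comp (γ.toAlgHom.comp s) = s := (act γ).symm_apply_apply s

/-- the sum over the embeddings which are moved to `T` -/
noncomputable def sm (T : Set (EmbC c)) (γ : Qbar ≃ₐ[ℚ] Qbar) (f : EmbC c → ℚ) : ℚ :=
  ∑ s : EmbC c, if γ.toAlgHom.comp s ∈ T then f s else 0

theorem sm_add (T : Set (EmbC c)) (γ : Qbar ≃ₐ[ℚ] Qbar) (f g : EmbC c → ℚ) :
    sm T γ (f + g) = sm T γ f + sm T γ g := by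
  unfold sm
  rw [← Finset.sum_add_distrib]
  refine Finset.sum_congr rfl fun s _ => ?_
  split_ifs <;> simp

theorem sm_smul (T : Set (EmbC c)) (γ : Qbar ≃ₐ[ℚ] Qbar) (r : ℚ) (f : EmbC c → ℚ) :
    sm T γ (r • f) = r * sm T γ f := by
  unfold sm
  rw [Finset.mul_sum]
  refine Finset.sum_congr rfl fun s _ => ?_
  split_ifs <;> simp

theorem sm_sub (T : Set (EmbC c)) (γ : Qbar ≃ₐ[ℚ] Qbar) (f g : EmbC c → ℚ) :
    sm T γ (f - g) = sm T γ f - sm T γ g := by
  have : f - g = f + (-1 : ℚ) • g := by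
    rw [neg_smul, one_smul, sub_eq_add_neg]
  rw [this, sm_add, sm_smul]
  ring

theorem sm_delta (T : Set (EmbC c)) (γ : Qbar ≃ₐ[ℚ] Qbar) (t t' : EmbC c) :
    sm T γ (delta t t') = (if γ.toAlgHom.comp t ∈ T then 1 else 0) -
      (if γ.toAlgHom.comp t' ∈ T then 1 else 0) := by
  have h1 : ∀ t : EmbC c, sm T γ (Pi.single t 1) = if γ.toAlgHom.comp t ∈ T then 1 else 0 := by
    intro t
    unfold sm
    rw [Finset.sum_eq_single t]
    · rw [Pi.single_eq_same]
    · intro s _ hs
      rw [Pi.single_eq_of_ne hs]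
      split_ifs <;> rfl
    · intro h
      exact absurd (Finset.mem_univ t) h
  unfold delta
  rw [sm_sub, h1, h1]

end TypM

open TypM in
theorem specTyp : SpecTyp := by
  intro ι _ _ c ψ T E _ hHS hFlat hrefl hall U hOH hodd hgal
  obtain ⟨h1, h2, h3, h4, h5, h6⟩ := hHS
  -- the conjugate of an embedding
  have hrho : ∀ s s' : EmbC c, IsBar ψ s s' → rho.toAlgHom.comp s = s' := by
    intro s s' h
    refine AlgHom.ext fun z => ?_
    apply Subtype.ext
    have := h4 s s' z h
    rw [← this]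
    exact rho_coe (s z)
  -- real embeddings
  have hreal : ∀ f : EmbC c → ℚ, (∀ s s', IsBar ψ s s' → f s' = -f s) →
      ∀ s, IsBar ψ s s → f s = 0 := by
    intro f hf s hs
    have := hf s s hs
    linarith
  have hnr : ∀ (γ : Qbar ≃ₐ[ℚ] Qbar) (s : EmbC c), ¬ IsBar ψ s s →
      ¬ IsBar ψ (γ.toAlgHom.comp s) (γ.toAlgHom.comp s) := by
    intro γ s hs h
    apply hs
    have := h5 γ.symm _ _ h
    rwa [comp_symm] at this
  -- independence of the choice
  have hind : ∀ (γ γ' : Qbar ≃ₐ[ℚ] Qbar), γ.symm.toAlgHom.comp E.val = γ'.symm.toAlgHom.comp E.val →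
      ∀ s : EmbC c, ¬ IsBar ψ s s → (γ.toAlgHom.comp s ∈ T ↔ γ'.toAlgHom.comp s ∈ T) := by
    intro γ γ' hγ s hs
    have h7 := hrefl (γ'.toAlgHom.comp s) (hnr γ' s hs) (γ'.symm.trans γ) (by
      intro x hx
      have h8 : γ.symm x = γ'.symm x := DFunLike.congr_fun hγ (⟨x, hx⟩ : E)
      change γ (γ'.symm x) = x
      rw [← h8, AlgEquiv.apply_symm_apply])
    have h9 : (γ'.symm.trans γ).toAlgHom.comp (γ'.toAlgHom.comp s) = γ.toAlgHom.comp s := by
      refine AlgHom.ext fun z => ?_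
      change γ (γ'.symm (γ' (s z))) = γ (s z)
      rw [AlgEquiv.symm_apply_apply]
    rwa [h9] at h7
  have hind2 : ∀ (γ γ' : Qbar ≃ₐ[ℚ] Qbar), γ.symm.toAlgHom.comp E.val = γ'.symm.toAlgHom.comp E.val →
      ∀ f : EmbC c → ℚ, (∀ s s', IsBar ψ s s' → f s' = -f s) → sm T γ f = sm T γ' f := by
    intro γ γ' hγ f hf
    unfold sm
    refine Finset.sum_congr rfl fun s _ => ?_
    by_cases hs : IsBar ψ s s
    · rw [hreal f hf s hs]
      split_ifs <;> rfl
    · have := hind γ γ' hγ s hs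
      by_cases h7 : γ.toAlgHom.comp s ∈ T
      · rw [if_pos h7, if_pos (this.1 h7)]
      · rw [if_neg h7, if_neg (fun h => h7 (this.2 h))]
  choose G hG using exists_ext E
  let F : (EmbC c → ℚ) →ₗ[ℚ] ((E →ₐ[ℚ] Qbar) → ℚ) :=
    { toFun := fun f φ => sm T (G φ) f
      map_add' := fun f g => by
        funext φ
        exact sm_add T _ f g
      map_smul' := fun r f => by
        funext φ
        exact sm_smul T _ r f }
  have hF : ∀ f φ, F f φ = sm T (G φ) f := fun f φ => rfl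
  have hFγ : ∀ (γ : Qbar ≃ₐ[ℚ] Qbar) (f : EmbC c → ℚ), (∀ s s', IsBar ψ s s' → f s' = -f s) →
      sm T γ f = F f (γ.symm.toAlgHom.comp E.val) := by
    intro γ f hf
    rw [hF]
    exact hind2 _ _ (hG _).symm f hf
  -- the automorphism `γ ρ`
  have hGbar : ∀ φ φ' : E →ₐ[ℚ] Qbar,
      (∀ x, ((φ' x : Qbar) : ℂ) = (starRingEnd ℂ) ((φ x : Qbar) : ℂ)) →
      (G φ').symm.toAlgHom.comp E.val = (rho.symm.trans (G φ)).symm.toAlgHom.comp E.val := by
    intro φ φ' hφ
    rw [hG]
    refine AlgHom.ext fun x => ?_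
    apply Subtype.ext
    rw [hφ x]
    have h7 : (G φ).symm (x : Qbar) = φ x := DFunLike.congr_fun (hG φ) x
    change (starRingEnd ℂ) ((φ x : Qbar) : ℂ) = ((rho ((G φ).symm (x : Qbar)) : Qbar) : ℂ)
    rw [h7, rho_coe]
  have hbarcomp : ∀ (γ : Qbar ≃ₐ[ℚ] Qbar) (s s' : EmbC c), IsBar ψ s s' →
      (rho.symm.trans γ).toAlgHom.comp s' = γ.toAlgHom.comp s := by
    intro γ s s' h
    rw [← hrho s s' h]
    refine AlgHom.ext fun z => ?_
    change γ (rho.symm (rho (s z))) = γ (s z)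
    rw [AlgEquiv.symm_apply_apply]
  -- the involution
  choose bar hbar using h1
  have hbarbar : ∀ s, bar (bar s) = s := fun s => h2 (bar s) _ _ (hbar (bar s)) (h3 _ _ (hbar s))
  have hFodd : ∀ f : EmbC c → ℚ, (∀ s s', IsBar ψ s s' → f s' = -f s) →
      ∀ φ φ' : E →ₐ[ℚ] Qbar,
        (∀ x, ((φ' x : Qbar) : ℂ) = (starRingEnd ℂ) ((φ x : Qbar) : ℂ)) → F f φ' = -F f φ := by
    intro f hf φ φ' hφ
    rw [hF, hF, hind2 _ _ (hGbar φ φ' hφ) f hf]
    unfold sm
    rw [← Finset.sum_neg_distrib]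
    refine Finset.sum_bij (fun s _ => bar s) (fun s _ => Finset.mem_univ _)
      (fun s _ s' _ h => ?_) (fun s _ => ⟨bar s, Finset.mem_univ _, hbarbar s⟩) (fun s _ => ?_)
    · rw [← hbarbar s, h, hbarbar]
    · rw [hbarcomp (G φ) (bar s) s (h3 _ _ (hbar s)), hf s (bar s) (hbar s)]
      split_ifs <;> simp
  by_cases hV : U.map F = ⊥
  · left
    intro f hf
    refine ⟨hodd f hf, fun γ => ?_⟩
    have h7 : F f = 0 := by
      have : F f ∈ U.map F := ⟨f, hf, rfl⟩
      rw [hV] at this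
      exact this
    change sm T γ f = 0
    rw [hFγ γ f (hodd f hf), h7]
    rfl
  · right
    obtain ⟨F0, ⟨f, hfU, rfl⟩, hF0, hval⟩ := hFlat (U.map F) hV (by
      rintro _ ⟨f, hf, rfl⟩ φ φ' hφ
      exact hFodd f (hodd f hf) φ φ' hφ) (by
      rintro γ _ ⟨f, hf, rfl⟩
      refine ⟨_, hgal γ f hf, ?_⟩
      funext φ
      rw [hF, hF]
      have h7 : sm T (G (γ.toAlgHom.comp φ)) f = sm T (γ.symm.trans (G φ)) f := by
        apply hind2 _ _ _ f (hodd f hf)
        rw [hG]
        refine AlgHom.ext fun x => ?_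
        have h8 : (G φ).symm (x : Qbar) = φ x := DFunLike.congr_fun (hG φ) x
        change γ (φ x) = γ ((G φ).symm (x : Qbar))
        rw [h8]
      rw [h7]
      unfold sm
      refine Finset.sum_bij (fun s _ => γ.toAlgHom.comp s) (fun s _ => Finset.mem_univ _)
        (fun s _ s' _ h => (act (c := c) γ).injective h)
        (fun s _ => ⟨γ.symm.toAlgHom.comp s, Finset.mem_univ _, (act (c := c) γ).apply_symm_apply s⟩)
        (fun s _ => ?_)
      have h8 : (γ.symm.trans (G φ)).toAlgHom.comp (γ.toAlgHom.comp s) = (G φ).toAlgHom.comp s := by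
        refine AlgHom.ext fun z => ?_
        change (G φ) (γ.symm (γ (s z))) = (G φ) (s z)
        rw [AlgEquiv.symm_apply_apply]
      rw [h8])
    have hfodd := hodd f hfU
    -- an embedding which is not real
    obtain ⟨s₀, hs₀⟩ : ∃ s₀ : EmbC c, ¬ IsBar ψ s₀ s₀ := by
      by_contra hcon
      push Not at hcon
      apply hF0
      have : f = 0 := by
        funext s
        exact hreal f hfodd s (hcon s)
      rw [this, map_zero]
    have hflip : ∀ s : EmbC c, ¬ IsBar ψ s s → ∀ φ φ' : E →ₐ[ℚ] Qbar,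
        (∀ x, ((φ' x : Qbar) : ℂ) = (starRingEnd ℂ) ((φ x : Qbar) : ℂ)) →
        ((G φ').toAlgHom.comp s ∈ T ↔ (G φ).toAlgHom.comp s ∉ T) := by
      intro s hs φ φ' hφ
      rw [hind _ _ (hGbar φ φ' hφ) s hs, hbarcomp (G φ) (bar s) s (h3 _ _ (hbar s))]
      apply h6 _ _ (h5 (G φ) _ _ (hbar s))
      intro h
      have h7 := (act (c := c) (G φ)).injective h
      apply hs
      have h8 := hbar s
      rwa [← h7] at h8
    have hodd2 := hFodd f hfodd
    have hT1 : IsType {φ : E →ₐ[ℚ] Qbar | F f φ = 1 ∨ (F f φ = 0 ∧ (G φ).toAlgHom.comp s₀ ∈ T)} := by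
      intro φ φ' hφ
      have h7 := hflip s₀ hs₀ φ φ' hφ
      have h8 := hodd2 φ φ' hφ
      change (F f φ' = 1 ∨ (F f φ' = 0 ∧ (G φ').toAlgHom.comp s₀ ∈ T)) ↔
        ¬ (F f φ = 1 ∨ (F f φ = 0 ∧ (G φ).toAlgHom.comp s₀ ∈ T))
      rw [h7, h8]
      rcases hval φ with h9 | h9 | h9 <;> rw [h9] <;> norm_num
    have hT2 : IsType {φ : E →ₐ[ℚ] Qbar | F f φ = -1 ∨ (F f φ = 0 ∧ (G φ).toAlgHom.comp s₀ ∈ T)} := by
      intro φ φ' hφ
      have h7 := hflip s₀ hs₀ φ φ' hφ
      have h8 := hodd2 φ φ' hφ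
      change (F f φ' = -1 ∨ (F f φ' = 0 ∧ (G φ').toAlgHom.comp s₀ ∈ T)) ↔
        ¬ (F f φ = -1 ∨ (F f φ = 0 ∧ (G φ).toAlgHom.comp s₀ ∈ T))
      rw [h7, h8]
      rcases hval φ with h9 | h9 | h9 <;> rw [h9] <;> norm_num
    obtain ⟨t₁, ht₁, ht₁'⟩ := hall _ hT1
    obtain ⟨t₂, ht₂, ht₂'⟩ := hall _ hT2
    have hdel : ∀ t : EmbC c, ¬ IsBar ψ t t → ∀ γ : Qbar ≃ₐ[ℚ] Qbar,
        sm T γ (delta t (bar t)) = if γ.toAlgHom.comp t ∈ T then 1 else -1 := by
      intro t ht γ
      rw [sm_delta]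
      have h7 := h6 _ _ (h5 γ _ _ (hbar t)) (by
        intro h
        have h7 := (act (c := c) γ).injective h
        apply ht
        have h8 := hbar t
        rwa [← h7] at h8)
      by_cases h8 : γ.toAlgHom.comp t ∈ T
      · rw [if_pos h8, if_neg (fun h => (h7.1 h) h8), if_pos h8]
        norm_num
      · rw [if_neg h8, if_pos (h7.2 h8), if_neg h8]
        norm_num
    have hdodd : ∀ t s s' : EmbC c, IsBar ψ s s' →
        delta t (bar t) s' = -delta t (bar t) s := by
      intro t s s' h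
      have e1 : s' = t ↔ s = bar t := by
        constructor
        · rintro rfl
          exact h2 s' _ _ (h3 _ _ h) (hbar s')
        · rintro rfl
          exact h2 (bar t) _ _ h (h3 _ _ (hbar t))
      have e2 : s' = bar t ↔ s = t := by
        constructor
        · rintro rfl
          exact h2 (bar t) _ _ (h3 _ _ h) (h3 _ _ (hbar t))
        · rintro rfl
          exact h2 s _ _ h (hbar s)
      unfold delta
      rw [Pi.sub_apply, Pi.sub_apply, Pi.single_apply, Pi.single_apply, Pi.single_apply,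
        Pi.single_apply]
      simp only [e1, e2]
      ring
    refine ⟨t₁, bar t₁, t₂, bar t₂, hbar t₁, hbar t₂, ?_, ?_⟩
    · have hmem : delta t₁ (bar t₁) - delta t₂ (bar t₂) - (2 : ℚ) • f ∈ OddH ψ T := by
        refine ⟨fun s s' h => ?_, fun γ => ?_⟩
        · rw [Pi.sub_apply, Pi.sub_apply, Pi.smul_apply, Pi.sub_apply, Pi.sub_apply, Pi.smul_apply,
            hdodd t₁ s s' h, hdodd t₂ s s' h, hfodd s s' h]
          simp only [smul_eq_mul]
          ring
        · change sm T γ _ = 0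
          rw [sm_sub, sm_sub, sm_smul, hdel t₁ ht₁, hdel t₂ ht₂, hFγ γ f hfodd]
          have k1 : γ.toAlgHom.comp t₁ ∈ T ↔ (F f (γ.symm.toAlgHom.comp E.val) = 1 ∨
              (F f (γ.symm.toAlgHom.comp E.val) = 0 ∧
                (G (γ.symm.toAlgHom.comp E.val)).toAlgHom.comp s₀ ∈ T)) := ht₁' γ
          have k2 : γ.toAlgHom.comp t₂ ∈ T ↔ (F f (γ.symm.toAlgHom.comp E.val) = -1 ∨
              (F f (γ.symm.toAlgHom.comp E.val) = 0 ∧
                (G (γ.symm.toAlgHom.comp E.val)).toAlgHom.comp s₀ ∈ T)) := ht₂' γ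
          rcases hval (γ.symm.toAlgHom.comp E.val) with h9 | h9 | h9
          · rw [h9] at k1 k2 ⊢
            by_cases h10 : (G (γ.symm.toAlgHom.comp E.val)).toAlgHom.comp s₀ ∈ T
            · rw [if_pos (k1.2 (Or.inr ⟨rfl, h10⟩)), if_pos (k2.2 (Or.inr ⟨rfl, h10⟩))]
              norm_num
            · rw [if_neg (fun h => by
                rcases k1.1 h with h | h
                · norm_num at h
                · exact h10 h.2), if_neg (fun h => by
                rcases k2.1 h with h | h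
                · norm_num at h
                · exact h10 h.2)]
              norm_num
          · rw [h9] at k1 k2 ⊢
            rw [if_pos (k1.2 (Or.inl rfl)), if_neg (fun h => by
              rcases k2.1 h with h | h
              · norm_num at h
              · norm_num at h)]
            norm_num
          · rw [h9] at k1 k2 ⊢
            rw [if_pos (k2.2 (Or.inl rfl)), if_neg (fun h => by
              rcases k1.1 h with h | h
              · norm_num at h
              · norm_num at h)]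
            norm_num
      have h7 := U.add_mem (hOH hmem) (U.smul_mem 2 hfU)
      rwa [sub_add_cancel] at h7
    · intro heq
      have hne : bar t₁ ≠ t₁ := by
        intro h
        apply ht₁
        have h8 := hbar t₁
        rwa [h] at h8
      have h7 := congrFun heq t₁
      unfold delta at h7
      rw [Pi.sub_apply, Pi.sub_apply, Pi.single_eq_same, Pi.single_eq_of_ne hne.symm,
        Pi.single_apply, Pi.single_apply] at h7
      have h8 : t₁ = t₂ := by
        by_contra h9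
        rw [if_neg h9] at h7
        split_ifs at h7 <;> norm_num at h7
      subst h8
      apply hF0
      funext φ
      have k1 := ht₁' (G φ)
      have k2 := ht₂' (G φ)
      rw [hG] at k1 k2
      have k3 : (F f φ = 1 ∨ (F f φ = 0 ∧ (G φ).toAlgHom.comp s₀ ∈ T)) ↔
        (F f φ = -1 ∨ (F f φ = 0 ∧ (G φ).toAlgHom.comp s₀ ∈ T)) := k1.symm.trans k2
      rcases hval φ with h9 | h9 | h9
      · exact h9
      · exfalso
        rw [h9] at k3
        rcases k3.1 (Or.inl rfl) with h | h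
        · norm_num at h
        · norm_num at h
      · exfalso
        rw [h9] at k3
        rcases k3.2 (Or.inl rfl) with h | h
        · norm_num at h
        · norm_num at h

end Pool.Agent.Lib.MPf11a48.CMM
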