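import Pool.Agent.Lib.MP_f11a48_ag.CMM.Sub
import Pool.Agent.Lib.MP_f11a48_ag.CMM.Fla
import Pool.Agent.Lib.MP_f11a48_ag.CMM.Fle
import Pool.Agent.Lib.MP_f11a48_ag.CMM.Typ
import Pool.Agent.Lib.MP_f11a48_ag.CMM.Tan
import Pool.Agent.Lib.MP_f11a48_ag.CMM.Hcl
import Pool.Agent.Lib.MP_f11a48_ag.CMM.Sat
import Pool.Agent.Lib.MP_f11a48_ag.CMM.Genr
import Pool.Agent.Lib.MP_f11a48_ag.CMM.Torr
import Pool.Agent.Lib.MP_f11a48_ag.CMM.Repr
import Pool.Agent.Lib.MP_f11a48_ag.CMM.Tenm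

/-!
# Motives of complex multiplication type: the theorem
-/

set_option autoImplicit false

namespace Pool.Agent.Lib.MPf11a48.CMM

open Matrix MvPolynomial
open Pool.Agent.Lib.MPf11a48.CM hiding OmegaM
open Pool.Agent.Lib.MPf11a48.GL2T
open Pool.Agent.Lib.MPf11a48.U
open Pool.Agent.Lib.MPf11a48.C (IsRep IsSubObj imG tpi)
open Pool.Agent.Lib.MPf11a48.Tors (IsTorsor ClosedOver grp OmegaM)
open Pool.Agent.Lib.MPf11a48.K3 (cx)

theorem bic' : SpecBIC := BicM.specBIC specLIN specDER specSIM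

theorem str' : SpecSTR := StrM.specSTR bic' specWED

theorem tan' : SpecTan := by
  have hTP : SpecTP := by
    intro Z T Θ Λ _ _ _ _ D
    exact tp' specTL' D
  have hPROD : SpecPROD := by
    intro Z T Θ Λ Z' T' Θ' Λ' _ _ _ _ _ _ _ _ D D'
    exact specPROD D D'
  exact specTan hTP hPROD specGROW specLEG bic' str'

theorem torr' : SpecTorr := specTorr specLIN specSIM bic' specALG

theorem repr' : SpecRepr := specRepr torr' (specGenr specSat)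

theorem fle' : SpecFle := specFle specFla

/-- the theorem, no hypotheses -/
theorem statementM : StatementM :=
  statementM_of fle' specTyp tan' specHcl repr' specTenm

/-- the torsor of `𝓖` is in the torsor of periods of `h^1(A)` over `Qbar` -/
theorem main_abvar (g N : ℕ) (A : AbData g N) (c : GL (Ix g) ℂ) (𝓖 : Set (GL (Ix g) ℂ × ℂˣ))
    (hA : A.IsAbVar Qbar) (hc : c.1 = A.per) (hGL : GL2Like c.1 A.psi)
    (h𝓖 : (𝓖 = LefG A c ∧ (Separated c.1 A.psi ∨ ListedCentre c.1)) ∨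
      (𝓖 = MTG A c ∧ CutOut A c ∧ ∃ E : IntermediateField ℚ Qbar, FiniteDimensional ℚ E ∧
        (Flat E ∨ AbelianField E) ∧ AllTypes A c.1 E)) :
    ∀ y ∈ 𝓖, y.1 * c ∈ OmegaDRB Qbar c ∧ y.1.1ᵀ * cx A.psi * y.1.1 = (y.2 : ℂ) • cx A.psi := by
  obtain ⟨⟨J, hJ⟩, -⟩ := hda' specTL' Qbar g N A c le_rfl hA hc
  intro y hy
  rcases h𝓖 with ⟨rfl, hsep⟩ | ⟨rfl, ⟨S, hS, hcut⟩, E, hE, hfl, htypes⟩
  · refine ⟨?_, hy.2⟩
    have hSep : Separated c.1 A.psi := by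
      rcases hsep with h | h
      · exact h
      · obtain ⟨S⟩ := str' c J _ hJ hGL
        exact separated_of_listedCentre bic' hJ S h
    exact rep' c J _ hJ hGL hSep _ (FinM.compat hy) (FinM.mult hy)
  · refine ⟨?_, hy.1.2⟩
    have hH := tan' Qbar g N A c le_rfl hA hc hGL
    have hflat : Flat E := hfl.elim id (fle' E hE)
    have hsepR := specTyp (Ix g) c.1 A.psi (Tan A c.1) E hE hH hflat htypes.reflex htypes.all
    have hLie : LieRel c A.psi (Tan A c.1) := by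
      refine specHcl (Ix g) c A.psi (Tan A c.1) S hS fun f hf => ?_
      obtain ⟨x, hx, rfl⟩ := hcut f hf
      rw [mul_inv_cancel_right]
      exact hx.2
    refine repr' (Ix g) c J A.psi (Tan A c.1) hJ hGL hH hsepR hLie _ (FinM.compat hy.1)
      (FinM.mult hy.1) ?_
    rw [mul_inv_cancel_right]
    exact hy.2

/-- The theorem with sub-objects. -/
theorem mainM (g N : ℕ) (A : AbData g N) (c : GL (Ix g) ℂ) (𝓖 : Set (GL (Ix g) ℂ × ℂˣ))
    (hg : 0 < g) (hA : A.IsAbVar Qbar) (hc : c.1 = A.per) (hGL : GL2Like c.1 A.psi)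
    (h𝓖 : (𝓖 = LefG A c ∧ (Separated c.1 A.psi ∨ ListedCentre c.1)) ∨
      (𝓖 = MTG A c ∧ CutOut A c ∧ ∃ E : IntermediateField ℚ Qbar, FiniteDimensional ℚ E ∧
        (Flat E ∨ AbelianField E) ∧ AllTypes A c.1 E))
    (K : IntermediateField ℚ ℂ) (hK : K ≤ Qbar) (κ ι : Type) [Fintype κ] [DecidableEq κ]
    [Fintype ι] [DecidableEq ι] (T : GL (Ix g) ℂ × ℂˣ → GL κ ℂ) (hT : IsRep T) (n : GL ι ℂ)
    (iB : Matrix κ ι ℚ) (hN : IsSubObj (T (c, tpi)) n iB) :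
    (∀ y ∈ 𝓖, ∃ f : GL ι ℂ,
      (T y).1 * iB.map (algebraMap ℚ ℂ) = iB.map (algebraMap ℚ ℂ) * f.1) ∧
    (∀ f ∈ imG T iB 𝓖, ∀ h, Conj K (f * n) h → h ∈ OmegaDRB K n) ∧
      ∀ S : Set (TPair K ι), (∀ α ∈ S, Fixes n α) →
        (∀ h ∈ OmegaS S, ∃ f ∈ imG T iB 𝓖, Conj K (f * n) h) →
        OmegaDRB K n = OmegaS S ∧ (K = ⊥ → OmegaM K n = OmegaS S) := by
  refine C.ten 𝓖 c (fun T' hT' hc' hg' => ?_) K hK κ ι T hT n iB hN
  exact sub_torsor specTenm hg hA hc (main_abvar g N A c 𝓖 hA hc hGL h𝓖) T' hT' hc' hg'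

end Pool.Agent.Lib.MPf11a48.CMM
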