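import Pool.Agent.Lib.MP_f11a48_ag.CMM.Tenm

/-! # TENM for a general polarised object (only the Legendre relation is used) -/

set_option autoImplicit false
set_option linter.unusedSectionVars false

namespace Pool.Agent.Lib.MPf11a48.CMM

open Matrix MvPolynomial Pool.Agent.Lib.MPf11a48.Tors
open Pool.Agent.Lib.MPf11a48.CM hiding OmegaM
open Pool.Agent.Lib.MPf11a48.U
open Pool.Agent.Lib.MPf11a48.K3

open TenmM KTenM KTen3M in
/-- `specTenm` for every object with a polarisation over `Qbar`. -/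
theorem tenm_gen {g : ℕ} (hg : 0 < g) (c : GL (Ix g) ℂ) (ψ : Matrix (Ix g) (Ix g) ℚ)
    (θ : Matrix (Ix g) (Ix g) Qbar) (hpol : GL2T.Polarised 1 c θ ψ)
    (𝓖 : Set (GL (Ix g) ℂ × ℂˣ))
    (h𝓖 : ∀ y ∈ 𝓖, y.1 * c ∈ OmegaDRB Qbar c ∧ y.1.1ᵀ * cx ψ * y.1.1 = (y.2 : ℂ) • cx ψ)
    (K : IntermediateField ℚ ℂ) (ι : Type) [Fintype ι] [DecidableEq ι]
    (Φ : K3.Grp3 g 0 → GL ι ℂ) (hK : K ≤ Qbar) (hΦ : K3.IsTens3 Φ) :
    (∀ y ∈ 𝓖, ∀ f, GL2T.Conj K (Φ (emb y * (c, 1, K3.tpi))) f →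
        f ∈ OmegaDRB K (Φ (c, 1, K3.tpi))) ∧
      ∀ S : Set (TPair K ι), (∀ α ∈ S, Fixes (Φ (c, 1, K3.tpi)) α) →
        (∀ f ∈ OmegaS S, ∃ y ∈ 𝓖, GL2T.Conj K (Φ (emb y * (c, 1, K3.tpi))) f) →
        OmegaDRB K (Φ (c, 1, K3.tpi)) = OmegaS S ∧
          (K = ⊥ → Tors.OmegaM K (Φ (c, 1, K3.tpi)) = OmegaS S) := by
  have hT₀ : IsTorsor Qbar (OmegaDRB K (Φ (c, 1, tpi))) := by
    have h := isTorsor_OmegaDRB K (Φ (c, 1, tpi))
    exact ⟨GL2.closedOver_mono hK h.closed, h.nonempty, h.heap⟩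
  have ht : Φ (c, 1, tpi) ∈ OmegaDRB K (Φ (c, 1, tpi)) := mem_OmegaDRB_self K _
  have hcl : ClosedOver ⊥ (grp (OmegaDRB K (Φ (c, 1, tpi)))) := by
    rw [grp_OmegaDRB]
    exact closedOver_GdRB K _
  -- the Legendre relation
  obtain ⟨hψ, hleg⟩ := hpol
  have hψ' : ψ.det ≠ 0 := hψ
  have hmap : ∀ k : IntermediateField ℚ ℂ, mk (ψ.map (algebraMap ℚ k)) = cx ψ := by
    intro k
    ext i j
    exact (IsScalarTower.algebraMap_apply ℚ k ℂ (ψ i j)).symm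
  have hdet : ∀ k : IntermediateField ℚ ℂ, (ψ.map (algebraMap ℚ k)).det ≠ 0 := by
    intro k
    have h1 : ψ.map (algebraMap ℚ k) = (algebraMap ℚ k).mapMatrix ψ := rfl
    rw [h1, ← RingHom.map_det]
    exact (map_ne_zero _).2 hψ'
  have hc0 : c.1ᵀ * cx ψ * c.1 = (tpi : ℂ) • mk θ := by
    have h1 : c.1ᵀ * cx ψ * c.1 = ((2 * Real.pi * Complex.I : ℂ) ^ (1 : ℤ)) • mk θ := hleg
    rw [zpow_one] at h1
    exact h1
  have hθ : θ.det ≠ 0 := by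
    intro h0
    have h1 : (mk θ).det = 0 := by
      have h2 : mk θ = (algebraMap Qbar ℂ).mapMatrix θ := rfl
      rw [h2, ← RingHom.map_det, h0, map_zero]
    have h3 := congrArg Matrix.det hc0
    rw [Matrix.det_smul, h1, mul_zero, Matrix.det_mul, Matrix.det_mul, Matrix.det_transpose,
      ← hmap Qbar] at h3
    exact mul_ne_zero (mul_ne_zero (TenmM.det_ne c) (det_mk (hdet Qbar))) (TenmM.det_ne c) h3
  -- the torsor
  set T₀ := OmegaDRB K (Φ (c, 1, tpi)) with hT₀def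
  set T' : Set (GL (Ix g) ℂ) := {f | ∃ ζ : ℂˣ,
    f.1ᵀ * mk (ψ.map (algebraMap ℚ Qbar)) * f.1 = (ζ : ℂ) • mk θ ∧ Φ (f, 1, ζ) ∈ T₀} with hT'
  have memT' : ∀ f, f ∈ T' ↔ ∃ ζ : ℂˣ, f.1ᵀ * cx ψ * f.1 = (ζ : ℂ) • mk θ ∧
      Φ (f, 1, ζ) ∈ T₀ := by
    intro f
    rw [hT', hmap]
    rfl
  have hcT : c ∈ T' := (memT' c).2 ⟨tpi, hc0, ht⟩
  have hTor : IsTorsor Qbar T' := by
    refine ⟨closed_main hg (hdet Qbar) hθ hΦ.regular hT₀.closed, ⟨c, hcT⟩, ?_⟩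
    intro x hx y hy z hz
    rw [memT'] at hx hy hz ⊢
    obtain ⟨a, ha, ha'⟩ := hx
    obtain ⟨b, hb, hb'⟩ := hy
    obtain ⟨d, hd, hd'⟩ := hz
    refine ⟨a * b⁻¹ * d, ?_, ?_⟩
    · have h1 := sim_inv hb
      have h2 : (x * y⁻¹ * z).1 = x.1 * y⁻¹.1 * z.1 := rfl
      rw [h2, Matrix.transpose_mul, Matrix.transpose_mul]
      calc z.1ᵀ * (y⁻¹.1ᵀ * x.1ᵀ) * cx ψ * (x.1 * y⁻¹.1 * z.1)
          = z.1ᵀ * (y⁻¹.1ᵀ * (x.1ᵀ * cx ψ * x.1) * y⁻¹.1) * z.1 := by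
            simp only [Matrix.mul_assoc]
        _ = ((a * b⁻¹ * d : ℂˣ) : ℂ) • mk θ := by
            rw [ha, Matrix.mul_smul, Matrix.smul_mul, h1, smul_smul, Matrix.mul_smul,
              Matrix.smul_mul, hd, smul_smul]
            congr 1
            push_cast
            ring
    · have h1 : ((x * y⁻¹ * z, 1, a * b⁻¹ * d) : Grp3 g 0) =
          (x, 1, a) * (y, 1, b)⁻¹ * (z, 1, d) := by
        refine Prod.ext rfl (Prod.ext ?_ rfl)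
        change (1 : GL (Fin 0) ℂ) = 1 * 1⁻¹ * 1
        simp
      rw [h1, hΦ.heap]
      exact hT₀.heap _ ha' _ hb' _ hd'
  have hGrp : ClosedOver ⊥ (grp T') := by
    have e : grp T' = {f | ∃ ζ : ℂˣ,
        f.1ᵀ * mk (ψ.map (algebraMap ℚ (⊥ : IntermediateField ℚ ℂ))) * f.1 =
          (ζ : ℂ) • mk (ψ.map (algebraMap ℚ (⊥ : IntermediateField ℚ ℂ))) ∧
        Φ (f, 1, ζ) * (Φ 1)⁻¹ ∈ grp T₀} := by
      have hmul : ∀ (x : GL (Ix g) ℂ) (ζ : ℂˣ),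
          Φ (x * c, 1, ζ * tpi) = Φ (x, 1, ζ) * (Φ 1)⁻¹ * Φ (c, 1, tpi) := by
        intro x ζ
        rw [← mul_eq3 hΦ]
        congr 1
        refine Prod.ext rfl (Prod.ext ?_ rfl)
        change (1 : GL (Fin 0) ℂ) = 1 * 1
        simp
      have hci := sim_inv hc0
      ext x
      rw [mem_grp_iff hTor hcT, memT', hmap]
      constructor
      · rintro ⟨ζ, h1, h2⟩
        refine ⟨ζ * tpi⁻¹, ?_, ?_⟩
        · have h3 : (x * c).1 = x.1 * c.1 := rfl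
          rw [h3, Matrix.transpose_mul] at h1
          have e1 : c.1 * c⁻¹.1 = 1 := c.mul_inv
          have e2 : c⁻¹.1ᵀ * c.1ᵀ = 1 := by
            rw [← Matrix.transpose_mul, e1, Matrix.transpose_one]
          calc x.1ᵀ * cx ψ * x.1
              = (c⁻¹.1ᵀ * c.1ᵀ) * (x.1ᵀ * cx ψ * x.1) * (c.1 * c⁻¹.1) := by
                rw [e1, e2, Matrix.one_mul, Matrix.mul_one]
            _ = c⁻¹.1ᵀ * (c.1ᵀ * x.1ᵀ * cx ψ * (x.1 * c.1)) * c⁻¹.1 := by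
                simp only [Matrix.mul_assoc]
            _ = ((ζ * tpi⁻¹ : ℂˣ) : ℂ) • cx ψ := by
                rw [h1, Matrix.mul_smul, Matrix.smul_mul, hci, smul_smul]
                push_cast
                rfl
        · rw [mem_grp_iff hT₀ ht, ← hmul, inv_mul_cancel_right]
          exact h2
      · rintro ⟨ζ, h1, h2⟩
        refine ⟨ζ * tpi, ?_, ?_⟩
        · have h3 : (x * c).1 = x.1 * c.1 := rfl
          rw [h3, Matrix.transpose_mul]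
          calc c.1ᵀ * x.1ᵀ * cx ψ * (x.1 * c.1)
              = c.1ᵀ * (x.1ᵀ * cx ψ * x.1) * c.1 := by simp only [Matrix.mul_assoc]
            _ = ((ζ * tpi : ℂˣ) : ℂ) • mk θ := by
                rw [h1, Matrix.mul_smul, Matrix.smul_mul, hc0, smul_smul]
                push_cast
                rfl
        · rw [hmul, ← mem_grp_iff hT₀ ht]
          exact h2
    rw [e]
    refine closed_main (Ψ := fun x => Φ x * (Φ 1)⁻¹) hg (hdet ⊥) (hdet ⊥) (fun i j => ?_) hcl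
    obtain ⟨p, hp⟩ := hΦ.rational i j
    obtain ⟨q, hq⟩ := exists_bot p
    exact ⟨q, fun x => (hp x).trans (hq _).symm⟩
  have hsub : OmegaDRB Qbar c ⊆ T' := OmegaDRB_subset hTor hcT hGrp
  have h0 : ∀ y ∈ 𝓖, Φ (emb y * (c, 1, tpi)) ∈ T₀ := by
    intro y hy
    obtain ⟨h1, h2⟩ := h𝓖 y hy
    obtain ⟨ζ, h3, h4⟩ := (memT' _).1 (hsub h1)
    have h5 : (y.1 * c).1 = y.1.1 * c.1 := rfl
    have h6 : (y.1 * c).1ᵀ * cx ψ * (y.1 * c).1 = ((y.2 * tpi : ℂˣ) : ℂ) • mk θ := by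
      rw [h5, Matrix.transpose_mul]
      calc c.1ᵀ * y.1.1ᵀ * cx ψ * (y.1.1 * c.1)
          = c.1ᵀ * (y.1.1ᵀ * cx ψ * y.1.1) * c.1 := by simp only [Matrix.mul_assoc]
        _ = ((y.2 * tpi : ℂˣ) : ℂ) • mk θ := by
            rw [h2, Matrix.mul_smul, Matrix.smul_mul, hc0, smul_smul]
            push_cast
            rfl
    have h7 : ζ = y.2 * tpi := unique_sim hg hθ (h3.symm.trans h6)
    have h8 : emb y * (c, 1, tpi) = (y.1 * c, 1, ζ) := by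
      rw [h7]
      refine Prod.ext rfl (Prod.ext ?_ rfl)
      change (1 : GL (Fin 0) ℂ) * 1 = 1
      simp
    rw [h8]
    exact h4
  have h1 : ∀ y ∈ 𝓖, ∀ f, Conj K (Φ (emb y * (c, 1, tpi))) f → f ∈ T₀ := by
    intro y hy f hf
    obtain ⟨τ, hτ, hf⟩ := hf
    have hf' : f = tw τ (Φ (emb y * (c, 1, tpi))) := by
      apply Units.ext
      exact Matrix.ext hf
    rw [hf']
    exact OmegaDRB_tw hτ (h0 y hy)
  refine ⟨h1, fun S hS hsub => ?_⟩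
  have h3 : T₀ = OmegaS S := by
    refine (drb_subset hS).antisymm fun f hf => ?_
    obtain ⟨y, hy, hyf⟩ := hsub f hf
    exact h1 y hy f hyf
  refine ⟨h3, ?_⟩
  rintro rfl
  rw [← h3]
  exact OmegaM_eq_OmegaDRB _

end Pool.Agent.Lib.MPf11a48.CMM
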