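import Pool.Agent.Lib.MP_f11a48_ag.CMM.SpecN
import Pool.Agent.Lib.MP_f11a48_ag.CMM.All
import Pool.Agent.Lib.MP_f11a48_ag.CMM.TenmG

/-!
# Motives of complex multiplication type over a field `L`: the theorem, from the Specs
-/

set_option autoImplicit false

namespace Pool.Agent.Lib.MPf11a48.CMM

open Matrix MvPolynomial
open Pool.Agent.Lib.MPf11a48.CM hiding OmegaM
open Pool.Agent.Lib.MPf11a48.GL2T
open Pool.Agent.Lib.MPf11a48.U
open Pool.Agent.Lib.MPf11a48.C (IsRep IsSubObj imG tpi)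
open Pool.Agent.Lib.MPf11a48.C.TenM (bd)
open Pool.Agent.Lib.MPf11a48.Tors (IsTorsor ClosedOver grp OmegaM FixesField)
open Pool.Agent.Lib.MPf11a48.K3 (cx)

namespace FinNM

/-! ## Flatness -/

theorem flatOver_of_flat {L : IntermediateField ℚ ℂ} {E : IntermediateField ℚ Qbar}
    (h : Flat E) : FlatOver L E := fun V hV hodd hgal _ => h V hV hodd hgal

theorem biFlat_congr {Γ Γ' : Type} [Group Γ] [Group Γ'] (e : Γ ≃* Γ') (h : BiFlat Γ') :
    BiFlat Γ := by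
  intro V hV hl hr
  let V' : Submodule ℚ (Γ' → ℚ) := V.map (LinearMap.funLeft ℚ ℚ e.symm)
  have hmem : ∀ f : Γ' → ℚ, f ∈ V' ↔ (fun x => f (e x)) ∈ V := by
    intro f
    constructor
    · rintro ⟨f', hf', rfl⟩
      have : (fun x => (LinearMap.funLeft ℚ ℚ e.symm) f' (e x)) = f' := by
        funext x
        simp [LinearMap.funLeft]
      rw [this]
      exact hf'
    · intro hf
      refine ⟨_, hf, ?_⟩
      funext x
      simp [LinearMap.funLeft]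
  obtain ⟨f, hf, hf0, hfl⟩ := h V' (by
    obtain ⟨f, hf, hf0⟩ := (Submodule.ne_bot_iff V).1 hV
    rw [Submodule.ne_bot_iff]
    refine ⟨fun x => f (e.symm x), (hmem _).2 ?_, fun h0 => hf0 ?_⟩
    · simpa using hf
    · funext x
      have := congrFun h0 (e x)
      simpa using this) (by
    intro g f hf
    rw [hmem] at hf ⊢
    have h1 := hl (e.symm g) _ hf
    simpa using h1) (by
    intro g f hf
    rw [hmem] at hf ⊢
    have h1 := hr (e.symm g) _ hf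
    simpa using h1)
  refine ⟨_, (hmem f).1 hf, fun h0 => hf0 ?_, fun x => hfl _⟩
  funext x
  have := congrFun h0 (e.symm x)
  simpa using this

theorem normal_of {E : IntermediateField ℚ Qbar} (h : ∀ γ : Qbar ≃ₐ[ℚ] Qbar, ∀ x ∈ E, γ x ∈ E) :
    Normal ℚ E := by
  have hN : Normal ℚ Qbar := inferInstance
  have h1 : @Normal ℚ E _ _ (IntermediateField.algebra' E) := by
    rw [IntermediateField.normal_iff_forall_map_le']
    intro γ
    rintro _ ⟨x, hx, rfl⟩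
    exact h γ x hx
  convert h1
  exact Subsingleton.elim _ _

theorem flat_metabelian (hFlm : SpecFlm) (hFlk : SpecFlk) {E : IntermediateField ℚ Qbar}
    [FiniteDimensional ℚ E] (h : MetabelianField E) : FlatOver ⊥ E := by
  refine hFlk E inferInstance h.1 (hFlm _ fun a b c d => ?_)
  have hN : Normal ℚ E := normal_of h.1
  have hl : ∀ (a : E ≃ₐ[ℚ] E) (x : E), ((a x : E) : Qbar) = (a.liftNormal Qbar) (x : Qbar) := by
    intro a x
    exact (a.liftNormal_commutes Qbar x).symm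
  have hli : ∀ (a : E ≃ₐ[ℚ] E) (x : E),
      ((a⁻¹ x : E) : Qbar) = (a.liftNormal Qbar)⁻¹ (x : Qbar) := by
    intro a x
    apply (a.liftNormal Qbar).injective
    have h1 : (a.liftNormal Qbar) ((a.liftNormal Qbar)⁻¹ (x : Qbar)) = x :=
      (a.liftNormal Qbar).apply_symm_apply _
    rw [h1, ← hl]
    exact congrArg _ (a.apply_symm_apply x)
  ext x
  have h1 := h.2 (a.liftNormal Qbar) (b.liftNormal Qbar) (c.liftNormal Qbar) (d.liftNormal Qbar)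
    (x : Qbar) x.2
  simp only [AlgEquiv.mul_apply, ← hl, ← hli] at h1 ⊢
  exact congrArg _ h1

theorem flat_hyp (hFlh : SpecFlh) (hFlk : SpecFlk) {E : IntermediateField ℚ Qbar}
    [FiniteDimensional ℚ E] (h : HyperoctahedralField E) : FlatOver ⊥ E := by
  obtain ⟨h1, n, ⟨e⟩⟩ := h
  exact hFlk E inferInstance h1 (biFlat_congr e (hFlh n))

/-- an abelian variety over `L`, condition (a) or (b) with a flat field -/
theorem abvar {g N : ℕ} {A : AbData g N} {c : GL (Ix g) ℂ} {L : IntermediateField ℚ ℂ}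
    (hL : L ≤ Qbar) (hA : A.IsAbVar L) (hc : c.1 = A.per) (hGL : GL2Like c.1 A.psi)
    (hsep : Separated c.1 A.psi ∨ ListedCentre c.1) :
    ∀ y ∈ LefG A c, y.1 * c ∈ OmegaDRB Qbar c := by
  obtain ⟨⟨J, hJ⟩, -⟩ := hda' specTL' L g N A c hL hA hc
  intro y hy
  have hSep : Separated c.1 A.psi := by
    rcases hsep with h | h
    · exact h
    · obtain ⟨S⟩ := str' c J _ hJ hGL
      exact separated_of_listedCentre bic' hJ S h
  exact rep' c J _ hJ hGL hSep _ (FinM.compat hy) (FinM.mult hy)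

/-- the polarisation over `Qbar` -/
theorem polarised {g N : ℕ} {A : AbData g N} {c : GL (Ix g) ℂ} {L : IntermediateField ℚ ℂ}
    (hL : L ≤ Qbar) (hA : A.IsAbVar L) (hc : c.1 = A.per) :
    ∃ θ : Matrix (Ix g) (Ix g) Qbar, Polarised 1 c θ A.psi := by
  obtain ⟨θ, hψ, hleg⟩ := specLEG L g N A c hL hA hc
  refine ⟨θ.map (IntermediateField.inclusion hL), hψ, ?_⟩
  have h1 : (θ.map (IntermediateField.inclusion hL)).map (fun x => (x : ℂ)) =
      θ.map (fun x => (x : ℂ)) := rfl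
  change _ = _ • (θ.map (IntermediateField.inclusion hL)).map (algebraMap Qbar ℂ)
  exact hleg

/-- Let `𝒢` be stable under the conjugations and contain the de Rham-Betti group: it contains the
Mumford-Tate group. -/
theorem mt (hGaln : SpecGaln) (hTypn : SpecTypn) (hMainn : SpecMainn) {g N : ℕ} {A : AbData g N}
    {c : GL (Ix g) ℂ} {L : IntermediateField ℚ ℂ} (hg : 0 < g)
    (hL : L ≤ Qbar) (hA : A.IsAbVar L) (hc : c.1 = A.per) (hGL : GL2Like c.1 A.psi)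
    (hcut : CutOut A c) {E : IntermediateField ℚ Qbar} (hE : FiniteDimensional ℚ E)
    (htypes : AllTypes A c.1 E) (hfl : FlatOver L E) (𝒢 : Subgroup (GL (Ix g) ℂ × ℂˣ))
    (h1 : ∀ y : GL (Ix g) ℂ × ℂˣ, y.1 * c ∈ OmegaDRB Qbar c →
        y.1.1ᵀ * mC A.psi * y.1.1 = (y.2 : ℂ) • mC A.psi → y ∈ 𝒢)
    (h2 : ∀ τ : ℂ ≃+* ℂ, FixesField L τ → ∀ y ∈ 𝒢, (twg τ c * y.1 * (twg τ c)⁻¹, y.2) ∈ 𝒢) :
    ∀ y ∈ MTG A c, y ∈ 𝒢 := by
  obtain ⟨⟨J, hJ⟩, -⟩ := hda' specTL' L g N A c hL hA hc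
  have hH := tan' L g N A c hL hA hc hGL
  have hgal := hGaln L g N A c hL hA hc hGL
  have hsep := hTypn (Ix g) c.1 A.psi (Tan A c.1) E L (RGal L c) hE hH hfl htypes.reflex
    htypes.all hgal.ex
  obtain ⟨S, hS, hcut⟩ := hcut
  have hLie : LieRel c A.psi (Tan A c.1) := by
    refine specHcl (Ix g) c A.psi (Tan A c.1) S hS fun f hf => ?_
    obtain ⟨x, hx, rfl⟩ := hcut f hf
    rw [mul_inv_cancel_right]
    exact hx.2
  have : Nonempty (Ix g) := ⟨Sum.inl ⟨0, hg⟩⟩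
  intro y hy
  exact hMainn (Ix g) c J A.psi (Tan A c.1) L hJ hGL hH hgal hsep hLie 𝒢 h1 h2 y hy.1.1 hy.1.2 hy.2

end FinNM

/-- the condition on the field `E` -/
def GoodField (L : IntermediateField ℚ ℂ) (E : IntermediateField ℚ Qbar) : Prop :=
  FiniteDimensional ℚ E ∧ (FlatOver L E ∨ AbelianField E ∨
    (L = ⊥ ∧ (MetabelianField E ∨ HyperoctahedralField E)))

open FinNM in
/-- The theorem. -/
theorem mainN_of (hFlm : SpecFlm) (hFlh : SpecFlh) (hFlk : SpecFlk) (hGaln : SpecGaln)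
    (hTypn : SpecTypn) (hMainn : SpecMainn) (hTenn : SpecTenn) (hTenk : SpecTenk)
    (g N : ℕ) (hg : 0 < g) (A : AbData g N) (L : IntermediateField ℚ ℂ) (hL : L ≤ Qbar)
    (hA : A.IsAbVar L) (c : GL (Ix g) ℂ) (hc : c.1 = A.per) (hGL : GL2Like c.1 A.psi)
    (𝓖 : Set (GL (Ix g) ℂ × ℂˣ))
    (h𝓖 : (𝓖 = LefG A c ∧ (Separated c.1 A.psi ∨ ListedCentre c.1)) ∨
      (𝓖 = MTG A c ∧ CutOut A c ∧ ∃ E : IntermediateField ℚ Qbar, GoodField L E ∧
        AllTypes A c.1 E))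
    (k : ℕ) (r : GL (Fin k) ℂ) (hr : IsAlg r.1) (K : IntermediateField ℚ ℂ) (hK : K ≤ L)
    (κ ι : Type) [Fintype κ] [DecidableEq κ] [Fintype ι] [DecidableEq ι]
    (T : GL (Ix g ⊕ Fin k) ℂ × ℂˣ → GL κ ℂ) (hT : IsRep T) (n : GL ι ℂ)
    (iB : Matrix κ ι ℚ) (hN : IsSubOver L (T (dsum c r, tpi)) n iB) :
    (∀ y ∈ 𝓖, ∃ f : GL ι ℂ, (T (dsum y.1 1, y.2)).1 * iB.map (algebraMap ℚ ℂ) =
      iB.map (algebraMap ℚ ℂ) * f.1) ∧
    (∀ f ∈ imG T iB {w | ∃ y ∈ 𝓖, w = (dsum y.1 1, y.2)}, ∀ h, Conj K (f * n) h →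
      h ∈ OmegaDRB K n) ∧
      ∀ S : Set (TPair K ι), (∀ α ∈ S, Fixes n α) →
        (∀ h ∈ OmegaS S, ∃ f ∈ imG T iB {w | ∃ y ∈ 𝓖, w = (dsum y.1 1, y.2)},
          Conj K (f * n) h) →
        OmegaDRB K n = OmegaS S ∧ (K = ⊥ → OmegaM K n = OmegaS S) := by
  obtain ⟨θ, hpol⟩ := polarised hL hA hc
  have key : ∀ 𝒢 : Subgroup (GL (Ix g) ℂ × ℂˣ),
      (∀ y : GL (Ix g) ℂ × ℂˣ, y.1 * c ∈ OmegaDRB Qbar c →
        y.1.1ᵀ * mC A.psi * y.1.1 = (y.2 : ℂ) • mC A.psi → y ∈ 𝒢) →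
      (∀ τ : ℂ ≃+* ℂ, FixesField L τ → ∀ y ∈ 𝒢, (twg τ c * y.1 * (twg τ c)⁻¹, y.2) ∈ 𝒢) →
      ∀ y ∈ 𝓖, y ∈ 𝒢 := by
    intro 𝒢 h1 h2 y hy
    rcases h𝓖 with ⟨rfl, hsep⟩ | ⟨rfl, hcut, E, ⟨hE, hfl⟩, htypes⟩
    · exact h1 y (abvar hL hA hc hGL hsep y hy) hy.2
    · have hfl' : FlatOver L E := by
        rcases hfl with h | h | ⟨rfl, h | h⟩
        · exact h
        · exact flatOver_of_flat (fle' E hE h)
        · exact flat_metabelian hFlm hFlk h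
        · exact flat_hyp hFlh hFlk h
      exact mt hGaln hTypn hMainn hg hL hA hc hGL hcut hE htypes hfl' 𝒢 h1 h2 y hy
  have h3 := hTenk (Ix g ⊕ Fin k) {w | ∃ y ∈ 𝓖, w = (dsum y.1 1, y.2)} (dsum c r) L hL (by
    rintro T' hT' hc' hg' _ ⟨y, hy, rfl⟩
    exact hTenn g c A.psi θ L 𝓖 hg hL hpol key k r hr T' hT' hc' hg' y hy) K hK κ ι T hT n iB hN
  refine ⟨fun y hy => h3.1 _ ⟨y, hy, rfl⟩, h3.2.1, h3.2.2⟩

end Pool.Agent.Lib.MPf11a48.CMM
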