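import Pool.Agent.Lib.MP_f11a48_ag.CMM.SpecN
import Pool.Agent.Lib.MP_f11a48_ag.CMM.Repr

/-!
# Module MAINN: the group contains the Mumford-Tate group (helper28)
-/

set_option autoImplicit false

namespace Pool.Agent.Lib.MPf11a48.CMM

open Matrix MvPolynomial
open Pool.Agent.Lib.MPf11a48.CM hiding OmegaM
open Pool.Agent.Lib.MPf11a48.GL2T
open Pool.Agent.Lib.MPf11a48.U
open Pool.Agent.Lib.MPf11a48.Tors (IsTorsor ClosedOver grp OmegaM FixesField)
open Pool.Agent.Lib.MPf11a48.K3 (cx)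

namespace MainnM

open REPM

section

variable {ι : Type} [Fintype ι] [DecidableEq ι]

theorem exp_scalar (m : ℂ) :
    NormedSpace.exp (m • (1 : Matrix ι ι ℂ)) = Complex.exp m • (1 : Matrix ι ι ℂ) := by
  have h6 : (m • (1 : Matrix ι ι ℂ)) = Matrix.diagonal (fun _ => m) := by
    rw [Matrix.smul_one_eq_diagonal]
  rw [h6, Matrix.exp_diagonal, Matrix.smul_one_eq_diagonal]
  congr 1
  funext i
  rw [Pi.coe_exp, Complex.exp_eq_exp_ℂ]

theorem exp_neg_mul (X : Matrix ι ι ℂ) : NormedSpace.exp (-X) * NormedSpace.exp X = 1 := by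
  rw [← Matrix.exp_add_of_commute (-X) X ((Commute.refl X).neg_left), neg_add_cancel,
    NormedSpace.exp_zero]

/-- exponentials of infinitesimal similitudes -/
theorem expsim {P X : Matrix ι ι ℂ} (hP : P.det ≠ 0) {m : ℂ} (h : Xᵀ * P + P * X = m • P) :
    (NormedSpace.exp X)ᵀ * P * NormedSpace.exp X = Complex.exp m • P := by
  have hu : IsUnit P.det := isUnit_iff_ne_zero.2 hP
  have hU : IsUnit P := (Matrix.isUnit_iff_isUnit_det P).2 hu
  have h0 : Xᵀ * P = P * (m • 1 + -X) := by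
    rw [mul_add, Matrix.mul_smul, mul_one, mul_neg, ← sub_eq_add_neg]
    exact eq_sub_of_add_eq h
  have h1 : Xᵀ = P * (m • 1 + -X) * P⁻¹ := by
    rw [← h0, mul_assoc, Matrix.mul_nonsing_inv _ hu, mul_one]
  have hc : Commute (m • (1 : Matrix ι ι ℂ)) (-X) := by
    have : Commute (1 : Matrix ι ι ℂ) (-X) := Commute.one_left _
    exact this.smul_left m
  have h2 : (NormedSpace.exp X)ᵀ = P * (Complex.exp m • NormedSpace.exp (-X)) * P⁻¹ := by
    rw [← Matrix.exp_transpose, h1, Matrix.exp_conj _ _ hU, Matrix.exp_add_of_commute _ _ hc,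
      exp_scalar, smul_mul_assoc, one_mul]
  rw [h2, mul_assoc (P * _), Matrix.nonsing_inv_mul _ hu, mul_one, mul_assoc, smul_mul_assoc,
    exp_neg_mul, Matrix.mul_smul, mul_one]

variable {c : GL ι ℂ} {ψ : Matrix ι ι ℚ}

theorem psi_det (h : ψ.det ≠ 0) : (mC ψ).det ≠ 0 := by
  intro h0
  apply h
  have h1 : (mC ψ).det = ((ψ.det : ℚ) : ℂ) := ((Rat.castHom ℂ).map_det ψ).symm
  rw [h1] at h0
  exact_mod_cast h0

theorem sim_of_adj (h : (mC ψ).det ≠ 0) {X : Matrix ι ι ℂ} {m : ℂ}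
    (hX : adj (mC ψ) X + X = m • 1) : Xᵀ * mC ψ + mC ψ * X = m • mC ψ := by
  have hu : IsUnit (mC ψ).det := isUnit_iff_ne_zero.2 h
  have h1 := congrArg (fun Y => mC ψ * Y) hX
  simp only [mul_add, Matrix.mul_smul, mul_one, adj] at h1
  rw [← mul_assoc, ← mul_assoc, Matrix.mul_nonsing_inv _ hu, one_mul] at h1
  exact h1

/-- the central element with the eigenvalues `w` -/
noncomputable def CX (S : Str c ψ) (w : EmbC c.1 → ℂ) : Matrix ι ι ℂ :=
  TORM.cenL S fun e => w (S.ev e)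

theorem CX_add (S : Str c ψ) (w w' : EmbC c.1 → ℂ) : CX S (w + w') = CX S w + CX S w' := by
  unfold CX
  rw [← map_add]
  rfl

theorem CX_smul (S : Str c ψ) (t : ℂ) (w : EmbC c.1 → ℂ) : CX S (t • w) = t • CX S w := by
  unfold CX
  rw [← map_smul]
  rfl

theorem CX_zero (S : Str c ψ) : CX S 0 = 0 := by
  have h := CX_smul S 0 0
  rwa [zero_smul, zero_smul] at h

theorem CX_comm (S : Str c ψ) (w w' : EmbC c.1 → ℂ) : Commute (CX S w) (CX S w') := by
  unfold CX Commute SemiconjBy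
  rw [← TORM.cen_mul, ← TORM.cen_mul, mul_comm]

theorem CX_adj (S : Str c ψ) {w : EmbC c.1 → ℂ} {m : ℂ}
    (h : ∀ s s', IsBar ψ s s' → w s + w s' = m) :
    adj (mC ψ) (CX S w) + CX S w = m • 1 := by
  unfold CX
  rw [TORM.cenL_apply, TORM.cen, S.adj_Ψ, ← map_add, ← map_one S.Ψ, ← map_smul]
  congr 1
  refine Prod.ext ?_ ?_
  · funext k
    have h1 := h _ _ (S.bar_κ k)
    change (w (S.ev (Sum.inl k)) • (1 : Matrix (Fin 2) (Fin 2) ℂ)).adjugate +
      w (S.ev (Sum.inl k)) • (1 : Matrix (Fin 2) (Fin 2) ℂ) = m • 1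
    rw [Matrix.adjugate_smul, Matrix.adjugate_one, ← add_smul]
    simp [h1]
  · funext s
    have h1 := h _ _ (S.bar_σ s)
    change w (S.ev (Sum.inr (S.τ s))) + w (S.ev (Sum.inr s)) = m * 1
    rw [mul_one, add_comm, h1]

/-- Dedekind -/
theorem indep (_S : Str c ψ) (a : EmbC c.1 → ℂ)
    (h : ∀ z : CenAlg c.1, ∑ t : EmbC c.1, ((t z : Qbar) : ℂ) * a t = 0) : ∀ t, a t = 0 := by
  have hli := linearIndependent_monoidHom (CenAlg c.1) ℂ
  let Φ : EmbC c.1 → (CenAlg c.1 →* ℂ) := fun t =>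
    ((algebraMap Qbar ℂ).comp t.toRingHom : CenAlg c.1 →+* ℂ).toMonoidHom
  have hΦ : Function.Injective Φ := by
    intro t t' htt
    apply AlgHom.ext
    intro z
    have h1 := DFunLike.congr_fun htt z
    exact Subtype.ext h1
  have h2 := hli.comp Φ hΦ
  have h3 := (Fintype.linearIndependent_iff.1 h2) a
  apply h3
  funext z
  have h4 := h z
  rw [Finset.sum_apply]
  rw [Pi.zero_apply, ← h4]
  refine Finset.sum_congr rfl fun t _ => ?_
  change a t * ((t z : Qbar) : ℂ) = _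
  rw [mul_comm]

/-- the idempotents of the centre -/
noncomputable def ide (S : Str c ψ) (t : EmbC c.1) : Matrix ι ι ℂ :=
  TORM.cenL S (Pi.single (S.ev.symm t) 1)

theorem sum_ide (S : Str c ψ) (w : EmbC c.1 → ℂ) : ∑ t, w t • ide S t = CX S w := by
  unfold CX
  rw [← TORM.cen_sum, ← Equiv.sum_comp S.ev]
  refine Finset.sum_congr rfl fun e _ => ?_
  unfold ide
  rw [Equiv.symm_apply_apply]

theorem sum_pt (S : Str c ψ) (z : CenAlg c.1) :
    ∑ t : EmbC c.1, ((t z : Qbar) : ℂ) • ide S t = mC z.1 := by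
  rw [sum_ide S fun t => ((t z : Qbar) : ℂ), ← TORM.cen_pt]
  rfl

/-- the action of an automorphism of the centre on the embeddings -/
noncomputable def cpE (κ : CenAlg c.1 ≃ₐ[ℚ] CenAlg c.1) : EmbC c.1 ≃ EmbC c.1 where
  toFun s := s.comp κ.toAlgHom
  invFun s := s.comp κ.symm.toAlgHom
  left_inv s := by
    apply AlgHom.ext
    intro z
    change s (κ (κ.symm z)) = s z
    rw [AlgEquiv.apply_symm_apply]
  right_inv s := by
    apply AlgHom.ext
    intro z
    change s (κ.symm (κ z)) = s z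
    rw [AlgEquiv.symm_apply_apply]

theorem conj_CX (S : Str c ψ) (κ : CenAlg c.1 ≃ₐ[ℚ] CenAlg c.1) (g : GL ι ℂ)
    (hg : ∀ z : CenAlg c.1, g.1 * mC z.1 = mC (κ z).1 * g.1) (w : EmbC c.1 → ℂ) :
    g.1 * CX S w * g⁻¹.1 = CX S (fun s => w (s.comp κ.toAlgHom)) := by
  have hgi : g.1 * g⁻¹.1 = 1 := by rw [← Units.val_mul, mul_inv_cancel]; rfl
  have key : ∀ t, g.1 * ide S t * g⁻¹.1 = ide S ((cpE κ).symm t) := by
    have h1 : ∀ z : CenAlg c.1, ∑ t : EmbC c.1, ((t z : Qbar) : ℂ) •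
        (g.1 * ide S t * g⁻¹.1 - ide S ((cpE κ).symm t)) = 0 := by
      intro z
      have h2 : ∑ t : EmbC c.1, ((t z : Qbar) : ℂ) • (g.1 * ide S t * g⁻¹.1) = mC (κ z).1 := by
        have h3 : g.1 * (∑ t : EmbC c.1, ((t z : Qbar) : ℂ) • ide S t) * g⁻¹.1 = mC (κ z).1 := by
          rw [sum_pt, hg, mul_assoc, hgi, mul_one]
        rw [← h3, Matrix.mul_sum, Matrix.sum_mul]
        refine Finset.sum_congr rfl fun t _ => ?_
        rw [Matrix.mul_smul, Matrix.smul_mul]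
      have h4 : ∑ t : EmbC c.1, ((t z : Qbar) : ℂ) • ide S ((cpE κ).symm t) = mC (κ z).1 := by
        rw [← sum_pt, ← Equiv.sum_comp (cpE κ)]
        refine Finset.sum_congr rfl fun t _ => ?_
        rw [Equiv.symm_apply_apply]
        rfl
      simp only [smul_sub, Finset.sum_sub_distrib]
      rw [h2, h4, sub_self]
    have h5 : ∀ i j, ∀ t, (g.1 * ide S t * g⁻¹.1 - ide S ((cpE κ).symm t)) i j = 0 := by
      intro i j
      apply indep S
      intro z
      have h6 := congrFun (congrFun (h1 z) i) j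
      rw [Matrix.sum_apply] at h6
      rw [Matrix.zero_apply] at h6
      rw [← h6]
      refine Finset.sum_congr rfl fun t _ => ?_
      rw [Matrix.smul_apply, smul_eq_mul]
    intro t
    ext i j
    have h7 := h5 i j t
    rw [Matrix.sub_apply] at h7
    exact sub_eq_zero.1 h7
  rw [← sum_ide, ← sum_ide, Matrix.mul_sum, Matrix.sum_mul]
  rw [← Equiv.sum_comp (cpE κ).symm (fun s => w (s.comp κ.toAlgHom) • ide S s)]
  refine Finset.sum_congr rfl fun t _ => ?_
  rw [Matrix.mul_smul, Matrix.smul_mul, key]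
  congr 2
  exact ((cpE κ).apply_symm_apply t).symm

theorem exp_conj' (g : GL ι ℂ) (X : Matrix ι ι ℂ) :
    NormedSpace.exp (g.1 * X * g⁻¹.1) = g.1 * NormedSpace.exp X * g⁻¹.1 :=
  Matrix.exp_units_conj g X

/-- the space `M` -/
noncomputable def MM (S : Str c ψ) (𝒢 : Subgroup (GL ι ℂ × ℂˣ)) :
    Submodule ℂ (EmbC c.1 → ℂ) where
  carrier := {w | ∃ m : ℂ, (∀ s s', IsBar ψ s s' → w s + w s' = m) ∧
    ∀ t : ℂ, ∃ y ∈ 𝒢, y.1.1 = NormedSpace.exp (t • CX S w) ∧ (y.2 : ℂ) = Complex.exp (t * m)}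
  add_mem' := by
    rintro w w' ⟨m, h1, h2⟩ ⟨m', h1', h2'⟩
    refine ⟨m + m', ?_, ?_⟩
    · intro s s' hs
      rw [Pi.add_apply, Pi.add_apply, ← h1 s s' hs, ← h1' s s' hs]
      ring
    · intro t
      obtain ⟨y, hy, hy1, hy2⟩ := h2 t
      obtain ⟨y', hy', hy1', hy2'⟩ := h2' t
      refine ⟨y * y', 𝒢.mul_mem hy hy', ?_, ?_⟩
      · rw [Prod.fst_mul, Units.val_mul, hy1, hy1', CX_add, smul_add,
          Matrix.exp_add_of_commute]
        exact ((CX_comm S w w').smul_left t).smul_right t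
      · rw [Prod.snd_mul, Units.val_mul, hy2, hy2', ← Complex.exp_add]
        congr 1
        ring
  zero_mem' := by
    refine ⟨0, fun s s' _ => by simp, fun t => ⟨1, 𝒢.one_mem, ?_, ?_⟩⟩
    · rw [CX_zero, smul_zero, NormedSpace.exp_zero]
      rfl
    · rw [mul_zero, Complex.exp_zero]
      rfl
  smul_mem' := by
    rintro a w ⟨m, h1, h2⟩
    refine ⟨a * m, ?_, ?_⟩
    · intro s s' hs
      rw [Pi.smul_apply, Pi.smul_apply, ← h1 s s' hs, smul_eq_mul, smul_eq_mul]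
      ring
    · intro t
      obtain ⟨y, hy, hy1, hy2⟩ := h2 (t * a)
      refine ⟨y, hy, ?_, ?_⟩
      · rw [hy1, CX_smul, smul_smul]
      · rw [hy2, mul_assoc]

theorem MM_conj {K : IntermediateField ℚ ℂ} (S : Str c ψ) (𝒢 : Subgroup (GL ι ℂ × ℂˣ))
    (hG2 : ∀ τ : ℂ ≃+* ℂ, FixesField K τ → ∀ y ∈ 𝒢, (twg τ c * y.1 * (twg τ c)⁻¹, y.2) ∈ 𝒢)
    (hbar : ∀ κ ∈ RGal K c, ∀ s s' : EmbC c.1, IsBar ψ s s' →
      IsBar ψ (s.comp κ.toAlgHom) (s'.comp κ.toAlgHom)) :
    ∀ κ ∈ RGal K c, ∀ w ∈ MM S 𝒢, (fun s : EmbC c.1 => w (s.comp κ.toAlgHom)) ∈ MM S 𝒢 := by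
  rintro κ hκ w ⟨m, h1, h2⟩
  obtain ⟨τ, hτ, hg⟩ := id hκ
  refine ⟨m, fun s s' hs => h1 _ _ (hbar κ hκ s s' hs), fun t => ?_⟩
  obtain ⟨y, hy, hy1, hy2⟩ := h2 t
  refine ⟨_, hG2 τ hτ y hy, ?_, hy2⟩
  rw [← conj_CX S κ (twg τ c) hg]
  change (twg τ c).1 * y.1.1 * (twg τ c)⁻¹.1 = _
  rw [hy1, ← exp_conj']
  congr 1
  rw [Matrix.mul_smul, Matrix.smul_mul]

end

end MainnM

open ReprM REPM MainnM

/-- MAINN. -/
theorem specMainn (hTORN : SpecTorn) (hGENR : SpecGenr) : SpecMainn := by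
  have hLIN : SpecLIN := specLIN
  have hEXP : SpecEXP := specEXP
  have hSIM : SpecSIM := specSIM
  have hBIC : SpecBIC := BicM.specBIC specLIN specDER specSIM
  have hSTR : SpecSTR := StrM.specSTR hBIC specWED
  have hGOU : SpecGOU := specGOU
  intro ι _ _ hι c J ψ TT K hHD hGL hHalf hGal hSep hLie 𝒢 hG1 hG2 yy hyc hyψ hRel
  classical
  obtain ⟨S⟩ := hSTR c J ψ hHD hGL
  obtain ⟨h0, hadd, hsmul, hbr, hspan⟩ := hLIN c
  obtain ⟨hcomm, hsimil, -⟩ := hSIM c J ψ hHD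
  have hψdet : (mC ψ).det ≠ 0 := psi_det hHD.det
  have hψu : IsUnit (mC ψ).det := isUnit_iff_ne_zero.2 hψdet
  have hψ0 : mC ψ ≠ 0 := by
    intro h
    apply hψdet
    rw [h, Matrix.det_zero]
  -- the Lie algebra
  let N : Submodule ℂ (EA S.κ S.σ) :=
    { carrier := {X | InH c (S.Ψ X)}
      add_mem' := fun {X Y} hX hY => by
        change InH c (S.Ψ (X + Y))
        rw [map_add]; exact hadd _ _ hX hY
      zero_mem' := by
        change InH c (S.Ψ 0)
        rw [map_zero]; exact h0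
      smul_mem' := fun t X hX => by
        change InH c (S.Ψ (t • X))
        rw [map_smul]; exact hsmul t _ hX }
  have hN1 : ∀ X ∈ N, ∀ Y ∈ N, X * Y - Y * X ∈ N := by
    intro X hX Y hY
    change InH c (S.Ψ (X * Y - Y * X))
    rw [map_sub, map_mul, map_mul]
    exact hbr _ _ hX hY
  -- similitudes
  have hm : ∀ X : Matrix ι ι ℂ, ∀ m : ℂ, Xᵀ * mC ψ + mC ψ * X = m • mC ψ →
      adj (mC ψ) X + X = m • 1 := by
    intro X m h
    have h1 := congrArg (fun Y => (mC ψ)⁻¹ * Y) h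
    simp only [mul_add, Matrix.mul_smul] at h1
    rw [Matrix.nonsing_inv_mul _ hψu, ← mul_assoc, ← mul_assoc, Matrix.nonsing_inv_mul _ hψu,
      one_mul] at h1
    exact h1
  have hN2 : ∀ X ∈ N, ∃ m : ℂ, ∀ k, (X.1 k).trace = m := by
    rintro ⟨x, y⟩ hX
    obtain ⟨m, h⟩ := hsimil _ hX
    have h1 := hm _ m h
    rw [S.adj_Ψ, ← map_add] at h1
    have h2 : (m • (1 : Matrix ι ι ℂ)) = S.Ψ (m • 1) := by rw [map_smul, map_one]
    rw [h2] at h1
    have h3 := S.inj h1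
    refine ⟨m, fun k => trace_of_adj ?_⟩
    exact congrFun (congrArg Prod.fst h3) k
  have hN3 : Algebra.adjoin ℂ (N : Set (EA S.κ S.σ)) = ⊤ := by
    rw [eq_top_iff]
    intro u _
    have h1 := (S.mem_range (S.Ψ u)).1 ⟨u, rfl⟩
    have h2 := mem_span_com h1
    have h3 : ∀ Z ∈ ComAlg c.1, mC Z ∈ (Algebra.adjoin ℂ (N : Set (EA S.κ S.σ))).map S.Ψ := by
      rw [(hBIC c J ψ hHD).2]
      intro Z hZ
      refine Algebra.adjoin_induction
        (p := fun Z _ => mC Z ∈ (Algebra.adjoin ℂ (N : Set (EA S.κ S.σ))).map S.Ψ)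
        ?_ ?_ ?_ ?_ hZ
      · intro Z hZ
        obtain ⟨X, hX⟩ := (S.mem_range (mC Z)).2 (fun B hB => hcomm _ hZ B hB)
        refine ⟨X, Algebra.subset_adjoin ?_, hX⟩
        change InH c (S.Ψ X)
        rw [hX]
        exact hZ
      · intro q
        have : mC (algebraMap ℚ (Matrix ι ι ℚ) q) = algebraMap ℂ (Matrix ι ι ℂ) (q : ℂ) := by
          ext i j
          simp only [Matrix.map_apply, Matrix.algebraMap_matrix_apply]
          split_ifs <;> simp
        rw [this]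
        exact Subalgebra.algebraMap_mem _ _
      · intro a b _ _ ha hb
        have : mC (a + b) = mC a + mC b := Matrix.map_add _ (fun x y => Rat.cast_add x y) a b
        rw [this]
        exact add_mem ha hb
      · intro a b _ _ ha hb
        rw [mC_mul]
        exact mul_mem ha hb
    have h4 : S.Ψ u ∈ (Algebra.adjoin ℂ (N : Set (EA S.κ S.σ))).map S.Ψ := by
      have : Submodule.span ℂ {Y : Matrix ι ι ℂ | ∃ Z ∈ ComAlg c.1, Y = mC Z} ≤
          Subalgebra.toSubmodule ((Algebra.adjoin ℂ (N : Set (EA S.κ S.σ))).map S.Ψ) := by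
        refine Submodule.span_le.2 ?_
        rintro _ ⟨Z, hZ, rfl⟩
        exact h3 Z hZ
      exact this h2
    obtain ⟨u', hu', he⟩ := h4
    rwa [← S.inj he]
  have hsl := hGOU S.κ S.σ N hN1 hN2 hN3
  -- exponentials of elements of the Lie algebra
  have hexpG : ∀ (X : Matrix ι ι ℂ) (m : ℂ), InH c X → Xᵀ * mC ψ + mC ψ * X = m • mC ψ →
      ∃ y ∈ 𝒢, y.1.1 = NormedSpace.exp X ∧ (y.2 : ℂ) = Complex.exp m := by
    intro X m hX hXm
    obtain ⟨g', hg'⟩ := Matrix.isUnit_exp X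
    refine ⟨(g', Units.mk0 (Complex.exp m) (Complex.exp_ne_zero m)), hG1 _ ?_ ?_, hg', rfl⟩
    · exact hEXP c X hX g' hg' c (self_mem c)
    · change g'.1ᵀ * mC ψ * g'.1 = Complex.exp m • mC ψ
      have hg'' : g'.1 = NormedSpace.exp X := hg'
      rw [hg'']
      exact expsim hψdet hXm
  have htor := hTORN ι c J ψ TT S (RGal K c) hHD hSep hLie hGal.bar hGal.odd
    (fun x hx => hsl x hx) (MM S 𝒢) (by
      intro w hw
      obtain ⟨m, h⟩ := hsimil _ hw
      have h1 := TORM.mult_eq S hHD.det (x := fun k => w (S.ev (Sum.inl k)) • 1)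
        (y := fun s => w (S.ev (Sum.inr s))) h
      refine ⟨m, ?_, ?_⟩
      · intro s s' hs
        obtain ⟨e, rfl⟩ := S.ev.surjective s
        have h2 := hHalf.2.1 _ _ _ hs (TORM.isBar_bar S e)
        subst h2
        rcases e with k | j
        · have h3 := h1.1 k
          rw [Matrix.trace_smul, Matrix.trace_one] at h3
          simp only [Fintype.card_fin, smul_eq_mul] at h3
          change w (S.ev (Sum.inl k)) + w (S.ev (Sum.inl k)) = m
          rw [← h3]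
          push_cast
          ring
        · exact h1.2 j
      · intro t
        refine hexpG (t • CX S w) (t * m) (hsmul t _ hw) ?_
        rw [Matrix.transpose_smul, Matrix.smul_mul, Matrix.mul_smul, ← smul_add]
        have h' : (CX S w)ᵀ * mC ψ + mC ψ * CX S w = m • mC ψ := h
        rw [h', smul_smul])
    (MM_conj S 𝒢 hG2 hGal.bar)
  -- the group
  let T : Set (EA S.κ S.σ) := {u | ∃ y ∈ 𝒢, y.1.1 = S.Ψ u ∧
    y.1.1ᵀ * mC ψ * y.1.1 = (y.2 : ℂ) • mC ψ}
  have hT1 : (1 : EA S.κ S.σ) ∈ T := by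
    refine ⟨1, 𝒢.one_mem, ?_, ?_⟩
    · rw [map_one]
      rfl
    · change (1 : Matrix ι ι ℂ)ᵀ * mC ψ * (1 : Matrix ι ι ℂ) = (1 : ℂ) • mC ψ
      rw [Matrix.transpose_one, one_mul, mul_one, one_smul]
  have hTmul : ∀ u ∈ T, ∀ t ∈ T, u * t ∈ T := by
    rintro u ⟨y, hy, hy1, hy2⟩ t ⟨z, hz, hz1, hz2⟩
    refine ⟨y * z, 𝒢.mul_mem hy hz, ?_, ?_⟩
    · rw [Prod.fst_mul, Units.val_mul, hy1, hz1, map_mul]
    · rw [Prod.fst_mul, Units.val_mul, Prod.snd_mul, Units.val_mul, Matrix.transpose_mul]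
      calc z.1.1ᵀ * y.1.1ᵀ * mC ψ * (y.1.1 * z.1.1)
          = z.1.1ᵀ * (y.1.1ᵀ * mC ψ * y.1.1) * z.1.1 := by simp only [mul_assoc]
        _ = (y.2 : ℂ) • (z.1.1ᵀ * mC ψ * z.1.1) := by
            rw [hy2, Matrix.mul_smul, Matrix.smul_mul]
        _ = _ := by rw [hz2, smul_smul]
  -- the element
  obtain ⟨⟨x, y⟩, hxy⟩ := (S.mem_range yy.1.1).2 hyc
  have hadjg : adj (mC ψ) yy.1.1 * yy.1.1 = (yy.2 : ℂ) • 1 := by
    rw [adj, mul_assoc, mul_assoc, ← mul_assoc yy.1.1ᵀ, hyψ, Matrix.mul_smul,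
      Matrix.nonsing_inv_mul _ hψu]
  have hμ0 : (yy.2 : ℂ) ≠ 0 := yy.2.ne_zero
  rw [← hxy, S.adj_Ψ, ← map_mul] at hadjg
  have h2 : ((yy.2 : ℂ) • (1 : Matrix ι ι ℂ)) = S.Ψ ((yy.2 : ℂ) • 1) := by
    rw [map_smul, map_one]
  rw [h2] at hadjg
  have h3 := S.inj hadjg
  have hdet : ∀ k, (x k).det = (yy.2 : ℂ) := by
    intro k
    have h4 : (x k).adjugate * x k = (yy.2 : ℂ) • 1 := congrFun (congrArg Prod.fst h3) k
    rw [Matrix.adjugate_mul] at h4
    have h5 := congrFun (congrFun h4 0) 0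
    simpa using h5
  have hyy : ∀ s, y s * y (S.τ s) = (yy.2 : ℂ) := by
    intro s
    have h4 : y (S.τ s) * y s = (yy.2 : ℂ) • (1 : ℂ) := congrFun (congrArg Prod.snd h3) s
    rw [mul_comm, h4, smul_eq_mul, mul_one]
  have hmem : ((x, y) : EA S.κ S.σ) ∈ T := by
    refine hGENR S.κ S.σ S.τ (lam S hHalf) (fun n χ hn h => lam_sat S hHalf n χ hn h)
      (fun s t => lam_pairs S hHalf s t) T hT1 ?_ ?_ (yy.2 : ℂ) hμ0 x y hdet hyy
      (rel_prod S hHalf hRel hxy)
    · intro x hx t ht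
      refine hTmul _ ?_ t ht
      have h4 : (S.Ψ (x, 0))ᵀ * mC ψ + mC ψ * S.Ψ (x, 0) = (0 : ℂ) • mC ψ := by
        apply sim_of_adj hψdet
        rw [S.adj_Ψ, ← map_add, zero_smul, ← map_zero S.Ψ]
        congr 1
        refine Prod.ext ?_ ?_
        · funext k
          have h5 : (x k).adjugate + x k = 0 := by
            have h6 := hx k
            rw [Matrix.trace_fin_two] at h6
            rw [Matrix.adjugate_fin_two]
            ext i j
            fin_cases i <;> fin_cases j <;> simp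
            · rw [add_comm]; exact h6
            · exact h6
          exact h5
        · funext s
          simp
      obtain ⟨z, hz, hz1, hz2⟩ := hexpG _ 0 (hsl x hx) h4
      refine ⟨z, hz, ?_, ?_⟩
      · rw [hz1, ← exp_Ψ]
        congr 2
        funext s
        simp
      · rw [hz1, hz2]
        exact expsim hψdet h4
    · intro m y hy hyΛ t ht
      refine hTmul _ ?_ t ht
      obtain ⟨m', h4, h5⟩ := htor m y hy fun f hf => odd_sum S hHalf hyΛ hf
      obtain ⟨z, hz, hz1, hz2⟩ := h5 1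
      rw [one_smul] at hz1
      rw [one_mul] at hz2
      refine ⟨z, hz, ?_, ?_⟩
      · rw [hz1]
        unfold CX
        rw [TORM.cenL_apply, TORM.cen, ← exp_Ψ]
        congr 1
        refine Prod.ext ?_ ?_
        · funext k
          simp only [Equiv.symm_apply_apply, Sum.elim_inl]
          exact exp_scalar _
        · funext s
          simp only [Equiv.symm_apply_apply, Sum.elim_inr]
      · rw [hz1, hz2]
        exact expsim hψdet (sim_of_adj hψdet (CX_adj S h4))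
  obtain ⟨z, hz, hz1, hz2⟩ := hmem
  have e1 : z.1 = yy.1 := Units.ext (by rw [hz1, hxy])
  have e2 : z.2 = yy.2 := by
    apply Units.ext
    rw [e1, hyψ] at hz2
    exact smul_left_injective ℂ hψ0 hz2.symm
  have e3 : z = yy := Prod.ext e1 e2
  rwa [← e3]

end Pool.Agent.Lib.MPf11a48.CMM
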