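import Pool.Agent.Lib.MP_f11a48_ag.CMM.SpecN
import Pool.Agent.Lib.MP_f11a48_ag.CMM.Torr
import Pool.Agent.Lib.MP_f11a48_ag.CMM.Typn

/-!
# Motives of complex multiplication type, module TORN: the central part, with the second action
-/

set_option autoImplicit false

namespace Pool.Agent.Lib.MPf11a48.CMM

open Matrix MvPolynomial
open Pool.Agent.Lib.MPf11a48.CM hiding OmegaM
open Pool.Agent.Lib.MPf11a48.GL2T
open Pool.Agent.Lib.MPf11a48.U
open Pool.Agent.Lib.MPf11a48.K3 (cx)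
open scoped Classical

namespace TornM

open TORM TorrM TypM TypnM

/-! ### Rational subspaces -/

theorem eq_zero_of_lin {z : ℂ} (h : ∀ l : ℂ →ₗ[ℚ] ℚ, l z = 0) : z = 0 := by
  let b := Module.Basis.ofVectorSpace ℚ ℂ
  refine b.ext_elem fun i => ?_
  rw [map_zero]
  exact h (b.coord i)

theorem lin_rat_mul (l : ℂ →ₗ[ℚ] ℚ) (q : ℚ) (z : ℂ) : l ((q : ℂ) * z) = q * l z := by
  have : (q : ℂ) * z = q • z := by
    rw [Algebra.smul_def]
    rfl
  rw [this, map_smul, smul_eq_mul]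

theorem mem_of_lin {n : Type} [Fintype n] (M : Submodule ℂ (n → ℂ)) {w : n → ℂ}
    (h : ∀ l : ℂ →ₗ[ℚ] ℚ, (fun s => ((l (w s) : ℚ) : ℂ)) ∈ M) : w ∈ M := by
  let b := Module.Basis.ofVectorSpace ℚ ℂ
  let t : Finset (Module.Basis.ofVectorSpaceIndex ℚ ℂ) :=
    Finset.univ.biUnion fun s => (b.repr (w s)).support
  have ht : w = ∑ k ∈ t, (b k : ℂ) • (fun s => (((b.coord k) (w s) : ℚ) : ℂ)) := by
    funext s
    rw [Finset.sum_apply]
    have h1 := b.linearCombination_repr (w s)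
    rw [Finsupp.linearCombination_apply, Finsupp.sum] at h1
    conv_lhs => rw [← h1]
    have hsub : (b.repr (w s)).support ⊆ t := by
      intro k hk
      simp only [t, Finset.mem_biUnion, Finset.mem_univ, true_and]
      exact ⟨s, hk⟩
    rw [Finset.sum_subset hsub (fun k _ hk => by
      rw [Finsupp.notMem_support_iff.1 hk, zero_smul])]
    refine Finset.sum_congr rfl fun k _ => ?_
    change (b.repr (w s)) k • b k = b k * (((b.repr (w s)) k : ℚ) : ℂ)
    rw [Algebra.smul_def, mul_comm]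
    rfl
  rw [ht]
  exact Submodule.sum_mem _ fun k _ => Submodule.smul_mem _ _ (h _)

theorem sum_zero {n : Type} [Fintype n] {a x : n → ℂ}
    (h : ∀ l : ℂ →ₗ[ℚ] ℚ, ∑ s, ((l (a s) : ℚ) : ℂ) * x s = 0) : ∑ s, a s * x s = 0 := by
  let φ : (n → ℂ) →ₗ[ℂ] ℂ :=
    { toFun := fun w => ∑ s, w s * x s
      map_add' := fun v w => by simp only [Pi.add_apply, add_mul, Finset.sum_add_distrib]
      map_smul' := fun r w => by
        simp only [Pi.smul_apply, smul_eq_mul, mul_assoc, Finset.mul_sum, RingHom.id_apply] }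
  have h1 : a ∈ LinearMap.ker φ := mem_of_lin _ fun l => h l
  exact h1

/-- Membership in a rational subspace is given by rational linear conditions. -/
theorem mem_of_rat {n : Type} [Fintype n] {M : Submodule ℂ (n → ℂ)}
    (hM : ∀ w ∈ M, ∀ l : ℂ →ₗ[ℚ] ℚ, (fun s => ((l (w s) : ℚ) : ℂ)) ∈ M) {x : n → ℂ}
    (hx : ∀ f : n → ℚ, (∀ w ∈ M, ∑ s, (f s : ℂ) * w s = 0) → ∑ s, (f s : ℂ) * x s = 0) :
    x ∈ M := by
  by_contra hxM
  obtain ⟨φ, hφx, hφ⟩ := Submodule.exists_le_ker_of_notMem hxM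
  have hφs : ∀ w : n → ℂ, φ w = ∑ s, φ (Pi.single s 1) * w s := by
    intro w
    have h1 : w = ∑ s, w s • (Pi.single s 1 : n → ℂ) := by
      funext t
      simp [Finset.sum_apply, Pi.single_apply]
    conv_lhs => rw [h1]
    rw [map_sum]
    exact Finset.sum_congr rfl fun s _ => by rw [map_smul, smul_eq_mul, mul_comm]
  apply hφx
  rw [hφs]
  refine sum_zero fun l => hx (fun s => l (φ (Pi.single s 1))) fun w hw => ?_
  refine eq_zero_of_lin fun l' => ?_
  rw [map_sum]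
  have h1 : φ (fun s => ((l' (w s) : ℚ) : ℂ)) = 0 := hφ (hM w hw l')
  rw [hφs] at h1
  have h2 := congrArg l h1
  rw [map_sum, map_zero] at h2
  rw [← h2]
  refine Finset.sum_congr rfl fun s _ => ?_
  rw [lin_rat_mul, mul_comm (φ _), lin_rat_mul, mul_comm]

/-- A space of functions on a finite set which is stable under a permutation is stable under its
inverse. -/
theorem stable_symm {k n : Type} [Field k] [Finite n] (V : Submodule k (n → k)) (e : n ≃ n)
    (h : ∀ w ∈ V, (fun s => w (e s)) ∈ V) {w : n → k} (hw : w ∈ V) :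
    (fun s => w (e.symm s)) ∈ V := by
  let L : V →ₗ[k] V :=
    { toFun := fun w => ⟨fun s => w.1 (e s), h w.1 w.2⟩
      map_add' := fun v w => rfl
      map_smul' := fun r w => rfl }
  have hinj : Function.Injective L := by
    intro v v' hv
    apply Subtype.ext
    funext s
    have h1 := congrFun (congrArg Subtype.val hv) (e.symm s)
    change v.1 (e (e.symm s)) = v'.1 (e (e.symm s)) at h1
    rwa [Equiv.apply_symm_apply] at h1
  obtain ⟨w', hw'⟩ := (LinearMap.injective_iff_surjective.1 hinj) ⟨w, hw⟩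
  have h1 : (fun s => w (e.symm s)) = w'.1 := by
    funext s
    have h2 := congrFun (congrArg Subtype.val hw') (e.symm s)
    change w'.1 (e (e.symm s)) = w (e.symm s) at h2
    rw [Equiv.apply_symm_apply] at h2
    exact h2.symm
  rw [h1]
  exact w'.2

variable {ι : Type} [Fintype ι] [DecidableEq ι] {c : GL ι ℂ} {ψ : Matrix ι ι ℚ} (S : Str c ψ)

/-! ### The Lie algebra -/

/-- A point which satisfies all integral relations between the eigenvalues of the rational central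
elements of the Lie algebra is in the Lie algebra. -/
theorem mem_of_rel (hL : SpecLIN) (hALG : SpecALG) {w : S.κ ⊕ S.σ → ℂ}
    (hw : ∀ χ : S.κ ⊕ S.σ → ℤ, (∀ z : CenAlg c.1, InH c (mC z.1) →
      ∑ e, (((χ e : ℤ) : ℚ) : ℂ) * pt S z e = 0) → ∑ e, (χ e : ℂ) * w e = 0) :
    InH c (cenL S w) := by
  obtain ⟨n, z, hz⟩ := Submodule.fg_iff_exists_fin_generating_family.1
    (IsNoetherian.noetherian (cQ hL c))
  have hzm : ∀ i, z i ∈ cQ hL c := fun i => by
    rw [← hz]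
    exact Submodule.subset_span ⟨i, rfl⟩
  let zc : Fin n → CenAlg c.1 := fun i => ⟨z i, (hzm i).2⟩
  let x₀ : S.κ ⊕ S.σ → ℂ := fun e => ∑ i : Fin n, (Real.pi : ℂ) ^ (i : ℕ) * pt S (zc i) e
  have hx₀ : InH c (cenL S x₀) := by
    have h1 : cenL S x₀ = ∑ i : Fin n, ((Real.pi : ℂ) ^ (i : ℕ)) • mC (z i) := by
      have h2 : x₀ = ∑ i : Fin n, ((Real.pi : ℂ) ^ (i : ℕ)) • pt S (zc i) := by
        funext e
        simp [x₀, Finset.sum_apply]
      rw [h2, map_sum]
      refine Finset.sum_congr rfl fun i _ => ?_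
      rw [map_smul, cen_pt]
    rw [h1]
    refine Finset.sum_induction _ (InH c) (fun X Y hX hY => (hL c).2.1 X Y hX hY) (hL c).1
      fun i _ => (hL c).2.2.1 _ _ (hzm i).1
  -- integral relations of `x₀`
  have hrel₀ : ∀ χ : S.κ ⊕ S.σ → ℤ, ∑ e, (χ e : ℂ) * x₀ e = 0 → ∀ i,
      ∑ e, (χ e : ℂ) * pt S (zc i) e = 0 := by
    intro χ hχ
    let a : Fin n → Qbar := fun i => ∑ e, (χ e : Qbar) * S.ev e (zc i)
    have ha : ∀ i, ((a i : Qbar) : ℂ) = ∑ e, (χ e : ℂ) * pt S (zc i) e := by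
      intro i
      simp only [a]
      push_cast
      rfl
    let P : Polynomial Qbar := ∑ i : Fin n, Polynomial.C (a i) * Polynomial.X ^ (i : ℕ)
    have hP : P = 0 := by
      by_contra hP
      refine Pool.Agent.Lib.MPf11a48.Tors.transcendental_pi_Qbar ⟨P, hP, ?_⟩
      simp only [P, map_sum, map_mul, Polynomial.aeval_C, map_pow, Polynomial.aeval_X]
      rw [← hχ]
      simp only [x₀, Finset.mul_sum]
      rw [Finset.sum_comm]
      refine Finset.sum_congr rfl fun i _ => ?_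
      change ((a i : Qbar) : ℂ) * _ = _
      rw [ha, Finset.sum_mul]
      exact Finset.sum_congr rfl fun e _ => by ring
    intro i
    rw [← ha]
    have h1 : P.coeff (i : ℕ) = a i := by
      simp only [P, Polynomial.finsetSum_coeff, Polynomial.coeff_C_mul_X_pow]
      rw [Finset.sum_eq_single i]
      · simp
      · intro j _ hj
        rw [if_neg]
        intro h2
        exact hj (Fin.ext h2.symm)
      · intro h2
        exact absurd (Finset.mem_univ i) h2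
    rw [← h1, hP, Polynomial.coeff_zero]
    rfl
  have hrel : ∀ χ : S.κ ⊕ S.σ → ℤ, ∑ e, (χ e : ℂ) * x₀ e = 0 →
      ∀ w : CenAlg c.1, InH c (mC w.1) → ∑ e, (((χ e : ℤ) : ℚ) : ℂ) * pt S w e = 0 := by
    intro χ hχ w hw
    have h1 : w.1 ∈ Submodule.span ℚ (Set.range z) := by
      rw [hz]
      exact ⟨hw, w.2⟩
    obtain ⟨q, hq⟩ := (Submodule.mem_span_range_iff_exists_fun ℚ).1 h1
    have h2 : w = ∑ i, q i • zc i := by
      apply Subtype.ext
      rw [← hq]
      push_cast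
      rfl
    have h3 : ∀ e, pt S w e = ∑ i, (q i : ℂ) * pt S (zc i) e := by
      intro e
      rw [pt, h2, map_sum]
      push_cast
      refine Finset.sum_congr rfl fun i _ => ?_
      rw [map_smul, Algebra.smul_def]
      push_cast
      rfl
    have h4 : ∑ e, (((χ e : ℤ) : ℚ) : ℂ) * pt S w e =
        ∑ i, (q i : ℂ) * ∑ e, (χ e : ℂ) * pt S (zc i) e := by
      simp only [h3, Finset.mul_sum]
      rw [Finset.sum_comm]
      refine Finset.sum_congr rfl fun i _ => Finset.sum_congr rfl fun e _ => ?_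
      push_cast
      ring
    rw [h4]
    exact Finset.sum_eq_zero fun i _ => by rw [hrel₀ χ hχ i, mul_zero]
  -- conclusion
  have hfin := hALG c (S.κ ⊕ S.σ) (fun e => cenL S (Pi.single e 1)) ?_ ?_ ?_ x₀ w ?_ ?_
  · rw [cen_sum] at hfin
    exact hfin
  · intro s
    rw [← cen_mul]
    congr 1
    funext e
    simp [Pi.single_apply]
  · intro s t hst
    rw [← cen_mul]
    have : (Pi.single s 1 * Pi.single t 1 : S.κ ⊕ S.σ → ℂ) = 0 := by
      funext e
      simp only [Pi.mul_apply, Pi.single_apply, Pi.zero_apply]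
      by_cases h3 : e = s
      · subst h3
        simp [hst]
      · simp [h3]
    rw [this, map_zero]
  · have h3 := cen_sum S 1
    simp only [Pi.one_apply, one_smul] at h3
    rw [h3, cen_one]
  · rw [cen_sum]
    exact hx₀
  · intro χ hχ
    exact hw χ (hrel χ hχ)

/-- Two different embeddings do not agree on the Lie algebra. -/
theorem not_delta (hL : SpecLIN) (hSIM : SpecSIM) (hB : SpecBIC) {J : Matrix ι ι ℝ}
    (h : HD c J ψ)
    (hsl : ∀ x : S.κ → Matrix (Fin 2) (Fin 2) ℂ, (∀ k, (x k).trace = 0) → InH c (S.Ψ (x, 0)))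
    {s s' t t' : EmbC c.1} (hs : IsBar ψ s s') (ht : IsBar ψ t t')
    (hd : ∀ z : CenAlg c.1, InH c (mC z.1) → rel S (delta s s' - delta t t') z = 0) :
    delta s s' = delta t t' := by
  by_contra hdn
  -- indices
  obtain ⟨e, rfl⟩ := S.ev.surjective s
  obtain ⟨e', rfl⟩ := S.ev.surjective t
  have hs' : s' = S.ev (bar S e) := isBar_unique hB h hs (isBar_bar S e)
  have ht' : t' = S.ev (bar S e') := isBar_unique hB h ht (isBar_bar S e')
  subst hs' ht'
  -- the relation on all central elements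
  have hrel : ∀ x : S.κ ⊕ S.σ → ℂ, InH c (cenL S x) →
      x e - x (bar S e) - (x e' - x (bar S e')) = 0 := by
    intro x hx
    have h1 := rel_ext S hL hSIM hB h
      (f := fun i => (delta (S.ev e) (S.ev (bar S e)) - delta (S.ev e') (S.ev (bar S e'))) (S.ev i))
      (fun z hz => by
        rw [← coe_rel, hd z hz]
        rfl) hx
    have h2 : ∀ i₀, ∑ i, (((Pi.single (S.ev i₀) 1 : EmbC c.1 → ℚ) (S.ev i) : ℚ) : ℂ) * x i =
        x i₀ := by
      intro i₀
      rw [Finset.sum_eq_single i₀]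
      · simp
      · intro b _ hb
        rw [Pi.single_eq_of_ne (S.ev.injective.ne hb)]
        simp
      · intro h3
        exact absurd (Finset.mem_univ _) h3
    rw [← h1]
    simp only [delta, Pi.sub_apply]
    push_cast
    simp only [sub_mul, Finset.sum_sub_distrib, h2]
  -- all elements of the Lie algebra
  have hall : ∀ x y, InH c (S.Ψ (x, y)) → ∃ m : ℂ, InH c (cenL S (Sum.elim (fun _ => m / 2) y)) ∧
      (∀ i, (Sum.elim (fun _ => m / 2) y : S.κ ⊕ S.σ → ℂ) i +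
        (Sum.elim (fun _ => m / 2) y : S.κ ⊕ S.σ → ℂ) (bar S i) = m) := by
    intro x y hx
    obtain ⟨m, hm⟩ := (hSIM c J ψ h).2.1 _ hx
    obtain ⟨h1, h2⟩ := decomp S hL h hsl hx hm
    refine ⟨m, h2, ?_⟩
    rintro (k | s)
    · exact add_halves m
    · exact h1 s
  have key : ∀ x y, InH c (S.Ψ (x, y)) → ∃ m : ℂ,
      (Sum.elim (fun _ => m / 2) y : S.κ ⊕ S.σ → ℂ) e =
        (Sum.elim (fun _ => m / 2) y : S.κ ⊕ S.σ → ℂ) e' ∧
      (Sum.elim (fun _ => m / 2) y : S.κ ⊕ S.σ → ℂ) (bar S e) =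
        (Sum.elim (fun _ => m / 2) y : S.κ ⊕ S.σ → ℂ) (bar S e') := by
    intro x y hx
    obtain ⟨m, h1, h2⟩ := hall x y hx
    have h3 := hrel _ h1
    have h4 := h2 e
    have h5 := h2 e'
    refine ⟨m, ?_, ?_⟩
    · linear_combination h3 / 2 + h4 / 2 - h5 / 2
    · linear_combination -h3 / 2 + h4 / 2 - h5 / 2
  rcases e with k | s <;> rcases e' with k' | t
  · apply hdn
    change delta (S.ev (Sum.inl k)) (S.ev (Sum.inl k)) =
      delta (S.ev (Sum.inl k')) (S.ev (Sum.inl k'))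
    simp [delta]
  · refine S.τ_ne t (eq_of_agree S hB h fun x y hx => ?_)
    obtain ⟨m, h1, h2⟩ := key x y hx
    exact (h2.symm.trans h1 : _)
  · refine S.τ_ne s (eq_of_agree S hB h fun x y hx => ?_)
    obtain ⟨m, h1, h2⟩ := key x y hx
    exact (h2.trans h1.symm : _)
  · have hst : s = t := eq_of_agree S hB h fun x y hx => by
      obtain ⟨m, h1, h2⟩ := key x y hx
      exact h1
    subst hst
    exact hdn rfl

/-! ### Stability -/

omit S in
/-- substitution `t = γ s` -/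
theorem sum_gal {k : Type} [AddCommMonoid k] (γ : Qbar ≃ₐ[ℚ] Qbar) (F : EmbC c.1 → EmbC c.1 → k) :
    ∑ s, F (γ.toAlgHom.comp s) s = ∑ t, F t (γ.symm.toAlgHom.comp t) := by
  refine Fintype.sum_equiv (act (c := c.1) γ) _ _ fun s => ?_
  change F (γ.toAlgHom.comp s) s = F (γ.toAlgHom.comp s) (γ.symm.toAlgHom.comp (γ.toAlgHom.comp s))
  rw [comp_symm]

omit S in
theorem comp_symm' (γ : Qbar ≃ₐ[ℚ] Qbar) (s : EmbC c.1) :
    γ.toAlgHom.comp (γ.symm.toAlgHom.comp s) = s := (act (c := c.1) γ).apply_symm_apply s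

omit S in
theorem oddH_gal {T : Set (EmbC c.1)} (γ : Qbar ≃ₐ[ℚ] Qbar) {f : EmbC c.1 → ℚ}
    (hf : f ∈ OddH ψ T) : (fun s : EmbC c.1 => f (γ.toAlgHom.comp s)) ∈ OddH ψ T := by
  refine ⟨fun s s' hs => hf.1 _ _ fun z z' hz => congrArg γ (hs z z' hz), fun γ₁ => ?_⟩
  have h1 := hf.2 (γ.symm.trans γ₁)
  change sm T γ₁ (fun s : EmbC c.1 => f (γ.toAlgHom.comp s)) = 0
  change sm T (γ.symm.trans γ₁) f = 0 at h1
  rw [← h1]
  unfold sm
  exact sum_gal γ fun t s => if γ₁.toAlgHom.comp s ∈ T then f t else 0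

/-- the part of `M` which is stable under the Galois group, rational, and orthogonal to `OddH` -/
def M4 (ψ : Matrix ι ι ℚ) (T : Set (EmbC c.1)) (M : Submodule ℂ (EmbC c.1 → ℂ)) :
    Submodule ℂ (EmbC c.1 → ℂ) where
  carrier := {w | (∀ (l : ℂ →ₗ[ℚ] ℚ) (γ : Qbar ≃ₐ[ℚ] Qbar),
      (fun s : EmbC c.1 => ((l (w (γ.toAlgHom.comp s)) : ℚ) : ℂ)) ∈ M) ∧
    ∀ f ∈ OddH ψ T, ∑ s, (f s : ℂ) * w s = 0}
  zero_mem' := by
    refine ⟨fun l γ => ?_, fun f _ => ?_⟩
    · have : (fun s : EmbC c.1 => ((l ((0 : EmbC c.1 → ℂ) (γ.toAlgHom.comp s)) : ℚ) : ℂ)) = 0 := by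
        funext s
        simp
      rw [this]
      exact M.zero_mem
    · simp
  add_mem' := by
    rintro v w ⟨hv, hv'⟩ ⟨hw, hw'⟩
    refine ⟨fun l γ => ?_, fun f hf => ?_⟩
    · have : (fun s : EmbC c.1 => ((l ((v + w) (γ.toAlgHom.comp s)) : ℚ) : ℂ)) =
          (fun s : EmbC c.1 => ((l (v (γ.toAlgHom.comp s)) : ℚ) : ℂ)) +
            fun s : EmbC c.1 => ((l (w (γ.toAlgHom.comp s)) : ℚ) : ℂ) := by
        funext s
        simp
      rw [this]
      exact M.add_mem (hv l γ) (hw l γ)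
    · simp only [Pi.add_apply, mul_add, Finset.sum_add_distrib, hv' f hf, hw' f hf, add_zero]
  smul_mem' := by
    rintro r w ⟨hw, hw'⟩
    refine ⟨fun l γ => ?_, fun f hf => ?_⟩
    · exact hw (l ∘ₗ LinearMap.mulLeft ℚ r) γ
    · have : ∀ s, (f s : ℂ) * (r • w) s = r * ((f s : ℂ) * w s) := fun s => by
        simp only [Pi.smul_apply, smul_eq_mul]
        ring
      simp only [this, ← Finset.mul_sum, hw' f hf, mul_zero]

omit S in
theorem M4_le {T : Set (EmbC c.1)} {M : Submodule ℂ (EmbC c.1 → ℂ)} : M4 ψ T M ≤ M := by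
  intro w hw
  refine mem_of_lin M fun l => ?_
  exact hw.1 l AlgEquiv.refl

omit S in
theorem M4_rat {T : Set (EmbC c.1)} {M : Submodule ℂ (EmbC c.1 → ℂ)} {w : EmbC c.1 → ℂ}
    (hw : w ∈ M4 ψ T M) (l : ℂ →ₗ[ℚ] ℚ) :
    (fun s => ((l (w s) : ℚ) : ℂ)) ∈ M4 ψ T M := by
  refine ⟨fun l' γ => ?_, fun f hf => ?_⟩
  · have : (fun s : EmbC c.1 => ((l' ((l (w (γ.toAlgHom.comp s)) : ℚ) : ℂ) : ℚ) : ℂ)) =
        ((l' 1 : ℚ) : ℂ) • fun s : EmbC c.1 => ((l (w (γ.toAlgHom.comp s)) : ℚ) : ℂ) := by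
      funext s
      have h1 := lin_rat_mul l' (l (w (γ.toAlgHom.comp s))) 1
      rw [mul_one] at h1
      rw [h1, Pi.smul_apply, smul_eq_mul]
      push_cast
      ring
    rw [this]
    exact M.smul_mem _ (hw.1 l γ)
  · have h1 := congrArg l (hw.2 f hf)
    rw [map_sum, map_zero] at h1
    have h2 : ∑ s, f s * l (w s) = 0 := by
      rw [← h1]
      exact Finset.sum_congr rfl fun s _ => (lin_rat_mul l _ _).symm
    have h3 : ((∑ s, f s * l (w s) : ℚ) : ℂ) = 0 := by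
      rw [h2]
      norm_num
    push_cast at h3
    exact h3

omit S in
theorem M4_gal {T : Set (EmbC c.1)} {M : Submodule ℂ (EmbC c.1 → ℂ)} {w : EmbC c.1 → ℂ}
    (hw : w ∈ M4 ψ T M) (γ : Qbar ≃ₐ[ℚ] Qbar) :
    (fun s : EmbC c.1 => w (γ.toAlgHom.comp s)) ∈ M4 ψ T M := by
  refine ⟨fun l γ' => hw.1 l (γ'.trans γ), fun f hf => ?_⟩
  rw [sum_gal γ fun t s => (f s : ℂ) * w t]
  exact hw.2 _ (oddH_gal γ.symm hf)

omit S in
theorem M4_aut {T : Set (EmbC c.1)} {M : Submodule ℂ (EmbC c.1 → ℂ)}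
    (κ : CenAlg c.1 ≃ₐ[ℚ] CenAlg c.1)
    (hodd : ∀ f ∈ OddH ψ T, (fun s : EmbC c.1 => f (s.comp κ.toAlgHom)) ∈ OddH ψ T)
    (hM : ∀ w ∈ M, (fun s : EmbC c.1 => w (s.comp κ.toAlgHom)) ∈ M) {w : EmbC c.1 → ℂ}
    (hw : w ∈ M4 ψ T M) :
    (fun s : EmbC c.1 => w (s.comp κ.toAlgHom)) ∈ M4 ψ T M := by
  refine ⟨fun l γ => hM _ (hw.1 l γ), fun f hf => ?_⟩
  have h1 := hw.2 _ (stable_symm (OddH ψ T) (actR (c := c.1) κ) hodd hf)
  rw [← h1]
  refine Fintype.sum_equiv (actR (c := c.1) κ) _ _ fun s => ?_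
  rw [Equiv.symm_apply_apply]
  rfl

/-- The functions which are orthogonal to a subspace. -/
def perp (M : Submodule ℂ (EmbC c.1 → ℂ)) : Submodule ℚ (EmbC c.1 → ℚ) where
  carrier := {f | ∀ w ∈ M, ∑ s, (f s : ℂ) * w s = 0}
  zero_mem' := fun w _ => by simp
  add_mem' := by
    intro f g hf hg w hw
    have : ∀ s, (((f + g) s : ℚ) : ℂ) * w s = (f s : ℂ) * w s + (g s : ℂ) * w s := fun s => by
      rw [Pi.add_apply]
      push_cast
      ring
    simp only [this, Finset.sum_add_distrib, hf w hw, hg w hw, add_zero]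
  smul_mem' := by
    intro r f hf w hw
    have : ∀ s, (((r • f) s : ℚ) : ℂ) * w s = (r : ℂ) * ((f s : ℂ) * w s) := fun s => by
      rw [Pi.smul_apply, smul_eq_mul]
      push_cast
      ring
    simp only [this, ← Finset.mul_sum, hf w hw, mul_zero]

end TornM

open TORM TorrM TypM TypnM TornM

theorem specTorn (hL : SpecLIN) (hSIM : SpecSIM) (hB : SpecBIC) (hALG : SpecALG) : SpecTorn := by
  intro ι _ _ c J ψ T S R h hsep hlie hRbar hRodd hsl M hM hMR m y hy hyrel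
  -- complex conjugation
  have hrho : ∀ e, S.ev (bar S e) = rho.toAlgHom.comp (S.ev e) := by
    intro e
    refine AlgHom.ext fun z => ?_
    apply Subtype.ext
    rw [← conj_ev]
    exact (rho_coe _).symm
  -- relations
  have hF1 : ∀ (f : EmbC c.1 → ℚ), (∀ z : CenAlg c.1, InH c (mC z.1) → rel S f z = 0) →
      ∀ w : EmbC c.1 → ℂ, InH c (cenL S fun e => w (S.ev e)) → ∑ s, (f s : ℂ) * w s = 0 := by
    intro f hf w hw
    rw [← Equiv.sum_comp S.ev]
    exact rel_ext S hL hSIM hB h (f := fun e => f (S.ev e)) (fun z hz => by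
      rw [← coe_rel, hf z hz]
      rfl) hw
  have hF3 : ∀ w : EmbC c.1 → ℂ, InH c (cenL S fun e => w (S.ev e)) →
      ∀ (l : ℂ →ₗ[ℚ] ℚ) (γ : Qbar ≃ₐ[ℚ] Qbar),
      InH c (cenL S fun e => ((l (w (γ.toAlgHom.comp (S.ev e))) : ℚ) : ℂ)) := by
    intro w hw l γ
    refine mem_of_rel S hL hALG fun χ hχ => ?_
    have h1 : ∑ s, (((χ (S.ev.symm s) : ℤ) : ℚ) : ℂ) * w (γ.toAlgHom.comp s) = 0 := by
      rw [sum_gal γ fun t s => (((χ (S.ev.symm s) : ℤ) : ℚ) : ℂ) * w t]
      refine hF1 (fun t => ((χ (S.ev.symm (γ.symm.toAlgHom.comp t)) : ℤ) : ℚ)) (fun z hz => ?_) w hw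
      have h2 := rel_gal S γ.symm (fun s => ((χ (S.ev.symm s) : ℤ) : ℚ)) z
      have h3 : rel S (fun s => ((χ (S.ev.symm s) : ℤ) : ℚ)) z = 0 := by
        apply Subtype.ext
        rw [coe_rel]
        simp only [Equiv.symm_apply_apply]
        exact hχ z hz
      rw [h3] at h2
      exact (map_eq_zero_iff γ.symm γ.symm.injective).1 h2
    have h2 := congrArg l h1
    rw [map_sum, map_zero] at h2
    have h3 : ∑ s, ((χ (S.ev.symm s) : ℤ) : ℚ) * l (w (γ.toAlgHom.comp s)) = 0 := by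
      rw [← h2]
      exact Finset.sum_congr rfl fun s _ => (lin_rat_mul l _ _).symm
    rw [← Equiv.sum_comp S.ev] at h3
    simp only [Equiv.symm_apply_apply] at h3
    have h4 := congrArg (fun q : ℚ => (q : ℂ)) h3
    push_cast at h4
    exact h4
  have hH4 : ∀ w : EmbC c.1 → ℂ, InH c (cenL S fun e => w (S.ev e)) → w ∈ M4 ψ T M := by
    intro w hw
    exact ⟨fun l γ => hM _ (hF3 w hw l γ), fun f hf => hF1 f (oddH_le S hlie hf).1 w hw⟩
  -- functions orthogonal to `M4`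
  have hperp : ∀ f ∈ perp (M4 ψ T M), ∀ z : CenAlg c.1, InH c (mC z.1) → rel S f z = 0 := by
    intro f hf z hz
    apply Subtype.ext
    rw [coe_rel]
    have h1 := hf (fun s => ((s z : Qbar) : ℂ)) (hH4 _ (by
      have h2 : cenL S (fun e => ((S.ev e z : Qbar) : ℂ)) = mC z.1 := cen_pt S z
      rw [h2]
      exact hz))
    rw [← Equiv.sum_comp S.ev] at h1
    exact h1
  have hpgal : ∀ γ : Qbar ≃ₐ[ℚ] Qbar, ∀ f ∈ perp (M4 ψ T M),
      (fun s : EmbC c.1 => f (γ.toAlgHom.comp s)) ∈ perp (M4 ψ T M) := by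
    intro γ f hf w hw
    change ∑ s, (f (γ.toAlgHom.comp s) : ℂ) * w s = 0
    rw [sum_gal γ fun t s => (f t : ℂ) * w s]
    exact hf _ (M4_gal hw γ.symm)
  have hpaut : ∀ κ ∈ R, ∀ f ∈ perp (M4 ψ T M),
      (fun s : EmbC c.1 => f (s.comp κ.toAlgHom)) ∈ perp (M4 ψ T M) := by
    intro κ hκ f hf w hw
    have h1 := hf _ (stable_symm (M4 ψ T M) (actR (c := c.1) κ)
      (fun w hw => M4_aut κ (hRodd κ hκ) (hMR κ hκ) hw) hw)
    rw [← h1]
    refine Fintype.sum_equiv (actR (c := c.1) κ) _ _ fun s => ?_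
    rw [Equiv.symm_apply_apply]
    rfl
  -- the odd functions orthogonal to `M4`
  have hU : ∀ f ∈ perp (M4 ψ T M), (∀ s s', IsBar ψ s s' → f s' = -f s) → f ∈ OddH ψ T := by
    let U : Submodule ℚ (EmbC c.1 → ℚ) :=
      { carrier := {f | f ∈ perp (M4 ψ T M) ∧ ∀ s s', IsBar ψ s s' → f s' = -f s}
        zero_mem' := ⟨(perp (M4 ψ T M)).zero_mem, fun _ _ _ => by simp⟩
        add_mem' := by
          rintro f g ⟨hf, hf'⟩ ⟨hg, hg'⟩
          refine ⟨(perp (M4 ψ T M)).add_mem hf hg, fun s s' hs => ?_⟩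
          rw [Pi.add_apply, Pi.add_apply, hf' s s' hs, hg' s s' hs]
          ring
        smul_mem' := by
          rintro r f ⟨hf, hf'⟩
          refine ⟨(perp (M4 ψ T M)).smul_mem r hf, fun s s' hs => ?_⟩
          rw [Pi.smul_apply, Pi.smul_apply, hf' s s' hs, smul_neg] }
    rcases hsep U (fun f hf => ⟨fun w hw => hw.2 f hf, hf.1⟩) (fun f hf => hf.2)
      (fun γ f hf => ⟨hpgal γ f hf.1, fun s s' hs =>
        hf.2 _ _ fun z z' hz => congrArg γ (hs z z' hz)⟩)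
      (fun κ hκ f hf => ⟨hpaut κ hκ f hf.1, fun s s' hs => hf.2 _ _ (hRbar κ hκ s s' hs)⟩) with
      h1 | ⟨s, s', t, t', hs, ht, hd, hdn⟩
    · exact fun f hf hf' => h1 ⟨hf, hf'⟩
    · exact absurd (not_delta S hL hSIM hB h hsl hs ht (hperp _ hd.1)) hdn
  -- an element with a non-zero multiplier
  obtain ⟨X₁, hX₁, m₁, hm₁, hX₁'⟩ := (hSIM c J ψ h).2.2
  obtain ⟨⟨u, v⟩, rfl⟩ := (S.mem_range X₁).2 ((hSIM c J ψ h).1 X₁ hX₁)
  obtain ⟨h1, h2⟩ := decomp S hL h hsl hX₁ hX₁'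
  have hbar : ∀ (m : ℂ) (y : S.σ → ℂ), (∀ s, y s + y (S.τ s) = m) → ∀ i,
      (Sum.elim (fun _ => m / 2) y : S.κ ⊕ S.σ → ℂ) i +
        (Sum.elim (fun _ => m / 2) y : S.κ ⊕ S.σ → ℂ) (bar S i) = m := by
    rintro m y hy (k | s)
    · exact add_halves m
    · exact hy s
  have hsum : ∀ (g : S.κ ⊕ S.σ → ℂ), (∀ e, g (bar S e) = g e) →
      ∀ (m : ℂ) (x : S.κ ⊕ S.σ → ℂ), (∀ i, x i + x (bar S i) = m) →
      2 * ∑ e, g e * x e = (∑ e, g e) * m := by
    intro g hg m x hx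
    have h3 : ∑ e, g e * x e = ∑ e, g e * x (bar S e) := by
      rw [← Equiv.sum_comp (barE S)]
      refine Finset.sum_congr rfl fun e _ => ?_
      change g (bar S e) * x (bar S e) = _
      rw [hg]
    rw [two_mul]
    nth_rewrite 2 [h3]
    rw [← Finset.sum_add_distrib, Finset.sum_mul]
    refine Finset.sum_congr rfl fun e _ => ?_
    rw [← mul_add, hx]
  -- conclusion
  refine M4_le (ψ := ψ) (T := T) (mem_of_rat (fun w hw l => M4_rat hw l) fun f hf => ?_)
  rw [← Equiv.sum_comp S.ev]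
  simp only [Equiv.symm_apply_apply]
  have hfp : f ∈ perp (M4 ψ T M) := hf
  have hfb := hpgal rho f hfp
  -- the even part
  have hev : ∑ e, ((f (S.ev e) : ℂ) + (f (S.ev (bar S e)) : ℂ)) *
      (Sum.elim (fun _ => m / 2) y : S.κ ⊕ S.σ → ℂ) e = 0 := by
    have hg : ∀ e, ((f (S.ev (bar S e)) : ℂ) + (f (S.ev (bar S (bar S e))) : ℂ)) =
        (f (S.ev e) : ℂ) + (f (S.ev (bar S e)) : ℂ) := by
      intro e
      rw [TORM.bar_bar, add_comm]
    have h6 := hsum (fun e => (f (S.ev e) : ℂ) + (f (S.ev (bar S e)) : ℂ)) hg m₁ _ (hbar m₁ v h1)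
    have h7 := hsum (fun e => (f (S.ev e) : ℂ) + (f (S.ev (bar S e)) : ℂ)) hg m _ (hbar m y hy)
    have hw₁ : (fun s : EmbC c.1 => (Sum.elim (fun _ => m₁ / 2) v : S.κ ⊕ S.σ → ℂ) (S.ev.symm s)) ∈
        M4 ψ T M := by
      refine hH4 _ ?_
      simp only [Equiv.symm_apply_apply]
      exact h2
    have h8 : ∑ e, ((f (S.ev e) : ℂ) + (f (S.ev (bar S e)) : ℂ)) *
        (Sum.elim (fun _ => m₁ / 2) v : S.κ ⊕ S.σ → ℂ) e = 0 := by
      have h9 := hf _ hw₁
      have h10 := hfb _ hw₁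
      rw [← Equiv.sum_comp S.ev] at h9 h10
      simp only [Equiv.symm_apply_apply] at h9 h10
      simp only [add_mul, Finset.sum_add_distrib]
      rw [h9, zero_add, ← h10]
      exact Finset.sum_congr rfl fun e _ => by rw [hrho]
    rw [h8, mul_zero] at h6
    have h9 : ∑ e, ((f (S.ev e) : ℂ) + (f (S.ev (bar S e)) : ℂ)) = 0 := by
      rcases mul_eq_zero.1 h6.symm with h10 | h10
      · exact h10
      · exact absurd h10 hm₁
    rw [h9, zero_mul] at h7
    rcases mul_eq_zero.1 h7 with h15 | h15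
    · exact absurd h15 two_ne_zero
    · exact h15
  -- the odd part
  have hodd : ∑ e, ((f (S.ev e) : ℂ) - (f (S.ev (bar S e)) : ℂ)) *
      (Sum.elim (fun _ => m / 2) y : S.κ ⊕ S.σ → ℂ) e = 0 := by
    have h3 : (fun s : EmbC c.1 => f s - f (rho.toAlgHom.comp s)) ∈ perp (M4 ψ T M) :=
      (perp (M4 ψ T M)).sub_mem hfp hfb
    have h4 := hyrel _ (hU _ h3 (by
      intro s s' hs
      obtain ⟨e, rfl⟩ := S.ev.surjective s
      have hs' : s' = S.ev (bar S e) := isBar_unique hB h hs (isBar_bar S e)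
      subst hs'
      change f (S.ev (bar S e)) - f (rho.toAlgHom.comp (S.ev (bar S e))) =
        -(f (S.ev e) - f (rho.toAlgHom.comp (S.ev e)))
      rw [← hrho, ← hrho, TORM.bar_bar]
      ring))
    rw [Fintype.sum_sum_type]
    have h12 : ∀ k : S.κ, ((f (S.ev (Sum.inl k)) : ℂ) - (f (S.ev (bar S (Sum.inl k))) : ℂ)) *
        (Sum.elim (fun _ => m / 2) y : S.κ ⊕ S.σ → ℂ) (Sum.inl k) = 0 := by
      intro k
      change ((f (S.ev (Sum.inl k)) : ℂ) - (f (S.ev (Sum.inl k)) : ℂ)) * _ = 0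
      rw [sub_self, zero_mul]
    rw [Finset.sum_congr rfl fun k _ => h12 k, Finset.sum_const_zero, zero_add, ← h4]
    refine Finset.sum_congr rfl fun s _ => ?_
    rw [hrho]
    push_cast
    rfl
  have h13 : 2 * ∑ e, (f (S.ev e) : ℂ) * (Sum.elim (fun _ => m / 2) y : S.κ ⊕ S.σ → ℂ) e =
      ∑ e, ((f (S.ev e) : ℂ) + (f (S.ev (bar S e)) : ℂ)) *
        (Sum.elim (fun _ => m / 2) y : S.κ ⊕ S.σ → ℂ) e +
      ∑ e, ((f (S.ev e) : ℂ) - (f (S.ev (bar S e)) : ℂ)) *
        (Sum.elim (fun _ => m / 2) y : S.κ ⊕ S.σ → ℂ) e := by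
    rw [← Finset.sum_add_distrib, Finset.mul_sum]
    exact Finset.sum_congr rfl fun e _ => by ring
  rw [hev, hodd, add_zero] at h13
  rcases mul_eq_zero.1 h13 with h15 | h15
  · exact absurd h15 two_ne_zero
  · exact h15

end Pool.Agent.Lib.MPf11a48.CMM
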