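import Pool.Agent.Lib.MP_f11a48_ag.CMM.SpecN

/-!
# Module FLH: hyperoctahedral groups are biflat (helper28)
-/

set_option autoImplicit false

namespace Pool.Agent.Lib.MPf11a48.CMM

namespace FlhM

open Finset

/-- the sign of a bit -/
def sg (b : Bool) : ℚ := if b then -1 else 1

theorem sg_xor (a b : Bool) : sg (xor a b) = sg a * sg b := by
  cases a <;> cases b <;> norm_num [sg]

theorem sg_sq (a : Bool) : sg a * sg a = 1 := by
  cases a <;> norm_num [sg]

variable {n : ℕ}

/-- the character of the set `S` -/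
def ch (S : Finset (Fin n)) (d : Fin n → Bool) : ℚ := ∏ j ∈ S, sg (d j)

/-- sum of sign vectors -/
def xo (d e : Fin n → Bool) : Fin n → Bool := fun j => xor (d j) (e j)

theorem xo_invol (e : Fin n → Bool) : Function.Involutive (fun d => xo d e) := by
  intro d
  funext j
  simp [xo]

theorem ch_xo (S : Finset (Fin n)) (d e : Fin n → Bool) : ch S (xo d e) = ch S d * ch S e := by
  unfold ch xo
  rw [← prod_mul_distrib]
  exact prod_congr rfl fun j _ => sg_xor _ _

theorem ch_sq (S : Finset (Fin n)) (d : Fin n → Bool) : ch S d * ch S d = 1 := by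
  unfold ch
  rw [← prod_mul_distrib]
  exact prod_eq_one fun j _ => sg_sq _

theorem ch_flat (S : Finset (Fin n)) (d : Fin n → Bool) : ch S d = 1 ∨ ch S d = -1 := by
  have h := ch_sq S d
  have h2 : (ch S d - 1) * (ch S d + 1) = 0 := by linear_combination h
  rcases mul_eq_zero.1 h2 with h3 | h3
  · exact Or.inl (by linear_combination h3)
  · exact Or.inr (by linear_combination h3)

/-- the element of `N` with signs `d` -/
def E (d : Fin n → Bool) : Hyp n :=
  ⟨⟨fun x => (x.1, xor (d x.1) x.2), fun x => (x.1, xor (d x.1) x.2),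
    fun x => by simp, fun x => by simp⟩, by
      intro i b
      change (i, xor (d i) (!b)) = (i, !(xor (d i) b))
      simp⟩

/-- the permutation `p` as an element of `Hyp n` -/
def I (p : Equiv.Perm (Fin n)) : Hyp n :=
  ⟨⟨fun x => (p x.1, x.2), fun x => (p.symm x.1, x.2), fun x => by simp, fun x => by simp⟩, by
      intro i b
      rfl⟩

theorem E_apply (d : Fin n → Bool) (x : Fin n × Bool) :
    (E d : Equiv.Perm (Fin n × Bool)) x = (x.1, xor (d x.1) x.2) := rfl

theorem I_apply (p : Equiv.Perm (Fin n)) (x : Fin n × Bool) :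
    (I p : Equiv.Perm (Fin n × Bool)) x = (p x.1, x.2) := rfl

theorem hext {x y : Hyp n} (h : ∀ z, (x : Equiv.Perm (Fin n × Bool)) z =
    (y : Equiv.Perm (Fin n × Bool)) z) : x = y :=
  Subtype.ext (Equiv.ext h)

theorem E_mul (d e : Fin n → Bool) : E d * E e = E (xo e d) := by
  apply hext
  intro z
  rw [Subgroup.coe_mul, Equiv.Perm.mul_apply, E_apply, E_apply, E_apply]
  ext
  · rfl
  · simp [xo, Bool.xor_left_comm]

theorem E_zero : E (fun _ : Fin n => false) = 1 := by
  apply hext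
  intro z
  rw [E_apply]
  simp

theorem I_mul (p q : Equiv.Perm (Fin n)) : I p * I q = I (p * q) := rfl

theorem I_one : I (1 : Equiv.Perm (Fin n)) = 1 := rfl

theorem I_E (p : Equiv.Perm (Fin n)) (d : Fin n → Bool) : I p * E d = E (d ∘ p.symm) * I p := by
  apply hext
  intro z
  rw [Subgroup.coe_mul, Equiv.Perm.mul_apply, Subgroup.coe_mul, Equiv.Perm.mul_apply, E_apply,
    E_apply, I_apply, I_apply]
  simp

theorem EI_apply (d : Fin n → Bool) (p : Equiv.Perm (Fin n)) (x : Fin n × Bool) :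
    (E d * I p : Equiv.Perm (Fin n × Bool)) x = (p x.1, xor (d (p x.1)) x.2) := rfl

theorem uniq {d e : Fin n → Bool} {p q : Equiv.Perm (Fin n)} (h : E d * I p = E e * I q) :
    d = e ∧ p = q := by
  have h1 : ∀ j b, (p j, xor (d (p j)) b) = (q j, xor (e (q j)) b) := by
    intro j b
    have := congrArg (fun x : Hyp n => (x : Equiv.Perm (Fin n × Bool)) (j, b)) h
    exact this
  have h2 : p = q := Equiv.ext fun j => (Prod.ext_iff.1 (h1 j false)).1
  subst h2
  refine ⟨?_, rfl⟩
  funext j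
  have h3 := (Prod.ext_iff.1 (h1 (p.symm j) false)).2
  simpa using h3

theorem ex (x : Hyp n) : ∃ d p, x = E d * I p := by
  obtain ⟨σ, hσ⟩ := x
  have hσ' : ∀ i b, σ (i, !b) = ((σ (i, b)).1, !(σ (i, b)).2) := hσ
  have hinj : Function.Injective (fun j : Fin n => (σ (j, false)).1) := by
    intro j k hjk
    change (σ (j, false)).1 = (σ (k, false)).1 at hjk
    by_cases h2 : (σ (j, false)).2 = (σ (k, false)).2
    · have h3 := σ.injective (Prod.ext hjk h2)
      exact (Prod.ext_iff.1 h3).1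
    · exfalso
      have h3 : σ (k, true) = σ (j, false) := by
        have h4 := hσ' k false
        rw [Bool.not_false] at h4
        rw [h4]
        refine Prod.ext hjk.symm ?_
        change (!(σ (k, false)).2) = (σ (j, false)).2
        revert h2
        cases (σ (k, false)).2 <;> cases (σ (j, false)).2 <;> simp
      have h4 := σ.injective h3
      have h5 := (Prod.ext_iff.1 h4).2
      simp at h5
  let p : Equiv.Perm (Fin n) := Equiv.ofBijective _ (Finite.injective_iff_bijective.1 hinj)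
  have hp : ∀ j, p j = (σ (j, false)).1 := fun j => rfl
  refine ⟨fun j => (σ (p.symm j, false)).2, p, ?_⟩
  apply hext
  rintro ⟨j, b⟩
  rw [Subgroup.coe_mul, EI_apply]
  change σ (j, b) = (p j, xor (σ (p.symm (p j), false)).2 b)
  rw [Equiv.symm_apply_apply, hp]
  cases b
  · simp
  · have h4 := hσ' j false
    rw [Bool.not_false] at h4
    rw [h4, Bool.xor_true]

/-- the signs of `x` -/
noncomputable def ee (x : Hyp n) : Fin n → Bool := (ex x).choose

/-- the permutation of `x` -/
noncomputable def pp (x : Hyp n) : Equiv.Perm (Fin n) := (ex x).choose_spec.choose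

theorem eq (x : Hyp n) : x = E (ee x) * I (pp x) := (ex x).choose_spec.choose_spec

theorem ee_EI (d : Fin n → Bool) (p : Equiv.Perm (Fin n)) : ee (E d * I p) = d :=
  (uniq (eq (E d * I p))).1.symm

theorem pp_EI (d : Fin n → Bool) (p : Equiv.Perm (Fin n)) : pp (E d * I p) = p :=
  (uniq (eq (E d * I p))).2.symm

/-- `p` preserves `S` -/
theorem ch_comp {S : Finset (Fin n)} {p : Equiv.Perm (Fin n)} (h : ∀ j, p j ∈ S ↔ j ∈ S)
    (d : Fin n → Bool) : ch S (d ∘ p.symm) = ch S d := by
  unfold ch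
  refine prod_bij' (fun j _ => p.symm j) (fun j _ => p j) ?_ ?_ ?_ ?_ ?_
  · intro j hj
    rw [← h, Equiv.apply_symm_apply]
    exact hj
  · intro j hj
    exact (h j).2 hj
  · intro j _
    exact Equiv.apply_symm_apply _ _
  · intro j _
    exact Equiv.symm_apply_apply _ _
  · intro j _
    rfl

theorem ch_single (S : Finset (Fin n)) (k : Fin n) :
    ch S (fun j => decide (j = k)) = if k ∈ S then -1 else 1 := by
  unfold ch
  by_cases h : k ∈ S
  · rw [if_pos h, prod_eq_single_of_mem k h]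
    · simp [sg]
    · intro j _ hj
      simp [sg, hj]
  · rw [if_neg h]
    refine prod_eq_one fun j hj => ?_
    have : j ≠ k := fun e => h (e ▸ hj)
    simp [sg, this]

/-- the correlation of `S` and its image -/
noncomputable def KK (S : Finset (Fin n)) (p : Equiv.Perm (Fin n)) : ℚ :=
  ∑ d : Fin n → Bool, ch S d * ch S (d ∘ p.symm)

theorem KK_pos {S : Finset (Fin n)} {p : Equiv.Perm (Fin n)} (h : ∀ j, p j ∈ S ↔ j ∈ S) :
    KK S p ≠ 0 := by
  unfold KK
  rw [sum_congr rfl fun d _ => by rw [ch_comp h, ch_sq]]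
  simp

theorem sum_xo (e : Fin n → Bool) (F : (Fin n → Bool) → ℚ) :
    ∑ d, F (xo d e) = ∑ d, F d :=
  Equiv.sum_comp (xo_invol e).toPerm F

theorem KK_zero {S : Finset (Fin n)} {p : Equiv.Perm (Fin n)} {j : Fin n}
    (h : ¬ (p j ∈ S ↔ j ∈ S)) : KK S p = 0 := by
  have h1 := sum_xo (fun i => decide (i = j)) (fun d => ch S d * ch S (d ∘ p.symm))
  have h2 : ∀ d : Fin n → Bool, ch S (xo d fun i => decide (i = j)) *
      ch S ((xo d fun i => decide (i = j)) ∘ p.symm) = - (ch S d * ch S (d ∘ p.symm)) := by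
    intro d
    have h3 : (xo d fun i => decide (i = j)) ∘ p.symm =
        xo (d ∘ p.symm) (fun i => decide (i = p j)) := by
      funext i
      change xor (d (p.symm i)) (decide (p.symm i = j)) = xor (d (p.symm i)) (decide (i = p j))
      congr 1
      rw [decide_eq_decide, Equiv.symm_apply_eq]
    rw [h3, ch_xo, ch_xo, ch_single, ch_single]
    by_cases a : p j ∈ S <;> by_cases b : j ∈ S
    · exact absurd (by simp [a, b]) h
    · simp [a, b]
    · simp [a, b]
    · exact absurd (by simp [a, b]) h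
  rw [sum_congr rfl fun d _ => h2 d, sum_neg_distrib] at h1
  unfold KK
  linarith

theorem smul_fun_mem {Γ : Type} (V : Submodule ℚ (Γ → ℚ)) {f : Γ → ℚ} (hf : f ∈ V) (c : ℚ) :
    (fun x => c * f x) ∈ V := V.smul_mem c hf

theorem sum_fun_mem {Γ ι : Type} [Fintype ι] (V : Submodule ℚ (Γ → ℚ)) {f : ι → Γ → ℚ}
    (hf : ∀ i, f i ∈ V) : (fun x => ∑ i, f i x) ∈ V := by
  have h : (fun x => ∑ i, f i x) = ∑ i, f i := by
    funext x
    rw [Finset.sum_apply]
  rw [h]
  exact V.sum_mem fun i _ => hf i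

/-- step 1: an eigenfunction of the left translations by `N` -/
theorem step1 (V : Submodule ℚ (Hyp n → ℚ)) (hV : V ≠ ⊥)
    (hl : ∀ g, ∀ f ∈ V, (fun x => f (g * x)) ∈ V) (hr : ∀ g, ∀ f ∈ V, (fun x => f (x * g)) ∈ V) :
    ∃ (S : Finset (Fin n)) (g : Hyp n → ℚ), g ∈ V ∧ g 1 ≠ 0 ∧
      ∀ d x, g (E d * x) = ch S d * g x := by
  obtain ⟨f, hf, hf0⟩ := (Submodule.ne_bot_iff V).1 hV
  have key : ∃ S : Finset (Fin n), ∃ x, ∑ d, ch S d * f (E d * x) ≠ 0 := by
    by_contra hcon
    push Not at hcon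
    apply hf0
    funext x
    have h1 : ∑ S : Finset (Fin n), ∑ d, ch S d * f (E d * x) = 0 :=
      sum_eq_zero fun S _ => hcon S x
    rw [sum_comm] at h1
    have h2 : ∀ d : Fin n → Bool, ∑ S : Finset (Fin n), ch S d * f (E d * x) =
        (∏ j, (1 + sg (d j))) * f (E d * x) := by
      intro d
      rw [← sum_mul, prod_one_add, powerset_univ]
      rfl
    rw [sum_congr rfl fun d _ => h2 d, sum_eq_single (fun _ => false)] at h1
    · rw [E_zero, one_mul] at h1
      rcases mul_eq_zero.1 h1 with h3 | h3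
      · exfalso
        have : ∀ j : Fin n, j ∈ (univ : Finset (Fin n)) → (1 + sg ((fun _ => false) j) : ℚ) ≠ 0 := by
          intro j _
          norm_num [sg]
        exact (prod_ne_zero_iff.2 this) h3
      · exact h3
    · intro d _ hd
      have : ∃ j, d j = true := by
        by_contra hc
        push Not at hc
        exact hd (funext fun j => by simpa using hc j)
      obtain ⟨j, hj⟩ := this
      rw [prod_eq_zero (mem_univ j), zero_mul]
      rw [hj]
      norm_num [sg]
    · intro h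
      exact absurd (mem_univ _) h
  obtain ⟨S, x0, hx0⟩ := key
  refine ⟨S, fun x => ∑ d, ch S d * f (E d * (x * x0)), ?_, ?_, ?_⟩
  · have h1 : (fun x => ∑ d, ch S d * f (E d * x)) ∈ V :=
      sum_fun_mem V fun d => smul_fun_mem V (hl (E d) f hf) (ch S d)
    exact hr x0 _ h1
  · simpa using hx0
  · intro d x
    have h1 := sum_xo d (fun e => ch S e * f (E e * (x * x0)))
    change ∑ e, ch S e * f (E e * (E d * x * x0)) = ch S d * ∑ e, ch S e * f (E e * (x * x0))
    rw [← h1, mul_sum]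
    refine sum_congr rfl fun e _ => ?_
    have h2 : E e * (E d * x * x0) = E (xo e d) * (x * x0) := by
      have h3 : E (xo e d) = E e * E d := by
        rw [E_mul]
        congr 1
        funext j
        exact Bool.xor_comm _ _
      rw [h3]
      group
    rw [h2, ch_xo]
    have h4 := ch_sq S d
    linear_combination -(ch S e * f (E (xo e d) * (x * x0))) * h4

/-- the function of `h` -/
noncomputable def FF (S : Finset (Fin n)) (h : Equiv.Perm (Fin n) → ℚ) (x : Hyp n) : ℚ :=
  ch S (ee x) * h (pp x)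

theorem FF_EI (S : Finset (Fin n)) (h : Equiv.Perm (Fin n) → ℚ) (d : Fin n → Bool)
    (p : Equiv.Perm (Fin n)) : FF S h (E d * I p) = ch S d * h p := by
  unfold FF
  rw [ee_EI, pp_EI]

/-- the space `V'` -/
def VV (S : Finset (Fin n)) (V : Submodule ℚ (Hyp n → ℚ)) :
    Submodule ℚ (Equiv.Perm (Fin n) → ℚ) where
  carrier := {h | (∀ p : Equiv.Perm (Fin n), (∃ j, decide (p j ∈ S) ≠ decide (j ∈ S)) → h p = 0) ∧
    FF S h ∈ V}
  add_mem' := by
    rintro h k ⟨h1, h2⟩ ⟨k1, k2⟩
    refine ⟨fun p hp => ?_, ?_⟩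
    · rw [Pi.add_apply, h1 p hp, k1 p hp, add_zero]
    · have e : FF S (h + k) = FF S h + FF S k := by
        funext x
        rw [Pi.add_apply]
        unfold FF
        rw [Pi.add_apply]
        ring
      rw [e]
      exact V.add_mem h2 k2
  zero_mem' := by
    refine ⟨fun p _ => rfl, ?_⟩
    have e : FF S (0 : Equiv.Perm (Fin n) → ℚ) = 0 := by
      funext x
      unfold FF
      rw [Pi.zero_apply, Pi.zero_apply, mul_zero]
    rw [e]
    exact V.zero_mem
  smul_mem' := by
    rintro c h ⟨h1, h2⟩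
    refine ⟨fun p hp => ?_, ?_⟩
    · rw [Pi.smul_apply, h1 p hp, smul_zero]
    · have e : FF S (c • h) = c • FF S h := by
        funext x
        rw [Pi.smul_apply]
        unfold FF
        rw [Pi.smul_apply, smul_eq_mul, smul_eq_mul]
        ring
      rw [e]
      exact V.smul_mem c h2

theorem VV_ne (S : Finset (Fin n)) (V : Submodule ℚ (Hyp n → ℚ))
    (hr : ∀ g, ∀ f ∈ V, (fun x => f (x * g)) ∈ V) (g : Hyp n → ℚ) (hg : g ∈ V) (hg1 : g 1 ≠ 0)
    (hgE : ∀ d x, g (E d * x) = ch S d * g x) : VV S V ≠ ⊥ := by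
  rw [Submodule.ne_bot_iff]
  refine ⟨fun p => KK S p * g (I p), ⟨?_, ?_⟩, ?_⟩
  · rintro p ⟨j, hj⟩
    have h1 : ¬ (p j ∈ S ↔ j ∈ S) := fun h => hj (by rw [decide_eq_decide]; exact h)
    change KK S p * g (I p) = 0
    rw [KK_zero h1, zero_mul]
  · have h1 : (fun x => ∑ d, ch S d * g (x * E d)) ∈ V :=
      sum_fun_mem V fun d => smul_fun_mem V (hr (E d) g hg) (ch S d)
    have e : FF S (fun p => KK S p * g (I p)) = fun x => ∑ d, ch S d * g (x * E d) := by
      funext x
      obtain ⟨c, p, rfl⟩ := ex x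
      rw [FF_EI]
      unfold KK
      rw [sum_mul, mul_sum]
      refine sum_congr rfl fun d _ => ?_
      have h2 : E c * I p * E d = E c * (E (d ∘ p.symm) * I p) := by
        rw [mul_assoc, I_E]
      rw [h2, hgE, hgE]
      ring
    rw [e]
    exact h1
  · intro h0
    have h1 := congrFun h0 1
    have h2 : KK S 1 * g (I 1) = 0 := h1
    rw [I_one] at h2
    rcases mul_eq_zero.1 h2 with h3 | h3
    · exact KK_pos (fun j => Iff.rfl) h3
    · exact hg1 h3

theorem VV_stable (S : Finset (Fin n)) (V : Submodule ℚ (Hyp n → ℚ))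
    (hl : ∀ g, ∀ f ∈ V, (fun x => f (g * x)) ∈ V)
    (hr : ∀ g, ∀ f ∈ V, (fun x => f (x * g)) ∈ V) (p : Equiv.Perm (Fin n))
    (hp : ∀ x, decide (p x ∈ S) = decide (x ∈ S)) (h : Equiv.Perm (Fin n) → ℚ) (hh : h ∈ VV S V) :
    (fun σ => h (p * σ)) ∈ VV S V ∧ (fun σ => h (σ * p)) ∈ VV S V := by
  obtain ⟨h1, h2⟩ := hh
  have hp' : ∀ j, p j ∈ S ↔ j ∈ S := fun j => by
    have := hp j
    rwa [decide_eq_decide] at this
  refine ⟨⟨?_, ?_⟩, ⟨?_, ?_⟩⟩
  · rintro σ ⟨j, hj⟩
    refine h1 _ ⟨j, ?_⟩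
    rw [Equiv.Perm.mul_apply, hp]
    exact hj
  · have e : FF S (fun σ => h (p * σ)) = fun x => FF S h (I p * x) := by
      funext x
      obtain ⟨c, σ, rfl⟩ := ex x
      have h3 : I p * (E c * I σ) = E (c ∘ p.symm) * I (p * σ) := by
        rw [← mul_assoc, I_E, mul_assoc, I_mul]
      rw [h3, FF_EI, FF_EI, ch_comp hp']
    rw [e]
    exact hl _ _ h2
  · rintro σ ⟨j, hj⟩
    refine h1 _ ⟨p.symm j, ?_⟩
    rw [Equiv.Perm.mul_apply, Equiv.apply_symm_apply]
    have h4 := hp (p.symm j)
    rw [Equiv.apply_symm_apply] at h4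
    rw [← h4]
    exact hj
  · have e : FF S (fun σ => h (σ * p)) = fun x => FF S h (x * I p) := by
      funext x
      obtain ⟨c, σ, rfl⟩ := ex x
      have h3 : E c * I σ * I p = E c * I (σ * p) := by
        rw [mul_assoc, I_mul]
      rw [h3, FF_EI, FF_EI]
    rw [e]
    exact hr _ _ h2

end FlhM

open FlhM in
theorem specFlh (hFLS : SpecFls) : SpecFlh := by
  intro n V hV hl hr
  obtain ⟨S, g, hg, hg1, hgE⟩ := step1 V hV hl hr
  obtain ⟨h, ⟨h1, h2⟩, h0, hfl⟩ := hFLS (Fin n) Bool (fun j => decide (j ∈ S)) (VV S V)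
    (VV_ne S V hr g hg hg1 hgE) (fun f hf σ hσ => hf.1 σ hσ)
    (fun p hp f hf => VV_stable S V hl hr p hp f hf)
  refine ⟨FF S h, h2, ?_, ?_⟩
  · intro e
    apply h0
    funext p
    have h3 := congrFun e (E (fun _ => false) * I p)
    rw [FF_EI] at h3
    rcases mul_eq_zero.1 h3 with h4 | h4
    · rcases ch_flat S (fun _ => false) with h5 | h5 <;> rw [h5] at h4 <;> norm_num at h4
    · exact h4
  · intro x
    unfold FF
    rcases ch_flat S (ee x) with h5 | h5 <;> rcases hfl (pp x) with h6 | h6 | h6 <;>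
      rw [h5, h6] <;> norm_num

end Pool.Agent.Lib.MPf11a48.CMM
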