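import Pool.Agent.Lib.MP_f11a48_ag.CMM.SpecN
import Pool.Agent.Lib.MP_f11a48_ag.CMM.Fle

/-! # Flat functions: from groups to fields -/

set_option autoImplicit false

namespace Pool.Agent.Lib.MPf11a48.CMM

open Pool.Agent.Lib.MPf11a48.CM hiding OmegaM

namespace FlkM

variable {E : IntermediateField ℚ Qbar}

/-- the restriction of an automorphism to a normal field -/
noncomputable def res (hE : ∀ γ : Qbar ≃ₐ[ℚ] Qbar, ∀ x ∈ E, γ x ∈ E)
    (γ : Qbar ≃ₐ[ℚ] Qbar) : E ≃ₐ[ℚ] E where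
  toFun x := ⟨γ x.1, hE γ _ x.2⟩
  invFun x := ⟨γ.symm x.1, hE γ.symm _ x.2⟩
  left_inv x := Subtype.ext (γ.symm_apply_apply x.1)
  right_inv x := Subtype.ext (γ.apply_symm_apply x.1)
  map_mul' x y := Subtype.ext (map_mul γ x.1 y.1)
  map_add' x y := Subtype.ext (map_add γ x.1 y.1)
  commutes' r := Subtype.ext (γ.commutes r)

theorem exists_res (hE : ∀ γ : Qbar ≃ₐ[ℚ] Qbar, ∀ x ∈ E, γ x ∈ E) (g : E ≃ₐ[ℚ] E) :
    ∃ γ : Qbar ≃ₐ[ℚ] Qbar, res hE γ = g := by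
  obtain ⟨γ, hγ⟩ := FleM.exists_ext E (E.val.comp g.toAlgHom)
  exact ⟨γ, AlgEquiv.ext fun x => Subtype.ext (hγ x)⟩

theorem embF_surjective (hE : ∀ γ : Qbar ≃ₐ[ℚ] Qbar, ∀ x ∈ E, γ x ∈ E) :
    Function.Surjective (FleM.embF (E := E)) := by
  intro φ
  obtain ⟨γ, hγ⟩ := FleM.exists_ext E φ
  exact ⟨res hE γ, AlgHom.ext fun x => hγ x⟩

end FlkM

open FlkM FleM in
theorem specFlk : SpecFlk := by
  intro E hfin hE hB V hV hodd hgal hright
  let L : ((E →ₐ[ℚ] Qbar) → ℚ) →ₗ[ℚ] ((E ≃ₐ[ℚ] E) → ℚ) := LinearMap.funLeft ℚ ℚ embF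
  have hLinj : Function.Injective L :=
    LinearMap.funLeft_injective_of_surjective ℚ ℚ embF (FlkM.embF_surjective hE)
  obtain ⟨f, hf, hf0, hf1⟩ := hB (V.map L) (by
      intro h
      refine hV ((Submodule.eq_bot_iff V).2 fun x hx => hLinj ?_)
      rw [map_zero]
      exact (Submodule.eq_bot_iff _).1 h _ (Submodule.mem_map_of_mem hx)) (by
      intro g f hf
      obtain ⟨F, hF, rfl⟩ := Submodule.mem_map.1 hf
      obtain ⟨γ, rfl⟩ := FlkM.exists_res hE g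
      refine Submodule.mem_map.2 ⟨_, hgal γ F hF, ?_⟩
      rfl) (by
      intro g f hf
      obtain ⟨F, hF, rfl⟩ := Submodule.mem_map.1 hf
      obtain ⟨γ, rfl⟩ := FlkM.exists_res hE g
      refine Submodule.mem_map.2 ⟨_, hright γ (FlkM.res hE γ).toAlgHom (fun a ha => ?_)
        (fun x => rfl) F hF, ?_⟩
      · obtain ⟨q, hq⟩ := IntermediateField.mem_bot.1 ha
        have h1 : algebraMap ℚ Qbar q = a := Subtype.ext hq
        rw [← h1]
        exact γ.commutes q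
      · rfl)
  obtain ⟨F, hF, rfl⟩ := Submodule.mem_map.1 hf
  refine ⟨F, hF, ?_, ?_⟩
  · intro h
    exact hf0 (by rw [h, map_zero])
  · intro φ
    obtain ⟨g, rfl⟩ := FlkM.embF_surjective hE φ
    exact hf1 g

end Pool.Agent.Lib.MPf11a48.CMM
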