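import Pool.Agent.Lib.MP_f11a48_ag.CMM.SpecN

/-!
# FLS: flat functions for products of symmetric groups

Rows `ρ` and columns `κ` of maximal energy; Garnir relations; the sum over all transpositions of the
same colour, computed on both sides.
-/

set_option autoImplicit false
set_option linter.unusedSectionVars false

namespace Pool.Agent.Lib.MPf11a48.CMM.FlsM

open Finset Equiv

variable {X C : Type} [Fintype X] [DecidableEq X]

/-- the fibre -/
def fib (κ : X → X) (b : X) : Finset X := univ.filter fun x => κ x = b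

theorem mem_fib {κ : X → X} {b x : X} : x ∈ fib κ b ↔ κ x = b := by simp [fib]

/-- the energy -/
def en (κ : X → X) : ℕ := ∑ b, (fib κ b).card ^ 2

/-- `κ` refines `col` -/
def Ref (col : X → C) (κ : X → X) : Prop := ∀ x y, κ x = κ y → col x = col y

variable {M : Type} [AddCommGroup M] [Module ℚ M]

/-- the vectors of type `s` under the permutations which preserve `κ` -/
def Inv (T : Perm X →* Module.End ℚ M) (s : Perm X →* ℚ) (U : Submodule ℚ M) (κ : X → X) :
    Submodule ℚ M where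
  carrier := {f | f ∈ U ∧ ∀ k : Perm X, (∀ x, κ (k x) = κ x) → T k f = s k • f}
  add_mem' := by
    rintro f g ⟨hf, hf'⟩ ⟨hg, hg'⟩
    exact ⟨U.add_mem hf hg, fun k hk => by rw [map_add, hf' k hk, hg' k hk, smul_add]⟩
  zero_mem' := ⟨U.zero_mem, fun k _ => by rw [map_zero, smul_zero]⟩
  smul_mem' := by
    rintro c f ⟨hf, hf'⟩
    exact ⟨U.smul_mem c hf, fun k hk => by rw [map_smul, hf' k hk, smul_comm]⟩

variable {T : Perm X →* Module.End ℚ M} {s : Perm X →* ℚ} {U : Submodule ℚ M} {κ : X → X}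

/-- the sum of the transforms of `f` -/
noncomputable def gg (T : Perm X →* Module.End ℚ M) (s : Perm X →* ℚ) (κ : X → X) (b y : X)
    (f : M) : M :=
  ∑ x ∈ insert y (fib κ b), s (swap x y) • T (swap x y) f

theorem s_swap_sq (s : Perm X →* ℚ) (x y : X) : s (swap x y) * s (swap x y) = 1 := by
  rw [← map_mul, swap_mul_self, map_one]

/-- the conjugated permutation preserves `κ` -/
theorem conj_pres {b y x : X} (k : Perm X)
    (hk : ∀ z, Function.update κ y b (k z) = Function.update κ y b z)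
    (hx : Function.update κ y b x = b) (z : X) :
    κ ((swap (k x) y * k * swap x y) z) = κ z := by
  have hup : ∀ w, w ≠ y → Function.update κ y b w = κ w := fun w hw => Function.update_of_ne hw _ _
  have huy : Function.update κ y b y = b := Function.update_self _ _ _
  have hkx : Function.update κ y b (k x) = b := by rw [hk, hx]
  set p : Perm X := swap (k x) y * k * swap x y with hp
  have hpz : ∀ z, p z = swap (k x) y (k (swap x y z)) := fun z => rfl
  have hpy : p y = y := by rw [hpz, swap_apply_right, swap_apply_left]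
  by_cases hzy : z = y
  · rw [hzy, hpy]
  have hpzy : p z ≠ y := fun h => hzy (p.injective (h.trans hpy.symm))
  -- membership in the new fibre is preserved
  have hmem : ∀ (u v w : X), Function.update κ y b u = b → Function.update κ y b w = b →
      Function.update κ y b (swap u y w) = b := by
    intro u v w hu hw
    by_cases h1 : w = u
    · rw [h1, swap_apply_left, huy]
    · by_cases h2 : w = y
      · rw [h2, swap_apply_right, hu]
      · rw [swap_apply_of_ne_of_ne h1 h2, hw]
  by_cases hb : κ z = b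
  · have h1 : Function.update κ y b z = b := by rw [hup z hzy, hb]
    have h2 := hmem x x z hx h1
    have h3 : Function.update κ y b (k (swap x y z)) = b := by rw [hk, h2]
    have h4 := hmem (k x) x _ hkx h3
    rw [← hpz, hup _ hpzy] at h4
    rw [h4, hb]
  · have hzx : z ≠ x := by
      rintro rfl
      rw [hup z hzy] at hx
      exact hb hx
    have h1 : p z = swap (k x) y (k z) := by
      rw [hpz, swap_apply_of_ne_of_ne hzx hzy]
    have h2 : Function.update κ y b (k z) = κ z := by rw [hk, hup z hzy]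
    have h3 : k z ≠ y := by
      intro h
      rw [h, huy] at h2
      exact hb h2.symm
    have h4 : k z ≠ k x := fun h => hzx (k.injective h)
    rw [h1, swap_apply_of_ne_of_ne h4 h3, ← hup _ h3, h2]

theorem gg_mem (col : X → C) (hU : ∀ x y, col x = col y → ∀ f ∈ U, T (swap x y) f ∈ U)
    (hκ : Ref col κ) {f : M} (hf : f ∈ Inv T s U κ) {b y x₀ : X} (hx₀ : κ x₀ = b)
    (hcol : col x₀ = col y) (hy : κ y ≠ b) :
    gg T s κ b y f ∈ Inv T s U (Function.update κ y b) := by
  refine ⟨?_, ?_⟩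
  · refine U.sum_mem fun x hx => U.smul_mem _ ?_
    rcases Finset.mem_insert.1 hx with rfl | hx
    · exact hU _ _ rfl f hf.1
    · refine hU x y ?_ f hf.1
      rw [← hcol]
      exact hκ _ _ ((mem_fib.1 hx).trans hx₀.symm)
  · intro k hk
    have hB : ∀ z, z ∈ insert y (fib κ b) ↔ Function.update κ y b z = b := by
      intro z
      rw [Finset.mem_insert, mem_fib]
      by_cases hz : z = y
      · rw [hz, Function.update_self]; simp
      · rw [Function.update_of_ne hz]; simp [hz]
    unfold gg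
    rw [map_sum, Finset.smul_sum]
    have h1 : ∀ x ∈ insert y (fib κ b), T k (s (swap x y) • T (swap x y) f) =
        s k • (s (swap (k x) y) • T (swap (k x) y) f) := by
      intro x hx
      have h2 := hf.2 (swap (k x) y * k * swap x y)
        (conj_pres k hk ((hB x).1 hx))
      have h3 : k * swap x y = swap (k x) y * (swap (k x) y * k * swap x y) := by
        rw [← mul_assoc, ← mul_assoc, swap_mul_self, one_mul]
      rw [map_smul, ← Module.End.mul_apply, ← map_mul, h3, map_mul, Module.End.mul_apply, h2,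
        map_smul, smul_smul, smul_smul]
      congr 1
      rw [map_mul, map_mul]
      linear_combination (s (swap (k x) y) * s k) * s_swap_sq s x y
    rw [Finset.sum_congr rfl h1]
    refine Finset.sum_equiv k (fun z => ?_) (fun z _ => rfl)
    rw [hB, hB, hk]

/-! ### energy -/

theorem en_lt {b y : X} (hy : κ y ≠ b) (hle : (fib κ (κ y)).card ≤ (fib κ b).card) :
    en κ < en (Function.update κ y b) := by
  have h1 : fib (Function.update κ y b) b = insert y (fib κ b) := by
    ext z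
    rw [mem_fib, Finset.mem_insert, mem_fib]
    by_cases hz : z = y
    · rw [hz, Function.update_self]; simp
    · rw [Function.update_of_ne hz]; simp [hz]
  have h2 : fib (Function.update κ y b) (κ y) = (fib κ (κ y)).erase y := by
    ext z
    rw [mem_fib, Finset.mem_erase, mem_fib]
    by_cases hz : z = y
    · rw [hz, Function.update_self]; simp [Ne.symm hy]
    · rw [Function.update_of_ne hz]; simp [hz]
  have h3 : ∀ c, c ≠ b → c ≠ κ y → fib (Function.update κ y b) c = fib κ c := by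
    intro c hcb hcy
    ext z
    rw [mem_fib, mem_fib]
    by_cases hz : z = y
    · rw [hz, Function.update_self]
      simp [Ne.symm hcb, Ne.symm hcy]
    · rw [Function.update_of_ne hz]
  have hyb : y ∉ fib κ b := fun h => hy (mem_fib.1 h)
  have hyy : y ∈ fib κ (κ y) := mem_fib.2 rfl
  have hpos : 0 < (fib κ (κ y)).card := Finset.card_pos.2 ⟨y, hyy⟩
  unfold en
  have hsplit : ∀ F : X → ℕ, ∑ c, F c = F b + (F (κ y) + ∑ c ∈ (univ.erase b).erase (κ y), F c) := by
    intro F
    rw [Finset.add_sum_erase _ _ (Finset.mem_erase.2 ⟨hy, Finset.mem_univ _⟩),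
      Finset.add_sum_erase _ _ (Finset.mem_univ _)]
  rw [hsplit, hsplit (fun c => (fib (Function.update κ y b) c).card ^ 2)]
  have h4 : ∑ c ∈ (univ.erase b).erase (κ y), (fib (Function.update κ y b) c).card ^ 2 =
      ∑ c ∈ (univ.erase b).erase (κ y), (fib κ c).card ^ 2 := by
    refine Finset.sum_congr rfl fun c hc => ?_
    rw [Finset.mem_erase, Finset.mem_erase] at hc
    rw [h3 c hc.2.1 hc.1]
  rw [h4]
  simp only [h1, h2]
  rw [Finset.card_insert_of_notMem hyb, Finset.card_erase_of_mem hyy]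
  obtain ⟨m, hm⟩ : ∃ m, (fib κ (κ y)).card = m + 1 := ⟨_, (Nat.succ_pred_eq_of_pos hpos).symm⟩
  rw [hm] at hle ⊢
  rw [Nat.add_sub_cancel]
  nlinarith

/-- `κ` has maximal energy -/
structure Mx (col : X → C) (T : Perm X →* Module.End ℚ M) (s : Perm X →* ℚ) (U : Submodule ℚ M)
    (κ : X → X) : Prop where
  ref : Ref col κ
  ne : Inv T s U κ ≠ ⊥
  max : ∀ κ', Ref col κ' → en κ < en κ' → Inv T s U κ' = ⊥

theorem exists_mx (col : X → C) (hU : U ≠ ⊥) : ∃ κ, Mx col T s U κ := by
  classical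
  have hid : Ref col (id : X → X) := by
    intro x y h
    have h' : x = y := h
    rw [h']
  have hid' : Inv T s U (id : X → X) = U := by
    apply le_antisymm
    · exact fun f hf => hf.1
    · intro f hf
      refine ⟨hf, fun k hk => ?_⟩
      have : k = 1 := Equiv.ext fun x => hk x
      rw [this, map_one, map_one, one_smul]
      rfl
  obtain ⟨κ, hκ, hmax⟩ := Finset.exists_max_image
    ((univ : Finset (X → X)).filter fun κ => Ref col κ ∧ Inv T s U κ ≠ ⊥) en
    ⟨id, Finset.mem_filter.2 ⟨Finset.mem_univ _, hid, by rw [hid']; exact hU⟩⟩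
  rw [Finset.mem_filter] at hκ
  refine ⟨κ, hκ.2.1, hκ.2.2, fun κ' hκ' hlt => ?_⟩
  by_contra hne
  exact absurd (hmax κ' (Finset.mem_filter.2 ⟨Finset.mem_univ _, hκ', hne⟩)) (not_le.2 hlt)

/-- the Garnir-type relation -/
theorem rel (col : X → C) (hU : ∀ x y, col x = col y → ∀ f ∈ U, T (swap x y) f ∈ U)
    (hκ : Mx col T s U κ) {ς : ℚ} (hς : ∀ x y : X, x ≠ y → s (swap x y) = ς)
    {f : M} (hf : f ∈ Inv T s U κ) {b y x₀ : X} (hx₀ : κ x₀ = b)
    (hcol : col x₀ = col y) (hy : κ y ≠ b) (hle : (fib κ (κ y)).card ≤ (fib κ b).card) :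
    ∑ x ∈ fib κ b, T (swap x y) f = -(ς • f) := by
  have h1 := gg_mem col hU hκ.ref hf hx₀ hcol hy
  have href : Ref col (Function.update κ y b) := by
    intro u v huv
    have hcb : ∀ w, κ w = b → col w = col y := fun w hw => by
      rw [← hcol]; exact hκ.ref _ _ (hw.trans hx₀.symm)
    by_cases hu : u = y
    · by_cases hv : v = y
      · rw [hu, hv]
      · rw [hu, Function.update_self, Function.update_of_ne hv] at huv
        rw [hu, hcb v huv.symm]
    · by_cases hv : v = y
      · rw [hv, Function.update_self, Function.update_of_ne hu] at huv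
        rw [hv, hcb u huv]
      · rw [Function.update_of_ne hu, Function.update_of_ne hv] at huv
        exact hκ.ref _ _ huv
  rw [hκ.max _ href (en_lt hy hle), Submodule.mem_bot] at h1
  unfold gg at h1
  have hyb : y ∉ fib κ b := fun h => hy (mem_fib.1 h)
  rw [Finset.sum_insert hyb, swap_self] at h1
  have h0 : T (Equiv.refl X) f = f := by
    have : (Equiv.refl X : Perm X) = 1 := rfl
    rw [this, map_one]; rfl
  have h0' : s (Equiv.refl X) = 1 := by
    have : (Equiv.refl X : Perm X) = 1 := rfl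
    rw [this, map_one]
  have hne : x₀ ≠ y := by rintro rfl; exact hy hx₀
  have hς2 : ς * ς = 1 := by
    have := s_swap_sq s x₀ y
    rwa [hς x₀ y hne] at this
  have h2 : ∑ x ∈ fib κ b, s (swap x y) • T (swap x y) f =
      ς • ∑ x ∈ fib κ b, T (swap x y) f := by
    rw [Finset.smul_sum]
    refine Finset.sum_congr rfl fun x hx => ?_
    rw [hς x y (by rintro rfl; exact hyb hx)]
  rw [h2, h0, h0', one_smul] at h1
  have h3 : ∀ a b : M, a + ς • b = 0 → b = -(ς • a) := by
    intro a b hab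
    have : a = -(ς • b) := eq_neg_of_add_eq_zero_left hab
    rw [this, smul_neg, neg_neg, smul_smul, hς2, one_smul]
  exact h3 _ _ h1


/-! ### the sum over all transpositions -/

open Classical in
/-- the sum over all ordered pairs of the same colour -/
noncomputable def SS (col : X → C) (T : Perm X →* Module.End ℚ M) (f : M) : M :=
  ∑ x, ∑ y, if x ≠ y ∧ col x = col y then T (swap x y) f else 0

/-- the number of pairs in the same fibre -/
def pp (κ : X → X) : ℕ := ∑ x, ∑ y, if x ≠ y ∧ κ x = κ y then 1 else 0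

/-- two fibres have the same colour -/
def cc (col : X → C) (κ : X → X) (a a' : X) : Prop := ∃ x y, κ x = a ∧ κ y = a' ∧ col x = col y

open Classical in
/-- the sum of the minima -/
noncomputable def nn (col : X → C) (κ : X → X) : ℕ :=
  ∑ a, ∑ a', if a ≠ a' ∧ cc col κ a a' then min (fib κ a).card (fib κ a').card else 0

theorem sum_fib {A : Type} [AddCommMonoid A] (κ : X → X) (F : X → X → A) :
    ∑ x, ∑ y, F x y = ∑ a, ∑ a', ∑ x ∈ fib κ a, ∑ y ∈ fib κ a', F x y := by
  have h : ∀ G : X → A, ∑ x, G x = ∑ a, ∑ x ∈ fib κ a, G x := by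
    intro G
    rw [← Finset.sum_fiberwise_of_maps_to (s := univ) (t := univ) (g := κ)
      (fun _ _ => Finset.mem_univ _) G]
    rfl
  rw [h]
  refine Finset.sum_congr rfl fun a _ => ?_
  rw [Finset.sum_comm, h]
  refine Finset.sum_congr rfl fun a' _ => ?_
  rw [Finset.sum_comm]

theorem block (col : X → C) (hU : ∀ x y, col x = col y → ∀ f ∈ U, T (swap x y) f ∈ U)
    (hκ : Mx col T s U κ) {ς : ℚ} (hς : ∀ x y : X, x ≠ y → s (swap x y) = ς)
    {f : M} (hf : f ∈ Inv T s U κ) {a a' : X} (hne : a ≠ a') (hc : cc col κ a a') :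
    ∑ x ∈ fib κ a, ∑ y ∈ fib κ a', T (swap x y) f =
      -(ς * (min (fib κ a).card (fib κ a').card : ℕ)) • f := by
  obtain ⟨u, v, hu, hv, huv⟩ := hc
  rcases le_total (fib κ a').card (fib κ a).card with h | h
  · rw [Finset.sum_comm]
    have h1 : ∀ y ∈ fib κ a', ∑ x ∈ fib κ a, T (swap x y) f = -(ς • f) := by
      intro y hy
      have hy' := mem_fib.1 hy
      refine rel col hU hκ hς hf hu ?_ ?_ ?_
      · rw [huv]; exact hκ.ref _ _ (hv.trans hy'.symm)
      · rw [hy']; exact Ne.symm hne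
      · rw [hy']; exact h
    rw [Finset.sum_congr rfl h1, Finset.sum_const, min_eq_right h, ← Nat.cast_smul_eq_nsmul ℚ,
      smul_neg, smul_smul, neg_smul, mul_comm]
  · have h1 : ∀ x ∈ fib κ a, ∑ y ∈ fib κ a', T (swap x y) f = -(ς • f) := by
      intro x hx
      have hx' := mem_fib.1 hx
      have h2 := rel col hU hκ hς hf (b := a') (y := x) (x₀ := v) hv (by
        rw [← huv]; exact hκ.ref _ _ (hu.trans hx'.symm)) (by rw [hx']; exact hne)
        (by rw [hx']; exact h)
      rw [← h2]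
      exact Finset.sum_congr rfl fun y _ => by rw [swap_comm]
    rw [Finset.sum_congr rfl h1, Finset.sum_const, min_eq_left h, ← Nat.cast_smul_eq_nsmul ℚ,
      smul_neg, smul_smul, neg_smul, mul_comm]

theorem SS_eq (col : X → C) (hU : ∀ x y, col x = col y → ∀ f ∈ U, T (swap x y) f ∈ U)
    (hκ : Mx col T s U κ) {ς : ℚ} (hς : ∀ x y : X, x ≠ y → s (swap x y) = ς)
    {f : M} (hf : f ∈ Inv T s U κ) :
    SS col T f = (ς * ((pp κ : ℚ) - nn col κ)) • f := by
  classical
  unfold SS
  have h1 : ∀ x y : X, (if x ≠ y ∧ col x = col y then T (swap x y) f else 0) =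
      (if x ≠ y ∧ κ x = κ y then ς • f else 0) +
        (if κ x ≠ κ y ∧ col x = col y then T (swap x y) f else 0) := by
    intro x y
    by_cases hxy : x = y
    · subst hxy; simp
    · by_cases hκxy : κ x = κ y
      · have hc := hκ.ref x y hκxy
        rw [if_pos ⟨hxy, hc⟩, if_pos ⟨hxy, hκxy⟩, if_neg (fun h => h.1 hκxy), add_zero,
          hf.2 (swap x y) ?_, hς x y hxy]
        intro z
        by_cases hzx : z = x
        · rw [hzx, swap_apply_left, hκxy]
        · by_cases hzy : z = y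
          · rw [hzy, swap_apply_right, hκxy]
          · rw [swap_apply_of_ne_of_ne hzx hzy]
      · rw [if_neg (fun h => hκxy h.2 : ¬ (x ≠ y ∧ κ x = κ y)), zero_add]
        by_cases hc : col x = col y
        · rw [if_pos ⟨hxy, hc⟩, if_pos ⟨hκxy, hc⟩]
        · rw [if_neg (fun h => hc h.2), if_neg (fun h => hc h.2)]
  simp_rw [h1, Finset.sum_add_distrib]
  have h2 : ∑ x : X, ∑ y : X, (if x ≠ y ∧ κ x = κ y then ς • f else 0) =
      (ς * (pp κ : ℚ)) • f := by
    have : ∀ x y : X, (if x ≠ y ∧ κ x = κ y then ς • f else 0) =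
        (ς * ((if x ≠ y ∧ κ x = κ y then 1 else 0 : ℕ) : ℚ)) • f := by
      intro x y
      split_ifs <;> simp
    simp_rw [this, ← Finset.sum_smul, ← Finset.mul_sum]
    unfold pp
    push_cast
    rfl
  have h3 : ∑ x : X, ∑ y : X, (if κ x ≠ κ y ∧ col x = col y then T (swap x y) f else 0) =
      (-(ς * (nn col κ : ℚ))) • f := by
    rw [sum_fib κ]
    have h4 : ∀ a a' : X, ∑ x ∈ fib κ a, ∑ y ∈ fib κ a',
        (if κ x ≠ κ y ∧ col x = col y then T (swap x y) f else 0) =
        (-(ς * ((if a ≠ a' ∧ cc col κ a a' then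
          min (fib κ a).card (fib κ a').card else 0 : ℕ) : ℚ))) • f := by
      intro a a'
      by_cases hc : a ≠ a' ∧ cc col κ a a'
      · rw [if_pos hc, ← block col hU hκ hς hf hc.1 hc.2]
        obtain ⟨u, v, hu, hv, huv⟩ := hc.2
        refine Finset.sum_congr rfl fun x hx => Finset.sum_congr rfl fun y hy => ?_
        rw [mem_fib] at hx hy
        rw [if_pos]
        refine ⟨by rw [hx, hy]; exact hc.1, ?_⟩
        rw [hκ.ref x u (hx.trans hu.symm), huv]
        exact hκ.ref v y (hv.trans hy.symm)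
      · rw [if_neg hc]
        simp only [Nat.cast_zero, mul_zero, neg_zero, zero_smul]
        refine Finset.sum_eq_zero fun x hx => Finset.sum_eq_zero fun y hy => ?_
        rw [mem_fib] at hx hy
        rw [if_neg]
        rintro ⟨h5, h6⟩
        exact hc ⟨by rw [← hx, ← hy]; exact h5, x, y, hx, hy, h6⟩
    simp_rw [h4, ← Finset.sum_smul, Finset.sum_neg_distrib, ← Finset.mul_sum]
    unfold nn
    push_cast
    rfl
  rw [h2, h3, ← add_smul]
  congr 1
  ring

/-! ### counting -/

/-- the number of pairs of two fibres of `ρ` in the same fibre of `μ` -/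
def cn (ρ μ : X → X) (a a' : X) : ℕ :=
  ∑ x ∈ fib ρ a, ∑ y ∈ fib ρ a', if x ≠ y ∧ μ x = μ y then 1 else 0

theorem inner_le {ρ μ : X → X} (hj : ∀ x y, ρ x = ρ y → μ x = μ y → x = y) (a' x : X) :
    (∑ y ∈ fib ρ a', if x ≠ y ∧ μ x = μ y then 1 else 0) ≤ 1 := by
  rw [← Finset.sum_filter, Finset.sum_const, smul_eq_mul, mul_one, Finset.card_le_one]
  intro y hy z hz
  rw [Finset.mem_filter, mem_fib] at hy hz
  exact hj y z (hy.1.trans hz.1.symm) (hy.2.2.symm.trans hz.2.2)

theorem cn_le {ρ μ : X → X} (hj : ∀ x y, ρ x = ρ y → μ x = μ y → x = y) (a a' : X) :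
    cn ρ μ a a' ≤ (fib ρ a).card := by
  unfold cn
  calc _ ≤ ∑ x ∈ fib ρ a, 1 := Finset.sum_le_sum fun x _ => inner_le hj a' x
    _ = _ := by simp

theorem cn_comm (ρ μ : X → X) (a a' : X) : cn ρ μ a a' = cn ρ μ a' a := by
  unfold cn
  rw [Finset.sum_comm]
  refine Finset.sum_congr rfl fun x _ => Finset.sum_congr rfl fun y _ => ?_
  simp only [ne_comm, eq_comm]

open Classical in
theorem cn_le_min (col : X → C) {ρ μ : X → X} (hμ : Ref col μ)
    (hj : ∀ x y, ρ x = ρ y → μ x = μ y → x = y) (a a' : X) :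
    cn ρ μ a a' ≤ if a ≠ a' ∧ cc col ρ a a' then min (fib ρ a).card (fib ρ a').card else 0 := by
  by_cases hc : a ≠ a' ∧ cc col ρ a a'
  · rw [if_pos hc, le_min_iff]
    exact ⟨cn_le hj a a', by rw [cn_comm]; exact cn_le hj a' a⟩
  · rw [if_neg hc, Nat.le_zero]
    unfold cn
    refine Finset.sum_eq_zero fun x hx => Finset.sum_eq_zero fun y hy => ?_
    rw [mem_fib] at hx hy
    rw [if_neg]
    rintro ⟨h1, h2⟩
    refine hc ⟨?_, x, y, hx, hy, hμ x y h2⟩
    rintro rfl
    exact h1 (hj x y (hx.trans hy.symm) h2)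

theorem pp_eq (ρ μ : X → X) : pp μ = ∑ a, ∑ a', cn ρ μ a a' := by
  unfold pp cn
  exact sum_fib ρ _

theorem pp_le (col : X → C) {ρ μ : X → X} (hμ : Ref col μ)
    (hj : ∀ x y, ρ x = ρ y → μ x = μ y → x = y) : pp μ ≤ nn col ρ := by
  classical
  rw [pp_eq ρ μ]
  unfold nn
  exact Finset.sum_le_sum fun a _ => Finset.sum_le_sum fun a' _ => cn_le_min col hμ hj a a'

/-- equality: the columns of a short row are in every longer row -/
theorem satur (col : X → C) {ρ μ : X → X} (hμ : Ref col μ)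
    (hj : ∀ x y, ρ x = ρ y → μ x = μ y → x = y) (he : pp μ = nn col ρ) {a a' : X}
    (hne : a ≠ a') (hc : cc col ρ a a') (hle : (fib ρ a).card ≤ (fib ρ a').card) (x : X)
    (hx : ρ x = a) : ∃ y, ρ y = a' ∧ μ x = μ y := by
  classical
  rw [pp_eq ρ μ] at he
  unfold nn at he
  have h1 := (Finset.sum_eq_sum_iff_of_le fun a _ => Finset.sum_le_sum fun a' _ =>
    cn_le_min col hμ hj a a').1 he a (Finset.mem_univ _)
  have h2 := (Finset.sum_eq_sum_iff_of_le fun a' _ => cn_le_min col hμ hj a a').1 h1 a'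
    (Finset.mem_univ _)
  rw [if_pos ⟨hne, hc⟩, min_eq_left hle] at h2
  have h3 : (fib ρ a).card = ∑ x ∈ fib ρ a, 1 := by simp
  rw [h3] at h2
  unfold cn at h2
  have h4 := (Finset.sum_eq_sum_iff_of_le fun x _ => inner_le hj a' x).1 h2 x (mem_fib.2 hx)
  by_contra hcon
  push Not at hcon
  rw [Finset.sum_eq_zero] at h4
  · exact absurd h4 (by norm_num)
  · intro y hy
    rw [if_neg]
    rintro ⟨_, h5⟩
    exact hcon y (mem_fib.1 hy) h5

/-! ### two column maps -/

/-- the permutation which preserves the rows and maps one column map to the other -/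
theorem matching (col : X → C) {ρ μ μ' : X → X}
    (hj : ∀ x y, ρ x = ρ y → μ x = μ y → x = y) (hj' : ∀ x y, ρ x = ρ y → μ' x = μ' y → x = y)
    (hsat : ∀ a a', a ≠ a' → cc col ρ a a' → (fib ρ a).card ≤ (fib ρ a').card →
      ∀ x, ρ x = a → ∃ y, ρ y = a' ∧ μ x = μ y)
    (hsat' : ∀ a a', a ≠ a' → cc col ρ a a' → (fib ρ a).card ≤ (fib ρ a').card →
      ∀ x, ρ x = a → ∃ y, ρ y = a' ∧ μ' x = μ' y)
    (hcard : ∀ b, (fib μ b).card = (fib μ' b).card)
    (hcol : ∀ x x', μ x = μ' x' → col x = col x') :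
    ∃ r : Perm X, (∀ x, ρ (r x) = ρ x) ∧ ∀ x, μ' (r x) = μ x := by
  classical
  have hex : ∀ x, ∃ z, ρ z = ρ x ∧ μ' z = μ x := by
    intro x
    set b := μ x with hb
    set R := (fib μ b).image ρ with hR
    set R' := (fib μ' b).image ρ with hR'
    have hRc : R.card = (fib μ b).card := by
      rw [hR]
      apply Finset.card_image_of_injOn
      intro u hu v hv huv
      exact hj u v huv ((mem_fib.1 hu).trans (mem_fib.1 hv).symm)
    have hRc' : R'.card = (fib μ' b).card := by
      rw [hR']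
      apply Finset.card_image_of_injOn
      intro u hu v hv huv
      exact hj' u v huv ((mem_fib.1 hu).trans (mem_fib.1 hv).symm)
    have hcomp : R ⊆ R' ∨ R' ⊆ R := by
      by_contra hcon
      rw [not_or, Finset.not_subset, Finset.not_subset] at hcon
      obtain ⟨⟨a, ha, ha'⟩, ⟨c, hc, hc'⟩⟩ := hcon
      obtain ⟨u, hu, hua⟩ := Finset.mem_image.1 ha
      obtain ⟨v, hv, hvc⟩ := Finset.mem_image.1 hc
      rw [mem_fib] at hu hv
      have huv : col u = col v := hcol u v (hu.trans hv.symm)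
      have hne : a ≠ c := by
        rintro rfl
        exact ha' hc
      rcases le_total (fib ρ a).card (fib ρ c).card with hle | hle
      · obtain ⟨y, hy1, hy2⟩ := hsat a c hne ⟨u, v, hua, hvc, huv⟩ hle u hua
        exact hc' (Finset.mem_image.2 ⟨y, mem_fib.2 (hy2.symm.trans hu), hy1⟩)
      · obtain ⟨y, hy1, hy2⟩ := hsat' c a hne.symm ⟨v, u, hvc, hua, huv.symm⟩ hle v hvc
        exact ha' (Finset.mem_image.2 ⟨y, mem_fib.2 (hy2.symm.trans hv), hy1⟩)
    have hRR : R = R' := by
      rcases hcomp with h | h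
      · exact Finset.eq_of_subset_of_card_le h (by rw [hRc, hRc', hcard])
      · exact (Finset.eq_of_subset_of_card_le h (by rw [hRc, hRc', hcard])).symm
    have hx : ρ x ∈ R' := by
      rw [← hRR]
      exact Finset.mem_image.2 ⟨x, mem_fib.2 rfl, rfl⟩
    obtain ⟨z, hz, hz'⟩ := Finset.mem_image.1 hx
    exact ⟨z, hz', mem_fib.1 hz⟩
  choose r hr1 hr2 using hex
  have hinj : Function.Injective r := by
    intro x y hxy
    refine hj x y ?_ ?_
    · rw [← hr1 x, ← hr1 y, hxy]
    · rw [← hr2 x, ← hr2 y, hxy]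
  refine ⟨Equiv.ofBijective r (Finite.injective_iff_bijective.1 hinj), fun x => hr1 x,
    fun x => hr2 x⟩

/-! ### the two representations -/

/-- right translation -/
def TR : Perm X →* Module.End ℚ (Perm X → ℚ) where
  toFun k := { toFun := fun f σ => f (σ * k), map_add' := fun _ _ => rfl, map_smul' := fun _ _ => rfl }
  map_one' := by
    apply LinearMap.ext
    intro f
    funext σ
    show f (σ * 1) = f σ
    rw [mul_one]
  map_mul' k l := by
    apply LinearMap.ext
    intro f
    funext σ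
    show f (σ * (k * l)) = f (σ * k * l)
    rw [mul_assoc]

/-- left translation by the inverse -/
def TL : Perm X →* Module.End ℚ (Perm X → ℚ) where
  toFun k := { toFun := fun f σ => f (k⁻¹ * σ), map_add' := fun _ _ => rfl, map_smul' := fun _ _ => rfl }
  map_one' := by
    apply LinearMap.ext
    intro f
    funext σ
    show f (1⁻¹ * σ) = f σ
    rw [inv_one, one_mul]
  map_mul' k l := by
    apply LinearMap.ext
    intro f
    funext σ
    show f ((k * l)⁻¹ * σ) = f (l⁻¹ * (k⁻¹ * σ))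
    rw [mul_inv_rev, mul_assoc]

theorem TR_apply (k σ : Perm X) (f : Perm X → ℚ) : TR k f σ = f (σ * k) := rfl

theorem TL_apply (k σ : Perm X) (f : Perm X → ℚ) : TL k f σ = f (k⁻¹ * σ) := rfl

/-- the sign as a rational number -/
def sg : Perm X →* ℚ := (Int.castRingHom ℚ : ℤ →* ℚ).comp ((Units.coeHom ℤ).comp Perm.sign)

theorem sg_swap (x y : X) (h : x ≠ y) : sg (swap x y) = -1 := by
  show (((Perm.sign (swap x y) : ℤˣ) : ℤ) : ℚ) = -1
  rw [Perm.sign_swap h]
  simp

theorem sg_cases (k : Perm X) : sg k = 1 ∨ sg k = -1 := by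
  show (((Perm.sign k : ℤˣ) : ℤ) : ℚ) = 1 ∨ (((Perm.sign k : ℤˣ) : ℤ) : ℚ) = -1
  rcases Int.units_eq_one_or (Perm.sign k) with h | h
  · left; rw [h]; simp
  · right; rw [h]; simp

theorem swap_pres {κ : X → X} {x y : X} (h : κ x = κ y) (z : X) : κ (swap x y z) = κ z := by
  by_cases hzx : z = x
  · rw [hzx, swap_apply_left, h]
  · by_cases hzy : z = y
    · rw [hzy, swap_apply_right, h]
    · rw [swap_apply_of_ne_of_ne hzx hzy]

theorem apinv (p : Perm X) (x : X) : p (p⁻¹ x) = x := p.apply_symm_apply x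

theorem invap (p : Perm X) (x : X) : p⁻¹ (p x) = x := p.symm_apply_apply x

/-- the two sums over transpositions agree at colour preserving permutations -/
theorem SS_LR (col : X → C) (f : Perm X → ℚ) (σ : Perm X) (hσ : ∀ x, col (σ x) = col x) :
    SS col TL f σ = SS col TR f σ := by
  classical
  have hL : SS col TL f σ = ∑ x, ∑ y, if x ≠ y ∧ col x = col y then f (swap x y * σ) else 0 := by
    unfold SS
    rw [Finset.sum_apply]
    refine Finset.sum_congr rfl fun x _ => ?_
    rw [Finset.sum_apply]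
    refine Finset.sum_congr rfl fun y _ => ?_
    split_ifs
    · rw [TL_apply, swap_inv]
    · rfl
  have hR : SS col TR f σ = ∑ x, ∑ y, if x ≠ y ∧ col x = col y then f (σ * swap x y) else 0 := by
    unfold SS
    rw [Finset.sum_apply]
    refine Finset.sum_congr rfl fun x _ => ?_
    rw [Finset.sum_apply]
    refine Finset.sum_congr rfl fun y _ => ?_
    split_ifs
    · rfl
    · rfl
  rw [hL, hR]
  rw [← Equiv.sum_comp σ]
  refine Finset.sum_congr rfl fun x _ => ?_
  rw [← Equiv.sum_comp σ]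
  refine Finset.sum_congr rfl fun y _ => ?_
  rw [hσ, hσ, Equiv.mul_swap_eq_swap_mul]
  exact if_congr (by rw [σ.injective.ne_iff]) rfl rfl

theorem main (col : X → C) (V : Submodule ℚ (Perm X → ℚ)) (hV : V ≠ ⊥)
    (hsupp : ∀ f ∈ V, ∀ σ : Perm X, (∃ x, col (σ x) ≠ col x) → f σ = 0)
    (hst : ∀ p : Perm X, (∀ x, col (p x) = col x) → ∀ f ∈ V,
      (fun σ => f (p * σ)) ∈ V ∧ (fun σ => f (σ * p)) ∈ V) :
    ∃ f ∈ V, f ≠ 0 ∧ ∀ σ, f σ = 0 ∨ f σ = 1 ∨ f σ = -1 := by
  classical
  have hsw : ∀ x y : X, col x = col y → ∀ z, col (swap x y z) = col z := by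
    intro x y h z
    by_cases hzx : z = x
    · rw [hzx, swap_apply_left, h]
    · by_cases hzy : z = y
      · rw [hzy, swap_apply_right, h]
      · rw [swap_apply_of_ne_of_ne hzx hzy]
  -- rows
  have hUL : ∀ x y, col x = col y → ∀ f ∈ V, TL (swap x y) f ∈ V := by
    intro x y h f hf
    have := (hst (swap x y) (hsw x y h) f hf).1
    have e : TL (swap x y) f = fun σ => f (swap x y * σ) := by
      funext σ
      rw [TL_apply, swap_inv]
    rw [e]
    exact this
  obtain ⟨ρ, hρ⟩ := exists_mx (T := TL) (s := (1 : Perm X →* ℚ)) (U := V) col hV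
  set V1 := Inv TL (1 : Perm X →* ℚ) V ρ with hV1
  -- columns
  have hUR : ∀ x y, col x = col y → ∀ f ∈ V1, TR (swap x y) f ∈ V1 := by
    rintro x y h f ⟨hf, hf'⟩
    refine ⟨(hst (swap x y) (hsw x y h) f hf).2, fun k hk => ?_⟩
    have h1 := hf' k hk
    have h2 : TL k (TR (swap x y) f) = TR (swap x y) (TL k f) := by
      funext σ
      rw [TL_apply, TR_apply, TR_apply, TL_apply, mul_assoc]
    rw [h2, h1, map_smul]
  obtain ⟨κ, hκ⟩ := exists_mx (T := TR) (s := (sg : Perm X →* ℚ)) (U := V1) col hρ.ne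
  obtain ⟨f, hf, hf0⟩ := Submodule.exists_mem_ne_zero_of_ne_bot hκ.ne
  have hf1 : f ∈ V1 := hf.1
  have hfV : f ∈ V := hf1.1
  have hrow : ∀ p : Perm X, (∀ x, ρ (p x) = ρ x) → ∀ σ, f (p * σ) = f σ := by
    intro p hp σ
    have hp' : ∀ x, ρ (p⁻¹ x) = ρ x := fun x => by
      have := hp (p⁻¹ x)
      rw [apinv] at this
      exact this.symm
    have h1 := congrFun (hf1.2 p⁻¹ hp') σ
    rw [TL_apply, inv_inv] at h1
    rw [h1]
    show (1 : ℚ) • f σ = f σ
    rw [one_smul]
  have hcolm : ∀ k : Perm X, (∀ x, κ (k x) = κ x) → ∀ σ, f (σ * k) = sg k * f σ := by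
    intro k hk σ
    exact congrFun (hf.2 k hk) σ
  have hcolσ : ∀ σ, f σ ≠ 0 → ∀ x, col (σ x) = col x := by
    intro σ hσ x
    by_contra hne
    exact hσ (hsupp f hfV σ ⟨x, hne⟩)
  -- the two energies
  obtain ⟨σ₀, hσ₀⟩ : ∃ σ, f σ ≠ 0 := by
    by_contra hcon
    push Not at hcon
    exact hf0 (funext hcon)
  have hL := SS_eq col hUL hρ (ς := 1) (fun _ _ _ => rfl) hf1
  have hR := SS_eq col hUR hκ (ς := -1) (fun x y h => sg_swap x y h) hf
  have hsum : pp ρ + pp κ = nn col ρ + nn col κ := by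
    have h1 := SS_LR col f σ₀ (hcolσ σ₀ hσ₀)
    rw [hL, hR] at h1
    have h2 : (1 * ((pp ρ : ℚ) - nn col ρ)) * f σ₀ = (-1 * ((pp κ : ℚ) - nn col κ)) * f σ₀ := h1
    have h3 := mul_right_cancel₀ hσ₀ h2
    have h4 : ((pp ρ + pp κ : ℕ) : ℚ) = ((nn col ρ + nn col κ : ℕ) : ℚ) := by
      push_cast
      linarith
    exact_mod_cast h4
  -- the column maps
  set μ : Perm X → X → X := fun σ x => κ (σ⁻¹ x) with hμ
  have hcinv : ∀ σ, f σ ≠ 0 → ∀ x, col (σ⁻¹ x) = col x := by
    intro σ hσ x
    have := hcolσ σ hσ (σ⁻¹ x)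
    rw [apinv] at this
    exact this.symm
  have hμref : ∀ σ, f σ ≠ 0 → Ref col (μ σ) := by
    intro σ hσ x y hxy
    rw [← hcinv σ hσ x, ← hcinv σ hσ y]
    exact hκ.ref _ _ hxy
  have hj : ∀ σ, f σ ≠ 0 → ∀ x y, ρ x = ρ y → μ σ x = μ σ y → x = y := by
    intro σ hσ x y hx hy
    by_contra hne
    have h1 := hrow (swap x y) (swap_pres hx) σ
    have h2 : swap x y * σ = σ * swap (σ⁻¹ x) (σ⁻¹ y) := by
      rw [Equiv.mul_swap_eq_swap_mul, apinv, apinv]
    rw [h2, hcolm _ (swap_pres hy) σ, sg_swap _ _ (fun h => hne (σ⁻¹.injective h))] at h1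
    apply hσ
    linarith
  have hfibμ : ∀ σ : Perm X, ∀ b, (fib (μ σ) b).card = (fib κ b).card := by
    intro σ b
    apply Finset.card_bij (fun x _ => σ⁻¹ x)
    · intro x hx
      rw [mem_fib] at hx ⊢
      exact hx
    · intro x _ y _ h
      exact σ⁻¹.injective h
    · intro z hz
      rw [mem_fib] at hz
      refine ⟨σ z, ?_, invap _ _⟩
      rw [mem_fib]
      show κ (σ⁻¹ (σ z)) = b
      rw [invap]
      exact hz
  have hppμ : ∀ σ : Perm X, pp (μ σ) = pp κ := by
    intro σ
    unfold pp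
    rw [← Equiv.sum_comp σ]
    refine Finset.sum_congr rfl fun x _ => ?_
    rw [← Equiv.sum_comp σ]
    refine Finset.sum_congr rfl fun y _ => ?_
    show (if σ x ≠ σ y ∧ κ (σ⁻¹ (σ x)) = κ (σ⁻¹ (σ y)) then 1 else 0) = _
    rw [invap, invap]
    exact if_congr (by rw [σ.injective.ne_iff]) rfl rfl
  have hnnμ : ∀ σ, f σ ≠ 0 → nn col (μ σ) = nn col κ := by
    intro σ hσ
    unfold nn
    refine Finset.sum_congr rfl fun a _ => Finset.sum_congr rfl fun a' _ => ?_
    have hcc : cc col (μ σ) a a' ↔ cc col κ a a' := by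
      constructor
      · rintro ⟨x, y, hx, hy, hxy⟩
        refine ⟨σ⁻¹ x, σ⁻¹ y, hx, hy, ?_⟩
        rw [hcinv σ hσ, hcinv σ hσ, hxy]
      · rintro ⟨x, y, hx, hy, hxy⟩
        refine ⟨σ x, σ y, ?_, ?_, ?_⟩
        · show κ (σ⁻¹ (σ x)) = a
          rw [invap, hx]
        · show κ (σ⁻¹ (σ y)) = a'
          rw [invap, hy]
        · rw [hcolσ σ hσ, hcolσ σ hσ, hxy]
    rw [hcc, hfibμ, hfibμ]
  have heq : ∀ σ, f σ ≠ 0 → pp (μ σ) = nn col ρ := by
    intro σ hσ
    have h1 := pp_le col (hμref σ hσ) (hj σ hσ)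
    have h2 := pp_le col hρ.ref (fun x y hx hy => hj σ hσ x y hy hx)
    rw [hnnμ σ hσ] at h2
    rw [hppμ] at h1 ⊢
    omega
  -- conclusion
  refine ⟨(f σ₀)⁻¹ • f, V.smul_mem _ hfV, ?_, fun σ => ?_⟩
  · intro h0
    have h1 := congrFun h0 σ₀
    have h2 : (f σ₀)⁻¹ * f σ₀ = 0 := h1
    rw [inv_mul_cancel₀ hσ₀] at h2
    exact one_ne_zero h2
  · show (f σ₀)⁻¹ * f σ = 0 ∨ (f σ₀)⁻¹ * f σ = 1 ∨ (f σ₀)⁻¹ * f σ = -1
    by_cases hσ : f σ = 0
    · left; rw [hσ, mul_zero]
    right
    obtain ⟨r, hr1, hr2⟩ := matching col (μ := μ σ₀) (μ' := μ σ) (hj σ₀ hσ₀) (hj σ hσ)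
      (fun a a' hne hc hle x hx => satur col (hμref σ₀ hσ₀) (hj σ₀ hσ₀) (heq σ₀ hσ₀) hne hc hle x hx)
      (fun a a' hne hc hle x hx => satur col (hμref σ hσ) (hj σ hσ) (heq σ hσ) hne hc hle x hx)
      (fun b => by rw [hfibμ, hfibμ])
      (fun x x' h => by
        have := hκ.ref _ _ h
        rw [hcinv σ₀ hσ₀, hcinv σ hσ] at this
        exact this)
    -- `σ = r σ₀ k`
    set k : Perm X := σ₀⁻¹ * r⁻¹ * σ with hk
    have hk1 : σ = r * (σ₀ * k) := by rw [hk]; group
    have hk2 : ∀ x, κ (k x) = κ x := by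
      intro x
      have h1 := hr2 (r⁻¹ (σ x))
      rw [apinv] at h1
      have h2 : κ (σ⁻¹ (σ x)) = κ (σ₀⁻¹ (r⁻¹ (σ x))) := h1
      rw [invap] at h2
      exact h2.symm
    have h3 : f σ = sg k * f σ₀ := by
      conv_lhs => rw [hk1]
      rw [hrow r hr1, hcolm k hk2]
    rw [h3]
    rcases sg_cases k with h | h
    · left; rw [h, one_mul, inv_mul_cancel₀ hσ₀]
    · right; rw [h, neg_one_mul, mul_neg, inv_mul_cancel₀ hσ₀]

end Pool.Agent.Lib.MPf11a48.CMM.FlsM

namespace Pool.Agent.Lib.MPf11a48.CMM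

theorem specFls : SpecFls := by
  intro X C _ _ col V hV hs ht
  exact FlsM.main col V hV hs ht

end Pool.Agent.Lib.MPf11a48.CMM
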