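import Pool.Agent.Lib.MP_f11a48_ag.CMM.DefsN

/-!
# Motives of complex multiplication type: the condition on the reflex field
-/

set_option autoImplicit false

namespace Pool.Agent.Lib.MPf11a48.CMM

open Matrix MvPolynomial
open Pool.Agent.Lib.MPf11a48.CM hiding OmegaM
open Pool.Agent.Lib.MPf11a48.GL2T
open Pool.Agent.Lib.MPf11a48.U

/-- `Γ` is an M-group, i.e. every irreducible representation of `Γ` is monomial: every non-zero space
of complex functions on `Γ` which is stable under left translations contains functions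
`b_0, …, b_m`, linearly independent, such that every translate of every `b_i` is a multiple of some
`b_j`. (Every irreducible representation is isomorphic to a space of functions.) -/
def MonomialGroup (Γ : Type) [Group Γ] : Prop :=
  ∀ V : Submodule ℂ (Γ → ℂ), V ≠ ⊥ → (∀ g, ∀ f ∈ V, (fun x => f (g * x)) ∈ V) →
    ∃ (m : ℕ) (b : Fin (m + 1) → Γ → ℂ), LinearIndependent ℂ b ∧ (∀ i, b i ∈ V) ∧
      ∀ g i, ∃ (j : Fin (m + 1)) (t : ℂ), (fun x => b i (g * x)) = t • b j

/-- `E` is a Galois extension of `ℚ` whose Galois group is an M-group. -/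
def MonomialField (E : IntermediateField ℚ Qbar) : Prop :=
  (∀ γ : Qbar ≃ₐ[ℚ] Qbar, ∀ x ∈ E, γ x ∈ E) ∧ MonomialGroup (E ≃ₐ[ℚ] E)

/-- `E` is a number field with one of the following properties: `FlatOver L E`; `E` is abelian over
`ℚ`; `L = ℚ` and `E` is a Galois extension of `ℚ` whose Galois group is metabelian, an M-group or a
hyperoctahedral group. -/
def GoodReflex (L : IntermediateField ℚ ℂ) (E : IntermediateField ℚ Qbar) : Prop :=
  FiniteDimensional ℚ E ∧ (FlatOver L E ∨ AbelianField E ∨
    (L = ⊥ ∧ (MetabelianField E ∨ MonomialField E ∨ HyperoctahedralField E)))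

/-- Let `T` be a tensor construction, given by a representation of `GL × G_m`, and let `N` be a
sub-object of `T(h^1(A) ⊕ R, ℚ(-1))`, where the periods of `R` are algebraic. These are the complex
points of the Mumford-Tate group of `N`: the image of that of `A`. -/
def MTSub {g N k : ℕ} (A : AbData g N) (c : GL (Ix g) ℂ) {κ ι : Type} [Fintype κ] [DecidableEq κ]
    [Fintype ι] [DecidableEq ι] (T : GL (Ix g ⊕ Fin k) ℂ × ℂˣ → GL κ ℂ) (iB : Matrix κ ι ℚ) :
    Set (GL ι ℂ) :=
  C.imG T iB {w | ∃ y ∈ MTG A c, w = (dsum y.1 1, y.2)}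

end Pool.Agent.Lib.MPf11a48.CMM
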