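import Pool.Agent.Lib.MP_f11a48_ag.CMM.SpecN

/-!
# MP_f11a48_ag, CMM, module FLM: metabelian groups are biflat
-/

set_option autoImplicit false

namespace Pool.Agent.Lib.MPf11a48.CMM

open scoped commutatorElement

namespace FlmM

section Basic

variable {Γ : Type} [Group Γ]

/-- the complexification of `V` -/
def cplx (V : Submodule ℚ (Γ → ℚ)) : Submodule ℂ (Γ → ℂ) where
  carrier := {f | ∀ l : ℂ →ₗ[ℚ] ℚ, (fun x => l (f x)) ∈ V}
  add_mem' := by
    intro f g hf hg l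
    have h1 : (fun x => l ((f + g) x)) = (fun x => l (f x)) + (fun x => l (g x)) := by
      funext x
      exact map_add l _ _
    rw [h1]
    exact V.add_mem (hf l) (hg l)
  zero_mem' := by
    intro l
    have h1 : (fun x => l ((0 : Γ → ℂ) x)) = 0 := by
      funext x
      exact map_zero l
    rw [h1]
    exact V.zero_mem
  smul_mem' := by
    intro c f hf l
    exact hf (l ∘ₗ LinearMap.mulLeft ℚ c)

/-- `y` acts on `f` as a scalar -/
def stab (f : Γ → ℂ) (h1 : f 1 = 1) : Subgroup Γ where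
  carrier := {y | ∀ x, f (y * x) = f y * f x}
  mul_mem' := by
    intro y y' hy hy' x
    have e1 : f (y * y') = f y * f y' := hy y'
    rw [e1, mul_assoc, hy, hy', mul_assoc]
  one_mem' := by
    intro x
    rw [one_mul, h1, one_mul]
  inv_mem' := by
    intro y hy x
    have e1 : f y * f y⁻¹ = 1 := by
      rw [← hy, mul_inv_cancel, h1]
    have e2 : f x = f y * f (y⁻¹ * x) := by
      rw [← hy, mul_inv_cancel_left]
    rw [e2, ← mul_assoc, mul_comm (f y⁻¹), e1, one_mul]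

theorem stab_mul {f : Γ → ℂ} {h1 : f 1 = 1} {y : Γ} (hy : y ∈ stab f h1) (x : Γ) :
    f (y * x) = f y * f x := hy x

theorem stab_inv {f : Γ → ℂ} {h1 : f 1 = 1} {y : Γ} (hy : y ∈ stab f h1) :
    f y * f y⁻¹ = 1 := by
  rw [← stab_mul hy, mul_inv_cancel, h1]

theorem stab_ne {f : Γ → ℂ} {h1 : f 1 = 1} {y : Γ} (hy : y ∈ stab f h1) : f y ≠ 0 :=
  left_ne_zero_of_mul_eq_one (stab_inv hy)

variable [Finite Γ] {U : Submodule ℂ (Γ → ℂ)}

/-- a simultaneous eigenvector -/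
theorem exists_eigen (hL : ∀ g : Γ, ∀ f ∈ U, (fun x => f (g * x)) ∈ U) (H : Set Γ) (ψ : Γ → ℂ)
    (g : Γ) (hg : ∀ h ∈ H, g * h * g⁻¹ ∈ H ∧ ψ (g * h * g⁻¹) = ψ h) {f : Γ → ℂ} (hf : f ∈ U)
    (hf0 : f ≠ 0) (hH : ∀ h ∈ H, ∀ x, f (h * x) = ψ h * f x) :
    ∃ w ∈ U, w ≠ 0 ∧ (∀ h ∈ H, ∀ x, w (h * x) = ψ h * w x) ∧ ∃ t : ℂ, ∀ x, w (g * x) = t * w x := by
  let W : Submodule ℂ (Γ → ℂ) :=
    { carrier := {w | w ∈ U ∧ ∀ h ∈ H, ∀ x, w (h * x) = ψ h * w x}
      add_mem' := by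
        rintro a b ⟨ha, ha'⟩ ⟨hb, hb'⟩
        refine ⟨U.add_mem ha hb, fun h hh x => ?_⟩
        rw [Pi.add_apply, Pi.add_apply, ha' h hh, hb' h hh, mul_add]
      zero_mem' := ⟨U.zero_mem, fun h hh x => by simp⟩
      smul_mem' := by
        rintro c a ⟨ha, ha'⟩
        refine ⟨U.smul_mem c ha, fun h hh x => ?_⟩
        rw [Pi.smul_apply, Pi.smul_apply, ha' h hh, smul_eq_mul, smul_eq_mul]
        ring }
  have hW : ∀ w ∈ W, (fun x => w (g * x)) ∈ W := by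
    rintro w ⟨hw, hw'⟩
    refine ⟨hL g w hw, fun h hh x => ?_⟩
    obtain ⟨h1, h2⟩ := hg h hh
    change w (g * (h * x)) = ψ h * w (g * x)
    have h3 : g * (h * x) = (g * h * g⁻¹) * (g * x) := by group
    rw [h3, hw' _ h1, h2]
  let L : W →ₗ[ℂ] W :=
    { toFun := fun w => ⟨fun x => w.1 (g * x), hW w.1 w.2⟩
      map_add' := fun a b => rfl
      map_smul' := fun c a => rfl }
  have hfW : f ∈ W := ⟨hf, hH⟩
  have : Nontrivial W := ⟨⟨⟨f, hfW⟩, 0, fun h => hf0 (congrArg Subtype.val h)⟩⟩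
  obtain ⟨t, ht⟩ := Module.End.exists_eigenvalue L
  obtain ⟨v, hv⟩ := ht.exists_hasEigenvector
  refine ⟨v.1, v.2.1, fun h => hv.2 (Subtype.ext h), v.2.2, t, fun x => ?_⟩
  have h1 : L v = t • v := hv.apply_eq_smul
  have h2 := congrFun (congrArg Subtype.val h1) x
  exact h2

/-- enlarge the stabiliser -/
theorem grow (hL : ∀ g : Γ, ∀ f ∈ U, (fun x => f (g * x)) ∈ U)
    (hR : ∀ g : Γ, ∀ f ∈ U, (fun x => f (x * g)) ∈ U) {f : Γ → ℂ} (hf : f ∈ U) (h1 : f 1 = 1)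
    (H : Subgroup Γ) (hH : H ≤ stab f h1) (g : Γ)
    (hg : ∀ h ∈ H, g * h * g⁻¹ ∈ H ∧ f (g * h * g⁻¹) = f h) :
    ∃ (w : Γ → ℂ) (hw : w 1 = 1), w ∈ U ∧ H ≤ stab w hw ∧ g ∈ stab w hw := by
  have hf0 : f ≠ 0 := by
    rintro rfl
    exact zero_ne_one h1
  obtain ⟨w, hw, hw0, hwH, t, ht⟩ := exists_eigen hL H f g hg hf hf0
    (fun h hh x => stab_mul (hH hh) x)
  obtain ⟨x₀, hx₀⟩ := Function.ne_iff.1 hw0
  have hx₀' : w x₀ ≠ 0 := hx₀
  let w' : Γ → ℂ := (w x₀)⁻¹ • fun x => w (x * x₀)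
  have e : ∀ x, w' x = (w x₀)⁻¹ * w (x * x₀) := fun x => rfl
  have hw1 : w' 1 = 1 := by
    rw [e, one_mul, inv_mul_cancel₀ hx₀']
  have key : ∀ (y : Γ) (s : ℂ), (∀ x, w (y * x) = s * w x) → y ∈ stab w' hw1 := by
    intro y s hs x
    have e1 : w' y = s := by
      rw [e, hs]
      field_simp
    rw [e1, e, e, mul_assoc, hs]
    ring
  exact ⟨w', hw1, U.smul_mem _ (hR x₀ w hw), fun h hh => key h (f h) (hwH h hh), key g t ht⟩

/-- a maximal stabiliser -/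
theorem exists_max (p : (Γ → ℂ) → Prop) (D : Subgroup Γ)
    (hne : ∃ f, f 1 = 1 ∧ p f) :
    ∃ (f : Γ → ℂ) (h1 : f 1 = 1), p f ∧ ∀ (w : Γ → ℂ) (hw : w 1 = 1), p w →
      stab f h1 ⊓ D ≤ stab w hw ⊓ D → stab w hw ⊓ D ≤ stab f h1 ⊓ D := by
  let X := {f : Γ → ℂ // f 1 = 1 ∧ p f}
  have hX : (Set.univ : Set X).Nonempty := by
    obtain ⟨f, hf⟩ := hne
    exact ⟨⟨f, hf⟩, trivial⟩
  let m : X → ℕ := fun f => Nat.card Γ - Nat.card (stab f.1 f.2.1 ⊓ D : Subgroup Γ)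
  obtain ⟨f, -, hf⟩ := (measure m).wf.has_min Set.univ hX
  refine ⟨f.1, f.2.1, f.2.2, fun w hw hpw hle => ?_⟩
  have h1 : ¬ (m ⟨w, hw, hpw⟩ < m f) := hf ⟨w, hw, hpw⟩ trivial
  have h2 : Nat.card (stab w hw ⊓ D : Subgroup Γ) ≤ Nat.card Γ := Subgroup.card_le_card_group _
  have h3 : Nat.card (stab f.1 f.2.1 ⊓ D : Subgroup Γ) ≤ Nat.card Γ :=
    Subgroup.card_le_card_group _
  have h4 : Nat.card (stab w hw ⊓ D : Subgroup Γ) ≤
      Nat.card (stab f.1 f.2.1 ⊓ D : Subgroup Γ) := by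
    by_contra hcon
    apply h1
    change Nat.card Γ - Nat.card (stab w hw ⊓ D : Subgroup Γ) <
      Nat.card Γ - Nat.card (stab f.1 f.2.1 ⊓ D : Subgroup Γ)
    omega
  exact (Subgroup.eq_of_le_of_card_ge hle h4).ge

end Basic

/-- From the function `F` (equal to a character `ψ` of `H` on `H`, and `0` outside) to a flat
function. -/
theorem flat_of_ext (hFLA : SpecFla) {Γ : Type} [Group Γ] [Finite Γ]
    (V : Submodule ℚ (Γ → ℚ)) (hVL : ∀ g, ∀ f ∈ V, (fun x => f (g * x)) ∈ V) (H : Subgroup Γ)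
    (ψ : H →* ℂˣ) (F : Γ → ℂ) (hF : ∀ x (hx : x ∈ H), F x = (ψ ⟨x, hx⟩ : ℂ))
    (hF' : ∀ x, x ∉ H → F x = 0) (hFU : ∀ l : ℂ →ₗ[ℚ] ℚ, (fun x => l (F x)) ∈ V) :
    ∃ f ∈ V, f ≠ 0 ∧ ∀ x, f x = 0 ∨ f x = 1 ∨ f x = -1 := by
  classical
  have hfinQ : Finite ψ.range := Finite.of_surjective ψ.rangeRestrict ψ.rangeRestrict_surjective
  let E : (ψ.range → ℚ) →ₗ[ℚ] (Γ → ℚ) :=
    { toFun := fun w x => if h : x ∈ H then w (ψ.rangeRestrict ⟨x, h⟩) else 0
      map_add' := by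
        intro a b
        funext x
        by_cases h : x ∈ H <;> simp [h]
      map_smul' := by
        intro c a
        funext x
        by_cases h : x ∈ H <;> simp [h] }
  have hE1 : ∀ (w : ψ.range → ℚ) (h : H), E w h = w (ψ.rangeRestrict h) := by
    intro w h
    change (if h' : (h : Γ) ∈ H then w (ψ.rangeRestrict ⟨h, h'⟩) else 0) = _
    rw [dif_pos h.2]
  have hE2 : ∀ (w : ψ.range → ℚ) (x : Γ), x ∉ H → E w x = 0 := by
    intro w x h
    change (if h' : x ∈ H then w (ψ.rangeRestrict ⟨x, h'⟩) else 0) = _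
    rw [dif_neg h]
  obtain ⟨l, hl⟩ : ∃ l : ℂ →ₗ[ℚ] ℚ, l 1 = 1 := by
    obtain ⟨φ, hφ⟩ : ∃ φ : Module.Dual ℚ ℂ, φ (1 : ℂ) ≠ 0 := by
      by_contra h
      push Not at h
      exact one_ne_zero ((Module.forall_dual_apply_eq_zero_iff ℚ (1 : ℂ)).1 h)
    exact ⟨(φ 1)⁻¹ • φ, inv_mul_cancel₀ hφ⟩
  obtain ⟨w, hw, hw0, hwf⟩ := hFLA ψ.range (V.comap E) (by
    rw [Submodule.ne_bot_iff]
    refine ⟨fun q => l ((q : ℂˣ) : ℂ), ?_, ?_⟩
    · rw [Submodule.mem_comap]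
      have e1 : E (fun q => l ((q : ℂˣ) : ℂ)) = fun x => l (F x) := by
        funext x
        by_cases hx : x ∈ H
        · have e2 := hE1 (fun q => l ((q : ℂˣ) : ℂ)) ⟨x, hx⟩
          rw [e2, hF x hx]
          rfl
        · rw [hE2 _ _ hx, hF' x hx, map_zero]
      rw [e1]
      exact hFU l
    · intro h
      have e2 : l (((1 : ψ.range) : ℂˣ) : ℂ) = 0 := congrFun h 1
      have e3 : l 1 = 0 := e2
      rw [hl] at e3
      exact one_ne_zero e3) (by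
    intro g w hw
    obtain ⟨h₀, rfl⟩ := ψ.rangeRestrict_surjective g
    rw [Submodule.mem_comap] at hw ⊢
    have e1 : E (fun x => w (ψ.rangeRestrict h₀ * x)) = fun x => E w (h₀ * x) := by
      funext x
      by_cases hx : x ∈ H
      · rw [hE1 _ ⟨x, hx⟩]
        have e2 := hE1 w (h₀ * ⟨x, hx⟩)
        rw [map_mul] at e2
        exact e2.symm
      · rw [hE2 _ x hx, hE2 _ (h₀ * x)]
        intro h
        exact hx ((Subgroup.mul_mem_cancel_left H h₀.2).1 h)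
    rw [e1]
    exact hVL _ _ hw)
  refine ⟨E w, hw, ?_, ?_⟩
  · intro h
    apply hw0
    funext q
    obtain ⟨h₀, rfl⟩ := ψ.rangeRestrict_surjective q
    rw [← hE1 w h₀, h]
    rfl
  · intro x
    by_cases hx : x ∈ H
    · rw [hE1 w ⟨x, hx⟩]
      exact hwf _
    · exact Or.inl (hE2 _ _ hx)

end FlmM

open FlmM

theorem specFlm (hFLA : SpecFla) : SpecFlm := by
  intro Γ _ _ hcomm V hV hVL hVR
  classical
  have := Fintype.ofFinite Γ
  let U := cplx V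
  have hUL : ∀ g : Γ, ∀ f ∈ U, (fun x => f (g * x)) ∈ U := fun g f hf l => hVL g _ (hf l)
  have hUR : ∀ g : Γ, ∀ f ∈ U, (fun x => f (x * g)) ∈ U := fun g f hf l => hVR g _ (hf l)
  -- the commutator subgroup is commutative
  have hD1 : ∀ a b : Γ, ∀ d ∈ commutator Γ, d * (a * b * a⁻¹ * b⁻¹) = (a * b * a⁻¹ * b⁻¹) * d := by
    intro a b d hd
    rw [commutator_eq_closure] at hd
    induction hd using Subgroup.closure_induction with
    | mem x hx =>
      obtain ⟨c, e, rfl⟩ := hx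
      exact hcomm c e a b
    | one => rw [one_mul, mul_one]
    | mul x y _ _ hx hy => rw [mul_assoc, hy, ← mul_assoc, hx, mul_assoc]
    | inv x _ hx => rw [eq_comm, eq_inv_mul_iff_mul_eq, ← mul_assoc, hx, mul_assoc,
        mul_inv_cancel, mul_one]
  have hD2 : ∀ d ∈ commutator Γ, ∀ d' ∈ commutator Γ, d * d' = d' * d := by
    intro d hd d' hd'
    rw [commutator_eq_closure] at hd'
    induction hd' using Subgroup.closure_induction with
    | mem x hx =>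
      obtain ⟨c, e, rfl⟩ := hx
      exact hD1 c e d hd
    | one => rw [one_mul, mul_one]
    | mul x y _ _ hx hy => rw [← mul_assoc, hx, mul_assoc, hy, mul_assoc]
    | inv x _ hx => rw [mul_inv_eq_iff_eq_mul, mul_assoc, hx, inv_mul_cancel_left]
  -- a normalised function
  have hne : ∃ f : Γ → ℂ, f 1 = 1 ∧ f ∈ U := by
    obtain ⟨f, hf, hf0⟩ := (Submodule.ne_bot_iff V).1 hV
    obtain ⟨x₀, hx₀⟩ := Function.ne_iff.1 hf0
    have hx₀' : f x₀ ≠ 0 := hx₀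
    refine ⟨(f x₀ : ℂ)⁻¹ • fun x => (f (x * x₀) : ℂ), ?_, U.smul_mem _ ?_⟩
    · change (f x₀ : ℂ)⁻¹ * (f (1 * x₀) : ℂ) = 1
      rw [one_mul, inv_mul_cancel₀]
      exact_mod_cast hx₀'
    · intro l
      have h1 : (fun x => l ((f (x * x₀) : ℚ) : ℂ)) = l 1 • fun x => f (x * x₀) := by
        funext x
        have h2 : ((f (x * x₀) : ℚ) : ℂ) = f (x * x₀) • (1 : ℂ) := by
          rw [Rat.smul_one_eq_cast]
        rw [h2, map_smul]
        change f (x * x₀) * l 1 = l 1 * f (x * x₀)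
        ring
      rw [h1]
      exact V.smul_mem _ (hVR x₀ f hf)
  -- the commutator subgroup
  obtain ⟨f₀, h₀, hf₀, hmax₀⟩ := exists_max (fun f => f ∈ U) (commutator Γ) hne
  have hDf₀ : commutator Γ ≤ stab f₀ h₀ := by
    intro g hg
    obtain ⟨w, hw, hwU, hw1, hw2⟩ := grow hUL hUR hf₀ h₀ (stab f₀ h₀ ⊓ commutator Γ) inf_le_left g
      (fun h hh => by
        have e : g * h * g⁻¹ = h := by
          rw [hD2 g hg h hh.2, mul_inv_cancel_right]
        rw [e]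
        exact ⟨hh, rfl⟩)
    exact (hmax₀ w hw hwU (le_inf hw1 inf_le_right) ⟨hw2, hg⟩).1
  -- the maximal function
  obtain ⟨f, h1, ⟨hf, h1', hDf⟩, hmax⟩ := exists_max
    (fun f => f ∈ U ∧ ∃ h : f 1 = 1, commutator Γ ≤ stab f h) ⊤ ⟨f₀, h₀, hf₀, h₀, hDf₀⟩
  have hDf : commutator Γ ≤ stab f h1 := hDf
  set H := stab f h1 with hHdef
  have hconj : ∀ (g : Γ), ∀ h ∈ H, g * h * g⁻¹ ∈ H := by
    intro g h hh
    have e : g * h * g⁻¹ = ⁅g, h⁆ * h := by
      rw [commutatorElement_def]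
      group
    rw [e]
    exact mul_mem (hDf (Subgroup.commutator_mem_commutator (Subgroup.mem_top g)
      (Subgroup.mem_top h))) hh
  have hself : ∀ g : Γ, (∀ h ∈ H, f (g * h * g⁻¹) = f h) → g ∈ H := by
    intro g hg
    obtain ⟨w, hw, hwU, hw1, hw2⟩ := grow hUL hUR hf h1 H le_rfl g
      (fun h hh => ⟨hconj g h hh, hg h hh⟩)
    exact (hmax w hw ⟨hwU, hw, hDf.trans hw1⟩ (inf_le_inf_right _ hw1)
      ⟨hw2, Subgroup.mem_top g⟩).1
  have hfinv : ∀ h ∈ H, f h * f h⁻¹ = 1 := fun h hh => stab_inv hh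
  have hfmul : ∀ h ∈ H, ∀ x, f (h * x) = f h * f x := fun h hh x => stab_mul hh x
  have hfne : ∀ h ∈ H, f h ≠ 0 := fun h hh => stab_ne hh
  -- the function supported on `H`
  let F : Γ → ℂ := fun x => if x ∈ H then f x else 0
  have hsum : ∀ x, ∑ h : H, (f h)⁻¹ * f (x * h) = (Nat.card H : ℂ) * F x := by
    intro x
    have e1 : ∀ h : H, f (x * h) = f (x * h * x⁻¹) * f x := by
      intro h
      rw [← hfmul _ (hconj x h h.2), inv_mul_cancel_right]
    by_cases hx : x ∈ H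
    · have e2 : ∀ h : H, (f h)⁻¹ * f (x * h) = f x := by
        intro h
        rw [hfmul x hx, mul_comm (f x), ← mul_assoc, inv_mul_cancel₀ (hfne _ h.2), one_mul]
      simp only [e2, Finset.sum_const, Finset.card_univ, F, if_pos hx]
      rw [Nat.card_eq_fintype_card, nsmul_eq_mul]
    · have hx' : ∃ h ∈ H, f (x * h * x⁻¹) ≠ f h := by
        by_contra hcon
        push Not at hcon
        exact hx (hself x hcon)
      obtain ⟨h₁, hh₁, hne₁⟩ := hx'
      let χ : H → ℂ := fun h => (f h)⁻¹ * f (x * h * x⁻¹)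
      have hχmul : ∀ h : H, χ (⟨h₁, hh₁⟩ * h) = χ ⟨h₁, hh₁⟩ * χ h := by
        intro h
        change (f (h₁ * h))⁻¹ * f (x * (h₁ * h) * x⁻¹) =
          (f h₁)⁻¹ * f (x * h₁ * x⁻¹) * ((f h)⁻¹ * f (x * h * x⁻¹))
        have e3 : x * (h₁ * h) * x⁻¹ = (x * h₁ * x⁻¹) * (x * h * x⁻¹) := by group
        rw [e3, hfmul h₁ hh₁, hfmul _ (hconj x h₁ hh₁), mul_inv]
        ring
      have hχ1 : χ ⟨h₁, hh₁⟩ ≠ 1 := by
        intro h
        apply hne₁
        change (f h₁)⁻¹ * f (x * h₁ * x⁻¹) = 1 at h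
        rwa [inv_mul_eq_one₀ (hfne _ hh₁), eq_comm] at h
      have hχ0 : ∑ h : H, χ h = 0 := by
        have e4 : ∑ h : H, χ h = χ ⟨h₁, hh₁⟩ * ∑ h : H, χ h := by
          rw [Finset.mul_sum]
          simp only [← hχmul]
          exact (Equiv.sum_comp (Equiv.mulLeft (⟨h₁, hh₁⟩ : H)) χ).symm
        have e5 : (1 - χ ⟨h₁, hh₁⟩) * ∑ h : H, χ h = 0 := by
          rw [sub_mul, one_mul, ← e4, sub_self]
        rcases mul_eq_zero.1 e5 with h | h
        · exact absurd (sub_eq_zero.1 h).symm hχ1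
        · exact h
      have e6 : ∀ h : H, (f h)⁻¹ * f (x * h) = χ h * f x := by
        intro h
        rw [e1 h]
        change _ = (f h)⁻¹ * f (x * h * x⁻¹) * f x
        ring
      simp only [e6, ← Finset.sum_mul, hχ0, zero_mul, F, if_neg hx, mul_zero]
  have hcard : (Nat.card H : ℂ) ≠ 0 := by
    have : Nat.card H ≠ 0 := Nat.card_pos.ne'
    exact_mod_cast this
  have hFU : F ∈ U := by
    have e1 : F = (Nat.card H : ℂ)⁻¹ • ∑ h : H, (f h)⁻¹ • fun x => f (x * h) := by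
      funext x
      simp only [Pi.smul_apply, Finset.sum_apply, smul_eq_mul]
      rw [hsum x, ← mul_assoc, inv_mul_cancel₀ hcard, one_mul]
    rw [e1]
    exact U.smul_mem _ (U.sum_mem fun h _ => U.smul_mem _ (hUR _ f hf))
  -- the commutative group
  let ψ₀ : H →* ℂ :=
    { toFun := fun h => f h
      map_one' := h1
      map_mul' := fun a b => hfmul a a.2 b }
  exact flat_of_ext hFLA V hVL H ψ₀.toHomUnits F
    (fun x hx => by simp only [F, if_pos hx]; rfl) (fun x hx => by simp only [F, if_neg hx]) hFU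

end Pool.Agent.Lib.MPf11a48.CMM
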