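import Pool.Agent.Lib.MP_f11a48_ag.CMM.SpecN
import Pool.Agent.Lib.MP_f11a48_ag.CMM.DefsR
import Pool.Agent.Lib.MP_f11a48_ag.CMM.Flm

/-!
# Monomial groups are biflat
-/

set_option autoImplicit false

namespace Pool.Agent.Lib.MPf11a48.CMM

open Matrix MvPolynomial
open Pool.Agent.Lib.MPf11a48.CM hiding OmegaM
open Pool.Agent.Lib.MPf11a48.GL2T
open Pool.Agent.Lib.MPf11a48.U

namespace MonM

/-- the complex functions all of whose rational coordinates are in `V` -/
def cpl {Γ : Type} (V : Submodule ℚ (Γ → ℚ)) : Submodule ℂ (Γ → ℂ) where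
  carrier := {f | ∀ l : ℂ →ₗ[ℚ] ℚ, (fun x => l (f x)) ∈ V}
  add_mem' := by
    intro f g hf hg l
    have : (fun x => l ((f + g) x)) = (fun x => l (f x)) + fun x => l (g x) := by
      funext x
      simp
    rw [this]
    exact V.add_mem (hf l) (hg l)
  zero_mem' := by
    intro l
    have : (fun x => l ((0 : Γ → ℂ) x)) = 0 := by
      funext x
      simp
    rw [this]
    exact V.zero_mem
  smul_mem' := by
    intro t f hf l
    exact hf (l ∘ₗ LinearMap.mulLeft ℚ t)

theorem mem_cpl {Γ : Type} {V : Submodule ℚ (Γ → ℚ)} {f : Γ → ℂ} :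
    f ∈ cpl V ↔ ∀ l : ℂ →ₗ[ℚ] ℚ, (fun x => l (f x)) ∈ V := Iff.rfl

theorem cpl_ne_bot {Γ : Type} {V : Submodule ℚ (Γ → ℚ)} (hV : V ≠ ⊥) : cpl V ≠ ⊥ := by
  obtain ⟨f, hf, hf0⟩ := (Submodule.ne_bot_iff V).1 hV
  rw [Submodule.ne_bot_iff]
  refine ⟨fun x => (f x : ℂ), fun l => ?_, fun h0 => hf0 ?_⟩
  · have : (fun x => l ((f x : ℚ) : ℂ)) = l 1 • f := by
      funext x
      have h1 : ((f x : ℚ) : ℂ) = f x • (1 : ℂ) := by
        rw [Algebra.smul_def, mul_one]
        rfl
      rw [h1, map_smul, smul_eq_mul, Pi.smul_apply, smul_eq_mul, mul_comm]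
    rw [this]
    exact V.smul_mem _ hf
  · funext x
    have := congrFun h0 x
    simpa using this

/-- In an M-group, every two-sided stable space of complex functions contains a linear character of
a subgroup, extended by zero. -/
theorem exists_ext {Γ : Type} [Group Γ] [Finite Γ] (hM : MonomialGroup Γ) (V : Submodule ℂ (Γ → ℂ))
    (hV : V ≠ ⊥) (hl : ∀ g, ∀ f ∈ V, (fun x => f (g * x)) ∈ V)
    (hr : ∀ g, ∀ f ∈ V, (fun x => f (x * g)) ∈ V) :
    ∃ (H : Subgroup Γ) (ψ : H →* ℂˣ) (F : Γ → ℂ), (∀ x (hx : x ∈ H), F x = (ψ ⟨x, hx⟩ : ℂ)) ∧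
      (∀ x, x ∉ H → F x = 0) ∧ F ∈ V := by
  classical
  have := Fintype.ofFinite Γ
  obtain ⟨m, b, hb, hbV, hbt⟩ := hM V hV hl
  have hb0 : b 0 ≠ 0 := hb.ne_zero 0
  have htr : ∀ g : Γ, (fun x => b 0 (g * x)) ≠ 0 := by
    intro g h
    apply hb0
    funext x
    have := congrFun h (g⁻¹ * x)
    simpa using this
  -- the stabilizer of the line
  let H : Subgroup Γ :=
    { carrier := {h | ∃ t : ℂ, (fun x => b 0 (h * x)) = t • b 0}
      mul_mem' := by
        rintro g h ⟨s, hs⟩ ⟨t, ht⟩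
        refine ⟨s * t, ?_⟩
        funext x
        have h1 := congrFun hs (h * x)
        have h2 := congrFun ht x
        simp only [Pi.smul_apply, smul_eq_mul] at h1 h2 ⊢
        rw [mul_assoc g h x, h1, h2, mul_assoc]
      one_mem' := ⟨1, by simp⟩
      inv_mem' := by
        rintro g ⟨s, hs⟩
        have hs0 : s ≠ 0 := by
          rintro rfl
          exact htr g (by rw [hs, zero_smul])
        refine ⟨s⁻¹, ?_⟩
        funext x
        have h1 := congrFun hs (g⁻¹ * x)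
        simp only [Pi.smul_apply, smul_eq_mul, mul_inv_cancel_left] at h1 ⊢
        rw [h1, inv_mul_cancel_left₀ hs0] }
  have hH : ∀ h : H, ∃ t : ℂ, (fun x => b 0 ((h : Γ) * x)) = t • b 0 := fun h => h.2
  choose t ht using hH
  have ht0 : ∀ h, t h ≠ 0 := by
    intro h h0
    exact htr h (by rw [ht, h0, zero_smul])
  have htu : ∀ (h : H) (s : ℂ), (fun x => b 0 ((h : Γ) * x)) = s • b 0 → s = t h := by
    intro h s hs
    have h1 : (s - t h) • b 0 = 0 := by rw [sub_smul, ← hs, ← ht, sub_self]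
    rcases smul_eq_zero.1 h1 with h2 | h2
    · exact sub_eq_zero.1 h2
    · exact absurd h2 hb0
  let ψ : H →* ℂˣ :=
    { toFun := fun h => Units.mk0 (t h) (ht0 h)
      map_one' := by
        ext
        rw [Units.val_mk0, Units.val_one]
        refine (htu 1 1 ?_).symm
        simp
      map_mul' := by
        intro g h
        ext
        rw [Units.val_mk0, Units.val_mul, Units.val_mk0, Units.val_mk0]
        refine (htu (g * h) (t g * t h) ?_).symm
        funext x
        have h1 := congrFun (ht g) ((h : Γ) * x)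
        have h2 := congrFun (ht h) x
        simp only [Pi.smul_apply, smul_eq_mul] at h1 h2 ⊢
        rw [Subgroup.coe_mul, mul_assoc (g : Γ) h x, h1, h2, mul_assoc] }
  -- the coordinate functional
  obtain ⟨ℓ, hℓ⟩ := ((Finsupp.lapply (0 : Fin (m + 1)) : (Fin (m + 1) →₀ ℂ) →ₗ[ℂ] ℂ) ∘ₗ
    hb.repr).exists_extend
  have hℓb : ∀ j, ℓ (b j) = if j = 0 then 1 else 0 := by
    intro j
    have h1 := LinearMap.congr_fun hℓ ⟨b j, Submodule.subset_span ⟨j, rfl⟩⟩
    have h2 : hb.repr ⟨b j, Submodule.subset_span ⟨j, rfl⟩⟩ = Finsupp.single j 1 :=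
      hb.repr_eq_single j _ rfl
    simp only [LinearMap.comp_apply, Submodule.subtype_apply, Finsupp.lapply_apply] at h1
    rw [h1]
    change (hb.repr ⟨b j, _⟩) 0 = _
    rw [h2, Finsupp.single_apply]
  refine ⟨H, ψ, fun x => ℓ (fun y => b 0 (x * y)), ?_, ?_, ?_⟩
  · intro x hx
    change ℓ (fun y => b 0 (((⟨x, hx⟩ : H) : Γ) * y)) = _
    rw [ht ⟨x, hx⟩, map_smul, hℓb, if_pos rfl, smul_eq_mul, mul_one]
    rfl
  · intro x hx
    obtain ⟨j, s, hs⟩ := hbt x 0
    have hj : j ≠ 0 := by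
      rintro rfl
      exact hx ⟨s, hs⟩
    change ℓ (fun y => b 0 (x * y)) = 0
    rw [hs, map_smul, hℓb, if_neg hj, smul_zero]
  · have h1 : (fun x => ℓ (fun y => b 0 (x * y))) =
        ∑ y : Γ, ℓ (Pi.single y 1) • fun x => b 0 (x * y) := by
      funext x
      rw [Finset.sum_apply]
      rw [LinearMap.pi_apply_eq_sum_univ ℓ (fun y => b 0 (x * y))]
      refine Finset.sum_congr rfl fun y _ => ?_
      rw [Pi.smul_apply, smul_eq_mul, smul_eq_mul, mul_comm]
      congr 2
      funext z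
      rw [Pi.single_apply]
      simp [eq_comm]
    rw [h1]
    exact V.sum_mem fun y _ => V.smul_mem _ (hr y _ (hbV 0))

end MonM

/-- M-groups are biflat. -/
theorem biFlat_monomial (hFLA : SpecFla) (Γ : Type) [Group Γ] [Finite Γ] (hM : MonomialGroup Γ) :
    BiFlat Γ := by
  intro V hV hl hr
  obtain ⟨H, ψ, F, h1, h2, h3⟩ := MonM.exists_ext hM (MonM.cpl V) (MonM.cpl_ne_bot hV)
    (fun g f hf l => hl g _ (hf l)) (fun g f hf l => hr g _ (hf l))
  exact FlmM.flat_of_ext hFLA V hl H ψ F h1 h2 h3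

end Pool.Agent.Lib.MPf11a48.CMM
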