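import Pool.Agent.Lib.MP_f11a48_ag.CMM.SpecN

/-! # `C.ten` over a field `L ⊆ Qbar` -/

set_option autoImplicit false

namespace Pool.Agent.Lib.MPf11a48.CMM

namespace TenkM

open Matrix MvPolynomial Pool.Agent.Lib.MPf11a48.Tors
open Pool.Agent.Lib.MPf11a48.CM hiding OmegaM tw
open Pool.Agent.Lib.MPf11a48.GL2T (Conj)
open Pool.Agent.Lib.MPf11a48.C (IsRep imG tpi)
open Pool.Agent.Lib.MPf11a48.C.TenM

/-- If every torsor over `L` with group over `ℚ` through `(c, 2 π i)` contains `W (c, 2 π i)`,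
then this is so for all sub-objects over `L` of the objects obtained by tensor operations. -/
theorem ten {μ : Type} [Fintype μ] [DecidableEq μ] (W : Set (GL μ ℂ × ℂˣ)) (c : GL μ ℂ)
    (L : IntermediateField ℚ ℂ)
    (hW : ∀ T : Set (GL (μ ⊕ Unit) ℂ), IsTorsor L T → bd (c, tpi) ∈ T →
      ClosedOver ⊥ (grp T) → ∀ y ∈ W, bd (y * (c, tpi)) ∈ T)
    (K : IntermediateField ℚ ℂ) (hK : K ≤ L) (κ ι : Type) [Fintype κ] [DecidableEq κ]
    [Fintype ι] [DecidableEq ι] (T : GL μ ℂ × ℂˣ → GL κ ℂ) (hT : IsRep T) (n : GL ι ℂ)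
    (iB : Matrix κ ι ℚ) (hN : IsSubOver L (T (c, tpi)) n iB) :
    (∀ y ∈ W, ∃ f : GL ι ℂ,
      (T y).1 * iB.map (algebraMap ℚ ℂ) = iB.map (algebraMap ℚ ℂ) * f.1) ∧
    (∀ f ∈ imG T iB W, ∀ h, Conj K (f * n) h → h ∈ OmegaDRB K n) ∧
      ∀ S : Set (TPair K ι), (∀ α ∈ S, Fixes n α) →
        (∀ h ∈ OmegaS S, ∃ f ∈ imG T iB W, Conj K (f * n) h) →
        OmegaDRB K n = OmegaS S ∧ (K = ⊥ → OmegaM K n = OmegaS S) := by
  obtain ⟨⟨pB, hpB⟩, idR, hdR⟩ := hN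
  have hpBC : pB.map (algebraMap ℚ ℂ) * iB.map (algebraMap ℚ ℂ) = 1 := by
    rw [← Matrix.map_mul, hpB, Matrix.map_one _ (map_zero _) (map_one _)]
  have hnn : n⁻¹.1 * n.1 = 1 := n.inv_mul
  have hG : (n⁻¹.1 * pB.map (algebraMap ℚ ℂ) * (T (c, tpi)).1) * idR.map (algebraMap L ℂ) = 1 := by
    rw [Matrix.mul_assoc, hdR]
    calc n⁻¹.1 * pB.map (algebraMap ℚ ℂ) * (iB.map (algebraMap ℚ ℂ) * n.1)
        = n⁻¹.1 * (pB.map (algebraMap ℚ ℂ) * iB.map (algebraMap ℚ ℂ)) * n.1 := by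
          simp only [Matrix.mul_assoc]
      _ = 1 := by rw [hpBC, Matrix.mul_one, hnn]
  -- uniqueness of the automorphism
  have huniq : ∀ {f f' : GL ι ℂ}, iB.map (algebraMap ℚ ℂ) * f.1 = iB.map (algebraMap ℚ ℂ) * f'.1 →
      f = f' := by
    intro f f' h
    apply Units.ext
    have h1 := congrArg (fun X => pB.map (algebraMap ℚ ℂ) * X) h
    simp only [← Matrix.mul_assoc, hpBC, Matrix.one_mul] at h1
    exact h1
  set T₀ := OmegaDRB K n with hT₀def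
  have hT₀ : IsTorsor L T₀ := by
    have h := isTorsor_OmegaDRB K n
    exact ⟨GL2.closedOver_mono hK h.closed, h.nonempty, h.heap⟩
  have hn : n ∈ T₀ := mem_OmegaDRB_self K _
  have hcl : ClosedOver ⊥ (grp T₀) := by
    rw [hT₀def, grp_OmegaDRB]
    exact closedOver_GdRB K _
  have hT1 : T 1 = 1 := by
    have h := hT.mul 1 1
    rw [mul_one] at h
    exact (mul_eq_left.1 h.symm)
  have hTinv : ∀ x, T x⁻¹ = (T x)⁻¹ := by
    intro x
    rw [eq_inv_iff_mul_eq_one, ← hT.mul, inv_mul_cancel, hT1]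
  -- the preimage
  set T₁ : Set (GL (μ ⊕ Unit) ℂ) := {g | ∃ x, bd x = g ∧ ∃ f ∈ T₀,
    (T x).1 * idR.map (algebraMap L ℂ) = iB.map (algebraMap ℚ ℂ) * f.1} with hT₁
  have hcT₁ : bd (c, tpi) ∈ T₁ := ⟨_, rfl, n, hn, hdR⟩
  have htor : IsTorsor L T₁ := by
    refine ⟨closedOver_sub hT.regular hpB hG hT₀.closed, ⟨_, hcT₁⟩, ?_⟩
    rintro _ ⟨x, rfl, fx, hx, hx'⟩ _ ⟨y, rfl, fy, hy, hy'⟩ _ ⟨z, rfl, fz, hz, hz'⟩
    refine ⟨x * y⁻¹ * z, by rw [map_mul, map_mul, map_inv], fx * fy⁻¹ * fz,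
      hT₀.heap _ hx _ hy _ hz, ?_⟩
    rw [hT.mul, hT.mul, hTinv]
    exact sub_mul (sub_inv hx' hy') hz'
  have hiB : (iB.map (algebraMap ℚ (⊥ : IntermediateField ℚ ℂ))).map
      (algebraMap (⊥ : IntermediateField ℚ ℂ) ℂ) = iB.map (algebraMap ℚ ℂ) := by
    ext i j
    exact (IsScalarTower.algebraMap_apply ℚ (⊥ : IntermediateField ℚ ℂ) ℂ _).symm
  have hgrp : ClosedOver ⊥ (grp T₁) := by
    have e : grp T₁ = {g | ∃ x, bd x = g ∧ ∃ f ∈ grp T₀, (T x).1 *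
        (iB.map (algebraMap ℚ (⊥ : IntermediateField ℚ ℂ))).map
          (algebraMap (⊥ : IntermediateField ℚ ℂ) ℂ) = iB.map (algebraMap ℚ ℂ) * f.1} := by
      ext g
      rw [mem_grp_iff htor hcT₁, hiB]
      constructor
      · rintro ⟨x, hx, f, hf, hx'⟩
        refine ⟨x * (c, tpi)⁻¹, by rw [map_mul, map_inv, hx, mul_inv_cancel_right], f * n⁻¹,
          ⟨f, hf, n, hn, rfl⟩, ?_⟩
        rw [hT.mul, hTinv]
        exact sub_inv hx' hdR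
      · rintro ⟨x, rfl, f, hf, hx⟩
        refine ⟨x * (c, tpi), map_mul _ _ _, f * n, (mem_grp_iff hT₀ hn).1 hf, ?_⟩
        rw [hT.mul]
        exact sub_mul hx hdR
    rw [e]
    refine closedOver_sub hT.regular hpB (G := pB.map (algebraMap ℚ ℂ)) ?_ hcl
    rw [hiB]
    exact hpBC
  have hmain : ∀ y ∈ W, ∃ f : GL ι ℂ,
      (T y).1 * iB.map (algebraMap ℚ ℂ) = iB.map (algebraMap ℚ ℂ) * f.1 ∧ f * n ∈ T₀ := by
    intro y hy
    obtain ⟨x, hx, f, hf, hx'⟩ := hW T₁ htor hcT₁ hgrp y hy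
    have hxy : x = y * (c, tpi) := bd_injective hx
    have h1 := sub_inv (f := f) (f' := n) hx' hdR
    rw [hxy, hT.mul, mul_inv_cancel_right] at h1
    exact ⟨f * n⁻¹, h1, by rwa [inv_mul_cancel_right]⟩
  have h0 : ∀ f ∈ imG T iB W, f * n ∈ T₀ := by
    rintro f ⟨y, hy, hf⟩
    obtain ⟨f', hf', h2⟩ := hmain y hy
    have : f = f' := huniq (hf.symm.trans hf')
    rw [this]
    exact h2
  have h1 : ∀ f ∈ imG T iB W, ∀ h, Conj K (f * n) h → h ∈ OmegaDRB K n := by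
    intro f hf h hh
    obtain ⟨τ, hτ, hh⟩ := hh
    have hh' : h = tw τ (f * n) := by
      apply Units.ext
      exact Matrix.ext hh
    rw [hh']
    exact OmegaDRB_tw hτ (h0 f hf)
  refine ⟨fun y hy => ?_, h1, fun S hS hsub => ?_⟩
  · obtain ⟨f, hf, _⟩ := hmain y hy
    exact ⟨f, hf⟩
  have h3 : OmegaDRB K n = OmegaS S := by
    refine (drb_subset hS).antisymm fun h hh => ?_
    obtain ⟨f, hf, hfh⟩ := hsub h hh
    exact h1 f hf h hfh
  refine ⟨h3, ?_⟩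
  rintro rfl
  rw [← h3]
  exact OmegaM_eq_OmegaDRB _

end TenkM

open TenkM

theorem specTenk : SpecTenk := by
  intro μ _ _ W c L _ hW K hK κ ι _ _ _ _ T hT n iB hN
  exact ten W c L hW K hK κ ι T hT n iB hN

end Pool.Agent.Lib.MPf11a48.CMM
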