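import Pool.Agent.Lib.MP_f11a48_ag.CMM.SpecN
import Pool.Agent.Lib.MP_f11a48_ag.CMM.TenmG

/-! # Torsors over `K` through the periods of `h^1(A) ⊕ R` and of the Tate object -/

set_option autoImplicit false

namespace Pool.Agent.Lib.MPf11a48.CMM

open Matrix MvPolynomial
open Pool.Agent.Lib.MPf11a48.CM hiding OmegaM
open Pool.Agent.Lib.MPf11a48.GL2T
open Pool.Agent.Lib.MPf11a48.U
open Pool.Agent.Lib.MPf11a48.C (IsRep IsSubObj imG tpi)
open Pool.Agent.Lib.MPf11a48.C.TenM (bd)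
open Pool.Agent.Lib.MPf11a48.Tors (IsTorsor ClosedOver grp OmegaM FixesField)
open Pool.Agent.Lib.MPf11a48.K3 (cx)

namespace TennM

section

variable {ι μ : Type} [Fintype ι] [DecidableEq ι] [Fintype μ] [DecidableEq μ]

theorem dsum_mul (x x' : GL ι ℂ) (r r' : GL μ ℂ) :
    dsum (x * x') (r * r') = dsum x r * dsum x' r' := by
  apply Units.ext
  change Matrix.fromBlocks (x.1 * x'.1) 0 0 (r.1 * r'.1) =
    Matrix.fromBlocks x.1 0 0 r.1 * Matrix.fromBlocks x'.1 0 0 r'.1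
  rw [Matrix.fromBlocks_multiply]
  simp only [Matrix.mul_zero, Matrix.zero_mul, add_zero, zero_add]

theorem dsum_one : dsum (1 : GL ι ℂ) (1 : GL μ ℂ) = 1 := by
  apply Units.ext
  exact Matrix.fromBlocks_one

/-- the direct sum and the second factor, as a homomorphism -/
noncomputable def bh : (GL ι ℂ × GL μ ℂ) × ℂˣ →* GL ((ι ⊕ μ) ⊕ Unit) ℂ where
  toFun y := bd (dsum y.1.1 y.1.2, y.2)
  map_one' := by
    change bd (dsum 1 1, 1) = 1
    rw [dsum_one]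
    exact map_one _
  map_mul' x y := by
    change bd (dsum (x.1.1 * y.1.1) (x.1.2 * y.1.2), x.2 * y.2) = _
    rw [dsum_mul, ← map_mul]
    rfl

theorem bh_apply (x : GL ι ℂ) (r : GL μ ℂ) (z : ℂˣ) : bh ((x, r), z) = bd (dsum x r, z) := rfl

theorem tw_bh (τ : ℂ ≃+* ℂ) (x : GL ι ℂ) (r : GL μ ℂ) (z : ℂˣ) :
    Tors.tw τ (bh ((x, r), z)) =
      bh ((Tors.tw τ x, Tors.tw τ r), Units.map ((τ : ℂ →+* ℂ) : ℂ →* ℂ) z) := by
  apply Units.ext
  ext i j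
  rcases i with (i | i) | i <;> rcases j with (j | j) | j
  all_goals first
    | rfl
    | exact map_zero τ

end

/-- the group of a torsor -/
def grpS {ι : Type} [Fintype ι] [DecidableEq ι] {K : IntermediateField ℚ ℂ} {T : Set (GL ι ℂ)}
    (h : IsTorsor K T) : Subgroup (GL ι ℂ) where
  carrier := grp T
  mul_mem' := by
    intro a b ha hb
    obtain ⟨c, hc⟩ := h.nonempty
    rw [Tors.mem_grp_iff h hc] at hb
    change a * b ∈ grp T
    rw [Tors.mem_grp_iff h hc, mul_assoc]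
    exact (Tors.mem_grp_iff h hb).1 ha
  one_mem' := Tors.one_mem_grp h
  inv_mem' := by
    rintro _ ⟨a, ha, b, hb, rfl⟩
    exact ⟨b, hb, a, ha, by group⟩

section

variable {g k : ℕ}

theorem val_bh (y : K3.Grp3 g 0) (r : GL (Fin k) ℂ) (i j : (Ix g ⊕ Fin k) ⊕ Unit) :
    (bh ((y.1, r), y.2.2)).1 i j =
      Matrix.fromBlocks (Matrix.fromBlocks y.1.1 0 0 r.1) 0 0 (of fun _ _ => (y.2.2 : ℂ)) i j := rfl

theorem regular (R : Type) [CommRing R] [Algebra R ℂ] (r : GL (Fin k) ℂ)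
    (hr : ∀ i j, ∃ a : R, r.1 i j = algebraMap R ℂ a) (i j : (Ix g ⊕ Fin k) ⊕ Unit) :
    ∃ p : MvPolynomial (K3.Var3 g 0) R, ∀ y : K3.Grp3 g 0,
      (bh ((y.1, r), y.2.2)).1 i j = aeval (K3.crd3 y) p := by
  rcases i with (i | i) | i <;> rcases j with (j | j) | j
  · exact ⟨X (Sum.inl (Sum.inl (i, j))), fun y => by rw [aeval_X]; rfl⟩
  · exact ⟨0, fun y => by rw [map_zero]; rfl⟩
  · exact ⟨0, fun y => by rw [map_zero]; rfl⟩
  · exact ⟨0, fun y => by rw [map_zero]; rfl⟩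
  · obtain ⟨a, ha⟩ := hr i j
    refine ⟨C a, fun y => ?_⟩
    rw [aeval_C, ← ha]
    rfl
  · exact ⟨0, fun y => by rw [map_zero]; rfl⟩
  · exact ⟨0, fun y => by rw [map_zero]; rfl⟩
  · exact ⟨0, fun y => by rw [map_zero]; rfl⟩
  · exact ⟨X (Sum.inr (Sum.inr (Sum.inl ()))), fun y => by rw [aeval_X]; rfl⟩

theorem isTens3 {r : GL (Fin k) ℂ} (hr : IsAlg r.1) :
    K3.IsTens3 (fun y : K3.Grp3 g 0 => bh ((y.1, r), y.2.2)) where
  regular := regular Qbar r fun i j => ⟨⟨r.1 i j, hr i j⟩, rfl⟩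
  heap x y z := by
    rw [← map_inv, ← map_mul, ← map_mul]
    congr 1
    refine Prod.ext (Prod.ext rfl ?_) rfl
    change r = r * r⁻¹ * r
    group
  rational i j := by
    obtain ⟨p, hp⟩ := regular (g := g) ℚ (1 : GL (Fin k) ℂ) (fun i j => by
      refine ⟨(1 : Matrix (Fin k) (Fin k) ℚ) i j, ?_⟩
      change (1 : Matrix (Fin k) (Fin k) ℂ) i j = _
      rw [Matrix.one_apply, Matrix.one_apply]
      split_ifs <;> simp) i j
    refine ⟨p, fun y => ?_⟩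
    rw [← hp y]
    have h1 : bh ((y.1, r), y.2.2) * (bh (((1 : K3.Grp3 g 0).1, r), (1 : K3.Grp3 g 0).2.2))⁻¹ =
        bh ((y.1, 1), y.2.2) := by
      rw [← map_inv, ← map_mul]
      congr 1
      refine Prod.ext (Prod.ext ?_ ?_) ?_
      · change y.1 * 1⁻¹ = y.1
        group
      · change r * r⁻¹ = 1
        group
      · change y.2.2 * 1⁻¹ = y.2.2
        group
    rw [h1]

end

end TennM

open TennM in
theorem specTenn : SpecTenn := by
  intro g c ψ θ K 𝓖 hg hK hpol h𝓖 k r hr T hT hcT hgrp y hy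
  have hcT' : bh ((c, r), tpi) ∈ T := hcT
  -- the subgroup
  let φ : GL (Ix g) ℂ × ℂˣ →* (GL (Ix g) ℂ × GL (Fin k) ℂ) × ℂˣ :=
    { toFun := fun y => ((y.1, 1), y.2)
      map_one' := rfl
      map_mul' := fun x y => by
        refine Prod.ext (Prod.ext rfl ?_) rfl
        change (1 : GL (Fin k) ℂ) = 1 * 1
        group }
  have hφ : ∀ y, φ y = ((y.1, 1), y.2) := fun _ => rfl
  let 𝒢 : Subgroup (GL (Ix g) ℂ × ℂˣ) := (grpS hT).comap (bh.comp φ)
  have h𝒢 : ∀ y, y ∈ 𝒢 ↔ bh ((y.1, 1), y.2) ∈ grp T := fun _ => Iff.rfl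
  have hTQ : IsTorsor Qbar T := ⟨GL2.closedOver_mono hK hT.closed, hT.nonempty, hT.heap⟩
  have h1 : y ∈ 𝒢 := by
    refine h𝓖 𝒢 ?_ ?_ y hy
    · intro x hx hx'
      rw [h𝒢, Tors.mem_grp_iff hT hcT', ← map_mul]
      have h2 := (tenm_gen hg c ψ θ hpol {x | x.1 * c ∈ OmegaDRB Qbar c ∧
        x.1.1ᵀ * cx ψ * x.1.1 = (x.2 : ℂ) • cx ψ} (fun _ h => h) Qbar
        ((Ix g ⊕ Fin k) ⊕ Unit) (fun y : K3.Grp3 g 0 => bh ((y.1, r), y.2.2)) le_rfl
        (isTens3 hr)).1 x ⟨hx, hx'⟩ (bh ((x.1 * c, r), x.2 * tpi))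
        ⟨RingEquiv.refl ℂ, fun _ _ => rfl, fun _ _ => rfl⟩
      have h3 : bh ((x.1 * c, r), x.2 * tpi) ∈ T := Tors.OmegaDRB_subset hTQ hcT' hgrp h2
      have h4 : ((x.1, (1 : GL (Fin k) ℂ)), x.2) * ((c, r), tpi) = ((x.1 * c, r), x.2 * tpi) := by
        refine Prod.ext (Prod.ext rfl ?_) rfl
        change 1 * r = r
        group
      rw [h4]
      exact h3
    · intro τ hτ x hx
      rw [h𝒢] at hx ⊢
      have h2 : Tors.tw τ (bh ((c, r), tpi)) ∈ T := Tors.ClosedOver.tw_mem hT.closed hτ hcT'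
      set w : ℂˣ := Units.map ((τ : ℂ →+* ℂ) : ℂ →* ℂ) tpi
      have h3 : bh ((twg τ c, Tors.tw τ r * r⁻¹), w * tpi⁻¹) ∈ grpS hT := by
        refine ⟨_, h2, _, hcT', ?_⟩
        rw [tw_bh, ← map_inv, ← map_mul]
        rfl
      have hx' : bh ((x.1, (1 : GL (Fin k) ℂ)), x.2) ∈ grpS hT := hx
      have h4 := (grpS hT).mul_mem ((grpS hT).mul_mem h3 hx') ((grpS hT).inv_mem h3)
      rw [← map_inv, ← map_mul, ← map_mul] at h4
      have h5 : ((twg τ c, Tors.tw τ r * r⁻¹), w * tpi⁻¹) * ((x.1, (1 : GL (Fin k) ℂ)), x.2) *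
          ((twg τ c, Tors.tw τ r * r⁻¹), w * tpi⁻¹)⁻¹ =
          ((twg τ c * x.1 * (twg τ c)⁻¹, 1), x.2) := by
        refine Prod.ext (Prod.ext rfl ?_) ?_
        · change (Tors.tw τ r * r⁻¹) * 1 * (Tors.tw τ r * r⁻¹)⁻¹ = 1
          group
        · change (w * tpi⁻¹) * x.2 * (w * tpi⁻¹)⁻¹ = x.2
          rw [mul_comm (w * tpi⁻¹) x.2, mul_inv_cancel_right]
      rw [h5] at h4
      exact h4
  rw [h𝒢, Tors.mem_grp_iff hT hcT'] at h1
  rw [map_mul]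
  exact h1

end Pool.Agent.Lib.MPf11a48.CMM
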