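import Pool.Agent.Lib.MP_f11a48_ag.CMM.FinN
import Pool.Agent.Lib.MP_f11a48_ag.CMM.Mon
import Pool.Agent.Lib.MP_f11a48_ag.CMM.Fls
import Pool.Agent.Lib.MP_f11a48_ag.CMM.Flh
import Pool.Agent.Lib.MP_f11a48_ag.CMM.Flk
import Pool.Agent.Lib.MP_f11a48_ag.CMM.Typn
import Pool.Agent.Lib.MP_f11a48_ag.CMM.Mainn
import Pool.Agent.Lib.MP_f11a48_ag.CMM.Tenn
import Pool.Agent.Lib.MP_f11a48_ag.CMM.Tenk
import Pool.Agent.Lib.MP_f11a48_ag.CMM.Torn
import Pool.Agent.Lib.MP_f11a48_ag.CMM.Galn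

/-!
# Motives of complex multiplication type over a field `L`: the theorem
-/

set_option autoImplicit false

namespace Pool.Agent.Lib.MPf11a48.CMM

open Matrix MvPolynomial
open Pool.Agent.Lib.MPf11a48.CM hiding OmegaM
open Pool.Agent.Lib.MPf11a48.GL2T
open Pool.Agent.Lib.MPf11a48.U
open Pool.Agent.Lib.MPf11a48.C (IsRep IsSubObj imG tpi)
open Pool.Agent.Lib.MPf11a48.C.TenM (bd)
open Pool.Agent.Lib.MPf11a48.Tors (IsTorsor ClosedOver grp OmegaM FixesField)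
open Pool.Agent.Lib.MPf11a48.K3 (cx)

namespace AllNM

theorem flm' : SpecFlm := specFlm specFla

theorem flh' : SpecFlh := specFlh specFls

theorem torn' : SpecTorn := specTorn specLIN specSIM bic' specALG

theorem galn' : SpecGaln := specGaln

theorem mainn' : SpecMainn := specMainn torn' (specGenr specSat)

theorem flatOver_monomial {E : IntermediateField ℚ Qbar} [FiniteDimensional ℚ E]
    (h : MonomialField E) : FlatOver ⊥ E :=
  specFlk E inferInstance h.1 (biFlat_monomial specFla _ h.2)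

theorem goodField_of {L : IntermediateField ℚ ℂ} {E : IntermediateField ℚ Qbar}
    (h : GoodReflex L E) : GoodField L E := by
  obtain ⟨hE, h⟩ := h
  refine ⟨hE, ?_⟩
  rcases h with h | h | ⟨h, h1 | h1 | h1⟩
  · exact Or.inl h
  · exact Or.inr (Or.inl h)
  · exact Or.inr (Or.inr ⟨h, Or.inl h1⟩)
  · refine Or.inl ?_
    rw [h]
    exact flatOver_monomial h1
  · exact Or.inr (Or.inr ⟨h, Or.inr h1⟩)

end AllNM

open AllNM in
/-- The theorem. -/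
theorem mainN (g N : ℕ) (hg : 0 < g) (A : AbData g N) (L : IntermediateField ℚ ℂ) (hL : L ≤ Qbar)
    (hA : A.IsAbVar L) (c : GL (Ix g) ℂ) (hc : c.1 = A.per) (hGL : GL2Like c.1 A.psi)
    (S₀ : Set (TPair Qbar (Ix g))) (hS₀ : ∀ α ∈ S₀, Fixes c α)
    (𝓖 : Set (GL (Ix g) ℂ × ℂˣ))
    (h𝓖 : (𝓖 = LefG A c ∧ (Separated c.1 A.psi ∨ ListedCentre c.1)) ∨
      (𝓖 = MTG A c ∧ (∀ f ∈ OmegaS S₀, ∃ y ∈ MTG A c, f = y.1 * c) ∧
        ∃ E : IntermediateField ℚ Qbar, GoodReflex L E ∧ AllTypes A c.1 E))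
    (k : ℕ) (r : GL (Fin k) ℂ) (hr : IsAlg r.1) (K : IntermediateField ℚ ℂ) (hK : K ≤ L)
    (κ ι : Type) [Fintype κ] [DecidableEq κ] [Fintype ι] [DecidableEq ι]
    (T : GL (Ix g ⊕ Fin k) ℂ × ℂˣ → GL κ ℂ) (hT : IsRep T) (n : GL ι ℂ)
    (iB : Matrix κ ι ℚ) (hN : IsSubOver L (T (dsum c r, tpi)) n iB) :
    (∀ y ∈ 𝓖, ∃ f : GL ι ℂ, (T (dsum y.1 1, y.2)).1 * iB.map (algebraMap ℚ ℂ) =
      iB.map (algebraMap ℚ ℂ) * f.1) ∧
    (∀ f ∈ imG T iB {w | ∃ y ∈ 𝓖, w = (dsum y.1 1, y.2)}, ∀ h, Conj K (f * n) h →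
      h ∈ OmegaDRB K n) ∧
      ∀ S : Set (TPair K ι), (∀ α ∈ S, Fixes n α) →
        (∀ h ∈ OmegaS S, ∃ f ∈ imG T iB {w | ∃ y ∈ 𝓖, w = (dsum y.1 1, y.2)},
          Conj K (f * n) h) →
        OmegaDRB K n = OmegaS S ∧ (K = ⊥ → OmegaM K n = OmegaS S) := by
  refine mainN_of flm' flh' specFlk galn' specTypn mainn' specTenn specTenk g N hg A L hL hA c hc
    hGL 𝓖 ?_ k r hr K hK κ ι T hT n iB hN
  rcases h𝓖 with h | ⟨h1, h2, E, hE, h3⟩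
  · exact Or.inl h
  · exact Or.inr ⟨h1, ⟨S₀, hS₀, h2⟩, E, goodField_of hE, h3⟩

end Pool.Agent.Lib.MPf11a48.CMM
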