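import Pool.Agent.Lib.MP_f11a48_ag.U.StatementL
import Pool.Agent.Lib.MP_f11a48_ag.K3.KStmt3

/-!
# Motives of complex multiplication type: definitions
-/

set_option autoImplicit false

namespace Pool.Agent.Lib.MPf11a48.CMM

open Matrix MvPolynomial
open Pool.Agent.Lib.MPf11a48.CM hiding OmegaM
open Pool.Agent.Lib.MPf11a48.GL2T
open Pool.Agent.Lib.MPf11a48.U
open Pool.Agent.Lib.MPf11a48.K3 (cx)

section Rel

variable {ι : Type} [Fintype ι] [DecidableEq ι] {c : Matrix ι ι ℂ}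

open scoped Classical in
/-- `χ` is supported on the embeddings of the centre which are not real, and is a relation between
the (generalised) CM types, i.e. a character which is trivial on the Mumford-Tate group: for every
`γ` the sum of the `χ s` for all `s` with `γ s ∈ T` is `0`. -/
def HodgeRel (ψ : Matrix ι ι ℚ) (T : Set (EmbC c)) (χ : EmbC c → ℤ) : Prop :=
  (∀ s, IsBar ψ s s → χ s = 0) ∧
    ∀ γ : Qbar ≃ₐ[ℚ] Qbar, (∑ s : EmbC c, if γ.toAlgHom.comp s ∈ T then χ s else 0) = 0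

/-- `v` is an eigenvector of the centre (acting on rows) with eigenvalue `s`. -/
def Eig (s : EmbC c) (v : ι → ℂ) : Prop :=
  ∀ z : CenAlg c, v ᵥ* cx z.1 = ((s z : Qbar) : ℂ) • v

/-- The matrix `x`, which acts as a scalar `u s` on the eigenvectors of the centre, for all
embeddings `s` which are not real, satisfies all relations between the CM types:
`∏ u s ^ χ s = 1`. -/
def RelOK (ψ : Matrix ι ι ℚ) (T : Set (EmbC c)) (x : Matrix ι ι ℂ) : Prop :=
  ∀ χ : EmbC c → ℤ, HodgeRel ψ T χ → ∀ u : EmbC c → ℂ,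
    (∀ s, ¬ IsBar ψ s s → ∀ v, Eig s v → v ᵥ* x = u s • v) → ∏ s : EmbC c, u s ^ χ s = 1

end Rel

/-- A set of embeddings `E → Qbar` which contains exactly one of two complex conjugate
embeddings: a CM type of the field `E`. -/
def IsType {E : IntermediateField ℚ Qbar} (ξ : Set (E →ₐ[ℚ] Qbar)) : Prop :=
  ∀ φ φ' : E →ₐ[ℚ] Qbar,
    (∀ x, ((φ' x : Qbar) : ℂ) = (starRingEnd ℂ) ((φ x : Qbar) : ℂ)) → (φ' ∈ ξ ↔ φ ∉ ξ)

/-- Every non-zero Galois stable space of odd functions on the set of the embeddings of `E` contains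
a non-zero function with values in `{0, 1, -1}`. -/
def Flat (E : IntermediateField ℚ Qbar) : Prop :=
  ∀ V : Submodule ℚ ((E →ₐ[ℚ] Qbar) → ℚ), V ≠ ⊥ →
    (∀ f ∈ V, ∀ φ φ' : E →ₐ[ℚ] Qbar,
      (∀ x, ((φ' x : Qbar) : ℂ) = (starRingEnd ℂ) ((φ x : Qbar) : ℂ)) → f φ' = -f φ) →
    (∀ γ : Qbar ≃ₐ[ℚ] Qbar, ∀ f ∈ V, (fun φ => f (γ.toAlgHom.comp φ)) ∈ V) →
    ∃ f ∈ V, f ≠ 0 ∧ ∀ φ, f φ = 0 ∨ f φ = 1 ∨ f φ = -1

/-- `E` is an abelian extension of `ℚ`. -/
def AbelianField (E : IntermediateField ℚ Qbar) : Prop :=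
  ∀ γ γ' : Qbar ≃ₐ[ℚ] Qbar, ∀ x ∈ E, γ (γ' x) = γ' (γ x)

section AbVar

variable {g N : ℕ}

/-- The embeddings of the centre of the algebra of endomorphisms which occur in the tangent space of
the abelian variety `A` at `0`. -/
def Tan (A : AbData g N) (c : Matrix (Ix g) (Ix g) ℂ) : Set (EmbC c) :=
  {s | ∃ v : Ix g → ℂ, Eig s v ∧ ∑ l, v l • A.lat l ≠ 0}

/-- The reflex fields of the simple factors of `A` with complex multiplication are contained in `E`,
and every CM type of `E` occurs. (`Tan A c` is the union of the CM types of the simple factors with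
complex multiplication and all real embeddings.) -/
structure AllTypes (A : AbData g N) (c : Matrix (Ix g) (Ix g) ℂ) (E : IntermediateField ℚ Qbar) :
    Prop where
  reflex : ∀ s : EmbC c, ¬ IsBar A.psi s s → ∀ σ : Qbar ≃ₐ[ℚ] Qbar, (∀ x ∈ E, σ x = x) →
    (σ.toAlgHom.comp s ∈ Tan A c ↔ s ∈ Tan A c)
  all : ∀ ξ : Set (E →ₐ[ℚ] Qbar), IsType ξ → ∃ s : EmbC c, ¬ IsBar A.psi s s ∧
    ∀ γ : Qbar ≃ₐ[ℚ] Qbar, γ.toAlgHom.comp s ∈ Tan A c ↔ γ.symm.toAlgHom.comp E.val ∈ ξ

/-- The complex points of the group of the similitudes `(x, z)` of `H^1(A, ℚ)` compatible with the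
endomorphisms. -/
def LefG (A : AbData g N) (c : GL (Ix g) ℂ) : Set (GL (Ix g) ℂ × ℂˣ) :=
  {y | (∀ Z ∈ EndAlg c.1, y.1.1 * cx Z = cx Z * y.1.1) ∧
    y.1.1ᵀ * cx A.psi * y.1.1 = (y.2 : ℂ) • cx A.psi}

/-- The complex points of the Mumford-Tate group of `A` (if the simple factors of `A` are of
`GL_2`-type, with real or quaternion multiplication, or have complex multiplication): the elements
of `LefG` whose eigenvalues satisfy the relations between the CM types. -/
def MTG (A : AbData g N) (c : GL (Ix g) ℂ) : Set (GL (Ix g) ℂ × ℂˣ) :=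
  {y | y ∈ LefG A c ∧ RelOK A.psi (Tan A c.1) y.1.1}

/-- The de Rham-Betti classes over `Qbar` of `h^1(A)` cut out (a subset of) the torsor of the
Mumford-Tate group: the Hodge classes are de Rham-Betti classes. -/
def CutOut (A : AbData g N) (c : GL (Ix g) ℂ) : Prop :=
  ∃ S : Set (TPair Qbar (Ix g)), (∀ α ∈ S, Fixes c α) ∧
    ∀ f ∈ OmegaS S, ∃ y ∈ MTG A c, f = y.1 * c

end AbVar

end Pool.Agent.Lib.MPf11a48.CMM
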