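import Pool.Agent.Lib.MP_f11a48_ag.CMM.Defs
import Pool.Agent.Lib.MP_f11a48_ag.C.Stmt
import Pool.Agent.Lib.MP_f11a48_ag.helper4.Closed

/-!
# Motives of complex multiplication type over a field `K`: definitions
-/

set_option autoImplicit false

namespace Pool.Agent.Lib.MPf11a48.CMM

open Matrix MvPolynomial
open Pool.Agent.Lib.MPf11a48.CM hiding OmegaM
open Pool.Agent.Lib.MPf11a48.GL2T
open Pool.Agent.Lib.MPf11a48.U
open Pool.Agent.Lib.MPf11a48.K3 (cx)

/-- Every non-zero space of odd functions on the set of the embeddings of `E`, which is stable under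
the action of the automorphisms of `Qbar` on the values and under the action of the automorphisms of
`Qbar` over `K` which preserve `E` on the arguments, contains a non-zero function with values in
`{0, 1, -1}`. -/
def FlatOver (K : IntermediateField ℚ ℂ) (E : IntermediateField ℚ Qbar) : Prop :=
  ∀ V : Submodule ℚ ((E →ₐ[ℚ] Qbar) → ℚ), V ≠ ⊥ →
    (∀ f ∈ V, ∀ φ φ' : E →ₐ[ℚ] Qbar,
      (∀ x, ((φ' x : Qbar) : ℂ) = (starRingEnd ℂ) ((φ x : Qbar) : ℂ)) → f φ' = -f φ) →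
    (∀ γ : Qbar ≃ₐ[ℚ] Qbar, ∀ f ∈ V, (fun φ => f (γ.toAlgHom.comp φ)) ∈ V) →
    (∀ (γ : Qbar ≃ₐ[ℚ] Qbar) (e : E →ₐ[ℚ] E), (∀ a : Qbar, (a : ℂ) ∈ K → γ a = a) →
      (∀ x : E, ((e x : E) : Qbar) = γ x) → ∀ f ∈ V, (fun φ : E →ₐ[ℚ] Qbar => f (φ.comp e)) ∈ V) →
    ∃ f ∈ V, f ≠ 0 ∧ ∀ φ, f φ = 0 ∨ f φ = 1 ∨ f φ = -1

/-- `E` is a Galois extension of `ℚ` with metabelian Galois group. -/
def MetabelianField (E : IntermediateField ℚ Qbar) : Prop :=
  (∀ γ : Qbar ≃ₐ[ℚ] Qbar, ∀ x ∈ E, γ x ∈ E) ∧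
    ∀ a b c d : Qbar ≃ₐ[ℚ] Qbar, ∀ x ∈ E,
      (a * b * a⁻¹ * b⁻¹) ((c * d * c⁻¹ * d⁻¹) x) = (c * d * c⁻¹ * d⁻¹) ((a * b * a⁻¹ * b⁻¹) x)

/-- The hyperoctahedral group of order `2^n n!`, as the group of all permutations of
`{1, …, n} × {±1}` which commute with the change of sign. -/
def Hyp (n : ℕ) : Subgroup (Equiv.Perm (Fin n × Bool)) where
  carrier := {σ | ∀ i b, σ (i, !b) = ((σ (i, b)).1, !(σ (i, b)).2)}
  mul_mem' := by
    intro σ τ hσ hτ i b
    rw [Equiv.Perm.mul_apply, Equiv.Perm.mul_apply, hτ i b]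
    exact hσ _ _
  one_mem' := fun _ _ => rfl
  inv_mem' := by
    intro σ hσ i b
    rw [Equiv.Perm.inv_eq_iff_eq]
    have h := hσ (σ⁻¹ (i, b)).1 (σ⁻¹ (i, b)).2
    rw [h]
    have h2 : σ ((σ⁻¹ (i, b)).1, (σ⁻¹ (i, b)).2) = (i, b) := σ.apply_symm_apply (i, b)
    rw [h2]

/-- `E` is a Galois extension of `ℚ` whose Galois group is a hyperoctahedral group. (This is so for
the Galois closure of the generic field with complex multiplication of degree `2 n`.) -/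
def HyperoctahedralField (E : IntermediateField ℚ Qbar) : Prop :=
  (∀ γ : Qbar ≃ₐ[ℚ] Qbar, ∀ x ∈ E, γ x ∈ E) ∧ ∃ n : ℕ, Nonempty ((E ≃ₐ[ℚ] E) ≃* Hyp n)

/-- The de Rham-Betti object with period matrix `n` is over `K` a sub-object of the one with
period matrix `c`; `iB` is the matrix of the inclusion on the Betti side. -/
structure IsSubOver {κ ι : Type} [Fintype κ] [DecidableEq κ] [Fintype ι] [DecidableEq ι]
    (K : IntermediateField ℚ ℂ) (c : GL κ ℂ) (n : GL ι ℂ) (iB : Matrix κ ι ℚ) : Prop where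
  inj : ∃ pB : Matrix ι κ ℚ, pB * iB = 1
  dR : ∃ idR : Matrix κ ι K,
    c.1 * idR.map (algebraMap K ℂ) = iB.map (algebraMap ℚ ℂ) * n.1

/-- The block diagonal matrix with blocks `x` and `r`: the period matrix of a direct sum. -/
noncomputable def dsum {ι μ : Type} [Fintype ι] [DecidableEq ι] [Fintype μ] [DecidableEq μ]
    (x : GL ι ℂ) (r : GL μ ℂ) : GL (ι ⊕ μ) ℂ where
  val := Matrix.fromBlocks x.1 0 0 r.1
  inv := Matrix.fromBlocks x⁻¹.1 0 0 r⁻¹.1
  val_inv := by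
    rw [Matrix.fromBlocks_multiply]
    simp only [Matrix.mul_zero, Matrix.zero_mul, add_zero, zero_add, Units.mul_inv]
    exact Matrix.fromBlocks_one
  inv_val := by
    rw [Matrix.fromBlocks_multiply]
    simp only [Matrix.mul_zero, Matrix.zero_mul, add_zero, zero_add, Units.inv_mul]
    exact Matrix.fromBlocks_one

end Pool.Agent.Lib.MPf11a48.CMM
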