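import Pool.Agent.Lib.MP_f11a48_ag.U.StatementL
import Pool.Agent.Lib.MP_f11a48_ag.C.Stmt

/-!
# Motives of complex multiplication type: definitions

Definitions for `Pool/Agent/Results/MP_f11a48_ag/CMMotives.lean`.
-/

set_option autoImplicit false

namespace Pool.Agent.Lib.MPf11a48.CMS

open Matrix MvPolynomial
open Pool.Agent.Lib.MPf11a48.CM hiding OmegaM
open Pool.Agent.Lib.MPf11a48.GL2T
open Pool.Agent.Lib.MPf11a48.U

/-! ## Number fields -/

/-- The absolute Galois group of `ℚ`. -/
def GalQ : Type := Qbar ≃ₐ[ℚ] Qbar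

noncomputable instance : Group GalQ := AlgEquiv.aut (R := ℚ) (A₁ := Qbar)

/-- its action on `Qbar` -/
noncomputable def ap (γ : GalQ) (x : Qbar) : Qbar := (AlgEquiv.toEquiv γ) x

/-- `ρ` is the complex conjugation. -/
def IsConj (ρ : GalQ) : Prop := ∀ x : Qbar, (ap ρ x : ℂ) = (starRingEnd ℂ) (x : ℂ)

/-- `γ` fixes the elements of `L`. -/
def Over (L : IntermediateField ℚ ℂ) (γ : GalQ) : Prop := ∀ x : Qbar, (x : ℂ) ∈ L → ap γ x = x

/-- The subfields of `Qbar`. -/
abbrev Sub : Type := IntermediateField ℚ Qbar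

/-- `γ` fixes the elements of `E`. -/
def Fix (E : Sub) (γ : GalQ) : Prop := ∀ x ∈ E, ap γ x = x

/-- `γ` preserves `E`. -/
def Stab (E : Sub) (γ : GalQ) : Prop := ∀ x ∈ E, ap γ x ∈ E

/-- `E` is a Galois extension of `ℚ` with Galois group `Γ`. -/
def HasGal (E : Sub) (Γ : Type) [Group Γ] : Prop :=
  ∃ π : GalQ →* Γ, Function.Surjective π ∧ ∀ γ, π γ = 1 ↔ Fix E γ

/-- A CM type of `E`: a set of embeddings `γ|E` of `E`, where `γ` is in the absolute Galois group,
which contains exactly one of two complex conjugate embeddings. -/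
def IsType (E : Sub) (ξ : Set GalQ) : Prop :=
  (∀ γ σ, Fix E σ → (γ * σ ∈ ξ ↔ γ ∈ ξ)) ∧ ∀ ρ, IsConj ρ → ∀ γ, (ρ * γ ∈ ξ ↔ γ ∉ ξ)

/-- Every non-zero space `V` of odd functions `f` on the set of the embeddings `γ|E` of `E`, which is
stable under left translations and under right translations by the automorphisms over `L` which
preserve `E`, contains a non-zero function with values in `{0, 1, -1}`. -/
def Flat (L : IntermediateField ℚ ℂ) (E : Sub) : Prop :=
  ∀ V : Submodule ℚ (GalQ → ℚ), V ≠ ⊥ →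
    (∀ f ∈ V, ∀ γ σ, Fix E σ → f (γ * σ) = f γ) →
    (∀ f ∈ V, ∀ ρ, IsConj ρ → ∀ γ, f (ρ * γ) = -f γ) →
    (∀ δ, ∀ f ∈ V, (fun γ => f (δ * γ)) ∈ V) →
    (∀ δ, Over L δ → Stab E δ → ∀ f ∈ V, (fun γ => f (γ * δ)) ∈ V) →
    ∃ f ∈ V, f ≠ 0 ∧ ∀ γ, f γ = 0 ∨ f γ = 1 ∨ f γ = -1

/-- `Γ` is an M-group, i.e. every irreducible representation of `Γ` is monomial: every non-zero space
of complex functions on `Γ` which is stable under left translations contains functions
`b_0, …, b_m`, linearly independent, such that every translate of every `b_i` is a multiple of some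
`b_j`. (Every irreducible representation is isomorphic to a space of functions.) -/
def MGroup (Γ : Type) [Group Γ] : Prop :=
  ∀ V : Submodule ℂ (Γ → ℂ), V ≠ ⊥ → (∀ g, ∀ f ∈ V, (fun x => f (g * x)) ∈ V) →
    ∃ (m : ℕ) (b : Fin (m + 1) → Γ → ℂ), LinearIndependent ℂ b ∧ (∀ i, b i ∈ V) ∧
      ∀ g i, ∃ (j : Fin (m + 1)) (t : ℂ), (fun x => b i (g * x)) = t • b j

/-- The hyperoctahedral group of order `2^n n!`, as the group of all permutations of
`{1, …, n} × {±1}` which commute with the change of sign. -/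
def Hyp (n : ℕ) : Subgroup (Equiv.Perm (Fin n × Bool)) where
  carrier := {σ | ∀ i b, σ (i, !b) = ((σ (i, b)).1, !(σ (i, b)).2)}
  mul_mem' := by
    intro σ τ hσ hτ i b
    rw [Equiv.Perm.mul_apply, Equiv.Perm.mul_apply, hτ i b]
    exact hσ _ _
  one_mem' := fun _ _ => rfl
  inv_mem' := by
    intro σ hσ i b
    rw [Equiv.Perm.inv_eq_iff_eq]
    have h := hσ (σ⁻¹ (i, b)).1 (σ⁻¹ (i, b)).2
    rw [h]
    have h2 : σ ((σ⁻¹ (i, b)).1, (σ⁻¹ (i, b)).2) = (i, b) := σ.apply_symm_apply (i, b)
    rw [h2]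

/-- `E` is a number field with one of the following properties: `Flat L E`; `E` is an abelian
extension of `ℚ`; `L = ℚ` and `E` is a Galois extension of `ℚ` whose Galois group is an M-group (for
example metabelian) or a hyperoctahedral group (for example the Galois closure of a generic CM
field). -/
def Good (L : IntermediateField ℚ ℂ) (E : Sub) : Prop :=
  FiniteDimensional ℚ E ∧ (Flat L E ∨ ∃ (Γ : Type) (_ : Group Γ), HasGal E Γ ∧
    ((∀ a b : Γ, a * b = b * a) ∨ L = ⊥ ∧ (MGroup Γ ∨ ∃ n, Nonempty (Γ ≃* Hyp n))))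

/-! ## Abelian varieties -/

section Rel

variable {ι : Type} [Fintype ι] [DecidableEq ι] {c : Matrix ι ι ℂ}

/-- `γ ∘ s` -/
noncomputable def act (γ : GalQ) (s : EmbC c) : EmbC c := (AlgEquiv.toAlgHom γ).comp s

open scoped Classical in
/-- `χ` is supported on the embeddings of the centre which are not real, and is a relation between
the (generalised) CM types, i.e. a character which is trivial on the Mumford-Tate group: for every
`γ` the sum of the `χ s` for all `s` with `γ s ∈ T` is `0`. -/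
def HodgeRel (ψ : Matrix ι ι ℚ) (T : Set (EmbC c)) (χ : EmbC c → ℤ) : Prop :=
  (∀ s, IsBar ψ s s → χ s = 0) ∧
    ∀ γ : GalQ, (∑ s : EmbC c, if act γ s ∈ T then χ s else 0) = 0

/-- `v` is an eigenvector of the centre (acting on rows) with eigenvalue `s`. -/
def Eig (s : EmbC c) (v : ι → ℂ) : Prop :=
  ∀ z : CenAlg c, v ᵥ* z.1.map (fun x => (x : ℂ)) = ((s z : Qbar) : ℂ) • v

/-- The matrix `x`, which acts as a scalar `u s` on the eigenvectors of the centre, for all
embeddings `s` which are not real, satisfies all relations between the CM types: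
`∏ u s ^ χ s = 1`. -/
def RelOK (ψ : Matrix ι ι ℚ) (T : Set (EmbC c)) (x : Matrix ι ι ℂ) : Prop :=
  ∀ χ : EmbC c → ℤ, HodgeRel ψ T χ → ∀ u : EmbC c → ℂ,
    (∀ s, ¬ IsBar ψ s s → ∀ v, Eig s v → v ᵥ* x = u s • v) → ∏ s : EmbC c, u s ^ χ s = 1

end Rel

section AbVar

variable {g N : ℕ}

/-- The embeddings of the centre of the algebra of endomorphisms which occur in the tangent space of
the abelian variety `A` at `0`. -/
def Tan (A : AbData g N) (c : Matrix (Ix g) (Ix g) ℂ) : Set (EmbC c) :=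
  {s | ∃ v : Ix g → ℂ, Eig s v ∧ ∑ l, v l • A.lat l ≠ 0}

/-- The reflex fields of the simple factors of `A` with complex multiplication are contained in `E`,
and every CM type of `E` occurs. (`Tan A c` is the union of the CM types of the simple factors with
complex multiplication and all real embeddings.) -/
structure AllTypes (A : AbData g N) (c : Matrix (Ix g) (Ix g) ℂ) (E : Sub) : Prop where
  reflex : ∀ s : EmbC c, ¬ IsBar A.psi s s → ∀ γ, Fix E γ → (act γ s ∈ Tan A c ↔ s ∈ Tan A c)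
  all : ∀ ξ, IsType E ξ → ∃ s : EmbC c, ¬ IsBar A.psi s s ∧ ∀ γ, act γ s ∈ Tan A c ↔ γ⁻¹ ∈ ξ

/-- The complex points `(x, z)` of the Mumford-Tate group of `h^1(A)` (if the simple factors of `A`
are of `GL_2`-type, with real or quaternion multiplication, or have complex multiplication): `x` is
compatible with the endomorphisms and with the polarisation, up to the factor `z`, and its
eigenvalues satisfy the relations between the CM types. -/
def MT (A : AbData g N) (c : GL (Ix g) ℂ) : Set (GL (Ix g) ℂ × ℂˣ) :=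
  {y | (∀ Z ∈ EndAlg c.1, y.1.1 * Z.map (fun x => (x : ℂ)) = Z.map (fun x => (x : ℂ)) * y.1.1) ∧
    y.1.1ᵀ * A.psi.map (fun x => (x : ℂ)) * y.1.1 = (y.2 : ℂ) • A.psi.map (fun x => (x : ℂ)) ∧
    RelOK A.psi (Tan A c.1) y.1.1}

/-- The de Rham-Betti classes over `L` of `h^1(A)` with Betti tensor `ψ⁻¹ ⊗ ψ`, where `ψ` is the
polarisation, or in a tensor power of the algebra of the endomorphisms of `A` over `Qbar`. -/
def Basic (A : AbData g N) (c : GL (Ix g) ℂ) (L : IntermediateField ℚ ℂ) :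
    Set (TPair L (Ix g)) :=
  {α | Fixes c α ∧
    ((∃ dR, α = ⟨2, 2, dR, fun J => A.psi⁻¹ (J.1 0) (J.1 1) * A.psi (J.2 0) (J.2 1)⟩) ∨
      ∃ n dR B, α = ⟨n, n, dR, B⟩ ∧ B ∈ Submodule.span ℚ
        {t | ∃ β : Fin n → Matrix (Ix g) (Ix g) ℚ, (∀ k, β k ∈ EndAlg c.1) ∧
          t = fun J => ∏ k, β k (J.1 k) (J.2 k)})}

end AbVar

/-! ## Objects -/

section Obj

variable {κ ι : Type} [Fintype κ] [DecidableEq κ] [Fintype ι] [DecidableEq ι]

/-- The de Rham-Betti object with period matrix `n` is over `L` a sub-object of the one with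
period matrix `c`; `iB` is the matrix of the inclusion on the Betti side. -/
structure IsSubOver (L : IntermediateField ℚ ℂ) (c : GL κ ℂ) (n : GL ι ℂ) (iB : Matrix κ ι ℚ) :
    Prop where
  inj : ∃ pB : Matrix ι κ ℚ, pB * iB = 1
  dR : ∃ idR : Matrix κ ι L,
    c.1 * idR.map (fun x => (x : ℂ)) = iB.map (fun x => (x : ℂ)) * n.1

/-- The block diagonal matrix with blocks `x` and `r`: the period matrix of a direct sum. -/
noncomputable def dsum {μ : Type} [Fintype μ] [DecidableEq μ] (x : GL ι ℂ) (r : GL μ ℂ) :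
    GL (ι ⊕ μ) ℂ where
  val := Matrix.fromBlocks x.1 0 0 r.1
  inv := Matrix.fromBlocks x⁻¹.1 0 0 r⁻¹.1
  val_inv := by
    rw [Matrix.fromBlocks_multiply]
    simp only [Matrix.mul_zero, Matrix.zero_mul, add_zero, zero_add, Units.mul_inv]
    exact Matrix.fromBlocks_one
  inv_val := by
    rw [Matrix.fromBlocks_multiply]
    simp only [Matrix.mul_zero, Matrix.zero_mul, add_zero, zero_add, Units.inv_mul]
    exact Matrix.fromBlocks_one

/-- Let `T` be a tensor construction, given by a representation of `GL × G_m`, and let `N` be a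
sub-object of `T(h^1(A) ⊕ R, ℚ(-1))`, where the periods of `R` are algebraic, with inclusion `iB` on
the Betti side. Then `f` is in the image of the Mumford-Tate group of `h^1(A)` in the automorphisms
of the Betti side of `N`: `f` is a complex point of the Mumford-Tate group of `N`. -/
def MTSub {g N k : ℕ} (A : AbData g N) (c : GL (Ix g) ℂ)
    (T : GL (Ix g ⊕ Fin k) ℂ × ℂˣ → GL κ ℂ) (iB : Matrix κ ι ℚ) : Set (GL ι ℂ) :=
  {f | ∃ y ∈ MT A c, (T (dsum y.1 1, y.2)).1 * iB.map (fun x => (x : ℂ)) =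
    iB.map (fun x => (x : ℂ)) * f.1}

end Obj

end Pool.Agent.Lib.MPf11a48.CMS
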