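import Pool.Agent.Lib.MP_f11a48_ag.CMM.Spec
import Pool.Agent.Lib.MP_f11a48_ag.U.Final

/-!
# Motives of complex multiplication type: the theorem, from the Specs
-/

set_option autoImplicit false

namespace Pool.Agent.Lib.MPf11a48.CMM

open Matrix MvPolynomial
open Pool.Agent.Lib.MPf11a48.CM hiding OmegaM
open Pool.Agent.Lib.MPf11a48.GL2T
open Pool.Agent.Lib.MPf11a48.U
open Pool.Agent.Lib.MPf11a48.K3 (cx)

namespace FinM

variable {g N : ℕ}

theorem compat {A : AbData g N} {c : GL (Ix g) ℂ} {y : GL (Ix g) ℂ × ℂˣ} (hy : y ∈ LefG A c) :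
    Compat c.1 (y.1 * c).1 := by
  intro B B' hB' h
  have h1 := hy.1 B ⟨B', hB', h⟩
  change y.1.1 * c.1 * B' = _ * (y.1.1 * c.1)
  rw [Matrix.mul_assoc, h, ← Matrix.mul_assoc]
  change y.1.1 * cx B * c.1 = cx B * (y.1.1 * c.1)
  rw [h1, Matrix.mul_assoc]

theorem mult {A : AbData g N} {c : GL (Ix g) ℂ} {y : GL (Ix g) ℂ × ℂˣ} (hy : y ∈ LefG A c) :
    ∃ μ : ℂ, (y.1 * c).1ᵀ * mC A.psi * (y.1 * c).1 = μ • (c.1ᵀ * mC A.psi * c.1) := by
  refine ⟨y.2, ?_⟩
  have h1 := hy.2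
  change (y.1.1 * c.1)ᵀ * cx A.psi * (y.1.1 * c.1) = _ • (c.1ᵀ * cx A.psi * c.1)
  calc (y.1.1 * c.1)ᵀ * cx A.psi * (y.1.1 * c.1) =
      c.1ᵀ * (y.1.1ᵀ * cx A.psi * y.1.1) * c.1 := by
        rw [Matrix.transpose_mul]
        simp only [Matrix.mul_assoc]
    _ = _ := by rw [h1, Matrix.mul_smul, Matrix.smul_mul]

end FinM

open FinM in
theorem statementM_of (hFle : SpecFle) (hTyp : SpecTyp) (hTan : SpecTan) (hHcl : SpecHcl)
    (hRepr : SpecRepr) (hTenm : SpecTenm) : StatementM := by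
  intro g N A c 𝓖 hg hA hc hGL h𝓖
  obtain ⟨⟨J, hJ⟩, -⟩ := hda' specTL' Qbar g N A c le_rfl hA hc
  refine hTenm g N A c 𝓖 hg hA hc fun y hy => ?_
  rcases h𝓖 with ⟨rfl, hsep⟩ | ⟨rfl, ⟨S, hS, hcut⟩, E, hE, hfl, htypes⟩
  · refine ⟨?_, hy.2⟩
    have hSep : Separated c.1 A.psi := by
      rcases hsep with h | h
      · exact h
      · have hBIC : SpecBIC := BicM.specBIC specLIN specDER specSIM
        obtain ⟨S⟩ := StrM.specSTR hBIC specWED c J _ hJ hGL
        exact separated_of_listedCentre hBIC hJ S h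
    exact rep' c J _ hJ hGL hSep _ (compat hy) (mult hy)
  · refine ⟨?_, hy.1.2⟩
    have hH := hTan Qbar g N A c le_rfl hA hc hGL
    have hflat : Flat E := hfl.elim id (hFle E hE)
    have hsepR := hTyp (Ix g) c.1 A.psi (Tan A c.1) E hE hH hflat htypes.reflex htypes.all
    have hLie : LieRel c A.psi (Tan A c.1) := by
      refine hHcl (Ix g) c A.psi (Tan A c.1) S hS fun f hf => ?_
      obtain ⟨x, hx, rfl⟩ := hcut f hf
      rw [mul_inv_cancel_right]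
      exact hx.2
    refine hRepr (Ix g) c J A.psi (Tan A c.1) hJ hGL hH hsepR hLie _ (compat hy.1) (mult hy.1) ?_
    rw [mul_inv_cancel_right]
    exact hy.2

end Pool.Agent.Lib.MPf11a48.CMM
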