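import Pool.Agent.Lib.MP_f11a48_ag.CMM.SpecN
import Pool.Agent.Lib.MP_f11a48_ag.U.Final2
import Pool.Agent.Lib.MP_f11a48_ag.helper17.AutC

/-!
# Module GALN: the action of the automorphisms of `ℂ` over `K` on the centre
-/

set_option autoImplicit false

namespace Pool.Agent.Lib.MPf11a48.CMM

open Matrix MvPolynomial
open Pool.Agent.Lib.MPf11a48.CM hiding OmegaM
open Pool.Agent.Lib.MPf11a48.GL2T
open Pool.Agent.Lib.MPf11a48.U
open Pool.Agent.Lib.MPf11a48.Tors (FixesField)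
open Pool.Agent.Lib.MPf11a48.K3 (cx)

namespace GalnM

variable {ι : Type} [Fintype ι] [DecidableEq ι]

/-- the restriction of an automorphism of `ℂ` to `Qbar` -/
noncomputable def res (τ : ℂ ≃+* ℂ) : Qbar ≃ₐ[ℚ] Qbar :=
  (AlgEquiv.ofRingEquiv (f := τ) (fun r => by simp) : ℂ ≃ₐ[ℚ] ℂ).restrictNormal Qbar

theorem res_apply (τ : ℂ ≃+* ℂ) (z : Qbar) : ((res τ z : Qbar) : ℂ) = τ (z : ℂ) :=
  AlgEquiv.restrictNormal_commutes _ Qbar z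

theorem map_mem_Qbar (τ : ℂ ≃+* ℂ) {z : ℂ} (hz : z ∈ Qbar) : τ z ∈ Qbar := by
  have := (res τ ⟨z, hz⟩).2
  rw [res_apply] at this
  exact this

theorem mC_map (τ : ℂ ≃+* ℂ) {m n : Type} (B : Matrix m n ℚ) : (mC B).map τ = mC B := by
  ext i j
  simp

omit [DecidableEq ι] in
theorem map_mul' (τ : ℂ ≃+* ℂ) (X Y : Matrix ι ι ℂ) : (X * Y).map τ = X.map τ * Y.map τ :=
  Matrix.map_mul (f := (τ : ℂ →+* ℂ))

omit [DecidableEq ι] in
theorem map_vecMul' (τ : ℂ ≃+* ℂ) (v : ι → ℂ) (X : Matrix ι ι ℂ) :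
    (fun i => τ ((v ᵥ* X) i)) = (fun i => τ (v i)) ᵥ* X.map τ := by
  funext i
  simp [Matrix.vecMul, dotProduct]

theorem twg_val (τ : ℂ ≃+* ℂ) (c : GL ι ℂ) : (twg τ c).1 = c.1.map τ * c⁻¹.1 := rfl

theorem inv_mul' (u : GL ι ℂ) : u⁻¹.1 * u.1 = 1 := Units.inv_mul u

theorem mul_inv' (u : GL ι ℂ) : u.1 * u⁻¹.1 = 1 := Units.mul_inv u

/-! ### Conjugation of rational matrices -/

/-- `g x g⁻¹ = y`, for rational matrices `x`, `y` -/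
def Rel (g : GL ι ℂ) (x y : Matrix ι ι ℚ) : Prop := g.1 * mC x = mC y * g.1

theorem Rel.inv {g : GL ι ℂ} {x y : Matrix ι ι ℚ} (h : Rel g x y) : Rel g⁻¹ y x := by
  have h1 : g⁻¹.1 * (g.1 * mC x) * g⁻¹.1 = g⁻¹.1 * (mC y * g.1) * g⁻¹.1 := by rw [h]
  rw [← Matrix.mul_assoc, inv_mul', Matrix.one_mul, Matrix.mul_assoc, Matrix.mul_assoc,
    mul_inv', Matrix.mul_one] at h1
  exact h1.symm

theorem Rel.inv' {g : GL ι ℂ} {x y : Matrix ι ι ℚ} (h : Rel g⁻¹ x y) : Rel g y x := by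
  have := h.inv
  rwa [inv_inv] at this

theorem Rel.unique {g : GL ι ℂ} {x y y' : Matrix ι ι ℚ} (h : Rel g x y) (h' : Rel g x y') :
    y = y' := by
  apply BicM.mC_inj
  have h1 : mC y * g.1 * g⁻¹.1 = mC y' * g.1 * g⁻¹.1 := by rw [← h, ← h']
  rwa [Matrix.mul_assoc, Matrix.mul_assoc, mul_inv', Matrix.mul_one, Matrix.mul_one] at h1

theorem Rel.mul {g : GL ι ℂ} {x y x' y' : Matrix ι ι ℚ} (h : Rel g x y) (h' : Rel g x' y') :
    Rel g (x * x') (y * y') := by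
  rw [Rel, BicM.mC_mul, BicM.mC_mul, ← Matrix.mul_assoc, h, Matrix.mul_assoc, h',
    Matrix.mul_assoc]

omit [Fintype ι] [DecidableEq ι] in
theorem mC_add (x y : Matrix ι ι ℚ) : mC (x + y) = mC x + mC y := by
  ext i j
  simp

theorem Rel.add {g : GL ι ℂ} {x y x' y' : Matrix ι ι ℚ} (h : Rel g x y) (h' : Rel g x' y') :
    Rel g (x + x') (y + y') := by
  rw [Rel] at h h' ⊢
  rw [mC_add, mC_add, Matrix.mul_add, Matrix.add_mul, h, h']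

theorem rel_smul_one (g : GL ι ℂ) (r : ℚ) :
    Rel g (r • (1 : Matrix ι ι ℚ)) (r • (1 : Matrix ι ι ℚ)) := by
  have h1 : mC (r • (1 : Matrix ι ι ℚ)) = (r : ℂ) • (1 : Matrix ι ι ℂ) := by
    ext i j
    by_cases hij : i = j
    · subst hij
      simp
    · simp [hij]
  rw [Rel, h1, Matrix.mul_smul, Matrix.smul_mul, Matrix.mul_one, Matrix.one_mul]

theorem Rel.adj {g : GL ι ℂ} {ψ : Matrix ι ι ℚ} (hdet : ψ.det ≠ 0) {ζ : ℂ}
    (hg : g.1ᵀ * mC ψ * g.1 = ζ • mC ψ) {x y : Matrix ι ι ℚ} (h : Rel g x y) :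
    Rel g (adj ψ x) (adj ψ y) := by
  have e1 : ∀ x : Matrix ι ι ℚ, mC (U.adj ψ x) = mC ψ⁻¹ * (mC x)ᵀ * mC ψ := fun x => by
    rw [U.adj, BicM.mC_mul, BicM.mC_mul, BicM.mC_transpose]
  have e2 : g.1ᵀ * (mC y)ᵀ = (mC x)ᵀ * g.1ᵀ := by
    rw [← Matrix.transpose_mul, ← Matrix.transpose_mul, h]
  have e3 : (g.1ᵀ * mC ψ) * (g.1 * mC (U.adj ψ x)) = (g.1ᵀ * mC ψ) * (mC (U.adj ψ y) * g.1) := by
    rw [← Matrix.mul_assoc, hg, e1, e1, Matrix.smul_mul]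
    simp only [← Matrix.mul_assoc]
    rw [BicM.mC_mul_inv hdet, Matrix.one_mul, Matrix.mul_assoc g.1ᵀ (mC ψ) (mC ψ⁻¹),
      BicM.mC_mul_inv hdet, Matrix.mul_one, e2]
    rw [Matrix.mul_assoc (mC x)ᵀ g.1ᵀ (mC ψ), Matrix.mul_assoc (mC x)ᵀ _ g.1, hg,
      Matrix.mul_smul]
  have e4 : (mC ψ⁻¹ * (g⁻¹.1)ᵀ) * (g.1ᵀ * mC ψ) = 1 := by
    rw [Matrix.mul_assoc, ← Matrix.mul_assoc (g⁻¹.1)ᵀ, ← Matrix.transpose_mul, mul_inv',
      Matrix.transpose_one, Matrix.one_mul, BicM.mC_inv_mul hdet]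
  have e5 : ∀ X : Matrix ι ι ℂ, (mC ψ⁻¹ * (g⁻¹.1)ᵀ) * ((g.1ᵀ * mC ψ) * X) = X := fun X => by
    rw [← Matrix.mul_assoc, e4, Matrix.one_mul]
  rw [Rel, ← e5 (g.1 * _), e3, e5]

/-! ### Endomorphisms -/

theorem end_up {K : IntermediateField ℚ ℂ} {c : GL ι ℂ} (hG : GalStable K c) {τ : ℂ ≃+* ℂ}
    (hτ : FixesField K τ) {B : Matrix ι ι ℚ} (hB : B ∈ EndAlg c.1) :
    ∃ B₂ ∈ EndAlg c.1, Rel (twg τ c) B₂ B := by
  obtain ⟨B', hB', h⟩ := hB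
  obtain ⟨B₂, h2⟩ := hG τ hτ B B' hB' h
  refine ⟨B₂, ⟨B'.map τ, fun i j => map_mem_Qbar τ (hB' i j), h2⟩, ?_⟩
  have h3 : c.1.map τ * B'.map τ = mC B * c.1.map τ := by
    rw [← map_mul', h]
    change (mC B * c.1).map τ = _
    rw [map_mul', mC_map]
  have h5 : c⁻¹.1 * mC B₂ = B'.map τ * c⁻¹.1 := by
    have h6 : c⁻¹.1 * (mC B₂ * c.1) * c⁻¹.1 = c⁻¹.1 * (c.1 * B'.map τ) * c⁻¹.1 := by rw [h2]
    rw [← Matrix.mul_assoc, ← Matrix.mul_assoc, inv_mul', Matrix.one_mul, Matrix.mul_assoc,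
      mul_inv', Matrix.mul_one] at h6
    exact h6
  rw [Rel, twg_val, Matrix.mul_assoc, h5, ← Matrix.mul_assoc, h3, Matrix.mul_assoc]

theorem tw_twg (τ : ℂ ≃+* ℂ) (c : GL ι ℂ) : Tors.tw τ (twg τ.symm c) = (twg τ c)⁻¹ := by
  rw [twg, twg, map_mul, Tors.tw_tw_symm, map_inv, _root_.mul_inv_rev, inv_inv]

theorem rel_tw {τ : ℂ ≃+* ℂ} {g : GL ι ℂ} {x y : Matrix ι ι ℚ} (h : Rel g x y) :
    Rel (Tors.tw τ g) x y := by
  have h1 : (g.1 * mC x).map τ = (mC y * g.1).map τ := by rw [h]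
  rw [map_mul', map_mul', mC_map, mC_map] at h1
  exact h1

theorem end_down {K : IntermediateField ℚ ℂ} {c : GL ι ℂ} (hG : GalStable K c) {τ : ℂ ≃+* ℂ}
    (hτ : FixesField K τ) {B : Matrix ι ι ℚ} (hB : B ∈ EndAlg c.1) :
    ∃ B₃ ∈ EndAlg c.1, Rel (twg τ c) B B₃ := by
  obtain ⟨B₃, h3, h4⟩ := end_up hG hτ.symm hB
  refine ⟨B₃, h3, ?_⟩
  have h5 := rel_tw (τ := τ) h4
  rw [tw_twg] at h5
  exact h5.inv'

/-- The centre is contained in the algebra of the endomorphisms. -/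
theorem cen_end {c : GL ι ℂ} {J : Matrix ι ι ℝ} {ψ : Matrix ι ι ℚ} (h : HD c J ψ)
    {z : Matrix ι ι ℚ} (hz : z ∈ CenAlg c.1) : z ∈ EndAlg c.1 := by
  have hBIC : SpecBIC := BicM.specBIC specLIN specDER specSIM
  refine BicM.commutant_mem specLIN specDER fun Z hZ => ?_
  have hZ' : Z ∈ ComAlg c.1 := by
    rw [(hBIC c J ψ h).2]
    exact Algebra.subset_adjoin hZ
  exact ((Subalgebra.mem_centralizer_iff ℚ).1 hz.2 Z hZ').symm

theorem cen_of_rel {c : GL ι ℂ} {u : GL ι ℂ}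
    (hu : ∀ B ∈ EndAlg c.1, ∃ B₂ ∈ EndAlg c.1, Rel u B₂ B) {z z' : Matrix ι ι ℚ}
    (hz : z ∈ CenAlg c.1) (hz' : z' ∈ EndAlg c.1) (h : Rel u z z') : z' ∈ CenAlg c.1 := by
  refine ⟨(Subalgebra.mem_centralizer_iff ℚ).2 fun B hB => ?_,
    (Subalgebra.mem_centralizer_iff ℚ).2 fun x hx => ?_⟩
  · obtain ⟨B₂, hB₂, h2⟩ := hu B hB
    have h3 : B₂ * z = z * B₂ := (Subalgebra.mem_centralizer_iff ℚ).1 hz.1 B₂ hB₂
    have h4 : Rel u (B₂ * z) (B * z') := h2.mul h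
    rw [h3] at h4
    exact h4.unique (h.mul h2)
  · exact ((Subalgebra.mem_centralizer_iff ℚ).1 hx z' hz').symm

theorem exists_kappa {K : IntermediateField ℚ ℂ} {c : GL ι ℂ} {J : Matrix ι ι ℝ}
    {ψ : Matrix ι ι ℚ} (h : HD c J ψ) (hG : GalStable K c) {τ : ℂ ≃+* ℂ} (hτ : FixesField K τ) :
    ∃ κ : CenAlg c.1 ≃ₐ[ℚ] CenAlg c.1, ∀ z : CenAlg c.1, Rel (twg τ c) z.1 (κ z).1 := by
  have h1 : ∀ z : CenAlg c.1, ∃ z' : CenAlg c.1, Rel (twg τ c) z.1 z'.1 := by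
    intro z
    obtain ⟨z', hz', hr⟩ := end_down hG hτ (cen_end h z.2)
    exact ⟨⟨z', cen_of_rel (fun B hB => end_up hG hτ hB) z.2 hz' hr⟩, hr⟩
  have h2 : ∀ z : CenAlg c.1, ∃ z' : CenAlg c.1, Rel (twg τ c) z'.1 z.1 := by
    intro z
    obtain ⟨z', hz', hr⟩ := end_up hG hτ (cen_end h z.2)
    refine ⟨⟨z', cen_of_rel (u := (twg τ c)⁻¹) (fun B hB => ?_) z.2 hz' hr.inv⟩, hr⟩
    obtain ⟨B₃, hB₃, hr'⟩ := end_down hG hτ hB
    exact ⟨B₃, hB₃, hr'.inv⟩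
  choose k hk using h1
  have hkeq : ∀ z z' : CenAlg c.1, Rel (twg τ c) z.1 z'.1 → k z = z' := fun z z' hz =>
    Subtype.ext ((hk z).unique hz)
  let κ : CenAlg c.1 →ₐ[ℚ] CenAlg c.1 :=
    { toFun := k
      map_one' := hkeq _ _ (by
        have := rel_smul_one (twg τ c) 1
        rw [one_smul] at this
        exact this)
      map_mul' := fun x y => hkeq _ _ ((hk x).mul (hk y))
      map_zero' := hkeq _ _ (by
        have := rel_smul_one (twg τ c) 0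
        rw [zero_smul] at this
        exact this)
      map_add' := fun x y => hkeq _ _ ((hk x).add (hk y))
      commutes' := fun r => hkeq _ _ (by
        have := rel_smul_one (twg τ c) r
        rw [← Algebra.algebraMap_eq_smul_one] at this
        exact this) }
  refine ⟨AlgEquiv.ofBijective κ ⟨fun x y hxy => ?_, fun y => ?_⟩, fun z => hk z⟩
  · have hxy' : k x = k y := hxy
    have h3 := (hk x).inv
    rw [hxy'] at h3
    exact Subtype.ext (h3.unique (hk y).inv)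
  · obtain ⟨x, hx⟩ := h2 y
    exact ⟨x, hkeq _ _ hx⟩

/-! ### The polarisation -/

theorem sim {K : IntermediateField ℚ ℂ} {c : GL ι ℂ} {ψdR : Matrix ι ι K} {ψ : Matrix ι ι ℚ}
    (hp : Polarised 1 c ψdR ψ) {τ : ℂ ≃+* ℂ} (hτ : FixesField K τ) :
    ∃ ζ : ℂ, ζ ≠ 0 ∧ (twg τ c).1ᵀ * mC ψ * (twg τ c).1 = ζ • mC ψ := by
  obtain ⟨-, hm⟩ := hp
  set D : Matrix ι ι ℂ := ψdR.map fun a => (a : ℂ) with hD
  set π' : ℂ := (2 * Real.pi * Complex.I) ^ (1 : ℤ) with hπ'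
  have hπ : π' ≠ 0 := zpow_ne_zero _ Complex.two_pi_I_ne_zero
  have h1 : c.1ᵀ * mC ψ * c.1 = π' • D := hm
  have hDτ : D.map τ = D := by
    ext i j
    exact hτ _ (ψdR i j).2
  have h2 : (c.1.map τ)ᵀ * mC ψ * c.1.map τ = τ π' • D := by
    have h3 : (c.1ᵀ * mC ψ * c.1).map τ = (π' • D).map τ := by rw [h1]
    rw [map_mul', map_mul', mC_map, Matrix.transpose_map] at h3
    rw [h3]
    ext i j
    have h4 := congrFun (congrFun hDτ i) j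
    rw [Matrix.map_apply] at h4
    rw [Matrix.map_apply, Matrix.smul_apply, Matrix.smul_apply, smul_eq_mul, smul_eq_mul,
      map_mul, h4]
  have h5 : mC ψ = π' • ((c⁻¹.1)ᵀ * D * c⁻¹.1) := by
    have h6 : (c⁻¹.1)ᵀ * (c.1ᵀ * mC ψ * c.1) * c⁻¹.1 = (c⁻¹.1)ᵀ * (π' • D) * c⁻¹.1 := by rw [h1]
    rw [Matrix.mul_smul, Matrix.smul_mul] at h6
    rw [← h6, ← Matrix.mul_assoc, ← Matrix.mul_assoc, ← Matrix.transpose_mul, mul_inv',
      Matrix.transpose_one, Matrix.one_mul, Matrix.mul_assoc, mul_inv', Matrix.mul_one]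
  refine ⟨τ π' * π'⁻¹, mul_ne_zero ((map_ne_zero τ).2 hπ) (inv_ne_zero hπ), ?_⟩
  have h7 : (twg τ c).1ᵀ * mC ψ * (twg τ c).1 = τ π' • ((c⁻¹.1)ᵀ * D * c⁻¹.1) := by
    rw [twg_val, Matrix.transpose_mul]
    have h8 : (c⁻¹.1)ᵀ * (c.1.map τ)ᵀ * mC ψ * (c.1.map τ * c⁻¹.1) =
        (c⁻¹.1)ᵀ * ((c.1.map τ)ᵀ * mC ψ * c.1.map τ) * c⁻¹.1 := by
      simp only [Matrix.mul_assoc]
    rw [h8, h2, Matrix.mul_smul, Matrix.smul_mul]
  rw [h7]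
  conv_rhs => rw [h5]
  rw [smul_smul, mul_assoc (τ π') π'⁻¹ π', inv_mul_cancel₀ hπ, mul_one]

/-! ### The tangent space -/

section Tangent

variable {g N : ℕ} {A : AbData g N} {c : GL (Ix g) ℂ}

theorem lat_eq (hc : c.1 = A.per) (v : Ix g → ℂ) (j : Fin g) :
    (∑ l, v l • A.lat l) j = (v ᵥ* c.1) (Sum.inl j) := by
  rw [Finset.sum_apply, hc]
  simp [Matrix.vecMul, dotProduct, AbData.per]

theorem lat_ne_iff (hc : c.1 = A.per) (τ : ℂ ≃+* ℂ) {v w : Ix g → ℂ}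
    (hw : w = (fun i => τ (v i)) ᵥ* (twg τ c).1) :
    ∑ l, w l • A.lat l ≠ 0 ↔ ∑ l, v l • A.lat l ≠ 0 := by
  have h1 : w ᵥ* c.1 = fun i => τ ((v ᵥ* c.1) i) := by
    rw [map_vecMul', hw, Matrix.vecMul_vecMul, twg_val, Matrix.mul_assoc, inv_mul',
      Matrix.mul_one]
  have h2 : ∀ j, (∑ l, w l • A.lat l) j = τ ((∑ l, v l • A.lat l) j) := by
    intro j
    rw [lat_eq hc, lat_eq hc, h1]
  refine not_congr ⟨fun h => ?_, fun h => ?_⟩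
  · funext j
    have h3 := h2 j
    rw [h, Pi.zero_apply] at h3
    exact (map_eq_zero τ).1 h3.symm
  · funext j
    rw [h2, h, Pi.zero_apply, map_zero]

theorem eig_iff {τ : ℂ ≃+* ℂ} {γ : Qbar ≃ₐ[ℚ] Qbar}
    (hγ : ∀ z : Qbar, ((γ z : Qbar) : ℂ) = τ (z : ℂ)) {κ : CenAlg c.1 ≃ₐ[ℚ] CenAlg c.1}
    (hκ : ∀ z : CenAlg c.1, Rel (twg τ c) z.1 (κ z).1) (s : EmbC c.1) {v w : Ix g → ℂ}
    (hw : w = (fun i => τ (v i)) ᵥ* (twg τ c).1) :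
    Eig ((γ.toAlgHom.comp s).comp κ.toAlgHom) w ↔ Eig s v := by
  have h1 : ∀ z : CenAlg c.1, w ᵥ* cx z.1 =
      (fun i => τ ((v ᵥ* cx (κ z).1) i)) ᵥ* (twg τ c).1 := by
    intro z
    rw [map_vecMul']
    have h2 : (cx (κ z).1).map τ = mC (κ z).1 := mC_map τ _
    have h3 : (twg τ c).1 * cx z.1 = mC (κ z).1 * (twg τ c).1 := hκ z
    rw [h2, Matrix.vecMul_vecMul, hw, Matrix.vecMul_vecMul, h3]
  have h2 : ∀ z : CenAlg c.1,
      ((((γ.toAlgHom.comp s).comp κ.toAlgHom) z : Qbar) : ℂ) • w =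
        (fun i => τ ((((s (κ z) : Qbar) : ℂ) • v) i)) ᵥ* (twg τ c).1 := by
    intro z
    have h3 : ((((γ.toAlgHom.comp s).comp κ.toAlgHom) z : Qbar) : ℂ) =
        τ ((s (κ z) : Qbar) : ℂ) := hγ _
    have h4 : (fun i => τ ((((s (κ z) : Qbar) : ℂ) • v) i)) =
        τ ((s (κ z) : Qbar) : ℂ) • fun i => τ (v i) := by
      funext i
      simp
    rw [h3, h4, Matrix.smul_vecMul, hw]
  have hinj : ∀ a b : Ix g → ℂ, (fun i => τ (a i)) ᵥ* (twg τ c).1 =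
      (fun i => τ (b i)) ᵥ* (twg τ c).1 ↔ a = b := by
    intro a b
    refine ⟨fun h => ?_, fun h => by rw [h]⟩
    have h3 := congrArg (fun x => x ᵥ* (twg τ c)⁻¹.1) h
    simp only [Matrix.vecMul_vecMul, mul_inv', Matrix.vecMul_one] at h3
    funext i
    exact τ.injective (congrFun h3 i)
  constructor
  · intro h z
    obtain ⟨z, rfl⟩ := κ.surjective z
    have h3 := h z
    rw [h1, h2, hinj] at h3
    exact h3
  · intro h z
    rw [h1, h2, hinj]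
    exact h (κ z)

theorem tan_iff (hc : c.1 = A.per) {τ : ℂ ≃+* ℂ} {γ : Qbar ≃ₐ[ℚ] Qbar}
    (hγ : ∀ z : Qbar, ((γ z : Qbar) : ℂ) = τ (z : ℂ)) {κ : CenAlg c.1 ≃ₐ[ℚ] CenAlg c.1}
    (hκ : ∀ z : CenAlg c.1, Rel (twg τ c) z.1 (κ z).1) (s : EmbC c.1) :
    (γ.toAlgHom.comp s).comp κ.toAlgHom ∈ Tan A c.1 ↔ s ∈ Tan A c.1 := by
  constructor
  · rintro ⟨w, hw, hne⟩
    have hv : w = (fun i => τ ((fun j => τ.symm ((w ᵥ* (twg τ c)⁻¹.1) j)) i)) ᵥ*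
        (twg τ c).1 := by
      simp only [RingEquiv.apply_symm_apply]
      change w = (w ᵥ* (twg τ c)⁻¹.1) ᵥ* (twg τ c).1
      rw [Matrix.vecMul_vecMul, inv_mul', Matrix.vecMul_one]
    exact ⟨_, (eig_iff hγ hκ s hv).1 hw, (lat_ne_iff hc τ hv).1 hne⟩
  · rintro ⟨v, hv, hne⟩
    exact ⟨_, (eig_iff hγ hκ s rfl).2 hv, (lat_ne_iff hc τ rfl).2 hne⟩

end Tangent

end GalnM

open GalnM in
theorem specGaln : SpecGaln := by
  intro K g N A c hK hA hc hGL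
  have hG : GalStable K c := gal' K g N A c hK hA hc
  obtain ⟨⟨J, hJ⟩, -⟩ := hda' specTL' K g N A c hK hA hc
  obtain ⟨ψdR, hpol⟩ := specLEG K g N A c hK hA hc
  have hJ' : HD c J A.psi := hJ
  have hpol' : Polarised 1 c ψdR A.psi := hpol
  have hbar : ∀ κ ∈ RGal K c, ∀ s s' : EmbC c.1, IsBar A.psi s s' →
      IsBar A.psi (s.comp κ.toAlgHom) (s'.comp κ.toAlgHom) := by
    rintro κ ⟨τ, hτ, hκ⟩ s s' hs z z' hz
    obtain ⟨ζ, -, hζ⟩ := sim hpol' hτ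
    refine hs (κ z) (κ z') ?_
    have h1 : Rel (twg τ c) z.1 (κ z).1 := hκ z
    have h2 := h1.adj hJ'.det hζ
    rw [← hz] at h2
    have h3 : Rel (twg τ c) z'.1 (κ z').1 := hκ z'
    exact h3.unique h2
  refine ⟨?_, hbar, ?_, fun τ hτ => sim hpol' hτ⟩
  · intro γ hγ
    obtain ⟨τ, hτ⟩ := AutC.exists_extend_Qbar γ
    have hτK : FixesField K τ := by
      intro y hy
      have h1 := hτ ⟨y, hK hy⟩
      rw [hγ ⟨y, hK hy⟩ hy] at h1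
      exact h1
    obtain ⟨κ, hκ⟩ := exists_kappa hJ' hG hτK
    exact ⟨κ, ⟨τ, hτK, hκ⟩, fun s => tan_iff hc (fun z => (hτ z).symm) hκ s⟩
  · rintro κ ⟨τ, hτ, hκ⟩ f ⟨hf, hf'⟩
    refine ⟨fun s s' hs => hf _ _ (hbar κ ⟨τ, hτ, hκ⟩ s s' hs), fun γ₁ => ?_⟩
    classical
    have h1 := hf' (γ₁.trans (res τ))
    let e : EmbC c.1 ≃ EmbC c.1 :=
      { toFun := fun s => s.comp κ.toAlgHom
        invFun := fun s => s.comp κ.symm.toAlgHom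
        left_inv := fun s => by
          ext z
          simp
        right_inv := fun s => by
          ext z
          simp }
    rw [← Equiv.sum_comp e] at h1
    refine (Finset.sum_congr rfl fun s _ => ?_).trans h1
    have h2 : (γ₁.trans (res τ)).toAlgHom.comp (e s) =
        ((res τ).toAlgHom.comp (γ₁.toAlgHom.comp s)).comp κ.toAlgHom := rfl
    have h3 := tan_iff hc (fun z => res_apply τ z) hκ (γ₁.toAlgHom.comp s)
    rw [h2]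
    by_cases h4 : γ₁.toAlgHom.comp s ∈ Tan A c.1
    · rw [if_pos h4, if_pos (h3.2 h4)]
      rfl
    · rw [if_neg h4, if_neg (fun h5 => h4 (h3.1 h5))]

end Pool.Agent.Lib.MPf11a48.CMM
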