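import Pool.Agent.Lib.MP_f11a48_ag.CMM.AllN

/-!
# The final theorem
-/

set_option autoImplicit false

namespace Pool.Agent.Lib.MPf11a48.CMM

open Matrix MvPolynomial
open Pool.Agent.Lib.MPf11a48.CM hiding OmegaM
open Pool.Agent.Lib.MPf11a48.GL2T
open Pool.Agent.Lib.MPf11a48.U
open Pool.Agent.Lib.MPf11a48.C (IsRep imG tpi)
open Pool.Agent.Lib.MPf11a48.Tors (OmegaM)

theorem mainR (g N : ℕ) (hg : 0 < g) (A : AbData g N) (L : IntermediateField ℚ ℂ) (hL : L ≤ Qbar)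
    (hA : A.IsAbVar L) (c : GL (Ix g) ℂ) (hc : c.1 = A.per) :
    (∀ B ∈ EndAlg c.1, A.IsEndo B) ∧
    (GL2Like c.1 A.psi →
      ((Separated c.1 A.psi ∨ ListedCentre c.1) ∨
        (∃ S₀ : Set (TPair Qbar (Ix g)), (∀ α ∈ S₀, Fixes c α) ∧
          ∀ f ∈ OmegaS S₀, ∃ y ∈ MTG A c, f = y.1 * c) ∧
        ∃ E : IntermediateField ℚ Qbar, GoodReflex L E ∧ AllTypes A c.1 E) →
      ∀ (k : ℕ) (r : GL (Fin k) ℂ), IsAlg r.1 → ∀ K : IntermediateField ℚ ℂ, K ≤ L →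
      ∀ (κ ι : Type) [Fintype κ] [DecidableEq κ] [Fintype ι] [DecidableEq ι]
        (T : GL (Ix g ⊕ Fin k) ℂ × ℂˣ → GL κ ℂ), IsRep T → ∀ (n : GL ι ℂ) (iB : Matrix κ ι ℚ),
      IsSubOver L (T (dsum c r, tpi)) n iB →
        (∀ y ∈ MTG A c, ∃ f : GL ι ℂ, (T (dsum y.1 1, y.2)).1 * iB.map (algebraMap ℚ ℂ) =
          iB.map (algebraMap ℚ ℂ) * f.1) ∧
        (∀ f ∈ MTSub A c T iB, ∀ h, Conj K (f * n) h → h ∈ OmegaDRB K n) ∧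
        ∀ S : Set (TPair K ι), (∀ α ∈ S, Fixes n α) →
          (∀ h ∈ OmegaS S, ∃ f ∈ MTSub A c T iB, Conj K (f * n) h) →
          OmegaDRB K n = OmegaS S ∧ (K = ⊥ → OmegaM K n = OmegaS S)) ∧
    (GL2Like c.1 A.psi → Separated c.1 A.psi ∨ ListedCentre c.1 →
      ∃ ψdR : Matrix (Ix g) (Ix g) L, Polarised 1 c ψdR A.psi ∧
        ∀ S : Set (TPair L (Ix g)), (∀ α ∈ S, Fixes c α) → polPair ψdR A.psi ∈ S →
          endTensors L c ⊆ S → OmegaDRB L c = OmegaS S ∧ (L = ⊥ → OmegaM L c = OmegaS S)) := by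
  obtain ⟨h1, ψdR, h2, h3⟩ := mainU2 L hL g N A hA c hc
  refine ⟨h1, ?_, fun hGL hsep => ⟨ψdR, h2, fun S hS hp hE =>
    (h3 hGL hsep).2 S hS hp (Or.inl hE)⟩⟩
  rintro hGL hab k r hr K hK κ ι _ _ _ _ T hT n iB hN
  have hmt : ∀ y ∈ MTG A c, y ∈ LefG A c := fun y hy => hy.1
  rcases hab with hsep | ⟨⟨S₀, hS₀, hcut⟩, hE⟩
  · obtain ⟨h4, h5, h6⟩ := mainN g N hg A L hL hA c hc hGL ∅ (by simp) (LefG A c)
      (Or.inl ⟨rfl, hsep⟩) k r hr K hK κ ι T hT n iB hN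
    have hsub : ∀ f ∈ MTSub A c T iB, f ∈ imG T iB {w | ∃ y ∈ LefG A c, w = (dsum y.1 1, y.2)} := by
      rintro f ⟨w, ⟨y, hy, rfl⟩, hf⟩
      exact ⟨_, ⟨y, hmt y hy, rfl⟩, hf⟩
    refine ⟨fun y hy => h4 y (hmt y hy), fun f hf => h5 f (hsub f hf), fun S hS hcov => ?_⟩
    refine h6 S hS fun h hh => ?_
    obtain ⟨f, hf, hc⟩ := hcov h hh
    exact ⟨f, hsub f hf, hc⟩
  · exact mainN g N hg A L hL hA c hc hGL S₀ hS₀ (MTG A c)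
      (Or.inr ⟨rfl, hcut, hE⟩) k r hr K hK κ ι T hT n iB hN

end Pool.Agent.Lib.MPf11a48.CMM
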