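import Pool.Agent.Lib.MP_f11a48_ag.CMM.MainR
import Pool.Agent.Lib.MP_f11a48_ag.CMM.DefsS

/-!
# The final theorem, in terms of the definitions in `CMM/DefsS.lean`
-/

set_option autoImplicit false

namespace Pool.Agent.Lib.MPf11a48.CMS

open Matrix MvPolynomial
open Pool.Agent.Lib.MPf11a48.CM hiding OmegaM
open Pool.Agent.Lib.MPf11a48.GL2T
open Pool.Agent.Lib.MPf11a48.U
open Pool.Agent.Lib.MPf11a48.C (IsRep imG tpi)
open Pool.Agent.Lib.MPf11a48.Tors (OmegaM)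

/-- the restriction of `γ` to `E` -/
noncomputable def j (E : Sub) (γ : GalQ) : E →ₐ[ℚ] Qbar := (AlgEquiv.toAlgHom γ).comp E.val

theorem j_apply {E : Sub} (γ : GalQ) (x : E) : j E γ x = ap γ x := rfl

theorem ap_mul (γ δ : GalQ) (x : Qbar) : ap (γ * δ) x = ap γ (ap δ x) := rfl

theorem ap_one (x : Qbar) : ap 1 x = x := rfl

theorem ap_inv_ap (γ : GalQ) (x : Qbar) : ap γ⁻¹ (ap γ x) = x := by
  rw [← ap_mul, inv_mul_cancel, ap_one]

theorem ap_ap_inv (γ : GalQ) (x : Qbar) : ap γ (ap γ⁻¹ x) = x := by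
  rw [← ap_mul, mul_inv_cancel, ap_one]

theorem ap_inj {γ : GalQ} {x y : Qbar} (h : ap γ x = ap γ y) : x = y := by
  rw [← ap_inv_ap γ x, h, ap_inv_ap]

theorem j_eq_iff {E : Sub} (γ δ : GalQ) : j E γ = j E δ ↔ Fix E (γ⁻¹ * δ) := by
  constructor
  · intro h x hx
    have h1 : ap γ x = ap δ x := DFunLike.congr_fun h (⟨x, hx⟩ : E)
    rw [ap_mul, ← h1, ap_inv_ap]
  · intro h
    refine AlgHom.ext fun x => ?_
    rw [j_apply, j_apply]
    have h1 := h x x.2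
    rw [ap_mul] at h1
    rw [← ap_ap_inv γ (ap δ x), h1]

theorem j_mul_fix {E : Sub} (γ σ : GalQ) (h : Fix E σ) : j E (γ * σ) = j E γ := by
  rw [eq_comm, j_eq_iff, inv_mul_cancel_left]
  exact h

theorem j_surjective (E : Sub) : Function.Surjective (j E) := by
  intro φ
  obtain ⟨γ, hγ⟩ := CMM.TypM.exists_ext E φ
  exact ⟨γ.symm, hγ⟩

/-- complex conjugation -/
noncomputable def cc : GalQ := CMM.TypM.rho

theorem isConj_cc : IsConj cc := CMM.TypM.rho_coe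

theorem j_bar {E : Sub} {ρ : GalQ} (hρ : IsConj ρ) (γ : GalQ) (x : E) :
    ((j E (ρ * γ) x : Qbar) : ℂ) = (starRingEnd ℂ) ((j E γ x : Qbar) : ℂ) := by
  rw [j_apply, j_apply, ap_mul]
  exact hρ _

theorem j_of_bar {E : Sub} {γ γ' : GalQ}
    (h : ∀ x, ((j E γ' x : Qbar) : ℂ) = (starRingEnd ℂ) ((j E γ x : Qbar) : ℂ)) :
    j E γ' = j E (cc * γ) := by
  refine AlgHom.ext fun x => ?_
  apply Subtype.ext
  rw [h x, j_bar isConj_cc]

theorem isType {E : Sub} {ξ : Set (E →ₐ[ℚ] Qbar)} (h : CMM.IsType ξ) : IsType E {γ | j E γ ∈ ξ} := by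
  refine ⟨fun γ σ hσ => ?_, fun ρ hρ γ => ?_⟩
  · change j E (γ * σ) ∈ ξ ↔ j E γ ∈ ξ
    rw [j_mul_fix γ σ hσ]
  · exact h (j E γ) (j E (ρ * γ)) (j_bar hρ γ)

theorem flatOver {L : IntermediateField ℚ ℂ} {E : Sub} (h : Flat L E) : CMM.FlatOver L E := by
  intro V hV hodd hleft hright
  let P : ((E →ₐ[ℚ] Qbar) → ℚ) →ₗ[ℚ] (GalQ → ℚ) := LinearMap.funLeft ℚ ℚ (j E)
  have hP : Function.Injective P := LinearMap.funLeft_injective_of_surjective ℚ ℚ _ (j_surjective E)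
  obtain ⟨f, ⟨f₀, hf₀, rfl⟩, hf, hfl⟩ := h (V.map P)
    (by
      intro h0
      apply hV
      apply Submodule.map_injective_of_injective hP
      rw [h0, Submodule.map_bot])
    (by
      rintro _ ⟨f₀, hf₀, rfl⟩ γ σ hσ
      change f₀ (j E (γ * σ)) = f₀ (j E γ)
      rw [j_mul_fix γ σ hσ])
    (by
      rintro _ ⟨f₀, hf₀, rfl⟩ ρ hρ γ
      exact hodd f₀ hf₀ _ _ (j_bar hρ γ))
    (by
      rintro δ _ ⟨f₀, hf₀, rfl⟩
      exact ⟨_, hleft δ f₀ hf₀, rfl⟩)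
    (by
      rintro δ hL hE _ ⟨f₀, hf₀, rfl⟩
      let e : E →ₐ[ℚ] E :=
        { toFun := fun x => ⟨ap δ x, hE x x.2⟩
          map_one' := Subtype.ext (map_one (AlgEquiv.toAlgHom δ))
          map_mul' := fun x y => Subtype.ext (map_mul (AlgEquiv.toAlgHom δ) (x : Qbar) y)
          map_zero' := Subtype.ext (map_zero (AlgEquiv.toAlgHom δ))
          map_add' := fun x y => Subtype.ext (map_add (AlgEquiv.toAlgHom δ) (x : Qbar) y)
          commutes' := fun r => Subtype.ext ((AlgEquiv.toAlgHom δ).commutes r) }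
      refine ⟨_, hright δ e hL (fun x => rfl) f₀ hf₀, ?_⟩
      funext γ
      change f₀ ((j E γ).comp e) = f₀ (j E (γ * δ))
      congr 1)
  refine ⟨f₀, hf₀, fun h0 => hf (by rw [h0, map_zero]), fun φ => ?_⟩
  obtain ⟨γ, rfl⟩ := j_surjective E φ
  exact hfl γ

theorem fix_conj {E : Sub} {Γ : Type} [Group Γ] (h : HasGal E Γ) (γ σ : GalQ) (hσ : Fix E σ)
    (x : Qbar) (hx : x ∈ E) : ap σ (ap γ x) = ap γ x := by
  obtain ⟨π, -, hπ⟩ := h
  have h2 : Fix E (γ⁻¹ * σ * γ) := by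
    rw [← hπ, map_mul, map_mul, (hπ σ).2 hσ, mul_one, ← map_mul, inv_mul_cancel, map_one]
  have h3 := h2 x hx
  rw [ap_mul, ap_mul] at h3
  have h4 : ap γ (ap γ⁻¹ (ap σ (ap γ x))) = ap γ x := by rw [h3]
  rwa [ap_ap_inv] at h4

theorem fix_comm {E : Sub} {Γ : Type} [Group Γ] (h : HasGal E Γ) (hc : ∀ a b : Γ, a * b = b * a)
    (γ γ' : GalQ) (x : Qbar) (hx : x ∈ E) : ap γ (ap γ' x) = ap γ' (ap γ x) := by
  obtain ⟨π, -, hπ⟩ := h
  have h1 : Fix E ((γ' * γ)⁻¹ * (γ * γ')) := by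
    rw [← hπ, map_mul, map_inv, map_mul, map_mul, hc (π γ) (π γ'), inv_mul_cancel]
  exact DFunLike.congr_fun ((j_eq_iff (E := E) (γ' * γ) (γ * γ')).2 h1).symm (⟨x, hx⟩ : E)

/-- A field with a Galois group is preserved by all automorphisms. -/
theorem stable_of_hasGal {E : Sub} {Γ : Type} [Group Γ] (h : HasGal E Γ) :
    ∀ γ : Qbar ≃ₐ[ℚ] Qbar, ∀ x ∈ E, γ x ∈ E := by
  intro γ x hx
  have h1 : E = IntermediateField.fixedField E.fixingSubgroup :=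
    (InfiniteGalois.fixedField_fixingSubgroup E).symm
  rw [h1]
  rintro ⟨σ, hσ⟩
  exact fix_conj h γ σ (fun y hy => hσ ⟨y, hy⟩) x hx

theorem nonempty_equiv {E : Sub} {Γ : Type} [Group Γ] (h : HasGal E Γ) :
    Nonempty ((E ≃ₐ[ℚ] E) ≃* Γ) := by
  have hst := stable_of_hasGal h
  have hN : Normal ℚ E := CMM.FinNM.normal_of hst
  obtain ⟨π, hs, hπ⟩ := h
  let ρ : GalQ →* (E ≃ₐ[ℚ] E) := AlgEquiv.restrictNormalHom E
  have hρs : Function.Surjective ρ := AlgEquiv.restrictNormalHom_surjective Qbar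
  have hker : ρ.ker = π.ker := by
    ext γ
    rw [MonoidHom.mem_ker, MonoidHom.mem_ker, hπ]
    constructor
    · intro h1 x hx
      have h2 : ((ρ γ ⟨x, hx⟩ : E) : Qbar) = ap γ x :=
        AlgEquiv.restrictNormal_commutes (γ : Qbar ≃ₐ[ℚ] Qbar) E ⟨x, hx⟩
      rw [← h2, h1]
      rfl
    · intro h1
      refine AlgEquiv.ext fun x => Subtype.ext ?_
      have h2 : ((ρ γ x : E) : Qbar) = ap γ x :=
        AlgEquiv.restrictNormal_commutes (γ : Qbar ≃ₐ[ℚ] Qbar) E x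
      rw [h2, h1 x x.2]
      rfl
  exact ⟨((QuotientGroup.quotientKerEquivOfSurjective ρ hρs).symm.trans
    (QuotientGroup.quotientMulEquivOfEq hker)).trans
      (QuotientGroup.quotientKerEquivOfSurjective π hs)⟩

theorem goodReflex {L : IntermediateField ℚ ℂ} {E : Sub} (h : Good L E) :
    CMM.GoodReflex L E := by
  obtain ⟨hE, h⟩ := h
  refine ⟨hE, ?_⟩
  rcases h with h | ⟨Γ, _, hG, h⟩
  · exact Or.inl (flatOver h)
  have hst := stable_of_hasGal hG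
  obtain ⟨e⟩ := nonempty_equiv hG
  have : Finite Γ := Finite.of_equiv _ e.toEquiv
  have hfl : CMM.BiFlat Γ → CMM.FlatOver ⊥ E := fun hB =>
    CMM.specFlk E hE hst (CMM.FinNM.biFlat_congr e hB)
  rcases h with h | ⟨hL, h⟩
  · exact Or.inr (Or.inl fun γ γ' x hx => fix_comm hG h γ γ' x hx)
  · subst hL
    refine Or.inl (hfl ?_)
    rcases h with h | ⟨n, ⟨e'⟩⟩
    · exact CMM.biFlat_monomial CMM.specFla Γ h
    · exact CMM.FinNM.biFlat_congr e' (CMM.AllNM.flh' n)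

variable {g N : ℕ}

theorem allTypes {A : AbData g N} {c : Matrix (Ix g) (Ix g) ℂ} {E : Sub} (h : AllTypes A c E) :
    CMM.AllTypes A c E := by
  refine ⟨fun s hs σ hσ => h.reflex s hs σ hσ, fun ξ hξ => ?_⟩
  obtain ⟨s, hs, h1⟩ := h.all _ (isType hξ)
  exact ⟨s, hs, fun γ => h1 γ⟩

theorem mt_eq (A : AbData g N) (c : GL (Ix g) ℂ) : MT A c = CMM.MTG A c := by
  ext y
  constructor
  · rintro ⟨h1, h2, h3⟩
    exact ⟨⟨h1, h2⟩, h3⟩
  · rintro ⟨⟨h1, h2⟩, h3⟩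
    exact ⟨h1, h2, h3⟩

theorem castMap {κ ι : Type} (iB : Matrix κ ι ℚ) :
    iB.map (algebraMap ℚ ℂ) = iB.map (fun x => (x : ℂ)) := by
  ext i j
  simp

theorem mtSub_eq {k : ℕ} (A : AbData g N) (c : GL (Ix g) ℂ) {κ ι : Type} [Fintype κ]
    [DecidableEq κ] [Fintype ι] [DecidableEq ι] (T : GL (Ix g ⊕ Fin k) ℂ × ℂˣ → GL κ ℂ)
    (iB : Matrix κ ι ℚ) : MTSub A c T iB = CMM.MTSub A c T iB := by
  ext f
  rw [MTSub, mt_eq, ← castMap]
  constructor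
  · rintro ⟨y, hy, h⟩
    exact ⟨_, ⟨y, hy, rfl⟩, h⟩
  · rintro ⟨_, ⟨y, hy, rfl⟩, h⟩
    exact ⟨y, hy, h⟩

theorem mainS (g N : ℕ) (hg : 0 < g) (A : AbData g N) (L : IntermediateField ℚ ℂ) (hL : L ≤ Qbar)
    (hA : A.IsAbVar L) (c : GL (Ix g) ℂ) (hc : c.1 = A.per) :
    (∀ B ∈ EndAlg c.1, A.IsEndo B) ∧
    (GL2Like c.1 A.psi →
      (Separated c.1 A.psi ∨
        (∃ S₀ : Set (TPair Qbar (Ix g)), (∀ α ∈ S₀, Fixes c α) ∧
          ∀ f ∈ OmegaS S₀, ∃ y ∈ MT A c, f = y.1 * c) ∧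
        ∃ E : Sub, Good L E ∧ AllTypes A c.1 E) →
      ∀ (k : ℕ) (r : GL (Fin k) ℂ), IsAlg r.1 → ∀ K : IntermediateField ℚ ℂ, K ≤ L →
      ∀ (κ ι : Type) [Fintype κ] [DecidableEq κ] [Fintype ι] [DecidableEq ι]
        (T : GL (Ix g ⊕ Fin k) ℂ × ℂˣ → GL κ ℂ), IsRep T → ∀ (n : GL ι ℂ) (iB : Matrix κ ι ℚ),
      IsSubOver L (T (dsum c r, tpi)) n iB →
        (∀ y ∈ MT A c, ∃ f : GL ι ℂ, (T (dsum y.1 1, y.2)).1 * iB.map (fun x => (x : ℂ)) =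
          iB.map (fun x => (x : ℂ)) * f.1) ∧
        (∀ f ∈ MTSub A c T iB, ∀ h, Conj K (f * n) h → h ∈ OmegaDRB K n) ∧
        ∀ S : Set (TPair K ι), (∀ α ∈ S, Fixes n α) →
          (∀ h ∈ OmegaS S, ∃ f ∈ MTSub A c T iB, Conj K (f * n) h) →
          OmegaDRB K n = OmegaS S ∧ (K = ⊥ → OmegaM K n = OmegaS S)) ∧
    (GL2Like c.1 A.psi → Separated c.1 A.psi →
      ∀ S : Set (TPair L (Ix g)), (∀ α ∈ S, Fixes c α) → Basic A c L ⊆ S →
        OmegaDRB L c = OmegaS S ∧ (L = ⊥ → OmegaM L c = OmegaS S)) := by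
  obtain ⟨h1, h2, h3⟩ := CMM.mainR g N hg A L hL hA c hc
  refine ⟨h1, ?_, fun hGL hsep S hS hB => ?_⟩
  · rintro hGL hab k r hr K hK κ ι _ _ _ _ T hT n iB ⟨hinj, idR, hdR⟩
    have hN : CMM.IsSubOver L (T (CMM.dsum c r, tpi)) n iB := by
      refine ⟨hinj, idR, ?_⟩
      rw [castMap]
      exact hdR
    have h4 := h2 hGL (by
      rcases hab with h | ⟨⟨S₀, hS₀, hcut⟩, E, hE, hall⟩
      · exact Or.inl (Or.inl h)
      · rw [mt_eq] at hcut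
        exact Or.inr ⟨⟨S₀, hS₀, hcut⟩, E, goodReflex hE, allTypes hall⟩) k r hr K hK κ ι T hT n iB
          hN
    rw [mt_eq, mtSub_eq]
    rw [castMap] at h4
    exact h4
  · obtain ⟨ψdR, hpol, h4⟩ := h3 hGL (Or.inl hsep)
    have hfix : Fixes c (GL2.polPair ψdR A.psi) :=
      GL2.fixes_of_sim hpol.1 (GL2T.mult_iff.1 hpol.2) (zpow_ne_zero _ Complex.two_pi_I_ne_zero)
    refine h4 S hS (hB ⟨hfix, Or.inl ⟨_, rfl⟩⟩) ?_
    rintro α ⟨hα, n, dR, B, rfl, hB'⟩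
    exact hB ⟨hα, Or.inr ⟨n, dR, B, rfl, hB'⟩⟩

end Pool.Agent.Lib.MPf11a48.CMS
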