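import Pool.Agent.Lib.MP_f11a48_ag.CMM.Defs
import Pool.Agent.Lib.MP_f11a48_ag.U.SpecR

/-!
# Motives of complex multiplication type: specifications

`c` is the period matrix of `M = h^1(A)` over `Qbar`, `T` the set of the embeddings of the centre
which occur in the tangent space. If `G_dRB(A)` were smaller than the Mumford-Tate group there would
be a Galois stable space `U` of odd relations between the embeddings of the centre which is larger
than the space `OddH` of the relations between the CM types. Its image in the space of odd functions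
on the set of the embeddings of `E` is not `0`; it contains a function `≠ 0` with values in
`{0, 1, -1}`, i.e. the difference of two CM types of `E`. Both occur in `A`, and two different
embeddings of the centre would agree on `G_dRB`, a contradiction.

Each module NAME is a file `CMM/Name.lean` with a theorem `specName (other Specs) : SpecName`, own
lemmas in the namespace `Pool.Agent.Lib.MPf11a48.CMM.NameM`.
-/

set_option autoImplicit false

namespace Pool.Agent.Lib.MPf11a48.CMM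

open Matrix MvPolynomial
open Pool.Agent.Lib.MPf11a48.CM hiding OmegaM
open Pool.Agent.Lib.MPf11a48.GL2T
open Pool.Agent.Lib.MPf11a48.U
open Pool.Agent.Lib.MPf11a48.K3 (cx)

/-! ## Part 1: flat functions -/

/-- FLA: a non-zero translation stable space `V` of rational functions on a finite commutative group
`Γ` contains a non-zero function with values in `{0, 1, -1}`.

Proof. Let `f ∈ V`, `f ≠ 0`. By the orthogonality of characters there is `χ : Γ →* ℂˣ` with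
`∑ f(x) χ(x) ≠ 0`. Let `N = ker χ`; the image of `χ` is cyclic of order `m`, generated by
`ζ = χ(t)`, a primitive `m`-th root of unity. `f₁(x) = ∑_{n ∈ N} f(n x)` is in `V`, invariant under
`N`, and `∑ f₁(x) χ(x) = |N| ∑ f(x) χ(x) ≠ 0`. For a polynomial `P = ∑ P_i X^i` over `ℚ` and an
`N`-invariant function `w` let `(P w)(x) = ∑ P_i w(t^i x)`: a module structure, `(X^m - 1) w = 0`
(`t^m ∈ N`). Let `δ` be the characteristic function of `N`. Then `f₁ = P δ`,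
`P = ∑_{j < m} f₁(t^j) X^(m - j)` (the cosets of `N` are the `t^j N`), and
`P(ζ⁻¹) = ∑_j f₁(t^j) ζ^j = (1 / |N|) ∑_x f₁(x) χ(x) ≠ 0`. The cyclotomic polynomial `Φ_m` is
irreducible over `ℚ` with root `ζ⁻¹`, so there are `A`, `B` with `A P + B Φ_m = 1`. Let
`F = ∏_{p ∣ m} (1 - X^(m/p))` (`p` prime). `X^m - 1` divides `Φ_m F`: `X^m - 1 = ∏_{d ∣ m} Φ_d`, and
for every `d ≠ m` there is `p` with `d ∣ m / p`, `Φ_d ∣ X^(m/p) - 1`; different `Φ_d` are coprime. So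
`F δ = A F P δ + B Φ_m F δ = (A F) f₁ ∈ V`. Finally
`F = ∑_S (-1)^|S| X^(e_S)`, `e_S = ∑_{p ∈ S} m / p`, over all sets `S` of primes dividing `m`, and the
`e_S` are different modulo `m` (`(e_S - e_S') / m = ∑_S 1 / p - ∑_S' 1 / p` is not integral: look at a
prime in exactly one of `S`, `S'`). So `F δ` has values in `{0, 1, -1}`, and the value `1` at
`x = 1` (`S = ∅`). -/
def SpecFla : Prop :=
  ∀ (Γ : Type) [CommGroup Γ] [Finite Γ] (V : Submodule ℚ (Γ → ℚ)), V ≠ ⊥ →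
    (∀ g : Γ, ∀ f ∈ V, (fun x => f (g * x)) ∈ V) →
    ∃ f ∈ V, f ≠ 0 ∧ ∀ x, f x = 0 ∨ f x = 1 ∨ f x = -1

/-- FLE: abelian fields (from FLA). `E` is Galois over `ℚ` (the subgroup of the automorphisms of
`Qbar` which are trivial on `E` contains all commutators, so it is normal) with a commutative Galois
group `Γ`, and `Γ → (E → Qbar)`, `g ↦ E.val ∘ g`, is bijective and compatible with the actions. -/
def SpecFle : Prop :=
  ∀ E : IntermediateField ℚ Qbar, FiniteDimensional ℚ E → AbelianField E → Flat E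

/-! ## Part 2: relations between CM types -/

open scoped Classical in
/-- the odd rational relations between the CM types -/
noncomputable def OddH {ι : Type} [Fintype ι] [DecidableEq ι] {c : Matrix ι ι ℂ} (ψ : Matrix ι ι ℚ)
    (T : Set (EmbC c)) : Submodule ℚ (EmbC c → ℚ) where
  carrier := {f | (∀ s s', IsBar ψ s s' → f s' = -f s) ∧
    ∀ γ : Qbar ≃ₐ[ℚ] Qbar, (∑ s : EmbC c, if γ.toAlgHom.comp s ∈ T then f s else 0) = 0}
  zero_mem' := ⟨fun _ _ _ => by simp, fun γ => by simp⟩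
  add_mem' := by
    rintro f g ⟨hf, hf'⟩ ⟨hg, hg'⟩
    refine ⟨fun s s' h => ?_, fun γ => ?_⟩
    · rw [Pi.add_apply, Pi.add_apply, hf s s' h, hg s s' h]
      ring
    · have h1 : ∀ s : EmbC c, (if γ.toAlgHom.comp s ∈ T then (f + g) s else 0) =
          (if γ.toAlgHom.comp s ∈ T then f s else 0) +
            (if γ.toAlgHom.comp s ∈ T then g s else 0) := by
        intro s
        split_ifs <;> simp
      rw [Finset.sum_congr rfl fun s _ => h1 s, Finset.sum_add_distrib, hf', hg', add_zero]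
  smul_mem' := by
    rintro t f ⟨hf, hf'⟩
    refine ⟨fun s s' h => ?_, fun γ => ?_⟩
    · rw [Pi.smul_apply, Pi.smul_apply, hf s s' h, smul_neg]
    · have h1 : ∀ s : EmbC c, (if γ.toAlgHom.comp s ∈ T then (t • f) s else 0) =
          t * (if γ.toAlgHom.comp s ∈ T then f s else 0) := by
        intro s
        split_ifs <;> simp
      rw [Finset.sum_congr rfl fun s _ => h1 s, ← Finset.mul_sum, hf', mul_zero]

/-- A Galois stable space `U` of odd functions which contains `OddH` is `OddH` or contains a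
non-zero function `(δ_s - δ_s̄) - (δ_t - δ_t̄)`. -/
def SepR {ι : Type} [Fintype ι] [DecidableEq ι] {c : Matrix ι ι ℂ} (ψ : Matrix ι ι ℚ)
    (T : Set (EmbC c)) : Prop :=
  ∀ U : Submodule ℚ (EmbC c → ℚ), OddH ψ T ≤ U →
    (∀ f ∈ U, ∀ s s', IsBar ψ s s' → f s' = -f s) →
    (∀ γ : Qbar ≃ₐ[ℚ] Qbar, ∀ f ∈ U, (fun s => f (γ.toAlgHom.comp s)) ∈ U) →
    U ≤ OddH ψ T ∨ ∃ s s' t t' : EmbC c, IsBar ψ s s' ∧ IsBar ψ t t' ∧
      delta s s' - delta t t' ∈ U ∧ delta s s' ≠ delta t t'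

/-- `T` contains exactly one of two conjugate embeddings which are not real; the conjugate of an
embedding is unique and is the complex conjugate. -/
def HalfSet {ι : Type} [Fintype ι] [DecidableEq ι] {c : Matrix ι ι ℂ} (ψ : Matrix ι ι ℚ)
    (T : Set (EmbC c)) : Prop :=
  (∀ s : EmbC c, ∃ s', IsBar ψ s s') ∧ (∀ s s' s'' : EmbC c, IsBar ψ s s' → IsBar ψ s s'' → s' = s'') ∧
  (∀ s s' : EmbC c, IsBar ψ s s' → IsBar ψ s' s) ∧
  (∀ (s s' : EmbC c) (z : CenAlg c), IsBar ψ s s' →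
    (starRingEnd ℂ) ((s z : Qbar) : ℂ) = ((s' z : Qbar) : ℂ)) ∧
  (∀ (γ : Qbar ≃ₐ[ℚ] Qbar) (s s' : EmbC c), IsBar ψ s s' →
    IsBar ψ (γ.toAlgHom.comp s) (γ.toAlgHom.comp s')) ∧
  ∀ s s' : EmbC c, IsBar ψ s s' → s ≠ s' → (s' ∈ T ↔ s ∉ T)

/-- TYP: if all CM types of a flat field `E` occur then `SepR`.

Proof. For `φ : E → Qbar` choose `γ_φ` with `γ_φ⁻¹ = φ` on `E`. For `f ∈ U` let
`F_f(φ) = ∑ f(s)`, the sum over all `s` with `γ_φ s ∈ T`. (`f s = 0` if `s` is real.) If `γ⁻¹ = φ` on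
`E` then `γ γ_φ⁻¹` is trivial on `E`, so by `reflex` (applied to `γ_φ s`) `γ s ∈ T` if and only if
`γ_φ s ∈ T` for all `s` which are not real: `F_f(φ) = ∑_{γ s ∈ T} f(s)`.
(1) `F_f` is odd: if `φ' = ρ φ`, `ρ` the complex conjugation of `Qbar`, one can take `γ_φ' = γ_φ ρ`
(`ρ² = 1`) and `ρ s = s̄`, so `F_f(φ') = ∑_{γ_φ s̄ ∈ T} f(s) = ∑_{γ_φ s ∈ T} f(s̄) = - F_f(φ)`.
(2) `F_f(γ₀ φ) = F_{f ∘ γ₀}(φ)`: `γ_φ γ₀⁻¹` is a choice for `γ₀ φ`, and
`∑_{γ_φ γ₀⁻¹ s ∈ T} f(s) = ∑_{γ_φ s ∈ T} f(γ₀ s)`.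
Let `V` be the space of the `F_f`, `f ∈ U`. If `V = 0` then `U ≤ OddH`. Otherwise, `E` being flat,
there is `f ∈ U` such that `F = F_f ≠ 0` has values in `{0, 1, -1}`. There is an `s₀` which is not real
(as `f ≠ 0`); `ξ₀ = {φ | γ_φ s₀ ∈ T}` is a type. Let `ξ = {F = 1} ∪ ({F = 0} ∩ ξ₀)`,
`ξ' = {F = -1} ∪ ({F = 0} ∩ ξ₀)`: types (`F` is odd). Let `t₁`, `t₂` be the embeddings given by `all` for
`ξ`, `ξ'`, `t̄₁`, `t̄₂` their conjugates, `h = (δ_t₁ - δ_t̄₁) - (δ_t₂ - δ_t̄₂)`. For every `γ`, with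
`φ = γ⁻¹|E`: `∑_{γ s ∈ T} h(s) = (2 [φ ∈ ξ] - 1) - (2 [φ ∈ ξ'] - 1) = 2 F(φ)`, so `h - 2 f` has all
sums `0` and is odd: it is in `OddH ≤ U`, so `h ∈ U`. `δ_t₁ - δ_t̄₁ ≠ δ_t₂ - δ_t̄₂`, otherwise (value
at `t₁`) `t₁ = t₂`, `ξ = ξ'` and `F = 0`. -/
def SpecTyp : Prop :=
  ∀ (ι : Type) [Fintype ι] [DecidableEq ι] (c : Matrix ι ι ℂ) (ψ : Matrix ι ι ℚ)
    (T : Set (EmbC c)) (E : IntermediateField ℚ Qbar), FiniteDimensional ℚ E → HalfSet ψ T →
    Flat E →
    (∀ s : EmbC c, ¬ IsBar ψ s s → ∀ σ : Qbar ≃ₐ[ℚ] Qbar, (∀ x ∈ E, σ x = x) →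
      (σ.toAlgHom.comp s ∈ T ↔ s ∈ T)) →
    (∀ ξ : Set (E →ₐ[ℚ] Qbar), IsType ξ → ∃ s : EmbC c, ¬ IsBar ψ s s ∧
      ∀ γ : Qbar ≃ₐ[ℚ] Qbar, γ.toAlgHom.comp s ∈ T ↔ γ.symm.toAlgHom.comp E.val ∈ ξ) →
    SepR ψ T

/-- TAN: the tangent space of an abelian variety. All properties except the last one: from the
structure `Str` (`bar_κ`, `bar_σ`, `cc_κ`, `cc_σ`, `TORM.isBar_unique`, …). The last one: let `J` be
the complex structure (`HDAM.JM`, as in the proof of `SpecHDA` in `U/Hda.lean`: `HD c J ψ` and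
`J * lat = i lat` (rows), `HDAM.JM_spec`). `J` commutes with `EndAlg` (`HD.endo`), so `J = Ψ(x, y)`;
`s = ev (inr j)`, `s' = ev (inr (τ j))`; on the eigenvectors (rows) `v` for `s` (`v = v Ψ(0, e_j)`,
`TORM` or `S.ev_spec`) `J` acts as `y_j`, `J² = -1` and `adj J = -J` give `y_j = ± i`,
`y_{τ j} = - y_j`. `(v J) lat = i (v lat)`, so `v lat ≠ 0` implies `y_j = i`. Conversely let
`y_j = i` and `v ≠ 0` an eigenvector; `v lat = 0` would imply (`(v̄ J) = - i v̄`, so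
`- i (v̄ lat) = i (v̄ lat)` and `v̄ lat = 0`) that the real and imaginary parts of `v` are `0`,
because the rows of `lat` are independent over `ℝ`. So `s ∈ Tan` iff `y_j = i`. -/
def SpecTan : Prop :=
  ∀ (K : IntermediateField ℚ ℂ) (g N : ℕ) (A : AbData g N) (c : GL (Ix g) ℂ), K ≤ Qbar →
    A.IsAbVar K → c.1 = A.per → GL2Like c.1 A.psi → HalfSet A.psi (Tan A c.1)

/-! ## Part 3: the Lie algebra -/

/-- The elements of the centre which are in the Lie algebra of `G_dRB` satisfy the odd relations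
between the CM types. -/
def LieRel {ι : Type} [Fintype ι] [DecidableEq ι] (c : GL ι ℂ) (ψ : Matrix ι ι ℚ)
    (T : Set (EmbC c.1)) : Prop :=
  ∀ z : CenAlg c.1, InH c (mC z.1) → ∀ f ∈ OddH ψ T,
    ∑ s : EmbC c.1, (f s : ℂ) * ((s z : Qbar) : ℂ) = 0

/-- HCL: from classes to the Lie algebra (uses `U.SpecEXP`, `drb_subset` or the like).

Proof. Let `z` be as in `LieRel`, `t ∈ ℂ`, `g = exp (t z)`. By EXP (`c ∈ OmegaDRB Qbar c`)
`g c ∈ OmegaDRB Qbar c ⊆ OmegaS S`, so `RelOK` for `g c c⁻¹ = g`. For `χ` with `HodgeRel` use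
`u s = exp (t s(z))`: if `v` is an eigenvector for `s` then `v z = s(z) v`, so `v g = u s v`. Hence
`∏ exp (t s(z)) ^ χ s = exp (t ∑ χ s s(z)) = 1` for all `t`, and `∑ χ s s(z) = 0`. For `f ∈ OddH` let
`n f`, `n ≥ 1`, be integral: `f s = 0` if `s` is real, so `n f` satisfies `HodgeRel`. -/
def SpecHcl : Prop :=
  ∀ (ι : Type) [Fintype ι] [DecidableEq ι] (c : GL ι ℂ) (ψ : Matrix ι ι ℚ) (T : Set (EmbC c.1))
    (S : Set (TPair Qbar ι)), (∀ α ∈ S, Fixes c α) →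
    (∀ f ∈ OmegaS S, RelOK ψ T (f * c⁻¹).1) → LieRel c ψ T

/-- TORR: the central part of the Lie algebra. As `U.specTOR` (U/Tor.lean, take the whole file as
model: all lemmas of the section before `even_of_rel` can be used). Instead of `Separated` (which
gives `oddRel = ⊥`): `OddH ≤ oddRel` by `LieRel`, and if `oddRel ≤ OddH` is false then `SepR` gives
`delta s s' - delta t t' ∈ oddRel`, which leads to a contradiction exactly as in `even_of_rel`. So the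
odd part of a relation `f` is in `OddH`, hence is a relation for `y`; the even part as before. -/
def SpecTorr : Prop :=
  ∀ (ι : Type) [Fintype ι] [DecidableEq ι] (c : GL ι ℂ) (J : Matrix ι ι ℝ) (ψ : Matrix ι ι ℚ)
    (T : Set (EmbC c.1)) (S : Str c ψ), HD c J ψ → SepR ψ T → LieRel c ψ T →
    (∀ x : S.κ → Matrix (Fin 2) (Fin 2) ℂ, (∀ k, (x k).trace = 0) → InH c (S.Ψ (x, 0))) →
    ∀ (m : ℂ) (y : S.σ → ℂ), (∀ s, y s + y (S.τ s) = m) →
      (∀ f ∈ OddH ψ T, ∑ s, (f (S.ev (Sum.inr s)) : ℂ) * y s = 0) →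
      InH c (S.Ψ (fun _ => (m / 2) • 1, y))

/-! ## Part 4: the group -/

/-- SAT: logarithms. `Λ` is saturated, so `ℤ^σ / Λ` is free and `Λ` is a direct summand. Let
`Y₀ s = log (y s)`; the homomorphism `χ ↦ (∑ χ s Y₀ s) / (2 π i)` from `Λ` to `ℤ` extends to `ℤ^σ`, say
`χ ↦ ∑ χ s n s`, and `Y = Y₀ - 2 π i n`. -/
def SpecSat : Prop :=
  ∀ (σ : Type) [Fintype σ] [DecidableEq σ] (Λ : AddSubgroup (σ → ℤ)),
    (∀ (n : ℤ) (χ : σ → ℤ), n ≠ 0 → n • χ ∈ Λ → χ ∈ Λ) → ∀ y : σ → ℂ, (∀ s, y s ≠ 0) →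
    (∀ χ ∈ Λ, ∏ s, y s ^ χ s = 1) →
    ∃ Y : σ → ℂ, (∀ s, Complex.exp (Y s) = y s) ∧ ∀ χ ∈ Λ, ∑ s, (χ s : ℂ) * Y s = 0

/-- GENR: generation (as `U.specGEN`, U/Gen.lean, with SAT). `Λ` contains `e_s + e_{τ s} - e_t - e_{τ t}`
for all `s`, `t`, so `Y s + Y (τ s) = M` does not depend on `s`, `exp M = μ` (if `σ` is empty take any
`M` with `exp M = μ`). Then `(x, y)` is the product of `(exp (M / 2), exp Y)` and elements
`(x', 1)`, `det x' k = 1`, which are products of exponentials (`GenM.decomp`). -/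
def SpecGenr : Prop :=
  ∀ (κ σ : Type) [Fintype κ] [Fintype σ] [DecidableEq κ] [DecidableEq σ] (τ : σ → σ)
    (Λ : AddSubgroup (σ → ℤ)),
    (∀ (n : ℤ) (χ : σ → ℤ), n ≠ 0 → n • χ ∈ Λ → χ ∈ Λ) →
    (∀ s t : σ, (Pi.single s 1 + Pi.single (τ s) 1 - Pi.single t 1 - Pi.single (τ t) 1 : σ → ℤ) ∈ Λ) →
    ∀ T : Set ((κ → Matrix (Fin 2) (Fin 2) ℂ) × (σ → ℂ)), 1 ∈ T →
    (∀ x : κ → Matrix (Fin 2) (Fin 2) ℂ, (∀ k, (x k).trace = 0) → ∀ t ∈ T,
      ((fun k => NormedSpace.exp (x k)), fun _ => 1) * t ∈ T) →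
    (∀ (m : ℂ) (y : σ → ℂ), (∀ s, y s + y (τ s) = m) → (∀ χ ∈ Λ, ∑ s, (χ s : ℂ) * y s = 0) →
      ∀ t ∈ T, ((fun _ => Complex.exp (m / 2) • (1 : Matrix (Fin 2) (Fin 2) ℂ)),
        fun s => Complex.exp (y s)) * t ∈ T) →
    ∀ (μ : ℂ), μ ≠ 0 → ∀ x y, (∀ k, (x k).det = μ) → (∀ s, y s * y (τ s) = μ) →
      (∀ χ ∈ Λ, ∏ s, y s ^ χ s = 1) → (x, y) ∈ T

/-- REPR: assembly (as `U.specREP`, U/Rep.lean, same proof with TORR, GENR instead of TOR, GEN; its
hypotheses LIN EXP SIM BIC STR GOU are theorems of the library, see `U.rep'` in U/Final.lean).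
`Λ` = the group of the `χ ∘ ev ∘ inr`, `χ` with `HodgeRel`, i.e. of the functions on `σ` which,
extended by `0`, satisfy `HodgeRel` (`ev (inl k)` is real, `ev (inr j)` is not): saturated, and it
contains `e_s + e_{τ s} - e_t - e_{τ t}` by `HalfSet` (for every `γ` exactly one of `γ s`, `γ s̄` is in
`T`, if `s` is not real). If `f * c⁻¹ = Ψ (x, y)` then `v * Ψ (x, y) = y j • v` for the eigenvectors
`v` for `ev (inr j)` (`v = v * Ψ (0, e_j)`, from `ev_spec`), so `RelOK` gives the relations for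
`y` (`u (ev (inr j)) = y j`, `u (ev (inl k)) = 1`). For TORR: an `f ∈ OddH` multiplied by a common
denominator is in `Λ`. -/
def SpecRepr : Prop :=
  ∀ (ι : Type) [Fintype ι] [DecidableEq ι] (c : GL ι ℂ) (J : Matrix ι ι ℝ) (ψ : Matrix ι ι ℚ)
    (T : Set (EmbC c.1)), HD c J ψ → GL2Like c.1 ψ → HalfSet ψ T → SepR ψ T → LieRel c ψ T →
    ∀ f : GL ι ℂ, Compat c.1 f.1 → (∃ μ : ℂ, f.1ᵀ * mC ψ * f.1 = μ • (c.1ᵀ * mC ψ * c.1)) →
      RelOK ψ T (f * c⁻¹).1 → f ∈ OmegaDRB Qbar c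

/-! ## Part 5: tensor operations -/

/-- the point `(x, 1, z)` of `GL_{2g} × GL_0 × G_m` -/
def emb {g : ℕ} (y : GL (Ix g) ℂ × ℂˣ) : K3.Grp3 g 0 := (y.1, 1, y.2)

/-- TENM: objects obtained from `h^1(A)` and the Tate object by tensor operations.

Proof. As `K3.specKTen3` (K3/KTen3.lean: `isTorsor_pull3`, `grp_pull3`, `bd3_injective`, `OmegaDRB_tw`,
`drb_subset`, `OmegaM_eq_OmegaDRB`); the analogue of `SpecKGrp3` is: every torsor `T` over `Qbar` in
`GL (Ix g ⊕ (Fin 0 ⊕ Unit))` through `bd3 (c, 1, 2 π i)` with group over `ℚ` contains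
`bd3 (x c, 1, z 2 π i)` for `(x, z) ∈ 𝓖`. To see this let `ψdR` be the algebraic matrix with
`cᵀ ψ c = 2 π i ψdR` (LEG: `U.specLEG`, or `HD.leg`) and
`T' = {f | ∃ ζ : ℂˣ, fᵀ ψ f = ζ ψdR ∧ bd3 (f, 1, ζ) ∈ T}`: a torsor over `Qbar` (closed: `ζ` is a
fixed entry of `fᵀ ψ f` divided by an entry `≠ 0` of `ψdR`; multiply by powers of `det f` as in
`closedOver_pull3`) through `c`, with group `{x | ∃ ζ, xᵀ ψ x = ζ ψ ∧ bd3 (x, 1, ζ) ∈ grp T}`, closed
over `ℚ`. By `OmegaDRB_subset` it contains `OmegaDRB Qbar c ∋ x c`, and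
`(x c)ᵀ ψ (x c) = z (2 π i) ψdR`, so `bd3 (x c, 1, z 2 π i) ∈ T` (`ζ` is unique, `ψdR ≠ 0`). The case
`g = 0` (empty index type) is separate: `𝓖 ⊆ {1} × ℂˣ`; there `Fin g` is empty and
`xᵀ ψ x = z ψ` is no condition on `z` — so the hypothesis `0 < g`. -/
def SpecTenm : Prop :=
  ∀ (g N : ℕ) (A : AbData g N) (c : GL (Ix g) ℂ) (𝓖 : Set (GL (Ix g) ℂ × ℂˣ)), 0 < g →
    A.IsAbVar Qbar → c.1 = A.per →
    (∀ y ∈ 𝓖, y.1 * c ∈ OmegaDRB Qbar c ∧ y.1.1ᵀ * cx A.psi * y.1.1 = (y.2 : ℂ) • cx A.psi) →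
    ∀ (K : IntermediateField ℚ ℂ) (ι : Type) [Fintype ι] [DecidableEq ι]
      (Φ : K3.Grp3 g 0 → GL ι ℂ), K ≤ Qbar → K3.IsTens3 Φ →
      (∀ y ∈ 𝓖, ∀ f, Conj K (Φ (emb y * (c, 1, K3.tpi))) f →
        f ∈ OmegaDRB K (Φ (c, 1, K3.tpi))) ∧
      ∀ S : Set (TPair K ι), (∀ α ∈ S, Fixes (Φ (c, 1, K3.tpi)) α) →
        (∀ f ∈ OmegaS S, ∃ y ∈ 𝓖, Conj K (Φ (emb y * (c, 1, K3.tpi))) f) →
        OmegaDRB K (Φ (c, 1, K3.tpi)) = OmegaS S ∧
          (K = ⊥ → Tors.OmegaM K (Φ (c, 1, K3.tpi)) = OmegaS S)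

/-! ## The theorem -/

/-- The theorem. `A` is a polarised abelian variety over `Qbar` whose simple factors are of
`GL_2`-type (real or quaternion multiplication) or have complex multiplication. Let `𝓖` be
* the group of the similitudes compatible with the endomorphisms, if the centre of the algebra of
  endomorphisms is separated (for example listed);
* or the Mumford-Tate group, if there is a number field `E`, abelian over `ℚ` (or flat), which
  contains the reflex fields of the factors with complex multiplication, such that all CM types of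
  `E` occur, and the de Rham-Betti classes of `h^1(A)` cut out the torsor of the Mumford-Tate group.
Then for all objects `M` over `K` obtained from `h^1(A)` and the Tate object by tensor operations,
`Ω^dRB_M` contains the conjugates over `K` of the image of the torsor of `𝓖`, and is equal to `Ω_S`
(and to `Ω_M` if `K = ℚ`) for every set `S` of classes with `Ω_S` contained in this set. -/
def StatementM : Prop :=
  ∀ (g N : ℕ) (A : AbData g N) (c : GL (Ix g) ℂ) (𝓖 : Set (GL (Ix g) ℂ × ℂˣ)), 0 < g →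
    A.IsAbVar Qbar → c.1 = A.per → GL2Like c.1 A.psi →
    (𝓖 = LefG A c ∧ (Separated c.1 A.psi ∨ ListedCentre c.1)) ∨
      (𝓖 = MTG A c ∧ CutOut A c ∧ ∃ E : IntermediateField ℚ Qbar, FiniteDimensional ℚ E ∧
        (Flat E ∨ AbelianField E) ∧ AllTypes A c.1 E) →
    ∀ (K : IntermediateField ℚ ℂ) (ι : Type) [Fintype ι] [DecidableEq ι]
      (Φ : K3.Grp3 g 0 → GL ι ℂ), K ≤ Qbar → K3.IsTens3 Φ →
      (∀ y ∈ 𝓖, ∀ f, Conj K (Φ (emb y * (c, 1, K3.tpi))) f →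
        f ∈ OmegaDRB K (Φ (c, 1, K3.tpi))) ∧
      ∀ S : Set (TPair K ι), (∀ α ∈ S, Fixes (Φ (c, 1, K3.tpi)) α) →
        (∀ f ∈ OmegaS S, ∃ y ∈ 𝓖, Conj K (Φ (emb y * (c, 1, K3.tpi))) f) →
        OmegaDRB K (Φ (c, 1, K3.tpi)) = OmegaS S ∧
          (K = ⊥ → Tors.OmegaM K (Φ (c, 1, K3.tpi)) = OmegaS S)

end Pool.Agent.Lib.MPf11a48.CMM
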