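import Pool.Agent.Lib.MP_f11a48_ag.CMM.DefsN
import Pool.Agent.Lib.MP_f11a48_ag.CMM.Spec
import Pool.Agent.Lib.MP_f11a48_ag.U.Tor
import Pool.Agent.Lib.MP_f11a48_ag.C.Ten

/-!
# Motives of complex multiplication type over a field `K`: specifications

`A` is an abelian variety over `K ⊆ Qbar` with period matrix `c`, for example `K = ℚ`. For an
automorphism `τ` of `ℂ` over `K` let `g_τ = τ(c) c⁻¹`. It is in `G_dRB(A / K)`. Conjugation by `g_τ`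
maps endomorphisms (rational matrices) of `A` over `Qbar` to endomorphisms (`U.SpecGAL`). So the
relations satisfied by the connected component of `G_dRB(A / K)` are stable under two actions: that
of the Galois group on the values of the embeddings `s` of the centre, and that of the Galois group
of `K` on the centre itself. In terms of functions on the Galois group of `E`: left and right
translations. So for `K = ℚ` one needs flat functions only in TWO-SIDED ideals of the group ring;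
they exist for example for metabelian and hyperoctahedral groups.

Each module NAME is a file `CMM/Name.lean` with a theorem `specName (other Specs) : SpecName`, own
lemmas in the namespace `Pool.Agent.Lib.MPf11a48.CMM.NameM`.
-/

set_option autoImplicit false

namespace Pool.Agent.Lib.MPf11a48.CMM

open Matrix MvPolynomial
open Pool.Agent.Lib.MPf11a48.CM hiding OmegaM
open Pool.Agent.Lib.MPf11a48.GL2T
open Pool.Agent.Lib.MPf11a48.U
open Pool.Agent.Lib.MPf11a48.C (IsRep IsSubObj imG tpi)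
open Pool.Agent.Lib.MPf11a48.C.TenM (bd)
open Pool.Agent.Lib.MPf11a48.Tors (IsTorsor ClosedOver grp OmegaM FixesField)
open Pool.Agent.Lib.MPf11a48.K3 (cx)

/-! ## Part 1: flat functions in two-sided ideals -/

/-- Every non-zero space of rational functions on `Γ` which is stable under left and right
translations contains a non-zero function with values in `{0, 1, -1}`. -/
def BiFlat (Γ : Type) [Group Γ] : Prop :=
  ∀ V : Submodule ℚ (Γ → ℚ), V ≠ ⊥ → (∀ g, ∀ f ∈ V, (fun x => f (g * x)) ∈ V) →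
    (∀ g, ∀ f ∈ V, (fun x => f (x * g)) ∈ V) → ∃ f ∈ V, f ≠ 0 ∧ ∀ x, f x = 0 ∨ f x = 1 ∨ f x = -1

/-- FLM (from FLA): metabelian groups are biflat.

Proof. Let `D` be the commutator subgroup, abelian, `V_ℂ` the space of complex functions spanned by
`V` (a function `f` is in `V_ℂ` iff `l ∘ f ∈ V` for all `ℚ`-linear `l : ℂ → ℚ`). For `f ≠ 0` in `V_ℂ` let
`H_f = {y | ∃ t, ∀ x, f(y x) = t f(x)}`, a subgroup, and `ψ_f : H_f → ℂˣ`, `y ↦ t`, a homomorphism. There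
is `f` with `D ≤ H_f` (`D` is abelian, so its left translations have a common eigenvector in `V_ℂ ≠ 0`:
`f_ψ(x) = ∑_{d ∈ D} ψ(d)⁻¹ f(d x)`, `∑_ψ f_ψ = |D| f`). Choose such an `f` with `|H_f|` maximal; let
`H = H_f ≥ D` (normal), `ψ = ψ_f`. Translate on the right: `f(1) ≠ 0`. Claim: if `g ∈ Γ` and
`ψ(g h g⁻¹) = ψ(h)` for all `h ∈ H` then `g ∈ H`. Indeed `W = {w ∈ V_ℂ | w(h x) = ψ(h) w(x)}` is stable
under `L : w ↦ w(g ·)`, with `L^m = ψ(g^m)` for some `m ≥ 1` with `g^m ∈ H`, so `L` has an eigenvector `w`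
in `W ≠ 0`, and `H_w ∋ g`, `H_w ≥ H`; by maximality `g ∈ H`. Now let
`f'(x) = ∑_{h ∈ H} ψ(h)⁻¹ f(x h) = f(x) ∑_h ψ(h)⁻¹ ψ(x h x⁻¹)`: it is in `V_ℂ`, equal to `0` outside `H`
(orthogonality) and to `|H| f(1) ψ(x)` on `H`. So `F(x) = ψ(x)` on `H`, `0` outside, is in `V_ℂ`. Let
`Q = H / ker ψ`, a commutative group, and `V'` the space of all `w : Q → ℚ` such that `w`, composed with
`H → Q` and extended by `0`, is in `V`. It is translation stable and not `0` (take `l ∘ F`, `l(1) = 1`).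
Apply FLA. -/
def SpecFlm : Prop :=
  ∀ (Γ : Type) [Group Γ] [Finite Γ],
    (∀ a b c d : Γ, (a * b * a⁻¹ * b⁻¹) * (c * d * c⁻¹ * d⁻¹) =
      (c * d * c⁻¹ * d⁻¹) * (a * b * a⁻¹ * b⁻¹)) → BiFlat Γ

/-- FLS: products of symmetric groups: `P` is the group of all permutations of `X` which preserve
the colours `col`.

Proof. For `ρ : X → X` let `e(ρ) = #{(x, y) | ρ x = ρ y}`. Consider `ρ` such that `ρ x = ρ y` implies
`col x = col y` (rows), and `V^ρ` = the `f ∈ V` with `f(swap x y * σ) = f(σ)` whenever `ρ x = ρ y`. Choose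
`ρ` with `V^ρ ≠ 0` and `e(ρ)` maximal (`ρ = id` is a candidate). (L): let `A = ρ⁻¹(a) ≠ ∅`,
`y ∉ A` of the same colour as `A`, `|A| ≥ |ρ⁻¹(ρ y)|`; then `f(σ) + ∑_{x ∈ A} f(swap x y * σ) = 0` for
`f ∈ V^ρ`: this function of `σ` is in `V^ρ'`, `ρ' = ρ` except `ρ'(y) = a` (for `v ≠ x` in `A`:
`swap x y * swap v y = swap v x * swap x y`), and `e(ρ') > e(ρ)`. Next let `W_κ` = the `f ∈ V^ρ` with
`f(σ * swap u v) = -f(σ)` whenever `u ≠ v`, `κ u = κ v` (columns; `κ` refines `col`), and choose `κ` with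
`W_κ ≠ 0`, `e(κ)` maximal. (R): for `B = κ⁻¹(b) ≠ ∅`, `y ∉ B` of the same colour, `|B| ≥ |κ⁻¹(κ y)|`:
`f(σ) - ∑_{x ∈ B} f(σ * swap x y) = 0` (`swap y v * swap x y = swap x y * swap x v`). Let `f ≠ 0` in `W_κ`.
The sum of `f(swap x y * σ)` over all ordered pairs `x ≠ y` of the same colour is
`(p - n_ρ) f(σ)`, `p = #{(x, y) | x ≠ y, ρ x = ρ y}`, `n_ρ` the sum of `min(|A|, |A'|)` over all ordered
pairs of different rows of the same colour; it is also the sum of the `f(σ * swap x y)`, which is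
`(- q + n_κ) f(σ)`, `q = #{(x, y) | x ≠ y, κ x = κ y}`. Hence `p + q = n_ρ + n_κ`. Let `f(σ) ≠ 0`,
`κ' = κ σ⁻¹`. Then `x ↦ (ρ x, κ' x)` is injective (`swap x y * σ = σ * swap (σ⁻¹ x) (σ⁻¹ y)`). So
`q = ∑ |κ'(A) ∩ κ'(A')| ≤ n_ρ`, similarly `p ≤ n_κ' = n_κ`; equality: `κ'(A) ⊆ κ'(A')` if
`|A| ≤ |A'|`, for all rows `A`, `A'` of the same colour. Hence for every column `b` the set of the rows
`A` with `b ∈ κ'(A)` is the set of the `|κ⁻¹(b)|` longest rows of the colour of `b`, an upper set with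
respect to `|A|`; two upper sets with the same number of elements are equal. So if also `f(σ') ≠ 0`,
`κ'' = κ σ'⁻¹`, then `κ''(A) = κ'(A)` for every row, there is `r` with `ρ r = ρ` and `κ'' r = κ'`, and
`k = (σ'⁻¹ r σ)⁻¹` satisfies `κ k = κ`, `σ' = r σ k`, so `f(σ') = sign(k) f(σ)`. (`r`, `k` are products of
swaps within rows, resp. columns.) So `f / f(σ)` is flat. -/
def SpecFls : Prop :=
  ∀ (X C : Type) [Fintype X] [DecidableEq X] (col : X → C)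
    (V : Submodule ℚ (Equiv.Perm X → ℚ)), V ≠ ⊥ →
    (∀ f ∈ V, ∀ σ : Equiv.Perm X, (∃ x, col (σ x) ≠ col x) → f σ = 0) →
    (∀ p : Equiv.Perm X, (∀ x, col (p x) = col x) → ∀ f ∈ V,
      (fun σ => f (p * σ)) ∈ V ∧ (fun σ => f (σ * p)) ∈ V) →
    ∃ f ∈ V, f ≠ 0 ∧ ∀ σ, f σ = 0 ∨ f σ = 1 ∨ f σ = -1

/-- FLH (from FLS): hyperoctahedral groups are biflat.

Proof. Let `N` be the subgroup of all `σ ∈ Hyp n` with `(σ x).1 = x.1`, isomorphic to `{±1}^n`, and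
`i(π)`, `π ∈ Perm (Fin n)`, the element `(j, b) ↦ (π j, b)`; every element of `Hyp n` is uniquely `a i(π)`.
The characters of `N` are the `χ_S`, `S ⊆ Fin n`, with values `±1`, and
`i(π) a i(π)⁻¹` is `a` permuted by `π`. Let `f ∈ V`, `f ≠ 0`; some
`f_S(x) = ∑_{a ∈ N} χ_S(a) f(a x)` is not `0` (their sum is `2^n f`); translate on the right:
`f_S(1) ≠ 0`. Let `f'(x) = ∑_{a ∈ N} χ_S(a) f_S(x a) = f_S(x) ∑_a χ_S(a) χ_S(x a x⁻¹)`: in `V`, `0` outside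
of `{a i(π) | π S = S}`, `f'(1) ≠ 0`, `f'(a x) = χ_S(a) f'(x)`. Let `V'` be the space of all
`h : Perm (Fin n) → ℚ`, `h = 0` on all `π` with `π S ≠ S`, such that `a i(π) ↦ χ_S(a) h(π)` is in `V`.
Apply FLS to `V'` and `col j = (j ∈ S)`. -/
def SpecFlh : Prop := ∀ n : ℕ, BiFlat (Hyp n)

/-- FLK: from groups to fields. `Γ = (E ≃ₐ[ℚ] E) → (E →ₐ[ℚ] Qbar)`, `e ↦ E.val ∘ e`, is bijective (`E` is
normal), every `γ` induces an element of `Γ` and every element of `Γ` comes from a `γ`; the two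
stability properties of `FlatOver ⊥ E` are the left and the right translations. -/
def SpecFlk : Prop :=
  ∀ E : IntermediateField ℚ Qbar, FiniteDimensional ℚ E →
    (∀ γ : Qbar ≃ₐ[ℚ] Qbar, ∀ x ∈ E, γ x ∈ E) → BiFlat (E ≃ₐ[ℚ] E) → FlatOver ⊥ E

/-! ## Part 2: the action of the Galois group on the centre -/

section Gal

variable {ι : Type} [Fintype ι] [DecidableEq ι]

/-- `τ(c) c⁻¹` -/
noncomputable def twg (τ : ℂ ≃+* ℂ) (c : GL ι ℂ) : GL ι ℂ := Tors.tw τ c * c⁻¹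

/-- The automorphisms of the centre given by conjugation by the `τ(c) c⁻¹`. -/
def RGal (K : IntermediateField ℚ ℂ) (c : GL ι ℂ) : Set (CenAlg c.1 ≃ₐ[ℚ] CenAlg c.1) :=
  {κ | ∃ τ : ℂ ≃+* ℂ, FixesField K τ ∧
    ∀ z : CenAlg c.1, (twg τ c).1 * mC z.1 = mC (κ z).1 * (twg τ c).1}

/-- the properties of the action on the centre -/
structure GalOK (K : IntermediateField ℚ ℂ) (c : GL ι ℂ) (ψ : Matrix ι ι ℚ) (T : Set (EmbC c.1)) :
    Prop where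
  ex : ∀ γ : Qbar ≃ₐ[ℚ] Qbar, (∀ a : Qbar, (a : ℂ) ∈ K → γ a = a) → ∃ κ ∈ RGal K c,
    ∀ s : EmbC c.1, ((γ.toAlgHom.comp s).comp κ.toAlgHom ∈ T ↔ s ∈ T)
  bar : ∀ κ ∈ RGal K c, ∀ s s' : EmbC c.1, IsBar ψ s s' →
    IsBar ψ (s.comp κ.toAlgHom) (s'.comp κ.toAlgHom)
  odd : ∀ κ ∈ RGal K c, ∀ f ∈ OddH ψ T, (fun s : EmbC c.1 => f (s.comp κ.toAlgHom)) ∈ OddH ψ T
  sim : ∀ τ : ℂ ≃+* ℂ, FixesField K τ → ∃ ζ : ℂ, ζ ≠ 0 ∧
    (twg τ c).1ᵀ * mC ψ * (twg τ c).1 = ζ • mC ψ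

/-- As `SepR`, for spaces stable under the automorphisms `κ ∈ R` of the centre. -/
def SepRN {c : Matrix ι ι ℂ} (ψ : Matrix ι ι ℚ) (T : Set (EmbC c))
    (R : Set (CenAlg c ≃ₐ[ℚ] CenAlg c)) : Prop :=
  ∀ U : Submodule ℚ (EmbC c → ℚ), OddH ψ T ≤ U →
    (∀ f ∈ U, ∀ s s', IsBar ψ s s' → f s' = -f s) →
    (∀ γ : Qbar ≃ₐ[ℚ] Qbar, ∀ f ∈ U, (fun s => f (γ.toAlgHom.comp s)) ∈ U) →
    (∀ κ ∈ R, ∀ f ∈ U, (fun s : EmbC c => f (s.comp κ.toAlgHom)) ∈ U) →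
    U ≤ OddH ψ T ∨ ∃ s s' t t' : EmbC c, IsBar ψ s s' ∧ IsBar ψ t t' ∧
      delta s s' - delta t t' ∈ U ∧ delta s s' ≠ delta t t'

end Gal

/-- GALN: abelian varieties over `K`.

Proof. Let `τ` fix `K`, `g = τ(c) c⁻¹`. For `B ∈ EndAlg c`, `c B' = B c`: `τ(c) τ(B') = B τ(c)`, and by
`GalStable` (`U.gal'` in U/Final2.lean) `c τ(B') = B₂ c` with `B₂` rational, so `g B₂ = B g`. The same for
`τ⁻¹` (apply `τ` to the result; `τ(τ⁻¹(c) c⁻¹) = g⁻¹`): `g B = B₃ g` with `B₃` rational, in `EndAlg c`.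
So `B ↦ g B g⁻¹` is an automorphism of `EndAlg c`; `CenAlg c`, which is its centre (`CenAlg c ⊆ EndAlg c`
by `commutant_mem` in U/Bic.lean and the second part of BIC), is mapped to itself: `κ`. `sim`: Legendre relation over `K` (`specLEG K`), `ζ = τ(2 π i) / 2 π i`. `bar`: by `sim`,
`adj (g z g⁻¹) = g (adj z) g⁻¹`. `ex`: extend `γ` to `τ : ℂ ≃+* ℂ` (`AutC.exists_extend_Qbar` in helper17/AutC.lean). If `v` is an eigenvector for `s` and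
`∑ v_l lat_l ≠ 0` (`lat` = the first columns of `c`) then `w = τ(v) g` (row) satisfies
`∑ w_l lat_l = τ(∑ v_l lat_l) ≠ 0` and `w (κ z) = τ(v) z g = γ(s z) w`, so it is an eigenvector for
`γ s κ⁻¹`. So `s ∈ T → γ s κ⁻¹ ∈ T`, and with `τ⁻¹` the converse. Apply this to
`τ⁻¹` (or put `κ` for `κ⁻¹`; `RGal` is closed under inverses because it contains the `κ` of
`τ⁻¹`, `g_{τ⁻¹} = τ⁻¹(g_τ)⁻¹` and `κ`, being rational, is the same for `g` and for `τ⁻¹(g)`): find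
`κ ∈ RGal` with `(γ s) κ ∈ T ↔ s ∈ T`. `odd`: for `κ ∈ RGal` with `τ`, `γ = τ|Qbar` there is the relation
`(γ^±1 s) κ ∈ T ↔ s ∈ T`, and so `∑_{γ₁ s ∈ T} f(s κ) = ∑_{γ^±1 γ₁ t ∈ T} f(t) = 0`. -/
def SpecGaln : Prop :=
  ∀ (K : IntermediateField ℚ ℂ) (g N : ℕ) (A : AbData g N) (c : GL (Ix g) ℂ), K ≤ Qbar →
    A.IsAbVar K → c.1 = A.per → GL2Like c.1 A.psi → GalOK K c A.psi (Tan A c.1)

/-- TYPN: as TYP (copy `CMM/Typ.lean`), with the second action.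

Proof. With the notation of TYP: let `γ` fix `K` and let `κ ∈ R` be as in the last hypothesis, for
`γ⁻¹` instead of `γ`. Substituting `t = s κ`: `∑_{γ_φ s ∈ T} f(s κ) = ∑_{γ⁻¹ γ_φ t ∈ T} f(t)`; if
`e = γ` on `E`, `e : E → E`, then `(γ⁻¹ γ_φ)⁻¹ = γ_φ⁻¹ γ` is `φ ∘ e` on `E`. So
`F_{f ∘ κ}(φ) = F_f(φ ∘ e)`, and the space `V` of all `F_f` satisfies the hypotheses of `FlatOver K E`. -/
def SpecTypn : Prop :=
  ∀ (ι : Type) [Fintype ι] [DecidableEq ι] (c : Matrix ι ι ℂ) (ψ : Matrix ι ι ℚ)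
    (T : Set (EmbC c)) (E : IntermediateField ℚ Qbar) (K : IntermediateField ℚ ℂ)
    (R : Set (CenAlg c ≃ₐ[ℚ] CenAlg c)), FiniteDimensional ℚ E → HalfSet ψ T → FlatOver K E →
    (∀ s : EmbC c, ¬ IsBar ψ s s → ∀ σ : Qbar ≃ₐ[ℚ] Qbar, (∀ x ∈ E, σ x = x) →
      (σ.toAlgHom.comp s ∈ T ↔ s ∈ T)) →
    (∀ ξ : Set (E →ₐ[ℚ] Qbar), IsType ξ → ∃ s : EmbC c, ¬ IsBar ψ s s ∧
      ∀ γ : Qbar ≃ₐ[ℚ] Qbar, γ.toAlgHom.comp s ∈ T ↔ γ.symm.toAlgHom.comp E.val ∈ ξ) →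
    (∀ γ : Qbar ≃ₐ[ℚ] Qbar, (∀ a : Qbar, (a : ℂ) ∈ K → γ a = a) → ∃ κ ∈ R,
      ∀ s : EmbC c, ((γ.toAlgHom.comp s).comp κ.toAlgHom ∈ T ↔ s ∈ T)) →
    SepRN ψ T R

/-! ## Part 3: the Lie algebra and the group -/

/-- TORN: the central part (use `CMM/Torr.lean`, `U/Tor.lean`).

Proof. For `w : EmbC → ℂ` let `cen w` be the central element with the eigenvalues `w`,
`𝔥 = {w | InH (cen w)}`, `Λ'` the space of all rational `f` with `∑ f(s) s(z) = 0` for all central `z` with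
`InH z` (equivalently `∑ f w = 0` for `w ∈ 𝔥`: `rel_ext`). By ALG, as in `specTorr` (the element `x₀`):
(A) `w ∈ 𝔥` iff `∑ f w = 0` for all `f ∈ Λ'`. So `𝔥` is spanned over `ℂ` by rational vectors. Let `G` be the
group of permutations of the finite set `EmbC` generated by the `s ↦ s κ`, `κ ∈ R` (it is also the
monoid generated by them: finite group), `M₀` the span of all `w ∘ k`, `w ∈ 𝔥`, `k ∈ G`; `M₀ ≤ M`, `M₀` is
spanned by rational vectors. `Λ'' = {f rational | f ⟂ M₀} = {f | f ∘ k ∈ Λ' for all k ∈ G}`. (B) `x ∈ M₀` iff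
`∑ f x = 0` for all `f ∈ Λ''`: otherwise there is `ℓ ∈ ℂ^EmbC` with `ℓ ⟂ M₀`, `∑ ℓ x ≠ 0`; write the
coordinates of `ℓ` in a `ℚ`-basis of the `ℚ`-space they span; the coefficients are in `Λ''`. Let `x` be
the point of the conclusion and `f ∈ Λ''`. `Λ'` is stable under `f ↦ f̄` (`odd_part`), hence `Λ''` is
(`bar` commutes with `κ`). Even part: as in `specTorr`, `∑ f_ev x = 0` because `f_ev ∈ Λ'`. Odd part: let
`U = {f ∈ Λ'' odd}`: it contains `OddH` (`OddH` is stable under `R`, hence under `G`, and `OddH ≤ Λ'` by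
`LieRel`), is stable under `γ` (`rel_gal`) and under `R`. By `SepRN` either `U ≤ OddH`, so
`∑ f_odd x = 0` by the last hypothesis; or `delta s s' - delta t t' ∈ U`, which is in `oddRel S`: the
contradiction is exactly that of `TorrM.oddRel_le`. -/
def SpecTorn : Prop :=
  ∀ (ι : Type) [Fintype ι] [DecidableEq ι] (c : GL ι ℂ) (J : Matrix ι ι ℝ) (ψ : Matrix ι ι ℚ)
    (T : Set (EmbC c.1)) (S : Str c ψ) (R : Set (CenAlg c.1 ≃ₐ[ℚ] CenAlg c.1)),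
    HD c J ψ → SepRN ψ T R → LieRel c ψ T →
    (∀ κ ∈ R, ∀ s s' : EmbC c.1, IsBar ψ s s' →
      IsBar ψ (s.comp κ.toAlgHom) (s'.comp κ.toAlgHom)) →
    (∀ κ ∈ R, ∀ f ∈ OddH ψ T, (fun s : EmbC c.1 => f (s.comp κ.toAlgHom)) ∈ OddH ψ T) →
    (∀ x : S.κ → Matrix (Fin 2) (Fin 2) ℂ, (∀ k, (x k).trace = 0) → InH c (S.Ψ (x, 0))) →
    ∀ M : Submodule ℂ (EmbC c.1 → ℂ),
      (∀ w : EmbC c.1 → ℂ, InH c (TORM.cenL S fun e => w (S.ev e)) → w ∈ M) →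
      (∀ κ ∈ R, ∀ w ∈ M, (fun s : EmbC c.1 => w (s.comp κ.toAlgHom)) ∈ M) →
      ∀ (m : ℂ) (y : S.σ → ℂ), (∀ s, y s + y (S.τ s) = m) →
        (∀ f ∈ OddH ψ T, ∑ s, (f (S.ev (Sum.inr s)) : ℂ) * y s = 0) →
        (fun s => (Sum.elim (fun _ => m / 2) y : S.κ ⊕ S.σ → ℂ) (S.ev.symm s)) ∈ M

/-- MAINN: the group `𝒢` contains the Mumford-Tate group (as `CMM/Repr.lean`, from TORN, GENR).

Proof. Let `M` be the set of all `w : EmbC → ℂ` such that there is `m` with `w s + w s' = m` for all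
`IsBar ψ s s'`, and, for all `t`, `(exp (t cen w), exp (t m)) ∈ 𝒢`. It is a subspace (central elements
commute), it contains all `w` with `InH (cen w)` (SIM, EXP and the first property of `𝒢`; if
`m cen = X + adj X`, `(exp X)ᵀ ψ exp X = exp m ψ`), and it is stable under `κ ∈ RGal`: `g = g_τ` as in
`RGal`; `g (cen w) g⁻¹ = cen (w ∘ κ)` (true for `w = (s ↦ s(z))`, `z ∈ CenAlg`, and these span over `ℂ`), and
the second property of `𝒢`. By TORN `M` contains the points `(m / 2, y)` of TORN. Then as in `specRepr`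
(GOU for `hsl`, GENR for the generation) with `T = {u | ∃ (g, μ) ∈ 𝒢, g = Ψ u, gᵀ ψ g = μ ψ}`; note that
`μ` is determined by `g`, as `ι` is not empty. -/
def SpecMainn : Prop :=
  ∀ (ι : Type) [Fintype ι] [DecidableEq ι] [Nonempty ι] (c : GL ι ℂ) (J : Matrix ι ι ℝ)
    (ψ : Matrix ι ι ℚ) (T : Set (EmbC c.1)) (K : IntermediateField ℚ ℂ),
    HD c J ψ → GL2Like c.1 ψ → HalfSet ψ T → GalOK K c ψ T → SepRN ψ T (RGal K c) →
    LieRel c ψ T → ∀ 𝒢 : Subgroup (GL ι ℂ × ℂˣ),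
      (∀ y : GL ι ℂ × ℂˣ, y.1 * c ∈ OmegaDRB Qbar c →
        y.1.1ᵀ * mC ψ * y.1.1 = (y.2 : ℂ) • mC ψ → y ∈ 𝒢) →
      (∀ τ : ℂ ≃+* ℂ, FixesField K τ → ∀ y ∈ 𝒢, (twg τ c * y.1 * (twg τ c)⁻¹, y.2) ∈ 𝒢) →
      ∀ y : GL ι ℂ × ℂˣ, (∀ Z ∈ EndAlg c.1, y.1.1 * mC Z = mC Z * y.1.1) →
        y.1.1ᵀ * mC ψ * y.1.1 = (y.2 : ℂ) • mC ψ → RelOK ψ T y.1.1 → y ∈ 𝒢

/-! ## Part 4: tensor operations -/

/-- TENN: torsors over `K` through the periods of `h^1(A) ⊕ R` and of the Tate object.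

Proof. Let `𝒢 = {y | bd (dsum y.1 1, y.2) ∈ grp T}`, a subgroup (`T` is a torsor). First property of
`𝒢`: let `𝓖₁` be the set of all `y` with `y.1 c ∈ OmegaDRB Qbar c` and `yᵀ ψ y = y.2 ψ`, and
`Φ(x, 1, z) = bd (dsum x r, z)`: `IsTens3` (`r` is algebraic; `Φ(y) Φ(1)⁻¹ = bd (dsum x 1, z)`; as
`SubM.isTens3` in CMM/Sub.lean). By `tenm_gen` (CMM/TenmG.lean) over `Qbar`,
`Φ(y (c, 1, 2 π i)) ∈ OmegaDRB Qbar Φ(c, 1, 2 π i)`, which is contained in `T` (`OmegaDRB_subset`; `T` is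
closed over `K ≤ Qbar`); so `bd (dsum y.1 1, y.2) ∈ grp T`. Second property: `T` is stable under `τ`, so
`bd (dsum (τ c) (τ r), τ(2 π i)) ∈ T` and `h = bd (dsum g_τ (τ(r) r⁻¹), τ(2 π i) / 2 π i) ∈ grp T`; conjugation by
`h` maps `bd (dsum x 1, z)` to `bd (dsum (g_τ x g_τ⁻¹) 1, z)`. So `𝓖 ⊆ 𝒢`. -/
def SpecTenn : Prop :=
  ∀ (g : ℕ) (c : GL (Ix g) ℂ) (ψ : Matrix (Ix g) (Ix g) ℚ) (θ : Matrix (Ix g) (Ix g) Qbar)
    (K : IntermediateField ℚ ℂ) (𝓖 : Set (GL (Ix g) ℂ × ℂˣ)), 0 < g → K ≤ Qbar →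
    Polarised 1 c θ ψ →
    (∀ 𝒢 : Subgroup (GL (Ix g) ℂ × ℂˣ),
      (∀ y : GL (Ix g) ℂ × ℂˣ, y.1 * c ∈ OmegaDRB Qbar c →
        y.1.1ᵀ * mC ψ * y.1.1 = (y.2 : ℂ) • mC ψ → y ∈ 𝒢) →
      (∀ τ : ℂ ≃+* ℂ, FixesField K τ → ∀ y ∈ 𝒢, (twg τ c * y.1 * (twg τ c)⁻¹, y.2) ∈ 𝒢) →
      ∀ y ∈ 𝓖, y ∈ 𝒢) →
    ∀ (k : ℕ) (r : GL (Fin k) ℂ), IsAlg r.1 → ∀ T : Set (GL ((Ix g ⊕ Fin k) ⊕ Unit) ℂ),
      IsTorsor K T → bd (dsum c r, tpi) ∈ T → ClosedOver ⊥ (grp T) →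
      ∀ y ∈ 𝓖, bd ((dsum y.1 1, y.2) * (dsum c r, tpi)) ∈ T

/-- TENK: `C.ten` (C/Ten.lean) over `L ⊆ Qbar` instead of `Qbar`: same proof (`closedOver_sub` etc. with
`L`; `OmegaDRB K n` is a torsor over `K ≤ L`, hence over `L`). -/
def SpecTenk : Prop :=
  ∀ (μ : Type) [Fintype μ] [DecidableEq μ] (W : Set (GL μ ℂ × ℂˣ)) (c : GL μ ℂ)
    (L : IntermediateField ℚ ℂ), L ≤ Qbar →
    (∀ T : Set (GL (μ ⊕ Unit) ℂ), IsTorsor L T → bd (c, tpi) ∈ T →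
      ClosedOver ⊥ (grp T) → ∀ y ∈ W, bd (y * (c, tpi)) ∈ T) →
    ∀ (K : IntermediateField ℚ ℂ), K ≤ L → ∀ (κ ι : Type) [Fintype κ] [DecidableEq κ]
      [Fintype ι] [DecidableEq ι] (T : GL μ ℂ × ℂˣ → GL κ ℂ), IsRep T → ∀ (n : GL ι ℂ)
      (iB : Matrix κ ι ℚ), IsSubOver L (T (c, tpi)) n iB →
      (∀ y ∈ W, ∃ f : GL ι ℂ,
        (T y).1 * iB.map (algebraMap ℚ ℂ) = iB.map (algebraMap ℚ ℂ) * f.1) ∧
      (∀ f ∈ imG T iB W, ∀ h, Conj K (f * n) h → h ∈ OmegaDRB K n) ∧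
        ∀ S : Set (TPair K ι), (∀ α ∈ S, Fixes n α) →
          (∀ h ∈ OmegaS S, ∃ f ∈ imG T iB W, Conj K (f * n) h) →
          OmegaDRB K n = OmegaS S ∧ (K = ⊥ → OmegaM K n = OmegaS S)

end Pool.Agent.Lib.MPf11a48.CMM
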