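import Pool.Agent.Lib.MP_f11a48_ag.CMM.Fin
import Pool.Agent.Lib.MP_f11a48_ag.C.Ten

/-!
# Motives of complex multiplication type: sub-objects of tensor constructions
-/

set_option autoImplicit false

namespace Pool.Agent.Lib.MPf11a48.CMM

open Matrix MvPolynomial
open Pool.Agent.Lib.MPf11a48.CM hiding OmegaM
open Pool.Agent.Lib.MPf11a48.GL2T
open Pool.Agent.Lib.MPf11a48.U
open Pool.Agent.Lib.MPf11a48.C (IsRep IsSubObj imG tpi)
open Pool.Agent.Lib.MPf11a48.Tors (IsTorsor ClosedOver grp OmegaM)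
open Pool.Agent.Lib.MPf11a48.K3 (cx)

namespace SubM

open Pool.Agent.Lib.MPf11a48.C.TenM

variable {g : ℕ}

/-- the coordinates of `bd` as polynomials over `ℚ` in the coordinates of the factors -/
theorem bd_regular {R : Type} [CommRing R] [Algebra R ℂ] (i j : Ix g ⊕ Unit) :
    ∃ p : MvPolynomial (K3.Var3 g 0) R, ∀ y : K3.Grp3 g 0,
      (bd (y.1, y.2.2)).1 i j = aeval (K3.crd3 y) p := by
  rcases i with i | i <;> rcases j with j | j
  · exact ⟨X (Sum.inl (Sum.inl (i, j))), fun y => by rw [aeval_X]; rfl⟩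
  · exact ⟨0, fun y => by rw [map_zero]; rfl⟩
  · exact ⟨0, fun y => by rw [map_zero]; rfl⟩
  · exact ⟨X (Sum.inr (Sum.inr (Sum.inl ()))), fun y => by rw [aeval_X]; rfl⟩

theorem isTens3 : K3.IsTens3 (fun y : K3.Grp3 g 0 => bd (μ := Ix g) (y.1, y.2.2)) where
  regular := bd_regular
  heap x y z := by
    change bd (x.1 * y.1⁻¹ * z.1, x.2.2 * y.2.2⁻¹ * z.2.2) = _
    rw [← map_inv, ← map_mul, ← map_mul]
    rfl
  rational i j := by
    obtain ⟨p, hp⟩ := bd_regular (g := g) (R := ℚ) i j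
    refine ⟨p, fun y => ?_⟩
    rw [← hp y]
    change (bd (y.1, y.2.2) * (bd ((1 : GL (Ix g) ℂ), (1 : ℂˣ)))⁻¹).1 i j = _
    have h1 : bd ((1 : GL (Ix g) ℂ), (1 : ℂˣ)) = 1 := map_one _
    rw [h1, inv_one, mul_one]

end SubM

open SubM Pool.Agent.Lib.MPf11a48.C.TenM in
/-- every torsor over `Qbar` with group over `ℚ` through `(c, 2 π i)` contains `𝓖 (c, 2 π i)` -/
theorem sub_torsor (hTenm : SpecTenm) {g N : ℕ} {A : AbData g N} {c : GL (Ix g) ℂ}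
    {𝓖 : Set (GL (Ix g) ℂ × ℂˣ)} (hg : 0 < g) (hA : A.IsAbVar Qbar) (hc : c.1 = A.per)
    (h : ∀ y ∈ 𝓖, y.1 * c ∈ OmegaDRB Qbar c ∧
      y.1.1ᵀ * cx A.psi * y.1.1 = (y.2 : ℂ) • cx A.psi)
    (T : Set (GL (Ix g ⊕ Unit) ℂ)) (hT : IsTorsor Qbar T) (hcT : bd (c, tpi) ∈ T)
    (hgrp : ClosedOver ⊥ (grp T)) : ∀ y ∈ 𝓖, bd (y * (c, tpi)) ∈ T := by
  intro y hy
  have h1 := (hTenm g N A c 𝓖 hg hA hc h Qbar (Ix g ⊕ Unit)
    (fun y : K3.Grp3 g 0 => bd (μ := Ix g) (y.1, y.2.2)) le_rfl isTens3).1 y hy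
    (bd (y * (c, tpi))) ⟨RingEquiv.refl ℂ, fun _ _ => rfl, fun _ _ => rfl⟩
  exact Tors.OmegaDRB_subset hT hcT hgrp h1

end Pool.Agent.Lib.MPf11a48.CMM
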