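import Pool.Agent.Lib.MP_f11a48_ag.CMM.Spec
import Pool.Agent.Lib.MP_f11a48_ag.K3.KTen3
import Pool.Agent.Lib.MP_f11a48_ag.U.Leg

/-! # Objects obtained from `h^1(A)` and the Tate object by tensor operations -/

set_option autoImplicit false
set_option linter.unusedSectionVars false

namespace Pool.Agent.Lib.MPf11a48.CMM

open Matrix MvPolynomial Pool.Agent.Lib.MPf11a48.Tors
open Pool.Agent.Lib.MPf11a48.CM hiding OmegaM
open Pool.Agent.Lib.MPf11a48.U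
open Pool.Agent.Lib.MPf11a48.K3

namespace TenmM

variable {ι ι' : Type} [Fintype ι] [DecidableEq ι] [Fintype ι'] [DecidableEq ι']

theorem det_ne (f : GL ι ℂ) : f.1.det ≠ 0 := KTenM.det_ne f

/-- preimages of closed sets under maps which are polynomial on a closed set -/
theorem closed_pull {k : IntermediateField ℚ ℂ} {Z : Set (GL ι' ℂ)} (hZ : ClosedOver k Z)
    {Ψ : GL ι' ℂ → GL ι ℂ}
    (hΨ : ∀ i j, ∃ p : MvPolynomial ((ι' × ι') ⊕ (ι' × ι')) k, ∀ f ∈ Z,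
      (Ψ f).1 i j = aeval (Sum.elim (ent f) (ent f⁻¹)) p)
    {T₀ : Set (GL ι ℂ)} (h : ClosedOver k T₀) : ClosedOver k {f | f ∈ Z ∧ Ψ f ∈ T₀} := by
  obtain ⟨S, hS⟩ := h
  obtain ⟨S', hS'⟩ := hZ
  choose P hP using hΨ
  choose M q hq using fun p : MvPolynomial (ι × ι) k =>
    clear_inverse (ι := ι') (aeval (fun ij : ι × ι => P ij.1 ij.2) p)
  have key : ∀ (p : MvPolynomial (ι × ι) k) (f : GL ι' ℂ), f ∈ Z →
      aeval (ent f) (q p) = f.1.det ^ M p * aeval (fun ij : ι × ι => (Ψ f).1 ij.1 ij.2) p := by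
    intro p f hf
    rw [hq, comp_aeval_apply]
    congr 3
    funext ij
    exact (hP ij.1 ij.2 f hf).symm
  refine ⟨S' ∪ {r | ∃ p ∈ S, r = q p}, ?_⟩
  ext f
  constructor
  · rintro ⟨hf, hf'⟩ r hr
    rcases hr with hr | ⟨p, hp, rfl⟩
    · rw [hS'] at hf
      exact hf r hr
    · have h1 := key p f hf
      rw [hS] at hf'
      rw [hf' p hp, mul_zero] at h1
      exact h1
  · intro hf
    have hfZ : f ∈ Z := by
      rw [hS']
      exact fun r hr => hf r (Or.inl hr)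
    refine ⟨hfZ, ?_⟩
    rw [hS]
    intro p hp
    have h1 := (key p f hfZ).symm.trans (hf _ (Or.inr ⟨p, hp, rfl⟩))
    exact (mul_eq_zero.1 h1).resolve_left (pow_ne_zero _ (det_ne f))

variable {g : ℕ} {k : IntermediateField ℚ ℂ}

/-- complexification of a matrix over `k` -/
def mk {μ ν : Type} (α : Matrix μ ν k) : Matrix μ ν ℂ := α.map fun x => (x : ℂ)

/-- the entries of `fᵀ α f` -/
noncomputable def qp (α : Matrix (Ix g) (Ix g) k) (a b : Ix g) : MvPolynomial (Ix g × Ix g) k :=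
  ∑ l', (∑ l, X (l, a) * C (α l l')) * X (l', b)

theorem qp_eval (α : Matrix (Ix g) (Ix g) k) (a b : Ix g) (f : GL (Ix g) ℂ) :
    aeval (ent f) (qp α a b) = (f.1ᵀ * mk α * f.1) a b := by
  unfold qp
  rw [Matrix.mul_apply, map_sum]
  refine Finset.sum_congr rfl fun l' _ => ?_
  rw [map_mul, aeval_X, Matrix.mul_apply, map_sum]
  congr 1
  refine Finset.sum_congr rfl fun l _ => ?_
  rw [map_mul, aeval_X, aeval_C]
  rfl

theorem det_mk {α : Matrix (Ix g) (Ix g) k} (h : α.det ≠ 0) : (mk α).det ≠ 0 := by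
  have h1 : mk α = (algebraMap k ℂ).mapMatrix α := rfl
  rw [h1, ← RingHom.map_det]
  exact (map_ne_zero _).2 h

theorem exists_entry (hg : 0 < g) {α : Matrix (Ix g) (Ix g) k} (h : α.det ≠ 0) :
    ∃ a b, α a b ≠ 0 := by
  by_contra hcon
  push Not at hcon
  have h1 : α = 0 := Matrix.ext hcon
  have : Nonempty (Ix g) := ⟨Sum.inl ⟨0, hg⟩⟩
  rw [h1, Matrix.det_zero] at h
  exact h rfl

/-- the set of the similitudes -/
def Sim (α β : Matrix (Ix g) (Ix g) k) : Set (GL (Ix g) ℂ) :=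
  {f | ∃ ζ : ℂˣ, f.1ᵀ * mk α * f.1 = (ζ : ℂ) • mk β}

theorem closed_sim (hg : 0 < g) {α β : Matrix (Ix g) (Ix g) k} (hα : α.det ≠ 0) (hβ : β.det ≠ 0) :
    ClosedOver k (Sim α β) := by
  obtain ⟨a, b, hab⟩ := exists_entry hg hβ
  have hab' : ((β a b : k) : ℂ) ≠ 0 := fun h => hab (Subtype.ext h)
  refine ⟨{r | ∃ i j, r = qp α i j * C (β a b) - C (β i j) * qp α a b}, ?_⟩
  ext f
  have he : ∀ i j, aeval (ent f) (qp α i j * C (β a b) - C (β i j) * qp α a b) =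
      (f.1ᵀ * mk α * f.1) i j * (β a b : ℂ) - (β i j : ℂ) * (f.1ᵀ * mk α * f.1) a b := by
    intro i j
    rw [map_sub, map_mul, map_mul, qp_eval, qp_eval, aeval_C, aeval_C]
    rfl
  constructor
  · rintro ⟨ζ, hζ⟩ r ⟨i, j, rfl⟩
    change aeval (ent f) _ = 0
    rw [he, hζ]
    simp only [Matrix.smul_apply, smul_eq_mul]
    change ζ * (β i j : ℂ) * (β a b : ℂ) - (β i j : ℂ) * (ζ * (β a b : ℂ)) = 0
    ring
  · intro hf
    have h1 : ∀ i j, (f.1ᵀ * mk α * f.1) i j =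
        ((f.1ᵀ * mk α * f.1) a b / (β a b : ℂ)) * (β i j : ℂ) := by
      intro i j
      have h2 : aeval (ent f) (qp α i j * C (β a b) - C (β i j) * qp α a b) = 0 :=
        hf _ ⟨i, j, rfl⟩
      rw [he] at h2
      field_simp
      linear_combination h2
    have h2 : f.1ᵀ * mk α * f.1 = ((f.1ᵀ * mk α * f.1) a b / (β a b : ℂ)) • mk β := by
      ext i j
      exact h1 i j
    have h3 : (f.1ᵀ * mk α * f.1) a b / (β a b : ℂ) ≠ 0 := by
      intro h0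
      rw [h0, zero_smul] at h2
      have : Nonempty (Ix g) := ⟨Sum.inl ⟨0, hg⟩⟩
      have h4 := congrArg Matrix.det h2
      rw [Matrix.det_mul, Matrix.det_mul, Matrix.det_transpose, Matrix.det_zero] at h4
      exact mul_ne_zero (mul_ne_zero (det_ne f) (det_mk hα)) (det_ne f) h4
    exact ⟨Units.mk0 _ h3, h2⟩

theorem unique_sim (hg : 0 < g) {β : Matrix (Ix g) (Ix g) k} (hβ : β.det ≠ 0) {ζ ζ' : ℂˣ}
    (h : (ζ : ℂ) • mk β = (ζ' : ℂ) • mk β) : ζ = ζ' := by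
  obtain ⟨a, b, hab⟩ := exists_entry hg hβ
  have hab' : ((β a b : k) : ℂ) ≠ 0 := fun h => hab (Subtype.ext h)
  have h1 := congrFun (congrFun h a) b
  simp only [Matrix.smul_apply, smul_eq_mul] at h1
  exact Units.ext (mul_right_cancel₀ hab' h1)

/-- inversion -/
theorem sim_inv {α β : Matrix (Ix g) (Ix g) ℂ} {f : GL (Ix g) ℂ} {ζ : ℂˣ}
    (h : f.1ᵀ * α * f.1 = (ζ : ℂ) • β) :
    f⁻¹.1ᵀ * β * f⁻¹.1 = ((ζ : ℂ)⁻¹) • α := by
  have e1 : f.1 * f⁻¹.1 = 1 := f.mul_inv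
  have e2 : f⁻¹.1ᵀ * f.1ᵀ = 1 := by rw [← Matrix.transpose_mul, e1, Matrix.transpose_one]
  have h1 : f⁻¹.1ᵀ * ((ζ : ℂ) • β) * f⁻¹.1 = α := by
    rw [← h]
    calc f⁻¹.1ᵀ * (f.1ᵀ * α * f.1) * f⁻¹.1 = (f⁻¹.1ᵀ * f.1ᵀ) * α * (f.1 * f⁻¹.1) := by
          simp only [Matrix.mul_assoc]
      _ = α := by rw [e1, e2, Matrix.one_mul, Matrix.mul_one]
  rw [← h1, Matrix.mul_smul, Matrix.smul_mul, smul_smul, inv_mul_cancel₀ ζ.ne_zero, one_smul]

theorem closed_main (hg : 0 < g) {α β : Matrix (Ix g) (Ix g) k} (hα : α.det ≠ 0)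
    (hβ : β.det ≠ 0) {Ψ : Grp3 g 0 → GL ι ℂ}
    (hΨ : ∀ i j, ∃ p : MvPolynomial (Var3 g 0) k, ∀ y, (Ψ y).1 i j = aeval (crd3 y) p)
    {T₀ : Set (GL ι ℂ)} (h : ClosedOver k T₀) :
    ClosedOver k {f : GL (Ix g) ℂ | ∃ ζ : ℂˣ, f.1ᵀ * mk α * f.1 = (ζ : ℂ) • mk β ∧
      Ψ (f, 1, ζ) ∈ T₀} := by
  classical
  obtain ⟨a, b, hab⟩ := exists_entry hg hβ
  obtain ⟨u, v, huv⟩ := exists_entry hg hα
  have hab' : ((β a b : k) : ℂ) ≠ 0 := fun h => hab (Subtype.ext h)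
  have huv' : ((α u v : k) : ℂ) ≠ 0 := fun h => huv (Subtype.ext h)
  let zf : GL (Ix g) ℂ → ℂˣ := fun f =>
    if h : ∃ ζ : ℂˣ, f.1ᵀ * mk α * f.1 = (ζ : ℂ) • mk β then h.choose else 1
  have hzf : ∀ f ∈ Sim α β, f.1ᵀ * mk α * f.1 = (zf f : ℂ) • mk β := by
    intro f hf
    have h1 : ∃ ζ : ℂˣ, f.1ᵀ * mk α * f.1 = (ζ : ℂ) • mk β := hf
    have h2 : zf f = h1.choose := dif_pos h1
    rw [h2]
    exact h1.choose_spec
  have e : {f : GL (Ix g) ℂ | ∃ ζ : ℂˣ, f.1ᵀ * mk α * f.1 = (ζ : ℂ) • mk β ∧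
      Ψ (f, 1, ζ) ∈ T₀} = {f | f ∈ Sim α β ∧ (fun f => Ψ (f, 1, zf f)) f ∈ T₀} := by
    ext f
    constructor
    · rintro ⟨ζ, h1, h2⟩
      have hf : f ∈ Sim α β := ⟨ζ, h1⟩
      refine ⟨hf, ?_⟩
      have h3 : zf f = ζ := unique_sim hg hβ ((hzf f hf).symm.trans h1)
      change Ψ (f, 1, zf f) ∈ T₀
      rw [h3]
      exact h2
    · rintro ⟨h1, h2⟩
      exact ⟨zf f, hzf f h1, h2⟩
  rw [e]
  refine closed_pull (closed_sim hg hα hβ) (fun i j => ?_) h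
  obtain ⟨p, hp⟩ := hΨ i j
  let sb : Var3 g 0 → MvPolynomial ((Ix g × Ix g) ⊕ (Ix g × Ix g)) k :=
    Sum.elim (Sum.elim (fun e => X (Sum.inl e)) fun e => X (Sum.inr e))
      (Sum.elim (Sum.elim (fun _ => 0) fun _ => 0)
        (Sum.elim (fun _ => C (β a b)⁻¹ * rename Sum.inl (qp α a b))
          fun _ => C (α u v)⁻¹ * rename Sum.inr (qp β u v)))
  refine ⟨aeval sb p, fun f hf => ?_⟩
  rw [hp, comp_aeval_apply]
  congr 2
  funext e
  have h1 := hzf f hf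
  have h2 := sim_inv h1
  rcases e with (e | e) | ((e | e) | (e | e))
  · change ent f e = aeval (Sum.elim (ent f) (ent f⁻¹)) (X (Sum.inl e))
    rw [aeval_X]
    rfl
  · change ent f⁻¹ e = aeval (Sum.elim (ent f) (ent f⁻¹)) (X (Sum.inr e))
    rw [aeval_X]
    rfl
  · exact e.1.elim0
  · exact e.1.elim0
  · change (zf f : ℂ) = aeval _ (C (β a b)⁻¹ * rename Sum.inl (qp α a b))
    rw [map_mul, aeval_C, aeval_rename]
    have h3 : (Sum.elim (ent f) (ent f⁻¹)) ∘ Sum.inl = ent f := Sum.elim_comp_inl _ _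
    rw [h3, qp_eval, h1]
    change (zf f : ℂ) = ((β a b)⁻¹ : k) * ((zf f : ℂ) * (β a b : ℂ))
    push_cast
    field_simp
  · change ((zf f : ℂ))⁻¹ = aeval _ (C (α u v)⁻¹ * rename Sum.inr (qp β u v))
    rw [map_mul, aeval_C, aeval_rename]
    have h3 : (Sum.elim (ent f) (ent f⁻¹)) ∘ Sum.inr = ent f⁻¹ := Sum.elim_comp_inr _ _
    rw [h3, qp_eval, h2]
    change ((zf f : ℂ))⁻¹ = ((α u v)⁻¹ : k) * (((zf f : ℂ))⁻¹ * (α u v : ℂ))
    push_cast
    field_simp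

end TenmM

open TenmM KTenM KTen3M in
theorem specTenm : SpecTenm := by
  intro g N A c 𝓖 hg hA hc h𝓖 K ι _ _ Φ hK hΦ
  have hT₀ : IsTorsor Qbar (OmegaDRB K (Φ (c, 1, tpi))) := by
    have h := isTorsor_OmegaDRB K (Φ (c, 1, tpi))
    exact ⟨GL2.closedOver_mono hK h.closed, h.nonempty, h.heap⟩
  have ht : Φ (c, 1, tpi) ∈ OmegaDRB K (Φ (c, 1, tpi)) := mem_OmegaDRB_self K _
  have hcl : ClosedOver ⊥ (grp (OmegaDRB K (Φ (c, 1, tpi)))) := by
    rw [grp_OmegaDRB]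
    exact closedOver_GdRB K _
  -- the Legendre relation
  obtain ⟨θ, hψ, hleg⟩ := specLEG Qbar g N A c le_rfl hA hc
  have hψ' : A.psi.det ≠ 0 := hψ
  have hmap : ∀ k : IntermediateField ℚ ℂ, mk (A.psi.map (algebraMap ℚ k)) = cx A.psi := by
    intro k
    ext i j
    exact (IsScalarTower.algebraMap_apply ℚ k ℂ (A.psi i j)).symm
  have hdet : ∀ k : IntermediateField ℚ ℂ, (A.psi.map (algebraMap ℚ k)).det ≠ 0 := by
    intro k
    have h1 : A.psi.map (algebraMap ℚ k) = (algebraMap ℚ k).mapMatrix A.psi := rfl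
    rw [h1, ← RingHom.map_det]
    exact (map_ne_zero _).2 hψ'
  have hc0 : c.1ᵀ * cx A.psi * c.1 = (tpi : ℂ) • mk θ := by
    have h1 : c.1ᵀ * cx A.psi * c.1 = ((2 * Real.pi * Complex.I : ℂ) ^ (1 : ℤ)) • mk θ := hleg
    rw [zpow_one] at h1
    exact h1
  have hθ : θ.det ≠ 0 := by
    intro h0
    have h1 : (mk θ).det = 0 := by
      have h2 : mk θ = (algebraMap Qbar ℂ).mapMatrix θ := rfl
      rw [h2, ← RingHom.map_det, h0, map_zero]
    have h3 := congrArg Matrix.det hc0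
    rw [Matrix.det_smul, h1, mul_zero, Matrix.det_mul, Matrix.det_mul, Matrix.det_transpose,
      ← hmap Qbar] at h3
    exact mul_ne_zero (mul_ne_zero (TenmM.det_ne c) (det_mk (hdet Qbar))) (TenmM.det_ne c) h3
  -- the torsor
  set T₀ := OmegaDRB K (Φ (c, 1, tpi)) with hT₀def
  set T' : Set (GL (Ix g) ℂ) := {f | ∃ ζ : ℂˣ,
    f.1ᵀ * mk (A.psi.map (algebraMap ℚ Qbar)) * f.1 = (ζ : ℂ) • mk θ ∧ Φ (f, 1, ζ) ∈ T₀} with hT'
  have memT' : ∀ f, f ∈ T' ↔ ∃ ζ : ℂˣ, f.1ᵀ * cx A.psi * f.1 = (ζ : ℂ) • mk θ ∧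
      Φ (f, 1, ζ) ∈ T₀ := by
    intro f
    rw [hT', hmap]
    rfl
  have hcT : c ∈ T' := (memT' c).2 ⟨tpi, hc0, ht⟩
  have hTor : IsTorsor Qbar T' := by
    refine ⟨closed_main hg (hdet Qbar) hθ hΦ.regular hT₀.closed, ⟨c, hcT⟩, ?_⟩
    intro x hx y hy z hz
    rw [memT'] at hx hy hz ⊢
    obtain ⟨a, ha, ha'⟩ := hx
    obtain ⟨b, hb, hb'⟩ := hy
    obtain ⟨d, hd, hd'⟩ := hz
    refine ⟨a * b⁻¹ * d, ?_, ?_⟩
    · have h1 := sim_inv hb
      have h2 : (x * y⁻¹ * z).1 = x.1 * y⁻¹.1 * z.1 := rfl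
      rw [h2, Matrix.transpose_mul, Matrix.transpose_mul]
      calc z.1ᵀ * (y⁻¹.1ᵀ * x.1ᵀ) * cx A.psi * (x.1 * y⁻¹.1 * z.1)
          = z.1ᵀ * (y⁻¹.1ᵀ * (x.1ᵀ * cx A.psi * x.1) * y⁻¹.1) * z.1 := by
            simp only [Matrix.mul_assoc]
        _ = ((a * b⁻¹ * d : ℂˣ) : ℂ) • mk θ := by
            rw [ha, Matrix.mul_smul, Matrix.smul_mul, h1, smul_smul, Matrix.mul_smul,
              Matrix.smul_mul, hd, smul_smul]
            congr 1
            push_cast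
            ring
    · have h1 : ((x * y⁻¹ * z, 1, a * b⁻¹ * d) : Grp3 g 0) =
          (x, 1, a) * (y, 1, b)⁻¹ * (z, 1, d) := by
        refine Prod.ext rfl (Prod.ext ?_ rfl)
        change (1 : GL (Fin 0) ℂ) = 1 * 1⁻¹ * 1
        simp
      rw [h1, hΦ.heap]
      exact hT₀.heap _ ha' _ hb' _ hd'
  have hGrp : ClosedOver ⊥ (grp T') := by
    have e : grp T' = {f | ∃ ζ : ℂˣ,
        f.1ᵀ * mk (A.psi.map (algebraMap ℚ (⊥ : IntermediateField ℚ ℂ))) * f.1 =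
          (ζ : ℂ) • mk (A.psi.map (algebraMap ℚ (⊥ : IntermediateField ℚ ℂ))) ∧
        Φ (f, 1, ζ) * (Φ 1)⁻¹ ∈ grp T₀} := by
      have hmul : ∀ (x : GL (Ix g) ℂ) (ζ : ℂˣ),
          Φ (x * c, 1, ζ * tpi) = Φ (x, 1, ζ) * (Φ 1)⁻¹ * Φ (c, 1, tpi) := by
        intro x ζ
        rw [← mul_eq3 hΦ]
        congr 1
        refine Prod.ext rfl (Prod.ext ?_ rfl)
        change (1 : GL (Fin 0) ℂ) = 1 * 1
        simp
      have hci := sim_inv hc0
      ext x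
      rw [mem_grp_iff hTor hcT, memT', hmap]
      constructor
      · rintro ⟨ζ, h1, h2⟩
        refine ⟨ζ * tpi⁻¹, ?_, ?_⟩
        · have h3 : (x * c).1 = x.1 * c.1 := rfl
          rw [h3, Matrix.transpose_mul] at h1
          have e1 : c.1 * c⁻¹.1 = 1 := c.mul_inv
          have e2 : c⁻¹.1ᵀ * c.1ᵀ = 1 := by
            rw [← Matrix.transpose_mul, e1, Matrix.transpose_one]
          calc x.1ᵀ * cx A.psi * x.1
              = (c⁻¹.1ᵀ * c.1ᵀ) * (x.1ᵀ * cx A.psi * x.1) * (c.1 * c⁻¹.1) := by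
                rw [e1, e2, Matrix.one_mul, Matrix.mul_one]
            _ = c⁻¹.1ᵀ * (c.1ᵀ * x.1ᵀ * cx A.psi * (x.1 * c.1)) * c⁻¹.1 := by
                simp only [Matrix.mul_assoc]
            _ = ((ζ * tpi⁻¹ : ℂˣ) : ℂ) • cx A.psi := by
                rw [h1, Matrix.mul_smul, Matrix.smul_mul, hci, smul_smul]
                push_cast
                rfl
        · rw [mem_grp_iff hT₀ ht, ← hmul, inv_mul_cancel_right]
          exact h2
      · rintro ⟨ζ, h1, h2⟩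
        refine ⟨ζ * tpi, ?_, ?_⟩
        · have h3 : (x * c).1 = x.1 * c.1 := rfl
          rw [h3, Matrix.transpose_mul]
          calc c.1ᵀ * x.1ᵀ * cx A.psi * (x.1 * c.1)
              = c.1ᵀ * (x.1ᵀ * cx A.psi * x.1) * c.1 := by simp only [Matrix.mul_assoc]
            _ = ((ζ * tpi : ℂˣ) : ℂ) • mk θ := by
                rw [h1, Matrix.mul_smul, Matrix.smul_mul, hc0, smul_smul]
                push_cast
                rfl
        · rw [hmul, ← mem_grp_iff hT₀ ht]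
          exact h2
    rw [e]
    refine closed_main (Ψ := fun x => Φ x * (Φ 1)⁻¹) hg (hdet ⊥) (hdet ⊥) (fun i j => ?_) hcl
    obtain ⟨p, hp⟩ := hΦ.rational i j
    obtain ⟨q, hq⟩ := exists_bot p
    exact ⟨q, fun x => (hp x).trans (hq _).symm⟩
  have hsub : OmegaDRB Qbar c ⊆ T' := OmegaDRB_subset hTor hcT hGrp
  have h0 : ∀ y ∈ 𝓖, Φ (emb y * (c, 1, tpi)) ∈ T₀ := by
    intro y hy
    obtain ⟨h1, h2⟩ := h𝓖 y hy
    obtain ⟨ζ, h3, h4⟩ := (memT' _).1 (hsub h1)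
    have h5 : (y.1 * c).1 = y.1.1 * c.1 := rfl
    have h6 : (y.1 * c).1ᵀ * cx A.psi * (y.1 * c).1 = ((y.2 * tpi : ℂˣ) : ℂ) • mk θ := by
      rw [h5, Matrix.transpose_mul]
      calc c.1ᵀ * y.1.1ᵀ * cx A.psi * (y.1.1 * c.1)
          = c.1ᵀ * (y.1.1ᵀ * cx A.psi * y.1.1) * c.1 := by simp only [Matrix.mul_assoc]
        _ = ((y.2 * tpi : ℂˣ) : ℂ) • mk θ := by
            rw [h2, Matrix.mul_smul, Matrix.smul_mul, hc0, smul_smul]
            push_cast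
            rfl
    have h7 : ζ = y.2 * tpi := unique_sim hg hθ (h3.symm.trans h6)
    have h8 : emb y * (c, 1, tpi) = (y.1 * c, 1, ζ) := by
      rw [h7]
      refine Prod.ext rfl (Prod.ext ?_ rfl)
      change (1 : GL (Fin 0) ℂ) * 1 = 1
      simp
    rw [h8]
    exact h4
  have h1 : ∀ y ∈ 𝓖, ∀ f, Conj K (Φ (emb y * (c, 1, tpi))) f → f ∈ T₀ := by
    intro y hy f hf
    obtain ⟨τ, hτ, hf⟩ := hf
    have hf' : f = tw τ (Φ (emb y * (c, 1, tpi))) := by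
      apply Units.ext
      exact Matrix.ext hf
    rw [hf']
    exact OmegaDRB_tw hτ (h0 y hy)
  refine ⟨h1, fun S hS hsub => ?_⟩
  have h3 : T₀ = OmegaS S := by
    refine (drb_subset hS).antisymm fun f hf => ?_
    obtain ⟨y, hy, hyf⟩ := hsub f hf
    exact h1 y hy f hyf
  refine ⟨h3, ?_⟩
  rintro rfl
  rw [← h3]
  exact OmegaM_eq_OmegaDRB _

end Pool.Agent.Lib.MPf11a48.CMM
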